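import Mathlib
import Pool.Agent.Y826.Z.Defs

/-!
# Primes in residue classes to factorable moduli, second version (helper6): statements

The starting files (`Pool.Agent.Y826.Z`) treat bilinear forms with arbitrary coefficients whose shorter variable
has size between `X ^ (1/3)` and `X ^ (1/2)` (Vaughan's identity). Here Heath-Brown's identity (`J = 4`) is used:
arbitrary coefficients are needed only for `X ^ (3/8) ≤ N ≤ X ^ (1/2)`, and otherwise the shorter variable may be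
taken smooth with `X ^ (5/16) ≤ N ≤ X ^ (3/8)`. For a smooth short variable no second application of the inequality
of Cauchy and Schwarz is needed.
-/

set_option autoImplicit false

open Finset Filter

namespace Pool.Agent.K9h6.N

open Pool.Agent.Y826.Z

/-! ### The dispersion method -/

/-- the sizes needed for the diagonal terms -/
structure SzW (δ X : ℝ) (M N : ℕ) (RA RB E U V : ℝ) : Prop where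
  mn1 : X / 16 ≤ (M : ℝ) * N
  mn2 : (M : ℝ) * N ≤ 16 * X
  n1 : X ^ (1 / 4 : ℝ) ≤ N
  n2 : (N : ℝ) ≤ 16 * X ^ (1 / 2 : ℝ)
  ra : 0 < RA
  rb : 0 < RB
  e : 0 < E
  u : 0 < U
  v : 0 < V
  c1 : RA * RB ≤ N * X ^ (-δ)
  eu : E * U ≤ X
  vX : V ≤ X

/-- sizes for a smooth short variable (`RA, RB`: left; `U, V`: right; `RA`, `V` belong to the period killed by the
van der Corput shift) -/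
structure SzS (δ X : ℝ) (M N : ℕ) (RA RB U V : ℝ) : Prop where
  mn1 : X / 16 ≤ (M : ℝ) * N
  mn2 : (M : ℝ) * N ≤ 16 * X
  n1 : X ^ (1 / 4 : ℝ) ≤ N
  n2 : (N : ℝ) ≤ 16 * X ^ (1 / 2 : ℝ)
  ra : 0 < RA
  rb : 0 < RB
  u : 0 < U
  v : 0 < V
  c1 : RA * RB ≤ N * X ^ (-δ)
  c3 : RA * V ^ 2 * (max 1 (RA * RB * U ^ 2 * V ^ 2 / M)) ^ 2 ≤ N * X ^ (-δ)
  c4 : RB * U ^ 2 * (max 1 (RA * RB * U ^ 2 * V ^ 2 / M)) ^ 4 ≤ (N : ℝ) ^ 2 * X ^ (-δ)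
  c5 : (max 1 (RA * RB * U ^ 2 * V ^ 2 / M)) ^ 4 * X ^ δ ≤ RB * U ^ 2

/-- total variation of `β` on `(N, 2 N + 1]` -/
noncomputable def TV (β : ℕ → ℝ) (N : ℕ) : ℝ := ∑ n ∈ Ioc N (2 * N), |β (n + 1) - β n|

open Classical in
/-- T1: the off-diagonal terms for a smooth short variable -/
def S_OFFS : Prop := ∀ (K : ℕ) (h : Fin K → ℤ) (W b : ℕ), Hyp h W b → ∀ δ : ℝ, 0 < δ → ∃ ε : ℝ, 0 < ε ∧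
  ∀ᶠ X : ℝ in atTop, ∀ (M N : ℕ) (RA RB U V : ℝ), SzS δ X M N RA RB U V →
  ∀ (SA SB SU SV : Finset (Fin K → ℕ)) (th : (Fin K → ℕ) → ℝ)
    (c : (Fin K → ℕ) → (Fin K → ℕ) → (Fin K → ℕ) → (Fin K → ℕ) → ℝ),
    Fm ε X W RA RB 1 U V ∅ SA SB SU SV th c →
  ∀ β : ℕ → ℝ, (∀ n ∈ Ioc N (2 * N), |β n| ≤ X ^ ε) → TV β N ≤ X ^ ε →
    |Soff h W b M N SA SB SU SV th c β| ≤ X ^ (-ε) * (M * (N : ℝ) ^ 2 / (RA * RB))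

/-- T2: the diagonal terms and the terms whose right moduli have a common prime factor -/
def S_TRIVW : Prop := ∀ (K : ℕ) (h : Fin K → ℤ) (W b : ℕ), Hyp h W b → ∀ δ : ℝ, 0 < δ → ∃ ε : ℝ, 0 < ε ∧
  ∀ J A : ℕ, ∃ B0 : ℕ, ∀ B : ℕ, B0 ≤ B →
  ∀ᶠ X : ℝ in atTop, ∀ (M N : ℕ) (RA RB E U V : ℝ), SzW δ X M N RA RB E U V →
  ∀ (G : Finset (Fin K)) (SA SB SU SV : Finset (Fin K → ℕ)) (th : (Fin K → ℕ) → ℝ)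
    (c : (Fin K → ℕ) → (Fin K → ℕ) → (Fin K → ℕ) → (Fin K → ℕ) → ℝ),
    Fm ε X W RA RB E U V G SA SB SU SV th c →
    (∀ u ∈ SU, ∀ p : ℕ, p.Prime → p ∣ Pr u → D0 X B < p) →
    (∀ v ∈ SV, ∀ p : ℕ, p.Prime → p ∣ Pr v → D0 X B < p) →
  ∀ β : ℕ → ℝ, (∀ n ∈ Ioc N (2 * N), |β n| ≤ tau n ^ J * Real.log X) →
    |SS h W b M N SA SB SU SV th c β - Soff h W b M N SA SB SU SV th c β| ≤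
      (M * (N : ℝ) ^ 2 / (RA * RB)) / (Real.log X) ^ A

/-- T3a: bilinear forms, arbitrary coefficients -/
def S_TIIJ : Prop := ∀ (K : ℕ) (h : Fin K → ℤ) (W b : ℕ), Hyp h W b → ∀ δ : ℝ, 0 < δ → ∃ ε : ℝ, 0 < ε ∧
  ∀ J A : ℕ, ∃ B0 : ℕ, ∀ B : ℕ, B0 ≤ B →
  ∀ᶠ X : ℝ in atTop, ∀ (M N : ℕ) (Q : Fin K → ℝ) (g : Fin K → Fin 5), (∀ j, 0 < Q j) →
    Sz δ X M N (szg Q g 0) (szg Q g 1) (szg Q g 2) (szg Q g 3) (szg Q g 4) →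
  ∀ S : Finset (Fin K → ℕ), (∀ q ∈ S, Squarefree (W * Pr q) ∧ (∀ j, Q j < q j ∧ (q j : ℝ) ≤ 2 * Q j) ∧
      (Pr (sm (D0 X B) q) : ℝ) ≤ X ^ ε) →
  ∀ c : (Fin K → ℕ) → ℝ, (∀ q, |c q| ≤ 1) →
  ∀ α β : ℕ → ℝ, (∀ m ∈ Ioc M (2 * M), |α m| ≤ tau m ^ J * Real.log X) →
    (∀ n ∈ Ioc N (2 * N), |β n| ≤ tau n ^ J * Real.log X) →
    |∑ q ∈ S, c q * ∑ m ∈ Ioc M (2 * M), ∑ n ∈ Ioc N (2 * N), α m * β n * dl h W b (D0 X B) q (m * n)| ≤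
      X / (Real.log X) ^ A

/-- T3b: bilinear forms, smooth short variable; the group `2` is not used -/
def S_TIIS : Prop := ∀ (K : ℕ) (h : Fin K → ℤ) (W b : ℕ), Hyp h W b → ∀ δ : ℝ, 0 < δ → ∃ ε : ℝ, 0 < ε ∧
  ∀ J A : ℕ, ∃ B0 : ℕ, ∀ B : ℕ, B0 ≤ B →
  ∀ᶠ X : ℝ in atTop, ∀ (M N : ℕ) (Q : Fin K → ℝ) (g : Fin K → Fin 5), (∀ j, 0 < Q j) → (∀ j, g j ≠ 2) →
    SzS δ X M N (szg Q g 0) (szg Q g 1) (szg Q g 3) (szg Q g 4) →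
  ∀ S : Finset (Fin K → ℕ), (∀ q ∈ S, Squarefree (W * Pr q) ∧ (∀ j, Q j < q j ∧ (q j : ℝ) ≤ 2 * Q j) ∧
      (Pr (sm (D0 X B) q) : ℝ) ≤ X ^ ε) →
  ∀ c : (Fin K → ℕ) → ℝ, (∀ q, |c q| ≤ 1) →
  ∀ α β : ℕ → ℝ, (∀ m ∈ Ioc M (2 * M), |α m| ≤ tau m ^ J * Real.log X) →
    (∀ n ∈ Ioc N (2 * N), |β n| ≤ tau n ^ J * Real.log X) → TV β N ≤ X ^ ε →
    |∑ q ∈ S, c q * ∑ m ∈ Ioc M (2 * M), ∑ n ∈ Ioc N (2 * N), α m * β n * dl h W b (D0 X B) q (m * n)| ≤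
      X / (Real.log X) ^ A

/-! ### From the bilinear forms to the von Mangoldt function -/

/-- the grouping is possible for all the lengths -/
def GroupOK {K : ℕ} (δ X : ℝ) (Q : Fin K → ℝ) : Prop :=
  (∀ M N : ℕ, X / 16 ≤ (M : ℝ) * N → (M : ℝ) * N ≤ 16 * X → X ^ (3 / 8 - δ : ℝ) ≤ N →
    (N : ℝ) ≤ 16 * X ^ (1 / 2 : ℝ) →
    ∃ g : Fin K → Fin 5, Sz δ X M N (szg Q g 0) (szg Q g 1) (szg Q g 2) (szg Q g 3) (szg Q g 4)) ∧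
  (∀ M N : ℕ, X / 16 ≤ (M : ℝ) * N → (M : ℝ) * N ≤ 16 * X → X ^ (5 / 16 - δ : ℝ) ≤ N →
    (N : ℝ) ≤ X ^ (3 / 8 + δ : ℝ) →
    ∃ g : Fin K → Fin 5, (∀ j, g j ≠ 2) ∧ SzS δ X M N (szg Q g 0) (szg Q g 1) (szg Q g 3) (szg Q g 4))

/-- T4a: bilinear sums with the weight `Phi`, both variables `> X ^ (3 / 8 - δ)`, arbitrary coefficients -/
def S_BXA : Prop := ∀ (K : ℕ) (h : Fin K → ℤ) (W b : ℕ), Hyp h W b → ∀ δ : ℝ, 0 < δ → δ ≤ 1 / 16 → ∃ ε : ℝ, 0 < ε ∧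
  ∀ J A : ℕ, ∃ B0 : ℕ, ∀ B : ℕ, B0 ≤ B →
  ∀ᶠ X : ℝ in atTop, ∀ (Q : Fin K → ℝ), (∀ j, 0 < Q j) → GroupOK δ X Q →
  ∀ S : Finset (Fin K → ℕ), (∀ q ∈ S, Squarefree (W * Pr q) ∧ (∀ j, Q j < q j ∧ (q j : ℝ) ≤ 2 * Q j) ∧
      (Pr (sm (D0 X B) q) : ℝ) ≤ X ^ ε) →
  ∀ c : (Fin K → ℕ) → ℝ, (∀ q, |c q| ≤ 1) →
  ∀ α β : ℕ → ℝ, (∀ m, |α m| ≤ tau m ^ J * Real.log X) → (∀ n, |β n| ≤ tau n ^ J * Real.log X) →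
    |∑ q ∈ S, c q * ∑ m ∈ Ioc ⌊X ^ (3 / 8 - δ / 2 : ℝ)⌋₊ ⌊3 * X⌋₊, ∑ n ∈ Ioc ⌊X ^ (3 / 8 - δ / 2 : ℝ)⌋₊ ⌊3 * X⌋₊,
      α m * β n * H378R2.Phi (((m * n : ℕ) : ℝ) / X) * dl h W b (D0 X B) q (m * n)| ≤ X / (Real.log X) ^ A

/-- T4b: bilinear sums with the weight `Phi`, one smooth variable in the dyadic interval `(N, 2 N]` -/
def S_BXS : Prop := ∀ (K : ℕ) (h : Fin K → ℤ) (W b : ℕ), Hyp h W b → ∀ δ : ℝ, 0 < δ → δ ≤ 1 / 16 → ∃ ε : ℝ, 0 < ε ∧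
  ∀ J A : ℕ, ∃ B0 : ℕ, ∀ B : ℕ, B0 ≤ B →
  ∀ᶠ X : ℝ in atTop, ∀ (Q : Fin K → ℝ), (∀ j, 0 < Q j) → ∏ j, Q j ≤ X ^ (11 / 20 : ℝ) → GroupOK δ X Q →
  ∀ S : Finset (Fin K → ℕ), (∀ q ∈ S, Squarefree (W * Pr q) ∧ (∀ j, Q j < q j ∧ (q j : ℝ) ≤ 2 * Q j) ∧
      (Pr (sm (D0 X B) q) : ℝ) ≤ X ^ ε) →
  ∀ c : (Fin K → ℕ) → ℝ, (∀ q, |c q| ≤ 1) →
  ∀ N : ℕ, X ^ (5 / 16 - δ : ℝ) ≤ N → (N : ℝ) ≤ X ^ (3 / 8 + δ : ℝ) →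
  ∀ α g : ℕ → ℝ, (∀ m, |α m| ≤ tau m ^ J * Real.log X) → ((∀ l, g l = 1) ∨ ∀ l, g l = Real.log l) →
    |∑ q ∈ S, c q * ∑ m ∈ Icc 1 ⌊3 * X⌋₊, ∑ n ∈ Ioc N (2 * N),
      α m * g n * H378R2.Phi (((m * n : ℕ) : ℝ) / X) * dl h W b (D0 X B) q (m * n)| ≤ X / (Real.log X) ^ A

/-- T5: sums with one long smooth variable in a dyadic interval; `g l = 1` or `g l = log l` -/
def S_TI2 : Prop := ∀ (K : ℕ) (h : Fin K → ℤ) (W b : ℕ), Hyp h W b → ∀ J B : ℕ,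
  ∀ᶠ X : ℝ in atTop, ∀ S : Finset (Fin K → ℕ),
    (∀ q ∈ S, Squarefree (W * Pr q) ∧ (Pr q : ℝ) ≤ X ^ (14 / 25 : ℝ)) →
  ∀ c : (Fin K → ℕ) → ℝ, (∀ q, |c q| ≤ 1) → ∀ γ : ℕ → ℝ, (∀ d, |γ d| ≤ tau d ^ J * Real.log X) →
  ∀ g : ℕ → ℝ, ((∀ l, g l = 1) ∨ ∀ l, g l = Real.log l) → ∀ D1 N : ℕ, (D1 : ℝ) ≤ X ^ (2 / 5 : ℝ) →
    |∑ q ∈ S, c q * ∑ d ∈ Icc 1 D1, γ d * ∑ l ∈ Ioc N (2 * N),
      g l * H378R2.Phi (((d * l : ℕ) : ℝ) / X) * dl h W b (D0 X B) q (d * l)| ≤ X ^ (99 / 100 : ℝ)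

/-- T6: the von Mangoldt function -/
def S_LAM : Prop := ∀ (K : ℕ) (h : Fin K → ℤ) (W b : ℕ), Hyp h W b → ∀ δ : ℝ, 0 < δ → ∃ ε : ℝ, 0 < ε ∧
  ∀ A : ℕ, ∃ B0 : ℕ, ∀ B : ℕ, B0 ≤ B →
  ∀ᶠ X : ℝ in atTop, ∀ (Q : Fin K → ℝ), (∀ j, 0 < Q j) → ∏ j, Q j ≤ X ^ (11 / 20 : ℝ) → GroupOK δ X Q →
  ∀ S : Finset (Fin K → ℕ), (∀ q ∈ S, Squarefree (W * Pr q) ∧ (∀ j, Q j < q j ∧ (q j : ℝ) ≤ 2 * Q j) ∧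
      (Pr (sm (D0 X B) q) : ℝ) ≤ X ^ ε) →
  ∀ c : (Fin K → ℕ) → ℝ, (∀ q, |c q| ≤ 1) →
    |∑ q ∈ S, c q * ∑ n ∈ Icc 1 ⌊3 * X⌋₊, H378R2.Phi (n / X) * ArithmeticFunction.vonMangoldt n *
      dl h W b (D0 X B) q n| ≤ X / (Real.log X) ^ A

/-- T7a: one dyadic box -/
def S_Z : Prop := ∀ (K : ℕ) (h : Fin K → ℤ) (W b : ℕ), Hyp h W b → ∀ δ : ℝ, 0 < δ → ∀ A : ℕ,
  ∀ᶠ X : ℝ in atTop, ∀ (Q : Fin K → ℝ), (∀ j, 0 < Q j) → ∏ j, Q j ≤ X ^ (11 / 20 : ℝ) → GroupOK δ X Q →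
  ∀ bq, Cls h W b bq →
  ∀ S : Finset (Fin K → ℕ), (∀ q ∈ S, Squarefree (W * Pr q) ∧ (∀ j, Q j < q j ∧ (q j : ℝ) ≤ 2 * Q j)) →
    ∑ q ∈ S, |H378R2.EPhi X (W * Pr q) (bq q)| ≤ X / (Real.log X) ^ A

/-- the condition in terms of exponents -/
def GoodT {K : ℕ} (δ : ℝ) (t : Fin K → ℝ) : Prop :=
  ∀ x : Fin K → ℝ, (∀ j, -δ ≤ x j ∧ x j ≤ t j) → 1 / 2 - δ ≤ ∑ j, x j →
  (∀ ν : ℝ, 3 / 8 - δ ≤ ν → ν ≤ 1 / 2 + δ →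
    ∃ g : Fin K → Fin 5, ∀ y : Fin 5 → ℝ, (∀ i, y i = ∑ j ∈ univ.filter (fun j => g j = i), x j) →
      ∀ η : ℝ, η = max 0 (y 0 + y 1 + 2 * y 2 + 2 * y 3 + 2 * y 4 - (1 - ν)) →
      y 0 + y 1 ≤ ν - δ ∧ y 0 + y 1 + 2 * y 2 + 2 * y 3 ≤ 1 - ν - δ ∧ y 0 + 2 * y 2 + 4 * y 4 + 4 * η ≤ ν - δ ∧
        y 1 + 2 * y 3 + 8 * η ≤ 2 * ν - δ ∧ 8 * η + δ ≤ y 1 + 2 * y 3) ∧
  (∀ ν : ℝ, 5 / 16 - δ ≤ ν → ν ≤ 3 / 8 + δ →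
    ∃ g : Fin K → Fin 5, (∀ j, g j ≠ 2) ∧
      ∀ y : Fin 5 → ℝ, (∀ i, y i = ∑ j ∈ univ.filter (fun j => g j = i), x j) →
      ∀ η : ℝ, η = max 0 (y 0 + y 1 + 2 * y 3 + 2 * y 4 - (1 - ν)) →
      y 0 + y 1 ≤ ν - δ ∧ y 0 + 2 * y 4 + 2 * η ≤ ν - δ ∧
        y 1 + 2 * y 3 + 4 * η ≤ 2 * ν - δ ∧ 4 * η + δ ≤ y 1 + 2 * y 3)

open Classical in
/-- T7b: all the tuples up to given sizes, with divisor weights -/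
def S_ZZ : Prop := ∀ (K : ℕ) (h : Fin K → ℤ) (W b : ℕ), Hyp h W b → ∀ (t : Fin K → ℝ), (∀ j, 0 ≤ t j) →
  ∑ j, t j ≤ 27 / 50 → (∃ δ : ℝ, 0 < δ ∧ GoodT δ t) → ∀ bq, Cls h W b bq → ∀ A C : ℕ,
  ∀ᶠ X : ℝ in atTop,
    ∑ q ∈ (Fintype.piFinset (fun j => Icc 1 ⌊X ^ (t j)⌋₊)).filter (fun q => Squarefree (W * Pr q)),
      tau (Pr q) ^ C * |H378R2.EPhi X (W * Pr q) (bq q)| ≤ X / (Real.log X) ^ A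

end Pool.Agent.K9h6.N
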