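import Mathlib
import Pool.Agent.Y826.Z.Defs4
import Pool.Agent.K9h6.N.Defs

/-! T7c: the sieve part: statements (those of `Pool.Agent.Y826.Z.Defs4` with the new `GoodT`; helper6). -/

set_option autoImplicit false

open Finset Filter

namespace Pool.Agent.K9h6.N

open Pool.Agent.Y826.Z Pool.Agent.H95R2.BG Pool.Agent.H378R2

/-- pair asymptotics over the primes `n + h i`, beyond the level `1/2` (compare `H95R2.BG.S2pair`) -/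
def S_P2 : Prop := ∀ {K0 : ℕ} (τ : ℝ), 0 < τ → τ < 1 / 8 → ∀ (F G : Fin K0 → ℝ → ℝ) (cF cG : Fin K0 → ℝ),
    (∀ j, GF (F j) (cF j)) → (∀ j, GF (G j) (cG j)) →
    (∑ j, cF j + ∑ j, cG j ≤ 2 ∨
      (∑ j, cF j + ∑ j, cG j ≤ 54 / 25 ∧ ∃ δ : ℝ, 0 < δ ∧ GoodT δ (tp cF cG))) →
    ∀ ε : ℝ, 0 < ε →
    ∃ D0 : ℕ, ∀ D : ℕ, D0 ≤ D → ∀ h : Fin (K0 + 1) → ℕ, Sep D h → ∀ (i : Fin (K0 + 1)) (a : ℕ),
      (a + h i).Coprime (WD D) → ∀ᶠ X : ℝ in atTop,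
      |∑ n ∈ Icc 1 ⌊3 * X⌋₊, nu X (WD D) a n * th (n + h i) *
          ∏ j : Fin K0, (vv τ D X (F j) ((n : ℤ) + hrem h i j) * vv τ D X (G j) ((n : ℤ) + hrem h i j)) -
        NN τ D X (K0 + 1) * Real.log X * ((1 / 4 - τ) * ∏ j, DD (F j) (G j))| ≤
      ε * (NN τ D X (K0 + 1) * Real.log X)

/-- the pair of cells can be evaluated -/
def Ev {K0 : ℕ} (N1 : ℕ) (c c' : Fin K0 → ℕ) : Prop :=
  rad c + rad c' ≤ 2 * N1 ∨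
    (25 * (rad c + rad c') ≤ 54 * N1 ∧
      ∃ δ : ℝ, 0 < δ ∧ GoodT δ (tp (fun j => ((c j : ℝ) + 1) / N1) (fun j => ((c' j : ℝ) + 1) / N1)))

/-- the criterion with coefficients which depend on the cells (compare `H95R2.BG.criterion_count`);
`A` is a set which contains all the cells with a nonzero marginal -/
def S_CRIT : Prop := ∀ {K0 N1 M R : ℕ}, 0 < N1 → M ≤ 2 * N1 → R < 2 * N1 →
    ∀ (F : (Fin (K0 + 1) → ℕ) → ℝ), (∀ c, F c ≠ 0 → rad c ≤ R + 1) →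
    ∀ (A : Finset (Fin K0 → ℕ)), A ⊆ Box K0 M → (∀ i, ∀ c ∈ Box K0 M, UU M F i c ≠ 0 → c ∈ A) →
    ∀ (r : ℕ) (μ : Fin r → ℝ), (∀ l, 0 ≤ μ l) → ∀ (α : Fin r → (Fin K0 → ℕ) → ℝ)
      (κ : (Fin K0 → ℕ) → (Fin K0 → ℕ) → ℝ),
    (∀ Y : (Fin K0 → ℕ) → ℝ, ∑ c ∈ A, ∑ c' ∈ A, κ c c' * (Y c * Y c') ≤
      (∑ c ∈ A, Y c) ^ 2 + ∑ l, μ l * (∑ c ∈ A, α l c * Y c) ^ 2) →
    (∀ c ∈ A, ∀ c' ∈ A, κ c c' ≠ 0 → Ev N1 c c') →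
    (4 * N1 * ∑ c ∈ Box (K0 + 1) M, F c ^ 2 <
      ∑ i, ∑ c ∈ A, (κ c c - 4 * ∑ l, μ l * (α l c ^ 2 / (2 - (rad c : ℝ) / N1))) * UU M F i c ^ 2) →
    ∀ (h : Fin (K0 + 1) → ℕ), Admissible h → ∀ (Q b : ℕ), Squarefree Q → (∀ i, (b + h i).Coprime Q) →
    ∀ ε : ℝ, 0 < ε → ∀ᶠ X : ℝ in atTop, X ^ (1 - ε) ≤ ((goodN h Q b X).card : ℝ)

/-- the layered choice of the multipliers, for an effective radius `ρ` and the point of reflection `L`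
(compare `H95R2.BG.layered_count`) -/
def S_LAY : Prop := ∀ {K0 N1 M R L Dm : ℕ}, 0 < N1 → M ≤ 2 * N1 → R < 2 * N1 → Dm < L → L ≤ 2 * N1 →
    ∀ (F : (Fin (K0 + 1) → ℕ) → ℝ), (∀ c, F c ≠ 0 → rad c ≤ R + 1) →
    ∀ (A : Finset (Fin K0 → ℕ)), A ⊆ Box K0 M → (∀ i, ∀ c ∈ Box K0 M, UU M F i c ≠ 0 → c ∈ A) →
    (∀ c ∈ A, rad c ≤ R) → ∀ ρ : (Fin K0 → ℕ) → ℕ, (∀ c ∈ A, ρ c ≤ L + Dm) →
    (∀ c ∈ A, ∀ c' ∈ A, ρ c + ρ c' ≤ 2 * L → Ev N1 c c') →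
    ∀ (r : ℕ) (μ : Fin r → ℝ), (∀ l, 0 ≤ μ l) → ∀ (T : Fin r → ℕ) (W : (Fin K0 → ℕ) → ℝ),
    (∀ c ∈ A, ρ c + Dm ≤ L → W c ≤ 1) →
    (∀ c ∈ A, L < ρ c + Dm → ρ c ≤ L →
      W c ≤ 1 - 1 / (1 + 4 / (2 + (rad c : ℝ) / N1) * ∑ l, if T l ≤ L - ρ c then μ l else 0)) →
    (∀ c ∈ A, L < ρ c → W c ≤ - (4 * (∑ l, if T l < ρ c - L then μ l else 0) / (2 - (rad c : ℝ) / N1))) →
    (4 * N1 * ∑ c ∈ Box (K0 + 1) M, F c ^ 2 < ∑ i, ∑ c ∈ A, W c * UU M F i c ^ 2) →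
    ∀ (h : Fin (K0 + 1) → ℕ), Admissible h → ∀ (Q b : ℕ), Squarefree Q → (∀ i, (b + h i).Coprime Q) →
    ∀ ε : ℝ, 0 < ε → ∀ᶠ X : ℝ in atTop, X ^ (1 - ε) ≤ ((goodN h Q b X).card : ℝ)

end Pool.Agent.K9h6.N
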