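import Pool.Agent.K9h6.N.CombB
import Pool.Agent.Y823.Z.CombB

/-!
# The grouping lemma (helper6), part 3: arbitrary coefficients
-/

set_option autoImplicit false
set_option linter.unusedSectionVars false

namespace Pool.Agent.K9h6.N

open Finset

section

variable {ι : Type} [Fintype ι] [DecidableEq ι]
variable {t X : ι → ℝ} {cl : ι → Bool} {n τm γ xb yA yS yL κ : ℝ}

/-- The large items of `A`, first part. -/
theorem Dat3.largeA (D : Dat3 t X cl n τm γ xb yA yS yL κ) (hn : 1.5 - 0.000001 ≤ n)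
    (hn2 : n ≤ 1.77) {V R : Finset ι} {v ρ s p lo hi : ℝ}
    (hR : Gr X X (n - 0.00001) (univ \ V) R)
    (hv : v = ∑ z ∈ V, X z) (hρ : ρ = ∑ z ∈ R, X z)
    (hs : s = ∑ z ∈ (univ \ V).filter (fun z => X z < yA), X z)
    (hp : p = ∑ z ∈ R.filter (fun z => X z < yA), X z)
    (hv1 : τm + γ / 2 - (2 + τm - ∑ z, X z) / 2 + 0.00001 ≤ v)
    (hv2 : v ≤ τm + 1.5 * γ + 0.00001)
    (hρ1 : n - γ - (2 + τm - ∑ z, X z) - 0.00001 ≤ ρ)
    (hlo : lo = 4 - 3 * n + 18 * (∑ z, X z - 2) + 9 * (n - ρ) - 2 * v + 0.000002)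
    (hhi : hi = n - 4 * v - 8 * (∑ z, X z - 2) - 4 * (n - ρ) - 0.000002) :
    ∃ AL : Finset ι, (∀ z ∈ AL, z ∉ V ∧ yA ≤ X z) ∧
      ∑ z ∈ AL, (if z ∈ R then X z else 2 * X z) ≤ hi ∧
      lo ≤ ∑ z ∈ AL, (if z ∈ R then X z else 2 * X z) + (2 * s - p) := by
  have hle := D.le
  have hX := D.hX
  have t0 := D.t0
  have t1 := D.t1
  have g0 := D.g0
  have g1 := D.g1
  have a0 := D.a0
  have a1 := D.a1
  have a2 := D.a2
  have a3 := D.a3
  have c5 := D.c5
  have hρ2 : ρ ≤ n - 0.00001 := hρ ▸ hR.le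
  have hps : p ≤ s := by
    rw [hp, hs]
    exact sum_le_sum_of_subset_of_nonneg (filter_subset_filter _ hR.sub) fun z _ _ => D.h0 z
  have hp0 : 0 ≤ p := hp ▸ sum_nonneg fun z _ => D.h0 z
  have hs5 : Po t yA - (2 + τm - ∑ z, X z) - v ≤ s := by
    rw [hs, hv]
    exact D.ps2 V yA
  set L : Finset ι := ((univ \ V) \ R).filter (fun z => yA ≤ X z) with hL
  have htot : ∑ z, X z = v + ρ + (s - p) + ∑ z ∈ L, X z := by
    rw [hv, hρ, hs, hp, hL]
    exact total X V R hR.sub yA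
  have hLm : ∀ z ∈ L, z ∉ V ∧ z ∉ R ∧ yA ≤ X z := by
    intro z hz
    rw [hL, mem_filter, mem_sdiff, mem_sdiff] at hz
    exact ⟨hz.1.1.2, hz.1.2, hz.2⟩
  have hcard : (L.card : ℝ) * yA ≤ ∑ z ∈ L, X z := by
    rw [← nsmul_eq_mul, ← sum_const]
    exact sum_le_sum fun z hz => (hLm z hz).2.2
  have hc4 : L.card < 4 := by
    by_contra hcon
    push Not at hcon
    have h3 : (4 : ℝ) ≤ L.card := by exact_mod_cast hcon
    have h4 : 4 * yA ≤ (L.card : ℝ) * yA := mul_le_mul_of_nonneg_right h3 (by linarith)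
    linarith
  obtain h | h | h | h : L.card = 0 ∨ L.card = 1 ∨ L.card = 2 ∨ L.card = 3 := by omega
  · -- no large item
    rw [card_eq_zero] at h
    refine ⟨∅, by simp, ?_, ?_⟩
    · rw [sum_empty]
      linarith
    · rw [sum_empty]
      rw [h, sum_empty] at htot
      linarith
  · -- one large item
    obtain ⟨z, hz⟩ := card_eq_one.1 h
    obtain ⟨hzV, hzR, hzY⟩ := hLm z (by rw [hz]; simp)
    rw [hz, sum_singleton] at htot
    by_cases h2 : 2 * X z ≤ hi
    · refine ⟨{z}, ?_, ?_, ?_⟩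
      · intro w hw
        rw [mem_singleton.1 hw]
        exact ⟨hzV, hzY⟩
      · rw [sum_singleton, if_neg hzR]
        exact h2
      · rw [sum_singleton, if_neg hzR]
        linarith
    push Not at h2
    have hF : 1 < (R.filter (fun w => X z ≤ X w)).card := by
      by_contra hcon
      push Not at hcon
      have h10 := D.sum_le_of_card _ hcon
      have h11 := hR.rej z (mem_sdiff.2 ⟨mem_univ _, hzV⟩) hzR
      have h12 : X z ≤ 0.72 := ((D.h1 z).trans (D.h2 z)).trans D.k1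
      linarith
    obtain ⟨a, ha, b, hb, hab⟩ := one_lt_card.1 hF
    rw [mem_filter] at ha hb
    have key : ∀ x, x ∈ R → X z ≤ X x → X x ≤ hi → ∃ AL : Finset ι, (∀ z ∈ AL, z ∉ V ∧ yA ≤ X z) ∧
      ∑ z ∈ AL, (if z ∈ R then X z else 2 * X z) ≤ hi ∧
      lo ≤ ∑ z ∈ AL, (if z ∈ R then X z else 2 * X z) + (2 * s - p) := by
      intro x hx1 hx2 hx3
      refine ⟨{x}, ?_, ?_, ?_⟩
      · intro w hw
        rw [mem_singleton.1 hw]
        exact ⟨(mem_sdiff.1 (hR.sub hx1)).2, hzY.trans hx2⟩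
      · rw [sum_singleton, if_pos hx1]
        exact hx3
      · rw [sum_singleton, if_pos hx1]
        linarith
    by_cases h3 : X a ≤ hi
    · exact key a ha.1 ha.2 h3
    by_cases h4 : X b ≤ hi
    · exact key b hb.1 hb.2 h4
    exfalso
    push Not at h3 h4
    have hza : z ≠ a := fun h => hzR (h ▸ ha.1)
    have hzb : z ≠ b := fun h => hzR (h ▸ hb.1)
    have e1 := D.h1 z
    have e2 := D.h1 a
    have e3 := D.h1 b
    have f1 : 0.3 < t z := by linarith
    have f2 : 0.3 < t a := by linarith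
    have f3 : 0.3 < t b := by linarith
    by_cases h5 : cl z = cl a
    · have := D.hM z a hza h5 f1 f2
      linarith
    · by_cases h6 : cl z = cl b
      · have := D.hM z b hzb h6 f1 f3
        linarith
      · have h7 : cl a = cl b := by
          revert h5 h6
          cases cl z <;> cases cl a <;> cases cl b <;> simp
        have := D.hM a b hab h7 f2 f3
        linarith
  · -- two large items
    obtain ⟨a, b, hab, hz⟩ := card_eq_two.1 h
    have key : ∀ a b : ι, X a ≤ X b → L = {a, b} → a ≠ b → ∃ AL : Finset ι,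
        (∀ z ∈ AL, z ∉ V ∧ yA ≤ X z) ∧
        ∑ z ∈ AL, (if z ∈ R then X z else 2 * X z) ≤ hi ∧
        lo ≤ ∑ z ∈ AL, (if z ∈ R then X z else 2 * X z) + (2 * s - p) := by
      intro a b hle2 hL2 hab
      obtain ⟨haV, haR, haY⟩ := hLm a (by rw [hL2]; simp)
      obtain ⟨hbV, hbR, hbY⟩ := hLm b (by rw [hL2]; simp)
      rw [hL2, sum_pair hab] at htot
      refine ⟨{b}, ?_, ?_, ?_⟩
      · intro w hw
        rw [mem_singleton.1 hw]
        exact ⟨hbV, hbY⟩
      · rw [sum_singleton, if_neg hbR]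
        linarith
      · rw [sum_singleton, if_neg hbR]
        linarith
    rcases le_total (X a) (X b) with h5 | h5
    · exact key a b h5 hz hab
    · exact key b a h5 (by rw [hz, pair_comm]) hab.symm
  · -- three large items
    obtain ⟨a, b, c, hab, hac, hbc, hz⟩ := card_eq_three.1 h
    obtain ⟨haV, haR, haY⟩ := hLm a (by rw [hz]; simp)
    obtain ⟨hbV, hbR, hbY⟩ := hLm b (by rw [hz]; simp)
    obtain ⟨hcV, hcR, hcY⟩ := hLm c (by rw [hz]; simp)
    have hsum : ∑ z ∈ L, X z = X a + X b + X c := by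
      rw [hz, sum_insert (by simp [hab, hac]), sum_pair hbc]
      ring
    rw [hsum] at htot
    refine ⟨{a, b}, ?_, ?_, ?_⟩
    · intro w hw
      rw [mem_insert, mem_singleton] at hw
      rcases hw with hw | hw
      · rw [hw]; exact ⟨haV, haY⟩
      · rw [hw]; exact ⟨hbV, hbY⟩
    · rw [sum_pair hab, if_neg haR, if_neg hbR]
      linarith
    · rw [sum_pair hab, if_neg haR, if_neg hbR]
      linarith

/-- The grouping lemma for nonnegative exponents, arbitrary coefficients. -/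
theorem Dat3.mainA (D : Dat3 t X cl n τm γ xb yA yS yL κ) (hn1 : 1.5 - 0.000001 ≤ n)
    (hn2 : n ≤ 2 + 0.000001) : ∃ g : ι → Fin 5, ∀ Y : Fin 5 → ℝ,
    (∀ i, Y i = ∑ z ∈ univ.filter (fun z => g z = i), X z) →
    Y 0 + Y 1 + Y 2 + Y 3 + Y 4 = ∑ z, X z ∧ ∃ H : ℝ, 0 ≤ H ∧
      H = 2 * (∑ z, X z - 2) + (n - (Y 0 + Y 1)) ∧
      Y 0 + Y 1 + 0.000001 ≤ n ∧ Y 0 + Y 1 + 2 * Y 2 + 2 * Y 3 + 0.000001 ≤ 4 - n ∧
      Y 0 + 2 * Y 2 + 4 * Y 4 + 4 * H + 0.000001 ≤ n ∧
      Y 1 + 2 * Y 3 + 8 * H + 0.000001 ≤ 2 * n ∧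
      8 * H + 0.000001 ≤ Y 1 + 2 * Y 3 := by
  have hX := D.hX
  have hle := D.le
  have t0 := D.t0
  have t1 := D.t1
  have g0 := D.g0
  have g1 := D.g1
  have w0 := D.w0
  obtain ⟨V, hV, hV1⟩ := D.stepV
  have hV2 := hV.le
  obtain ⟨R, hR, hR1⟩ := D.stepR hn1 hV
  have hR2 := hR.le
  by_cases hn : n ≤ 1.77
  · -- then `R` is not everything
    have hρ : n - γ - (2 + τm - ∑ z, X z) - 0.00001 ≤ ∑ z ∈ R, X z := by
      rcases hR1 with h | h
      · exfalso
        have h1 := sum_sdiff (f := X) (subset_univ V)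
        rw [h] at hR2
        linarith
      · exact h
    obtain ⟨AL, hAL, hAL1, hAL2⟩ := D.largeA hn1 hn hR rfl rfl rfl rfl hV1 hV2 hρ rfl rfl
    rw [← weights X V R hR.sub yA] at hAL2
    obtain ⟨A, hAV, hA1, hA2⟩ := fill X D.h0 V R AL (n - 0.00001) _ _ yA (by linarith) hR hAL hAL1
      hAL2 (by
        intro r hrV hrY
        rcases le_or_gt (X r) xb with h1 | h1
        · have := D.ps1 hV hrV h1
          have := D.c3 _ h1
          linarith
        · have := D.ps2 V (X r)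
          have := D.c4 _ h1 hrY.le
          linarith)
    obtain ⟨g, hg⟩ := Pool.Agent.Y823.Z.groups X V R A hR.sub hAV
    refine ⟨g, fun Y hY => ?_⟩
    obtain ⟨g1, g2, g3, g4⟩ := hg Y hY
    refine ⟨g4, _, ?_, rfl, ?_, ?_, ?_, ?_, ?_⟩ <;> linarith
  · push Not at hn
    obtain ⟨g, hg⟩ := Pool.Agent.Y823.Z.groups X V R ∅ hR.sub (empty_subset _)
    refine ⟨g, fun Y hY => ?_⟩
    obtain ⟨g1, g2, g3, g4⟩ := hg Y hY
    rw [sum_empty] at g2
    have hρ : n - γ - (2 + τm - ∑ z, X z) - 0.00001 ≤ ∑ z ∈ R, X z ∨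
        (∑ z ∈ R, X z = ∑ z, X z - ∑ z ∈ V, X z) := by
      rcases hR1 with h | h
      · right
        have h1 := sum_sdiff (f := X) (subset_univ V)
        rw [h]
        linarith
      · exact Or.inl h
    refine ⟨g4, _, ?_, rfl, ?_, ?_, ?_, ?_, ?_⟩
    · linarith
    · linarith
    · rcases hρ with h | h <;> linarith
    · rcases hρ with h | h <;> linarith
    · rcases hρ with h | h <;> linarith
    · rcases hρ with h | h <;> linarith

end

end Pool.Agent.K9h6.N
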