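import Pool.Agent.K9h6.N.CombB

/-!
# The grouping lemma (helper6), part 4: smooth coefficients
-/

set_option autoImplicit false
set_option linter.unusedSectionVars false

namespace Pool.Agent.K9h6.N

open Finset

section

variable {ι : Type} [Fintype ι] [DecidableEq ι]
variable {t X : ι → ℝ} {cl : ι → Bool} {n τm γ xb yA yS yL κ : ℝ}

/-- The set `R`, second part. -/
theorem Dat3.stepR2 (D : Dat3 t X cl n τm γ xb yA yS yL κ) (hn : 1.25 - 0.000001 ≤ n)
    (hn2 : n ≤ 1.5 + 0.000001) {e : ℝ} (he0 : 0 ≤ e) (he1 : n - 1.25 ≤ e) :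
    ∃ R, Gr X X (n - 0.00001) (univ \ ∅) R ∧
      n - γ - (2 + τm - ∑ z, X z) - 4 / 7 * e - 0.00001 ≤ ∑ z ∈ R, X z := by
  have hle := D.le
  have hX := D.hX
  have t0 := D.t0
  have g0 := D.g0
  obtain ⟨R, hR⟩ := greedy2 X X D.h0 (n - 0.00001) (by linarith) (univ \ ∅)
  refine ⟨R, hR, ?_⟩
  have hR2 := hR.le
  rcases hR.smallest with h1 | ⟨r, hrS, hrR, hr⟩
  · exfalso
    rw [h1, sdiff_empty] at hR2
    linarith
  have h2 := hR.sum D.h0 hrS hrR ((univ \ ∅).filter (fun z => X z < X r)) (by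
    intro z hz
    rw [mem_filter] at hz
    exact ⟨hr z hz.1 hz.2, hz.2⟩)
  have h3 : 0 ≤ ∑ z ∈ (univ \ ∅).filter (fun z => X z < X r), X z := sum_nonneg fun z _ => D.h0 z
  have h4 := D.ps2 ∅ (X r)
  rw [sum_empty] at h4
  rcases le_or_gt (X r) γ with h5 | h5
  · linarith
  rcases le_or_gt (X r) xb with h6 | h6
  · have := D.c1 _ h5 h6
    linarith
  rcases le_or_gt (X r) yL with h8 | h8
  · have := D.c2 _ h6 h8
    linarith
  have h9 := D.card_le_one h8 (R.filter (fun z => X r ≤ X z)) (by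
    intro z hz
    rw [mem_filter] at hz
    exact ⟨fun h => hrR (h ▸ hz.1), h8.trans_le hz.2⟩)
  have h10 := D.sum_le_of_card _ h9
  have h11 := hR.rej r hrS hrR
  have h12 : X r ≤ 0.72 := ((D.h1 r).trans (D.h2 r)).trans D.k1
  -- some large item is accepted
  have h13 : (R.filter (fun z => X r ≤ X z)).Nonempty := by
    rw [nonempty_iff_ne_empty]
    intro h
    rw [h, sum_empty] at h11
    linarith
  obtain ⟨x, hx⟩ := h13
  rw [mem_filter] at hx
  have hxr : x ≠ r := fun h => hrR (h ▸ hx.1)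
  have hall : (univ : Finset ι) ⊆ insert r R := by
    intro z _
    rw [mem_insert]
    by_contra hcon
    push Not at hcon
    have h14 : X r ≤ X z := by
      by_contra h
      exact hcon.2 (hr z (mem_sdiff.2 ⟨mem_univ _, notMem_empty _⟩) (not_le.1 h))
    have hzx : z ≠ x := fun h => hcon.2 (h ▸ hx.1)
    exact D.three hcon.1 hzx hxr.symm (h8.trans_le h14) h8 (h8.trans_le hx.2)
  have h15 : ∑ z, X z ≤ X r + ∑ z ∈ R, X z := by
    have h16 : ∑ z, X z ≤ ∑ z ∈ insert r R, X z :=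
      sum_le_sum_of_subset_of_nonneg hall fun z _ _ => D.h0 z
    rwa [sum_insert hrR] at h16
  linarith

/-- The large items of `A`, second part. -/
theorem Dat3.largeS (D : Dat3 t X cl n τm γ xb yA yS yL κ) (hn : 1.25 - 0.000001 ≤ n)
    (hn2 : n ≤ 1.5 + 0.000001) {R : Finset ι} {ρ s p lo hi e : ℝ} (he0 : 0 ≤ e)
    (he1 : n - 1.25 ≤ e) (he2 : e ≤ n - 1.25 + 0.000001)
    (hR : Gr X X (n - 0.00001) (univ \ ∅) R)
    (hρ : ρ = ∑ z ∈ R, X z)
    (hs : s = ∑ z ∈ (univ \ ∅).filter (fun z => X z < yS), X z)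
    (hp : p = ∑ z ∈ R.filter (fun z => X z < yS), X z)
    (hρ1 : n - γ - (2 + τm - ∑ z, X z) - 4 / 7 * e - 0.00001 ≤ ρ)
    (hlo : lo = 4 - 3 * n + 10 * (∑ z, X z - 2) + 5 * (n - ρ) + 0.000002)
    (hhi : hi = n - 4 * (∑ z, X z - 2) - 2 * (n - ρ) - 0.000002) :
    ∃ AL : Finset ι, (∀ z ∈ AL, z ∉ (∅ : Finset ι) ∧ yS ≤ X z) ∧
      ∑ z ∈ AL, (if z ∈ R then X z else 2 * X z) ≤ hi ∧
      lo ≤ ∑ z ∈ AL, (if z ∈ R then X z else 2 * X z) + (2 * s - p) := by
  have hle := D.le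
  have hX := D.hX
  have t0 := D.t0
  have t1 := D.t1
  have g0 := D.g0
  have g1 := D.g1
  have s0 := D.s0
  have s1 := D.s1
  have l1 := D.l1
  have c7 := D.c7
  have c8 := D.c8
  have hρ2 : ρ ≤ n - 0.00001 := hρ ▸ hR.le
  have hps : p ≤ s := by
    rw [hp, hs]
    exact sum_le_sum_of_subset_of_nonneg (filter_subset_filter _ hR.sub) fun z _ _ => D.h0 z
  have hp0 : 0 ≤ p := hp ▸ sum_nonneg fun z _ => D.h0 z
  have hs5 : Po t yS - (2 + τm - ∑ z, X z) ≤ s := by
    have := D.ps2 ∅ yS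
    rw [sum_empty] at this
    rw [hs]
    linarith
  set L : Finset ι := ((univ \ ∅) \ R).filter (fun z => yS ≤ X z) with hL
  have htot : ∑ z, X z = ρ + (s - p) + ∑ z ∈ L, X z := by
    have := total X ∅ R hR.sub yS
    rw [sum_empty] at this
    rw [hρ, hs, hp, hL]
    linarith
  have hLm : ∀ z ∈ L, z ∉ R ∧ yS ≤ X z := by
    intro z hz
    rw [hL, mem_filter, mem_sdiff, mem_sdiff] at hz
    exact ⟨hz.1.2, hz.2⟩
  have hcard : (L.card : ℝ) * yS ≤ ∑ z ∈ L, X z := by
    rw [← nsmul_eq_mul, ← sum_const]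
    exact sum_le_sum fun z hz => (hLm z hz).2
  have hc4 : L.card < 4 := by
    by_contra hcon
    push Not at hcon
    have h3 : (4 : ℝ) ≤ L.card := by exact_mod_cast hcon
    have h4 : 4 * yS ≤ (L.card : ℝ) * yS := mul_le_mul_of_nonneg_right h3 (by linarith)
    linarith
  have hmax : ∀ z, X z ≤ 0.72 := fun z => ((D.h1 z).trans (D.h2 z)).trans D.k1
  have hS : ∀ z : ι, z ∈ (univ : Finset ι) \ ∅ :=
    fun z => mem_sdiff.2 ⟨mem_univ _, notMem_empty _⟩
  obtain h | h | h | h : L.card = 0 ∨ L.card = 1 ∨ L.card = 2 ∨ L.card = 3 := by omega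
  · -- no large item
    rw [card_eq_zero] at h
    refine ⟨∅, by simp, ?_, ?_⟩
    · rw [sum_empty]
      linarith
    · rw [sum_empty]
      rw [h, sum_empty] at htot
      linarith
  · -- one large item
    obtain ⟨z, hz⟩ := card_eq_one.1 h
    obtain ⟨hzR, hzY⟩ := hLm z (by rw [hz]; simp)
    rw [hz, sum_singleton] at htot
    have h12 := hmax z
    by_cases h2 : 2 * X z ≤ hi
    · refine ⟨{z}, ?_, ?_, ?_⟩
      · intro w hw
        rw [mem_singleton.1 hw]
        exact ⟨notMem_empty _, hzY⟩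
      · rw [sum_singleton, if_neg hzR]
        exact h2
      · rw [sum_singleton, if_neg hzR]
        linarith
    push Not at h2
    have h11 := hR.rej z (hS z) hzR
    have h13 : (R.filter (fun w => X z ≤ X w)).Nonempty := by
      rw [nonempty_iff_ne_empty]
      intro h
      rw [h, sum_empty] at h11
      linarith
    obtain ⟨x, hx⟩ := h13
    rw [mem_filter] at hx
    have h14 := hmax x
    refine ⟨{x}, ?_, ?_, ?_⟩
    · intro w hw
      rw [mem_singleton.1 hw]
      exact ⟨notMem_empty _, hzY.trans hx.2⟩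
    · rw [sum_singleton, if_pos hx.1]
      linarith
    · rw [sum_singleton, if_pos hx.1]
      linarith [hx.2]
  · -- two large items
    obtain ⟨a, b, hab, hz⟩ := card_eq_two.1 h
    have key : ∀ a b : ι, X a ≤ X b → L = {a, b} → a ≠ b → ∃ AL : Finset ι,
        (∀ z ∈ AL, z ∉ (∅ : Finset ι) ∧ yS ≤ X z) ∧
        ∑ z ∈ AL, (if z ∈ R then X z else 2 * X z) ≤ hi ∧
        lo ≤ ∑ z ∈ AL, (if z ∈ R then X z else 2 * X z) + (2 * s - p) := by
      intro a b hle2 hL2 hab
      obtain ⟨haR, haY⟩ := hLm a (by rw [hL2]; simp)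
      obtain ⟨hbR, hbY⟩ := hLm b (by rw [hL2]; simp)
      rw [hL2, sum_pair hab] at htot
      have h12 := hmax b
      by_cases h2 : 2 * X b ≤ hi
      · refine ⟨{b}, ?_, ?_, ?_⟩
        · intro w hw
          rw [mem_singleton.1 hw]
          exact ⟨notMem_empty _, hbY⟩
        · rw [sum_singleton, if_neg hbR]
          exact h2
        · rw [sum_singleton, if_neg hbR]
          linarith
      push Not at h2
      have h11 := hR.rej b (hS b) hbR
      have hbL : yL < X b := by linarith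
      have h13 : (R.filter (fun w => X b ≤ X w)).Nonempty := by
        rw [nonempty_iff_ne_empty]
        intro h
        rw [h, sum_empty] at h11
        linarith
      have h9 := D.card_le_one hbL (R.filter (fun z => X b ≤ X z)) (by
        intro z hz
        rw [mem_filter] at hz
        exact ⟨fun h => hbR (h ▸ hz.1), hbL.trans_le hz.2⟩)
      obtain ⟨x, hx⟩ := card_eq_one.1 (le_antisymm h9 (card_pos.2 h13))
      have hx' : x ∈ R.filter (fun w => X b ≤ X w) := by rw [hx]; simp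
      rw [hx, sum_singleton] at h11
      rw [mem_filter] at hx'
      have h14 := hmax x
      refine ⟨{x}, ?_, ?_, ?_⟩
      · intro w hw
        rw [mem_singleton.1 hw]
        exact ⟨notMem_empty _, hbY.trans hx'.2⟩
      · rw [sum_singleton, if_pos hx'.1]
        linarith
      · rw [sum_singleton, if_pos hx'.1]
        linarith
    rcases le_total (X a) (X b) with h5 | h5
    · exact key a b h5 hz hab
    · exact key b a h5 (by rw [hz, pair_comm]) hab.symm
  · -- three large items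
    have hne : L.Nonempty := card_pos.1 (by omega)
    obtain ⟨c, hcL, hcmax⟩ := exists_max_image L X hne
    have h2 : (L.erase c).card = 2 := by rw [card_erase_of_mem hcL, h]
    obtain ⟨a, b, hab, hz⟩ := card_eq_two.1 h2
    have haL : a ∈ L.erase c := by rw [hz]; simp
    have hbL : b ∈ L.erase c := by rw [hz]; simp
    have hca := hcmax a (mem_of_mem_erase haL)
    have hcb := hcmax b (mem_of_mem_erase hbL)
    obtain ⟨haR, haY⟩ := hLm a (mem_of_mem_erase haL)
    obtain ⟨hbR, hbY⟩ := hLm b (mem_of_mem_erase hbL)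
    obtain ⟨hcR, hcY⟩ := hLm c hcL
    have hsum : ∑ z ∈ L, X z = X a + X b + X c := by
      rw [← add_sum_erase L X hcL, hz, sum_pair hab]
      ring
    rw [hsum] at htot
    by_cases h3 : 2 * (X a + X b) ≤ hi
    · refine ⟨{a, b}, ?_, ?_, ?_⟩
      · intro w hw
        rw [mem_insert, mem_singleton] at hw
        rcases hw with hw | hw
        · rw [hw]; exact ⟨notMem_empty _, haY⟩
        · rw [hw]; exact ⟨notMem_empty _, hbY⟩
      · rw [sum_pair hab, if_neg haR, if_neg hbR]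
        linarith
      · rw [sum_pair hab, if_neg haR, if_neg hbR]
        linarith
    exfalso
    push Not at h3
    have key : ∀ z, z ∉ R → yS ≤ X z → p ≤ X z - (n - ρ) + 0.00001 := by
      intro z hzR hzY
      have h4 := hR.low (hS z) hzR
      have h5 : p ≤ ∑ w ∈ R.filter (fun w => X w < X z), X w := by
        rw [hp]
        refine sum_le_sum_of_subset_of_nonneg ?_ fun z _ _ => D.h0 z
        intro w hw
        rw [mem_filter] at hw ⊢
        exact ⟨hw.1, hw.2.trans_le hzY⟩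
      rw [← hρ] at h4
      linarith
    have k1 := key a haR haY
    have k2 := key b hbR hbY
    linarith

/-- The groups from the two sets. -/
theorem groups2 (X : ι → ℝ) (R A : Finset ι) :
    ∃ g : ι → Fin 5, (∀ j, g j ≠ 2) ∧
      ∀ Y : Fin 5 → ℝ, (∀ i, Y i = ∑ z ∈ univ.filter (fun z => g z = i), X z) →
      Y 0 + Y 1 = ∑ z ∈ R, X z ∧ Y 0 + 2 * Y 4 = ∑ z ∈ A, (if z ∈ R then X z else 2 * X z) ∧
      Y 0 + Y 1 + Y 2 + Y 3 + Y 4 = ∑ z, X z ∧ Y 2 = 0 := by
  refine ⟨fun z => if z ∈ R then (if z ∈ A then 0 else 1) else (if z ∈ A then 4 else 3), ?_, ?_⟩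
  · intro j
    dsimp only
    split_ifs <;> decide
  intro Y hY
  simp only [hY, sum_filter]
  have e1 : ∑ z ∈ R, X z = ∑ z, if z ∈ R then X z else 0 := by
    rw [← sum_filter]
    congr 1
    ext z
    simp
  have e2 : ∑ z ∈ A, (if z ∈ R then X z else 2 * X z) =
      ∑ z, if z ∈ A then (if z ∈ R then X z else 2 * X z) else 0 := by
    rw [← sum_filter]
    congr 1
    ext z
    simp
  rw [e1, e2, mul_sum]
  refine ⟨?_, ?_, ?_, ?_⟩
  · rw [← sum_add_distrib]
    refine sum_congr rfl fun z _ => ?_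
    by_cases hz2 : z ∈ R <;> by_cases hz3 : z ∈ A <;> simp_all
  · rw [← sum_add_distrib]
    refine sum_congr rfl fun z _ => ?_
    by_cases hz2 : z ∈ R <;> by_cases hz3 : z ∈ A <;> simp_all
  · rw [← sum_add_distrib, ← sum_add_distrib, ← sum_add_distrib, ← sum_add_distrib]
    refine sum_congr rfl fun z _ => ?_
    by_cases hz2 : z ∈ R <;> by_cases hz3 : z ∈ A <;> simp_all
  · refine sum_eq_zero fun z _ => ?_
    by_cases hz2 : z ∈ R <;> by_cases hz3 : z ∈ A <;> simp_all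

/-- The grouping lemma for nonnegative exponents, smooth coefficients. -/
theorem Dat3.mainS (D : Dat3 t X cl n τm γ xb yA yS yL κ) (hn1 : 1.25 - 0.000001 ≤ n)
    (hn2 : n ≤ 1.5 + 0.000001) : ∃ g : ι → Fin 5, (∀ j, g j ≠ 2) ∧ ∀ Y : Fin 5 → ℝ,
    (∀ i, Y i = ∑ z ∈ univ.filter (fun z => g z = i), X z) →
    Y 0 + Y 1 + Y 2 + Y 3 + Y 4 = ∑ z, X z ∧ Y 2 = 0 ∧ ∃ H : ℝ, 0 ≤ H ∧
      H = 2 * (∑ z, X z - 2) + (n - (Y 0 + Y 1)) ∧
      Y 0 + Y 1 + 0.000001 ≤ n ∧ Y 0 + 2 * Y 4 + 2 * H + 0.000001 ≤ n ∧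
      Y 1 + 2 * Y 3 + 4 * H + 0.000001 ≤ 2 * n ∧
      4 * H + 0.000001 ≤ Y 1 + 2 * Y 3 := by
  have hX := D.hX
  have hle := D.le
  have t0 := D.t0
  have t1 := D.t1
  have g0 := D.g0
  have g1 := D.g1
  have w0 := D.w0
  obtain ⟨e, he0, he1, he2⟩ : ∃ e : ℝ, 0 ≤ e ∧ n - 1.25 ≤ e ∧ e ≤ n - 1.25 + 0.000001 := by
    refine ⟨max 0 (n - 1.25), le_max_left _ _, le_max_right _ _, ?_⟩
    exact max_le (by linarith) (by linarith)
  obtain ⟨R, hR, hρ⟩ := D.stepR2 hn1 hn2 he0 he1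
  have hR2 := hR.le
  obtain ⟨AL, hAL, hAL1, hAL2⟩ := D.largeS hn1 hn2 he0 he1 he2 hR rfl rfl rfl hρ rfl rfl
  rw [← weights X ∅ R hR.sub yS] at hAL2
  obtain ⟨A, hAV, hA1, hA2⟩ := fill X D.h0 ∅ R AL (n - 0.00001) _ _ yS (by linarith) hR hAL hAL1
    hAL2 (by
      intro r _ hrY
      have h1 := D.ps2 ∅ (X r)
      rw [sum_empty] at h1
      have := D.c6 _ hrY.le
      linarith)
  obtain ⟨g, hg2, hg⟩ := groups2 X R A
  refine ⟨g, hg2, fun Y hY => ?_⟩
  obtain ⟨g1, g2, g3, g4⟩ := hg Y hY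
  refine ⟨g3, g4, _, ?_, rfl, ?_, ?_, ?_, ?_⟩ <;> linarith

end

end Pool.Agent.K9h6.N
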