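import Mathlib
import Pool.Agent.K9h6.N.Defs
import Pool.Agent.Y674.ZB.BX

/-! Project K9h6/N, task T4a: bilinear sums with the weight `Phi`, arbitrary coefficients
(adapted from Y674/ZB/BX). -/

set_option autoImplicit false

open Finset Filter

namespace Pool.Agent.K9h6.N.Bx

open Pool.Agent.Y826.Z Pool.Agent.Y674.ZB
open Pool.Agent.H378R2 (Phi)

/-- **T4a** -/
theorem bxa (hT : S_TIIJ) : S_BXA := by
  intro K h W b hyp δ hδ hδ1
  obtain ⟨ε, hε, H⟩ := hT K h W b hyp δ hδ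
  refine ⟨ε, hε, fun J A => ?_⟩
  obtain ⟨B0, HB⟩ := H J (A + 3)
  refine ⟨B0, fun B hB => ?_⟩
  have e1 : ∀ᶠ X : ℝ in atTop, (2 : ℝ) ≤ X ^ (3 / 8 - δ / 2 : ℝ) :=
    (tendsto_rpow_atTop (by linarith)).eventually_ge_atTop 2
  have e2 : ∀ᶠ X : ℝ in atTop, (96 : ℝ) ≤ Real.log X := Real.tendsto_log_atTop.eventually_ge_atTop 96
  have e3 : ∀ᶠ X : ℝ in atTop, (2 : ℝ) ≤ X ^ (δ / 2) :=
    (tendsto_rpow_atTop (by linarith)).eventually_ge_atTop 2
  filter_upwards [HB B hB, e1, e2, eventually_ge_atTop 3, e3] with X HX hX1 hX2 hX3 hX4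
  intro Q hQ hG S hS c hc α β hα hβ
  have hX0 : 0 < X := by linarith
  have hL : 0 < Real.log X := by linarith
  obtain ⟨M0, hM0⟩ : ∃ M0, M0 = ⌊X ^ (3 / 8 - δ / 2 : ℝ)⌋₊ := ⟨_, rfl⟩
  obtain ⟨n3, hn3⟩ : ∃ n3, n3 = ⌊3 * X⌋₊ := ⟨_, rfl⟩
  rw [← hM0, ← hn3]
  have hM0a : X ^ (3 / 8 - δ : ℝ) ≤ M0 := by
    have := Nat.lt_floor_add_one (X ^ (3 / 8 - δ / 2 : ℝ))
    rw [← hM0] at this
    have h5 : X ^ (3 / 8 - δ : ℝ) * X ^ (δ / 2) = X ^ (3 / 8 - δ / 2 : ℝ) := by
      rw [← Real.rpow_add hX0]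
      congr 1
      ring
    have h6 : 0 < X ^ (3 / 8 - δ : ℝ) := by positivity
    nlinarith
  have hM01 : 1 ≤ M0 := by
    rw [hM0]
    exact Nat.le_floor (by norm_num; linarith)
  -- the number of blocks
  obtain ⟨I, hI⟩ : ∃ I, I = Nat.log 2 n3 + 1 := ⟨_, rfl⟩
  have hI1 : n3 ≤ 2 ^ I * M0 := by
    have h1 : n3 < 2 ^ I := by rw [hI]; exact Nat.lt_pow_succ_log_self (by norm_num) _
    exact h1.le.trans (Nat.le_mul_of_pos_right _ hM01)
  have hn30 : n3 ≠ 0 := by
    rw [hn3]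
    exact (Nat.floor_pos.2 (by linarith)).ne'
  have hI2 : (I : ℝ) ≤ 4 * Real.log X := by
    have h1 : (2 : ℝ) ^ (Nat.log 2 n3) ≤ n3 := by exact_mod_cast Nat.pow_log_le_self 2 hn30
    have h2 : (n3 : ℝ) ≤ X ^ 2 := by
      have h3 : (n3 : ℝ) ≤ 3 * X := by rw [hn3]; exact Nat.floor_le (by positivity)
      nlinarith
    have h3 := Real.log_le_log (by positivity) (h1.trans h2)
    rw [Real.log_pow, Real.log_pow] at h3
    have h4 := Real.log_two_gt_d9
    push_cast at h3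
    have h5 : (Nat.log 2 n3 : ℝ) * 0.69 ≤ Nat.log 2 n3 * Real.log 2 :=
      mul_le_mul_of_nonneg_left (by linarith) (Nat.cast_nonneg _)
    rw [hI]
    push_cast
    linarith
  obtain ⟨T, hTd⟩ : ∃ T, T = X / (Real.log X) ^ (A + 3) := ⟨_, rfl⟩
  have hT0 : 0 ≤ T := by rw [hTd]; positivity
  -- the coefficients
  obtain ⟨α', hα'⟩ : ∃ α' : ℕ → ℝ, α' = fun m => if m ≤ n3 then α m else 0 := ⟨_, rfl⟩
  obtain ⟨β', hβ'⟩ : ∃ β' : ℕ → ℝ, β' = fun m => if m ≤ n3 then β m else 0 := ⟨_, rfl⟩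
  have hα'b : ∀ m, |α' m| ≤ tau m ^ J * Real.log X := by
    intro m
    rw [hα']
    by_cases hm : m ≤ n3
    · simp only [if_pos hm]; exact hα m
    · simp only [if_neg hm, abs_zero]
      unfold tau
      positivity
  have hβ'b : ∀ m, |β' m| ≤ tau m ^ J * Real.log X := by
    intro m
    rw [hβ']
    by_cases hm : m ≤ n3
    · simp only [if_pos hm]; exact hβ m
    · simp only [if_neg hm, abs_zero]
      unfold tau
      positivity
  obtain ⟨E, hE⟩ : ∃ E : ℕ → ℕ → ℝ, E = fun m n => ∑ q ∈ S, c q * dl h W b (D0 X B) q (m * n) :=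
    ⟨_, rfl⟩
  have hswap : ∀ (I J' : Finset ℕ) (a b' : ℕ → ℝ), ∑ m ∈ I, ∑ n ∈ J', a m * b' n * E m n =
      ∑ q ∈ S, c q * ∑ m ∈ I, ∑ n ∈ J', a m * b' n * dl h W b (D0 X B) q (m * n) := by
    intro I J' a b'
    simp only [hE, mul_sum]
    symm
    rw [sum_comm]
    refine sum_congr rfl fun m _ => ?_
    rw [sum_comm]
    refine sum_congr rfl fun n _ => sum_congr rfl fun q _ => ?_
    ring
  -- one block
  have hblock : ∀ M N : ℕ, M0 ≤ M → M0 ≤ N →
      |∑ m ∈ Ioc M (2 * M), ∑ n ∈ Ioc N (2 * N),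
        α' m * β' n * Phi (((m * n : ℕ) : ℝ) / X) * E m n| ≤ 6 * T := by
    intro M N hM hN
    have hMr : X ^ (3 / 8 - δ : ℝ) ≤ M := hM0a.trans (by exact_mod_cast hM)
    have hNr : X ^ (3 / 8 - δ : ℝ) ≤ N := hM0a.trans (by exact_mod_cast hN)
    by_cases hc1 : X / 16 ≤ (M : ℝ) * N
    · by_cases hc2 : (M : ℝ) * N ≤ 16 * X
      · refine sep hX0 _ _ E α' β' T ?_ (fun m hm => by rw [mem_Ioc] at hm; omega)
          (fun n hn => by rw [mem_Ioc] at hn; omega)
          (fun m hm n hn => block_log hX0 hc1 hc2 hm hn)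
        intro a b' ha hb'
        have ha2 : ∀ m, |a m| ≤ tau m ^ J * Real.log X := fun m => (ha m).trans (hα'b m)
        have hb2 : ∀ m, |b' m| ≤ tau m ^ J * Real.log X := fun m => (hb' m).trans (hβ'b m)
        rw [hTd]
        by_cases hcN : (N : ℝ) ≤ 16 * X ^ (1 / 2 : ℝ)
        · obtain ⟨g, hg⟩ := hG.1 M N hc1 hc2 hNr hcN
          rw [hswap]
          exact HX M N Q g hQ hg S hS c hc a b' (fun m _ => ha2 m) (fun n _ => hb2 n)
        · have hcM : (M : ℝ) ≤ 16 * X ^ (1 / 2 : ℝ) := by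
            rw [not_le] at hcN
            have hx : X ^ (1 / 2 : ℝ) * X ^ (1 / 2 : ℝ) = X := by
              rw [← Real.rpow_add hX0]
              norm_num
            have hxp : 0 < X ^ (1 / 2 : ℝ) := by positivity
            by_contra hcon
            rw [not_le] at hcon
            nlinarith [mul_pos hxp hxp]
          obtain ⟨g, hg⟩ := hG.1 N M (by rw [mul_comm]; exact hc1) (by rw [mul_comm]; exact hc2) hMr hcM
          have h1 := HX N M Q g hQ hg S hS c hc b' a (fun m _ => hb2 m) (fun n _ => ha2 n)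
          rw [← hswap, sum_comm] at h1
          refine le_trans (le_of_eq ?_) h1
          congr 1
          refine sum_congr rfl fun m _ => sum_congr rfl fun n _ => ?_
          have : E n m = E m n := by
            simp only [hE]
            refine sum_congr rfl fun q _ => ?_
            rw [mul_comm n m]
          rw [this]
          ring
      · have : ∑ m ∈ Ioc M (2 * M), ∑ n ∈ Ioc N (2 * N),
            α' m * β' n * Phi (((m * n : ℕ) : ℝ) / X) * E m n = 0 := by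
          refine sum_eq_zero fun m hm => sum_eq_zero fun n hn => ?_
          rw [mem_Ioc] at hm hn
          rw [Phi_high, mul_zero, zero_mul]
          rw [le_div_iff₀ hX0, Nat.cast_mul]
          rw [not_le] at hc2
          have a1 : (M : ℝ) ≤ m := by exact_mod_cast hm.1.le
          have b1 : (N : ℝ) ≤ n := by exact_mod_cast hn.1.le
          have := mul_le_mul a1 b1 (Nat.cast_nonneg _) ((Nat.cast_nonneg M).trans a1)
          linarith
        rw [this, abs_zero]
        positivity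
    · have : ∑ m ∈ Ioc M (2 * M), ∑ n ∈ Ioc N (2 * N),
          α' m * β' n * Phi (((m * n : ℕ) : ℝ) / X) * E m n = 0 := by
        refine sum_eq_zero fun m hm => sum_eq_zero fun n hn => ?_
        rw [mem_Ioc] at hm hn
        have hm0 : 0 < m := by omega
        have hn0 : 0 < n := by omega
        rw [Phi_low (by positivity), mul_zero, zero_mul]
        rw [div_le_iff₀ hX0, Nat.cast_mul]
        rw [not_le] at hc1
        have a1 : (m : ℝ) ≤ 2 * M := by exact_mod_cast hm.2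
        have b1 : (n : ℝ) ≤ 2 * N := by exact_mod_cast hn.2
        have := mul_le_mul a1 b1 (Nat.cast_nonneg _) (by positivity)
        linarith
      rw [this, abs_zero]
      positivity
  -- decomposition
  have hdec : ∑ q ∈ S, c q * ∑ m ∈ Ioc M0 n3, ∑ n ∈ Ioc M0 n3,
      α m * β n * Phi (((m * n : ℕ) : ℝ) / X) * dl h W b (D0 X B) q (m * n) =
      ∑ i ∈ range I, ∑ j ∈ range I, ∑ m ∈ Ioc (2 ^ i * M0) (2 * (2 ^ i * M0)),
        ∑ n ∈ Ioc (2 ^ j * M0) (2 * (2 ^ j * M0)),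
          α' m * β' n * Phi (((m * n : ℕ) : ℝ) / X) * E m n := by
    have h1 : ∑ q ∈ S, c q * ∑ m ∈ Ioc M0 n3, ∑ n ∈ Ioc M0 n3,
        α m * β n * Phi (((m * n : ℕ) : ℝ) / X) * dl h W b (D0 X B) q (m * n) =
        ∑ m ∈ Ioc M0 n3, ∑ n ∈ Ioc M0 n3,
          α m * β n * Phi (((m * n : ℕ) : ℝ) / X) * E m n := by
      simp only [hE, mul_sum]
      rw [sum_comm]
      refine sum_congr rfl fun m _ => ?_
      rw [sum_comm]
      refine sum_congr rfl fun n _ => sum_congr rfl fun q _ => ?_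
      ring
    have hsub : Ioc M0 n3 ⊆ Ioc M0 (2 ^ I * M0) := Ioc_subset_Ioc_right hI1
    have h2 : ∑ m ∈ Ioc M0 n3, ∑ n ∈ Ioc M0 n3,
          α m * β n * Phi (((m * n : ℕ) : ℝ) / X) * E m n =
        ∑ m ∈ Ioc M0 (2 ^ I * M0), ∑ n ∈ Ioc M0 (2 ^ I * M0),
          α' m * β' n * Phi (((m * n : ℕ) : ℝ) / X) * E m n := by
      rw [← sum_subset hsub]
      · refine sum_congr rfl fun m hm => ?_
        rw [← sum_subset hsub]
        · refine sum_congr rfl fun n hn => ?_
          rw [mem_Ioc] at hm hn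
          rw [hα', hβ']
          simp only [if_pos hm.2, if_pos hn.2]
        · intro n hn hn2
          rw [mem_Ioc] at hn hn2
          have : ¬ n ≤ n3 := fun h => hn2 ⟨hn.1, h⟩
          rw [hβ']
          simp only [if_neg this, mul_zero, zero_mul]
      · intro m hm hm2
        rw [mem_Ioc] at hm hm2
        have : ¬ m ≤ n3 := fun h => hm2 ⟨hm.1, h⟩
        refine sum_eq_zero fun n _ => ?_
        rw [hα']
        simp only [if_neg this, zero_mul]
    rw [h1, h2, dyadic]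
    refine sum_congr rfl fun i _ => ?_
    rw [sum_congr rfl fun m _ => dyadic M0 (fun n => α' m * β' n * Phi (((m * n : ℕ) : ℝ) / X) * E m n) I,
      sum_comm]
  have hmul : ∀ m n : ℕ, (((m * n : ℕ) : ℝ)) = ((m * n : ℕ) : ℝ) := fun _ _ => rfl
  rw [hdec]
  calc |∑ i ∈ range I, ∑ j ∈ range I, ∑ m ∈ Ioc (2 ^ i * M0) (2 * (2 ^ i * M0)),
        ∑ n ∈ Ioc (2 ^ j * M0) (2 * (2 ^ j * M0)),
          α' m * β' n * Phi (((m * n : ℕ) : ℝ) / X) * E m n|
      ≤ ∑ i ∈ range I, ∑ j ∈ range I, 6 * T := by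
        refine (abs_sum_le_sum_abs _ _).trans (sum_le_sum fun i _ => ?_)
        refine (abs_sum_le_sum_abs _ _).trans (sum_le_sum fun j _ => ?_)
        exact hblock _ _ (Nat.le_mul_of_pos_left _ (by positivity))
          (Nat.le_mul_of_pos_left _ (by positivity))
    _ = (I : ℝ) ^ 2 * (6 * T) := by
        rw [sum_const, sum_const, card_range, nsmul_eq_mul, nsmul_eq_mul]
        ring
    _ ≤ (4 * Real.log X) ^ 2 * (6 * T) :=
        mul_le_mul_of_nonneg_right (pow_le_pow_left₀ (Nat.cast_nonneg _) hI2 2) (by positivity)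
    _ = 96 / Real.log X * (X / (Real.log X) ^ A) := by
        rw [hTd, pow_add]
        field_simp
        ring
    _ ≤ 1 * (X / (Real.log X) ^ A) := by
        refine mul_le_mul_of_nonneg_right ?_ (by positivity)
        rw [div_le_one hL]
        exact hX2
    _ = X / (Real.log X) ^ A := one_mul _


end Pool.Agent.K9h6.N.Bx
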