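import Mathlib
import Pool.Agent.K9h6.N.Defs
import Pool.Agent.Y61.Z.TII

/-! Project K9h6/N, task T3: bilinear forms with coefficients bounded by powers of the divisor function
(adapted from Y61/Z). -/

set_option autoImplicit false

open Finset Filter

namespace Pool.Agent.K9h6.N.Tii

open Pool.Agent.Y826.Z Pool.Agent.Y61.Z

variable {K : ℕ}

/-- from double sums to sums over the products -/
lemma conv_leJ (J A B : ℕ) (G : ℕ → ℝ) (hG : ∀ x, 0 ≤ G x) :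
    ∑ m ∈ Icc 1 A, ∑ n ∈ Icc 1 B, tau m ^ J * tau n ^ J * G (m * n) ≤
      ∑ x ∈ Icc 1 (A * B), tau x ^ (2 * J + 1) * G x := by
  classical
  rw [← sum_product' (Icc 1 A) (Icc 1 B) (fun m n => tau m ^ J * tau n ^ J * G (m * n))]
  have hmaps : ∀ p ∈ Icc 1 A ×ˢ Icc 1 B, p.1 * p.2 ∈ Icc 1 (A * B) := by
    intro p hp
    rw [mem_product, mem_Icc, mem_Icc] at hp
    rw [mem_Icc]
    exact ⟨Nat.mul_pos hp.1.1 hp.2.1, Nat.mul_le_mul hp.1.2 hp.2.2⟩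
  rw [← sum_fiberwise_of_maps_to hmaps]
  refine sum_le_sum fun x hx => ?_
  have hx0 : x ≠ 0 := by rw [mem_Icc] at hx; omega
  have h1 : ∀ p ∈ (Icc 1 A ×ˢ Icc 1 B).filter (fun p => p.1 * p.2 = x),
      tau p.1 ^ J * tau p.2 ^ J * G (p.1 * p.2) ≤ tau x ^ (2 * J) * G x := by
    intro p hp
    have hp2 := (mem_filter.mp hp).2
    rw [hp2]
    apply mul_le_mul_of_nonneg_right _ (hG x)
    rw [two_mul, pow_add]
    exact mul_le_mul (pow_le_pow_left₀ (tau_nonneg _) (tau_le_of_dvd ⟨_, hp2.symm⟩ hx0) J)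
      (pow_le_pow_left₀ (tau_nonneg _) (tau_le_of_dvd ⟨p.1, by rw [mul_comm]; exact hp2.symm⟩ hx0) J)
      (pow_nonneg (tau_nonneg _) _) (pow_nonneg (tau_nonneg _) _)
  refine (sum_le_sum h1).trans ?_
  rw [sum_const, nsmul_eq_mul]
  have h2 : (((Icc 1 A ×ˢ Icc 1 B).filter (fun p => p.1 * p.2 = x)).card : ℝ) ≤ tau x := by
    unfold tau
    have : ((Icc 1 A ×ˢ Icc 1 B).filter (fun p => p.1 * p.2 = x)).card ≤ x.divisors.card := by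
      apply card_le_card_of_injOn (fun p => p.1)
      · intro p hp
        have hp2 := (mem_filter.mp hp).2
        exact Nat.mem_divisors.mpr ⟨⟨_, hp2.symm⟩, hx0⟩
      · intro p hp p' hp' he
        have hp2 := (mem_filter.mp hp).2
        have hp2' := (mem_filter.mp hp').2
        simp only at he
        have hpos : 0 < p.1 := Nat.pos_of_ne_zero (by rintro h; rw [h, zero_mul] at hp2; exact hx0 hp2.symm)
        ext
        · exact he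
        · rw [← he] at hp2'
          exact Nat.eq_of_mul_eq_mul_left hpos (hp2.trans hp2'.symm)
    exact_mod_cast this
  calc _ ≤ tau x * (tau x ^ (2 * J) * G x) :=
        mul_le_mul_of_nonneg_right h2 (mul_nonneg (pow_nonneg (tau_nonneg _) _) (hG x))
    _ = _ := by ring

lemma momentJ (J : ℕ) (h : Fin K → ℤ) : ∃ C : ℕ, ∀ Y : ℕ, 1 ≤ Y →
    ∑ x ∈ Icc 1 Y, tau x ^ (2 * J + 1) * ∏ j, tau ((x : ℤ) + h j).natAbs ^ (K + 1) ≤
      C * Y * (1 + Real.log Y) ^ C := by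
  obtain ⟨C, hC⟩ := moment h (K + 1 + (2 * J + 1)) (by omega)
  refine ⟨C, fun Y hY => le_trans (sum_le_sum fun x _ => ?_) (hC Y hY)⟩
  apply mul_le_mul (tau_pow_mono (by omega) (by omega)) _
    (prod_nonneg fun j _ => pow_nonneg (tau_nonneg _) _) (pow_nonneg (tau_nonneg _) _)
  exact prod_le_prod (fun j _ => pow_nonneg (tau_nonneg _) _) fun j _ => tau_pow_mono (by omega) (by omega)

lemma rc_abs_leJ {J M P : ℕ} {α : ℕ → ℝ} {L : ℝ} (hL : 0 ≤ L)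
    (hα : ∀ m ∈ Ioc M (2 * M), |α m| ≤ tau m ^ J * L) {m : ℕ} (hm : m ∈ Icc 1 (2 * M)) :
    |rc M P α m| ≤ tau m ^ J * L := by
  unfold rc
  split_ifs with hc
  · rw [mem_Icc] at hm
    exact hα m (mem_Ioc.mpr ⟨hc.1, hm.2⟩)
  · rw [abs_zero]; exact mul_nonneg (pow_nonneg (tau_nonneg _) _) hL

lemma rc_sq_sumJ {J M P : ℕ} {α : ℕ → ℝ} {L : ℝ} (hL : 0 ≤ L)
    (hα : ∀ m ∈ Ioc M (2 * M), |α m| ≤ tau m ^ J * L) :
    ∑ m ∈ Icc 1 (2 * M), rc M P α m ^ 2 ≤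
      L ^ 2 * ((2 * M : ℕ) * (1 + Real.log (2 * M : ℕ)) ^ (2 * 2 ^ (2 * J))) := by
  have h1 : ∀ m ∈ Icc 1 (2 * M), rc M P α m ^ 2 ≤ L ^ 2 * tau m ^ (2 * J) := by
    intro m hm
    have := rc_abs_leJ (P := P) hL hα hm
    rw [← sq_abs, mul_comm 2 J, pow_mul, ← mul_pow, mul_comm L]
    exact pow_le_pow_left₀ (abs_nonneg _) this 2
  refine (sum_le_sum h1).trans ?_
  rw [← mul_sum]
  apply mul_le_mul_of_nonneg_left _ (sq_nonneg _)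
  refine (tau_moment (2 * J) (2 * M)).trans ?_
  apply mul_le_mul_of_nonneg_left _ (Nat.cast_nonneg _)
  exact pow_le_pow_right₀ (one_le_one_add_log _) (by omega)

/-- the bound of the masses -/
lemma massJ {J : ℕ} {h : Fin K → ℤ} {W b D F : ℕ} {g : Fin K → Fin 5} {S : Finset (Fin K → ℕ)} {u v : Fin K → ℕ}
    (H : Fib W b D F g S u v) (hW : 0 < W) (hD : ∀ p : ℕ, p.Prime → p ∣ W → p ≤ D)
    {x0 : (Fin K → ℕ) → ℕ} (hx0 : GoodX h W b D g S x0) {M N P : ℕ} (hM : 1 ≤ M) (hN : 1 ≤ N)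
    (hnz : ∀ x : ℕ, M * N < x → ∀ j, (x : ℤ) + h j ≠ 0) {α β : ℕ → ℝ} {L : ℝ} (hL : 0 ≤ L)
    (hα : ∀ m ∈ Ioc M (2 * M), |α m| ≤ tau m ^ J * L) (hβ : ∀ n ∈ Ioc N (2 * N), |β n| ≤ tau n ^ J * L)
    {Cm : ℕ} (hCm : ∀ Y : ℕ, 1 ≤ Y →
      ∑ x ∈ Icc 1 Y, tau x ^ (2 * J + 1) * ∏ j, tau ((x : ℤ) + h j).natAbs ^ (K + 1) ≤ Cm * Y * (1 + Real.log Y) ^ Cm) :
    ∑ q ∈ S, ((S.filter (fun q' => W * Pr (fe g D q') = W * Pr (fe g D q))).card : ℝ) *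
        |Es M N D α β P (W * Pr (fe g D q)) (x0 q)| ≤
      L ^ 2 * (tau W ^ K * (1 + (1 + Real.log F) ^ (2 ^ (K + 1) * K))) *
        (Cm * ((2 * M) * (2 * N) : ℕ) * (1 + Real.log ((2 * M) * (2 * N) : ℕ)) ^ Cm) := by
  set Gc : ℝ := tau W ^ K * (1 + (1 + Real.log F) ^ (2 ^ (K + 1) * K)) with hGc
  have hGc0 : 0 ≤ Gc := by
    apply mul_nonneg (pow_nonneg (tau_nonneg _) _)
    have := pow_nonneg (one_add_log_nonneg F) (2 ^ (K + 1) * K)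
    linarith
  set w : (Fin K → ℕ) → ℝ := fun q =>
    ((S.filter (fun q' => W * Pr (fe g D q') = W * Pr (fe g D q))).card : ℝ) with hw
  have hw0 : ∀ q, 0 ≤ w q := fun q => Nat.cast_nonneg _
  set G : ℕ → ℝ := fun x => ∏ j, tau ((x : ℤ) + h j).natAbs ^ (K + 1) with hG
  have hG0 : ∀ x, 0 ≤ G x := fun x => prod_nonneg fun j _ => pow_nonneg (tau_nonneg _) _
  have h1 : ∀ q ∈ S, w q * |Es M N D α β P (W * Pr (fe g D q)) (x0 q)| ≤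
      ∑ m ∈ Icc 1 (2 * M), ∑ n ∈ Icc 1 (2 * N), |rc M P α m| * |rc N P β n| *
        (w q * |br D (W * Pr (fe g D q)) (x0 q) (m * n)|) := by
    intro q _
    have h2 : |Es M N D α β P (W * Pr (fe g D q)) (x0 q)| ≤
        ∑ m ∈ Icc 1 (2 * M), ∑ n ∈ Icc 1 (2 * N), |rc M P α m * rc N P β n * br D (W * Pr (fe g D q)) (x0 q) (m * n)| := by
      unfold Es
      refine (abs_sum_le_sum_abs _ _).trans (sum_le_sum fun m _ => abs_sum_le_sum_abs _ _)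
    refine (mul_le_mul_of_nonneg_left h2 (hw0 q)).trans (le_of_eq ?_)
    rw [mul_sum]
    refine sum_congr rfl fun m _ => ?_
    rw [mul_sum]
    refine sum_congr rfl fun n _ => ?_
    rw [abs_mul, abs_mul]
    ring
  refine (sum_le_sum h1).trans ?_
  rw [sum_comm]
  have h3 : ∀ m ∈ Icc 1 (2 * M), ∑ q ∈ S, ∑ n ∈ Icc 1 (2 * N), |rc M P α m| * |rc N P β n| *
        (w q * |br D (W * Pr (fe g D q)) (x0 q) (m * n)|) ≤
      ∑ n ∈ Icc 1 (2 * N), L ^ 2 * Gc * (tau m ^ J * tau n ^ J * G (m * n)) := by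
    intro m hm
    rw [sum_comm]
    refine sum_le_sum fun n hn => ?_
    rw [← mul_sum]
    by_cases hmn : M < m ∧ N < n
    · have hx : M * N < m * n := Nat.mul_lt_mul'' hmn.1 hmn.2
      have h4 := H.pt hW hD hx0 (hnz (m * n) hx)
      have hpt : ∑ q ∈ S, w q * |br D (W * Pr (fe g D q)) (x0 q) (m * n)| ≤ Gc * G (m * n) := h4
      have ha := rc_abs_leJ (P := P) hL hα hm
      have hb := rc_abs_leJ (P := P) hL hβ hn
      have hs0 : 0 ≤ ∑ q ∈ S, w q * |br D (W * Pr (fe g D q)) (x0 q) (m * n)| :=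
        sum_nonneg fun q _ => mul_nonneg (hw0 q) (abs_nonneg _)
      calc |rc M P α m| * |rc N P β n| * ∑ q ∈ S, w q * |br D (W * Pr (fe g D q)) (x0 q) (m * n)|
          ≤ (tau m ^ J * L) * (tau n ^ J * L) * (Gc * G (m * n)) := by
            apply mul_le_mul _ hpt hs0
            · exact mul_nonneg (mul_nonneg (pow_nonneg (tau_nonneg _) _) hL) (mul_nonneg (pow_nonneg (tau_nonneg _) _) hL)
            · exact mul_le_mul ha hb (abs_nonneg _) (mul_nonneg (pow_nonneg (tau_nonneg _) _) hL)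
        _ = _ := by ring
    · have h0 : |rc M P α m| * |rc N P β n| = 0 := by
        rw [not_and_or] at hmn
        rcases hmn with hmn | hmn
        · have : rc M P α m = 0 := by unfold rc; rw [if_neg]; tauto
          rw [this, abs_zero, zero_mul]
        · have : rc N P β n = 0 := by unfold rc; rw [if_neg]; tauto
          rw [this, abs_zero, mul_zero]
      rw [h0, zero_mul]
      exact mul_nonneg (mul_nonneg (sq_nonneg _) hGc0)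
        (mul_nonneg (mul_nonneg (pow_nonneg (tau_nonneg _) _) (pow_nonneg (tau_nonneg _) _)) (hG0 _))
  refine (sum_le_sum h3).trans ?_
  have h5 : ∑ m ∈ Icc 1 (2 * M), ∑ n ∈ Icc 1 (2 * N), L ^ 2 * Gc * (tau m ^ J * tau n ^ J * G (m * n)) =
      L ^ 2 * Gc * ∑ m ∈ Icc 1 (2 * M), ∑ n ∈ Icc 1 (2 * N), tau m ^ J * tau n ^ J * G (m * n) := by
    rw [mul_sum]
    refine sum_congr rfl fun m _ => ?_
    rw [mul_sum]
  rw [h5]
  apply mul_le_mul_of_nonneg_left _ (mul_nonneg (sq_nonneg _) hGc0)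
  refine (conv_leJ J (2 * M) (2 * N) G hG0).trans ?_
  exact hCm _ (Nat.mul_pos (by omega) (by omega))

/-- the bound for fixed `u, v` -/
lemma boundJ {J : ℕ} {h : Fin K → ℤ} {W b D F : ℕ} {g : Fin K → Fin 5} {S : Finset (Fin K → ℕ)} {u v : Fin K → ℕ}
    (H : Fib W b D F g S u v) (hW : 0 < W) (hD : ∀ p : ℕ, p.Prime → p ∣ W → p ≤ D) (hD1 : 1 ≤ D) (hF2 : 2 ≤ F)
    {x0 : (Fin K → ℕ) → ℕ} (hx0 : GoodX h W b D g S x0) {M N P : ℕ} (hM : 1 ≤ M) (hN : 1 ≤ N)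
    (hnz : ∀ x : ℕ, M * N < x → ∀ j, (x : ℤ) + h j ≠ 0) {α β : ℕ → ℝ} {L : ℝ} (hL : 0 ≤ L)
    (hα : ∀ m ∈ Ioc M (2 * M), |α m| ≤ tau m ^ J * L) (hβ : ∀ n ∈ Ioc N (2 * N), |β n| ≤ tau n ^ J * L)
    {Cm : ℕ} (hCm : ∀ Y : ℕ, 1 ≤ Y →
      ∑ x ∈ Icc 1 Y, tau x ^ (2 * J + 1) * ∏ j, tau ((x : ℤ) + h j).natAbs ^ (K + 1) ≤ Cm * Y * (1 + Real.log Y) ^ Cm)
    {Cb : ℕ} (hCb : ∀ (X Y F D : ℕ) (α β : ℕ → ℝ) (T : Finset ℕ) (bt : ℕ → ℕ), 1 ≤ D → 2 ≤ F →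
      (∀ t ∈ T, Squarefree t ∧ t ≤ F ∧ (bt t).Coprime t) →
      ∑ t ∈ T, |∑ m ∈ Icc 1 X, ∑ n ∈ Icc 1 Y, α m * β n *
          (ind (m * n ≡ bt t [MOD t]) -
            (1 / (Nat.totient (rop D t) : ℝ)) * ind (m * n ≡ bt t [MOD (smp D t)] ∧ (m * n).Coprime (rop D t)))| ≤
        Cb * (1 + Real.log F) ^ Cb * (Real.sqrt (X * Y) / D + Real.sqrt X + Real.sqrt Y + F) *
          (Real.sqrt (∑ m ∈ Icc 1 X, α m ^ 2) * Real.sqrt (∑ n ∈ Icc 1 Y, β n ^ 2))) :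
    (∑ q ∈ S, |Es M N D α β P (W * Pr (fe g D q)) (x0 q)|) ^ 2 ≤
      (L ^ 2 * (tau W ^ K * (1 + (1 + Real.log F) ^ (2 ^ (K + 1) * K))) *
        (Cm * ((2 * M) * (2 * N) : ℕ) * (1 + Real.log ((2 * M) * (2 * N) : ℕ)) ^ Cm)) *
      (Cb * (1 + Real.log F) ^ Cb *
        (Real.sqrt ((2 * M : ℕ) * (2 * N : ℕ)) / D + Real.sqrt (2 * M : ℕ) + Real.sqrt (2 * N : ℕ) + F) *
          (Real.sqrt (L ^ 2 * ((2 * M : ℕ) * (1 + Real.log (2 * M : ℕ)) ^ (2 * 2 ^ (2 * J)))) *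
            Real.sqrt (L ^ 2 * ((2 * N : ℕ) * (1 + Real.log (2 * N : ℕ)) ^ (2 * 2 ^ (2 * J)))))) := by
  classical
  apply cauchy_fib S (fun q => W * Pr (fe g D q)) _ (fun q => abs_nonneg _)
  · have := pow_nonneg (one_add_log_nonneg F) Cb
    positivity
  · exact massJ H hW hD hx0 hM hN hnz hL hα hβ hCm
  · intro σ hσ
    have h1 := hCb (2 * M) (2 * N) F D (rc M P α) (rc N P β) (S.image (fun q => W * Pr (fe g D q)))
      (fun t => x0 (σ t)) hD1 hF2 (by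
        intro t ht
        obtain ⟨h2, h3⟩ := hσ t ht
        refine ⟨?_, ?_, ?_⟩
        · rw [← h3]; exact H.sft h2
        · rw [← h3]; exact H.hF _ h2
        · have := (hx0 _ h2).1
          rwa [h3] at this)
    have h4 : ∑ s ∈ S.image (fun q => W * Pr (fe g D q)), |Es M N D α β P (W * Pr (fe g D (σ s))) (x0 (σ s))| =
        ∑ t ∈ S.image (fun q => W * Pr (fe g D q)), |∑ m ∈ Icc 1 (2 * M), ∑ n ∈ Icc 1 (2 * N), rc M P α m * rc N P β n *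
          (ind (m * n ≡ x0 (σ t) [MOD t]) -
            (1 / (Nat.totient (rop D t) : ℝ)) * ind (m * n ≡ x0 (σ t) [MOD (smp D t)] ∧ (m * n).Coprime (rop D t)))| := by
      refine sum_congr rfl fun t ht => ?_
      have h3 := (hσ t ht).2
      rw [h3]
      rfl
    rw [h4]
    refine h1.trans ?_
    have hpos : 0 ≤ (Cb : ℝ) * (1 + Real.log F) ^ Cb *
        (Real.sqrt ((2 * M : ℕ) * (2 * N : ℕ)) / D + Real.sqrt (2 * M : ℕ) + Real.sqrt (2 * N : ℕ) + F) := by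
      have := pow_nonneg (one_add_log_nonneg F) Cb
      positivity
    apply mul_le_mul_of_nonneg_left _ hpos
    apply mul_le_mul (Real.sqrt_le_sqrt (rc_sq_sumJ hL hα)) (Real.sqrt_le_sqrt (rc_sq_sumJ hL hβ))
      (Real.sqrt_nonneg _) (Real.sqrt_nonneg _)

/-- the divisor bound in the form needed -/
lemma ev_tauJ (J : ℕ) {ε : ℝ} (hε : 0 < ε) : ∀ᶠ X : ℝ in atTop, ∀ n : ℕ, 1 ≤ n → (n : ℝ) ≤ X →
    tau n ^ J * Real.log X ≤ X ^ ε := by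
  filter_upwards [ev_tau (show 0 < ε / (J + 1) by positivity), ev_log 1, eventually_ge_atTop 1] with X h1 h2 hX1
  intro n hn hnX
  have hX0 : 0 < X := by linarith
  have h3 := h1 n hn hnX
  have hτ : 1 ≤ tau n := one_le_tau (by omega)
  calc tau n ^ J * Real.log X ≤ (tau n * Real.log X) ^ (J + 1) := by
        rw [mul_pow]
        apply mul_le_mul (pow_le_pow_right₀ hτ (by omega)) _ (by linarith) (by positivity)
        exact le_self_pow₀ h2 (by omega)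
    _ ≤ (X ^ (ε / (J + 1))) ^ (J + 1) := pow_le_pow_left₀ (by positivity) h3 _
    _ = X ^ ε := by
        rw [← Real.rpow_natCast, ← Real.rpow_mul hX0.le]
        congr 1
        push_cast
        field_simp

lemma alpha_sqJ {J M : ℕ} {α : ℕ → ℝ} {L : ℝ} (hL : 0 ≤ L)
    (hα : ∀ m ∈ Ioc M (2 * M), |α m| ≤ tau m ^ J * L) :
    ∑ m ∈ Ioc M (2 * M), α m ^ 2 ≤
      L ^ 2 * ((2 * M : ℕ) * (1 + Real.log (2 * M : ℕ)) ^ (2 * 2 ^ (2 * J))) := by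
  refine le_trans ?_ (rc_sq_sumJ (P := 1) hL hα)
  have h1 : ∑ m ∈ Ioc M (2 * M), α m ^ 2 = ∑ m ∈ Ioc M (2 * M), rc M 1 α m ^ 2 := by
    refine sum_congr rfl fun m hm => ?_
    unfold rc
    rw [if_pos ⟨(mem_Ioc.mp hm).1, Nat.coprime_one_right m⟩]
  rw [h1]
  apply sum_le_sum_of_subset_of_nonneg
  · intro m hm
    rw [mem_Ioc] at hm
    rw [mem_Icc]; omega
  · intro m _ _; exact sq_nonneg _

/-- the numerical facts used in the first part -/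
lemma part1_numJ {X ℓ : ℝ} {K M N R E : ℕ} {RA RB Th Al SS' z : ℝ}
    (hℓ : 1 ≤ ℓ) (hM : 1 ≤ M) (hMN : (M : ℝ) * N ≤ 16 * X)
    (hR : 1 + Real.log R ≤ 3 * ℓ) (h2M : 1 + Real.log (2 * M : ℕ) ≤ 2 * ℓ)
    (hRA : 0 < RA) (hRB : 0 < RB)
    (hTh : Th ≤ (2 * (1 + Real.log R)) ^ K * (RA * RB)) (hTh0 : 0 ≤ Th)
    (hAl : Al ≤ ℓ ^ 2 * ((2 * M : ℕ) * (1 + Real.log (2 * M : ℕ)) ^ (2 * E))) (hAl0 : 0 ≤ Al)
    (hz : 0 ≤ z) (hSS : SS' ≤ (M * (N : ℝ) ^ 2 / (RA * RB)) * z) :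
    (Th * Al) * SS' ≤ X ^ 2 * ((6 ^ K * (512 * 4 ^ E)) * ℓ ^ (K + 2 + 2 * E) * z) := by
  have hMN0 : (0 : ℝ) ≤ (M : ℝ) * N := by positivity
  have hX0 : 0 ≤ X := by linarith
  have h1 : Th ≤ (6 * ℓ) ^ K * (RA * RB) := by
    refine hTh.trans (mul_le_mul_of_nonneg_right ?_ (by positivity))
    apply pow_le_pow_left₀ (by have := one_add_log_nonneg R; linarith)
    linarith
  have h2 : Al ≤ ℓ ^ 2 * ((2 * M) * (2 * ℓ) ^ (2 * E)) := by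
    refine hAl.trans (mul_le_mul_of_nonneg_left ?_ (sq_nonneg _))
    push_cast
    apply mul_le_mul_of_nonneg_left _ (by positivity)
    apply pow_le_pow_left₀ _ (by simpa using h2M)
    simpa using one_add_log_nonneg (2 * M)
  have hTA : Th * Al ≤ ((6 * ℓ) ^ K * (RA * RB)) * (ℓ ^ 2 * ((2 * M) * (2 * ℓ) ^ (2 * E))) :=
    mul_le_mul h1 h2 hAl0 (by positivity)
  have hb0 : 0 ≤ (M * (N : ℝ) ^ 2 / (RA * RB)) * z := by positivity
  calc (Th * Al) * SS' ≤ (Th * Al) * ((M * (N : ℝ) ^ 2 / (RA * RB)) * z) :=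
        mul_le_mul_of_nonneg_left hSS (mul_nonneg hTh0 hAl0)
    _ ≤ (((6 * ℓ) ^ K * (RA * RB)) * (ℓ ^ 2 * ((2 * M) * (2 * ℓ) ^ (2 * E)))) * ((M * (N : ℝ) ^ 2 / (RA * RB)) * z) :=
        mul_le_mul_of_nonneg_right hTA hb0
    _ = ((M : ℝ) * N) ^ 2 * (6 ^ K * (2 * 4 ^ E) * ℓ ^ (K + 2 + 2 * E) * z) := by
        have e4 : (2 * ℓ) ^ (2 * E) = 4 ^ E * ℓ ^ (2 * E) := by
          rw [mul_pow, pow_mul 2 2 E]
          norm_num
        rw [e4, mul_pow, mul_pow, pow_add, pow_add]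
        field_simp
    _ ≤ (16 * X) ^ 2 * (6 ^ K * (2 * 4 ^ E) * ℓ ^ (K + 2 + 2 * E) * z) := by
        apply mul_le_mul_of_nonneg_right _ (by positivity)
        exact pow_le_pow_left₀ hMN0 hMN 2
    _ = _ := by ring

/-- the numerical facts used in the second part -/
lemma part2_numJ {X ℓ η y : ℝ} {K M N R F D Cm Cb e1 B E : ℕ} {TW : ℝ}
    (hℓ : 1 ≤ ℓ) (hX : 1 ≤ X) (hMN : (M : ℝ) * N ≤ 16 * X)
    (hR : 1 + Real.log R ≤ 3 * ℓ) (h2M : 1 + Real.log (2 * M : ℕ) ≤ 2 * ℓ) (h2N : 1 + Real.log (2 * N : ℕ) ≤ 2 * ℓ)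
    (h4 : 1 + Real.log ((2 * M) * (2 * N) : ℕ) ≤ 2 * ℓ) (hF : 1 + Real.log F ≤ 2 * ℓ) (hTW : 0 ≤ TW)
    (hD : ℓ ^ B / 2 ≤ D) (hy : y = X ^ (-η))
    (hm : Real.sqrt (2 * M : ℕ) ≤ Real.sqrt X * y) (hn : Real.sqrt (2 * N : ℕ) ≤ Real.sqrt X * y)
    (hFF : (F : ℝ) ≤ Real.sqrt X * y) :
    ((1 + Real.log R) ^ (4 * K)) ^ 2 * ((ℓ ^ 2 * (TW * (1 + (1 + Real.log F) ^ e1)) *
        (Cm * ((2 * M) * (2 * N) : ℕ) * (1 + Real.log ((2 * M) * (2 * N) : ℕ)) ^ Cm)) *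
      (Cb * (1 + Real.log F) ^ Cb *
        (Real.sqrt ((2 * M : ℕ) * (2 * N : ℕ)) / D + Real.sqrt (2 * M : ℕ) + Real.sqrt (2 * N : ℕ) + F) *
          (Real.sqrt (ℓ ^ 2 * ((2 * M : ℕ) * (1 + Real.log (2 * M : ℕ)) ^ (2 * E))) *
            Real.sqrt (ℓ ^ 2 * ((2 * N : ℕ) * (1 + Real.log (2 * N : ℕ)) ^ (2 * E)))))) ≤
      X ^ 2 * ((3 ^ (8 * K) * TW * 2 ^ e1 * Cm * 2 ^ Cm * Cb * 2 ^ Cb * (16384 * 4 ^ E)) *
        ℓ ^ (8 * K + e1 + Cm + Cb + (4 + 2 * E)) * (1 / ℓ ^ B + y)) := by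
  have hX0 : 0 < X := by linarith
  have hy0 : 0 < y := by rw [hy]; exact Real.rpow_pos_of_pos hX0 _
  have hℓ0 : 0 < ℓ := by linarith
  have hsX : Real.sqrt X * Real.sqrt X = X := Real.mul_self_sqrt hX0.le
  have hsX0 : 0 ≤ Real.sqrt X := Real.sqrt_nonneg _
  have hMN4 : (((2 * M) * (2 * N) : ℕ) : ℝ) ≤ 64 * X := by push_cast; nlinarith
  have hs4 : Real.sqrt ((2 * M : ℕ) * (2 * N : ℕ)) ≤ 8 * Real.sqrt X := by
    have : (8 : ℝ) * Real.sqrt X = Real.sqrt (64 * X) := by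
      rw [Real.sqrt_mul (by norm_num : (0 : ℝ) ≤ 64)]
      congr 1
      rw [show (64 : ℝ) = 8 ^ 2 by norm_num, Real.sqrt_sq (by norm_num)]
    rw [this]
    apply Real.sqrt_le_sqrt
    push_cast at hMN4 ⊢
    exact hMN4
  -- the pieces
  have p1 : ((1 + Real.log R) ^ (4 * K)) ^ 2 ≤ (3 * ℓ) ^ (8 * K) := by
    rw [← pow_mul]
    have : 4 * K * 2 = 8 * K := by ring
    rw [this]
    exact pow_le_pow_left₀ (one_add_log_nonneg R) hR _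
  have p2 : 1 + (1 + Real.log F) ^ e1 ≤ 2 * (2 * ℓ) ^ e1 := by
    have h1 : (1 + Real.log F) ^ e1 ≤ (2 * ℓ) ^ e1 := pow_le_pow_left₀ (one_add_log_nonneg F) hF _
    have h2 : (1 : ℝ) ≤ (2 * ℓ) ^ e1 := one_le_pow₀ (by linarith)
    linarith
  have p3 : (1 + Real.log ((2 * M) * (2 * N) : ℕ)) ^ Cm ≤ (2 * ℓ) ^ Cm :=
    pow_le_pow_left₀ (one_add_log_nonneg _) h4 _
  have p4 : (1 + Real.log F) ^ Cb ≤ (2 * ℓ) ^ Cb := pow_le_pow_left₀ (one_add_log_nonneg _) hF _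
  have p5 : Real.sqrt ((2 * M : ℕ) * (2 * N : ℕ)) / D + Real.sqrt (2 * M : ℕ) + Real.sqrt (2 * N : ℕ) + F ≤
      16 * Real.sqrt X * (1 / ℓ ^ B + y) := by
    have hD0 : (0 : ℝ) < D := lt_of_lt_of_le (by positivity) hD
    have h1 : Real.sqrt ((2 * M : ℕ) * (2 * N : ℕ)) / D ≤ 16 * Real.sqrt X * (1 / ℓ ^ B) := by
      rw [div_le_iff₀ hD0]
      have hpB : 0 < ℓ ^ B := pow_pos hℓ0 _
      calc Real.sqrt ((2 * M : ℕ) * (2 * N : ℕ)) ≤ 8 * Real.sqrt X := hs4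
        _ = 16 * Real.sqrt X * (1 / ℓ ^ B) * (ℓ ^ B / 2) := by field_simp; norm_num
        _ ≤ 16 * Real.sqrt X * (1 / ℓ ^ B) * D := mul_le_mul_of_nonneg_left hD (by positivity)
    have h2 : 0 ≤ Real.sqrt X * y := by positivity
    nlinarith
  have p6 : Real.sqrt (ℓ ^ 2 * ((2 * M : ℕ) * (1 + Real.log (2 * M : ℕ)) ^ (2 * E))) *
            Real.sqrt (ℓ ^ 2 * ((2 * N : ℕ) * (1 + Real.log (2 * N : ℕ)) ^ (2 * E))) ≤
      8 * 4 ^ E * ℓ ^ (2 + 2 * E) * Real.sqrt X := by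
    have q1 : ∀ Y : ℕ, 1 + Real.log Y ≤ 2 * ℓ → Real.sqrt (ℓ ^ 2 * ((Y : ℝ) * (1 + Real.log Y) ^ (2 * E))) ≤
        (ℓ * (2 * ℓ) ^ E) * Real.sqrt Y := by
      intro Y hY
      have q2 : ℓ ^ 2 * ((Y : ℝ) * (1 + Real.log Y) ^ (2 * E)) ≤ (ℓ * (2 * ℓ) ^ E) ^ 2 * Y := by
        have q3 : (1 + Real.log Y) ^ (2 * E) ≤ (2 * ℓ) ^ (2 * E) := pow_le_pow_left₀ (one_add_log_nonneg _) hY _
        calc ℓ ^ 2 * ((Y : ℝ) * (1 + Real.log Y) ^ (2 * E)) ≤ ℓ ^ 2 * ((Y : ℝ) * (2 * ℓ) ^ (2 * E)) :=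
              mul_le_mul_of_nonneg_left (mul_le_mul_of_nonneg_left q3 (Nat.cast_nonneg _)) (sq_nonneg _)
          _ = _ := by ring
      calc _ ≤ Real.sqrt ((ℓ * (2 * ℓ) ^ E) ^ 2 * Y) := Real.sqrt_le_sqrt q2
        _ = _ := by rw [Real.sqrt_mul (sq_nonneg _), Real.sqrt_sq (by positivity)]
    have q4 := q1 (2 * M) h2M
    have q5 := q1 (2 * N) h2N
    calc _ ≤ ((ℓ * (2 * ℓ) ^ E) * Real.sqrt (2 * M : ℕ)) * ((ℓ * (2 * ℓ) ^ E) * Real.sqrt (2 * N : ℕ)) :=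
          mul_le_mul q4 q5 (Real.sqrt_nonneg _) (by positivity)
      _ = 4 ^ E * ℓ ^ (2 + 2 * E) * Real.sqrt ((2 * M : ℕ) * (2 * N : ℕ)) := by
          rw [Real.sqrt_mul (Nat.cast_nonneg _), mul_pow, pow_add, pow_mul]
          have : (4 : ℝ) ^ E = 2 ^ E * 2 ^ E := by rw [← mul_pow]; norm_num
          rw [this]
          have e5 : (ℓ ^ 2) ^ E = ℓ ^ E * ℓ ^ E := by rw [← mul_pow]; ring
          rw [e5]
          ring
      _ ≤ 4 ^ E * ℓ ^ (2 + 2 * E) * (8 * Real.sqrt X) := mul_le_mul_of_nonneg_left hs4 (by positivity)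
      _ = _ := by ring
  have hlF := pow_nonneg (one_add_log_nonneg F) e1
  have hlF' := pow_nonneg (one_add_log_nonneg F) Cb
  have hl4 := pow_nonneg (one_add_log_nonneg ((2 * M) * (2 * N))) Cm
  -- first factor
  have P1 : ℓ ^ 2 * (TW * (1 + (1 + Real.log F) ^ e1)) *
        (Cm * ((2 * M) * (2 * N) : ℕ) * (1 + Real.log ((2 * M) * (2 * N) : ℕ)) ^ Cm) ≤
      ℓ ^ 2 * (TW * (2 * (2 * ℓ) ^ e1)) * (Cm * (64 * X) * (2 * ℓ) ^ Cm) := by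
    apply mul_le_mul
    · exact mul_le_mul_of_nonneg_left (mul_le_mul_of_nonneg_left p2 hTW) (sq_nonneg _)
    · apply mul_le_mul (mul_le_mul_of_nonneg_left hMN4 (Nat.cast_nonneg _)) p3 hl4 (by positivity)
    · positivity
    · positivity
  have P2 : (Cb * (1 + Real.log F) ^ Cb *
        (Real.sqrt ((2 * M : ℕ) * (2 * N : ℕ)) / D + Real.sqrt (2 * M : ℕ) + Real.sqrt (2 * N : ℕ) + F) *
          (Real.sqrt (ℓ ^ 2 * ((2 * M : ℕ) * (1 + Real.log (2 * M : ℕ)) ^ (2 * E))) *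
            Real.sqrt (ℓ ^ 2 * ((2 * N : ℕ) * (1 + Real.log (2 * N : ℕ)) ^ (2 * E))))) ≤
      Cb * (2 * ℓ) ^ Cb * (16 * Real.sqrt X * (1 / ℓ ^ B + y)) * (8 * 4 ^ E * ℓ ^ (2 + 2 * E) * Real.sqrt X) := by
    apply mul_le_mul
    · apply mul_le_mul (mul_le_mul_of_nonneg_left p4 (Nat.cast_nonneg _)) p5 (by positivity) (by positivity)
    · exact p6
    · positivity
    · positivity
  have P12 := mul_le_mul P1 P2 (by positivity) (by positivity)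
  have P0 := mul_le_mul p1 P12 (by positivity) (by positivity)
  refine P0.trans (le_of_eq ?_)
  have e1' : (3 * ℓ) ^ (8 * K) = 3 ^ (8 * K) * ℓ ^ (8 * K) := mul_pow _ _ _
  have e2' : (2 * ℓ) ^ e1 = 2 ^ e1 * ℓ ^ e1 := mul_pow _ _ _
  have e3' : (2 * ℓ) ^ Cm = 2 ^ Cm * ℓ ^ Cm := mul_pow _ _ _
  have e4' : (2 * ℓ) ^ Cb = 2 ^ Cb * ℓ ^ Cb := mul_pow _ _ _
  have e5' : ℓ ^ (8 * K + e1 + Cm + Cb + (4 + 2 * E)) = ℓ ^ (8 * K) * ℓ ^ e1 * ℓ ^ Cm * ℓ ^ Cb * ℓ ^ (4 + 2 * E) := by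
    rw [pow_add, pow_add, pow_add, pow_add]
  rw [e1', e2', e3', e4', e5']
  calc _ = (Real.sqrt X * Real.sqrt X) * X * ((3 ^ (8 * K) * TW * 2 ^ e1 * Cm * 2 ^ Cm * Cb * 2 ^ Cb * (16384 * 4 ^ E)) *
        (ℓ ^ (8 * K) * ℓ ^ e1 * ℓ ^ Cm * ℓ ^ Cb * ℓ ^ (4 + 2 * E)) * (1 / ℓ ^ B + y)) := by ring
    _ = _ := by rw [hsX]; ring


end Pool.Agent.K9h6.N.Tii
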