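import Mathlib
import Pool.Agent.K9h6.N.Defs
import Pool.Agent.K9h6.N.Tii1
import Pool.Agent.Y674.ZB.BX

/-! Project K9h6/N, task T4b: lemmas for the smooth bilinear sums with the weight `Phi`. -/

set_option autoImplicit false

open Finset Filter

namespace Pool.Agent.K9h6.N.Bx

open Pool.Agent.Y826.Z Pool.Agent.Y674.ZB
open Pool.Agent.H378R2 (Phi)
open scoped Real

/-- the trivial bound -/
lemma dl_triv {K : ℕ} (h : Fin K → ℤ) {W b : ℕ} (H : Hyp h W b) {D F : ℕ}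
    (hD : ∀ p : ℕ, p.Prime → p ∣ W → p ≤ D) (S : Finset (Fin K → ℕ)) (hS : ∀ q ∈ S, Squarefree (W * Pr q))
    (hF : ∀ q ∈ S, W * Pr q ≤ F) {x : ℕ} (hx : ∀ j, (x : ℤ) + h j ≠ 0) :
    ∑ q ∈ S, |dl h W b D q x| ≤ tau W ^ K * (1 + (1 + Real.log F) ^ (2 ^ (K + 1) * K)) *
      ∏ j, tau ((x : ℤ) + h j).natAbs ^ (K + 1) := by
  classical
  set g : Fin K → Fin 5 := fun _ => 0 with hg
  have hfe : ∀ q : Fin K → ℕ, Pool.Agent.Y61.Z.fe g D q = q := by
    intro q
    funext j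
    simp [Pool.Agent.Y61.Z.fe, hg]
  have hfu : ∀ q : Fin K → ℕ, Pool.Agent.Y61.Z.fu g D q = fun _ => 1 := by
    intro q
    funext j
    simp [Pool.Agent.Y61.Z.fu, hg]
  have hfv : ∀ q : Fin K → ℕ, Pool.Agent.Y61.Z.fv g D q = fun _ => 1 := by
    intro q
    funext j
    simp [Pool.Agent.Y61.Z.fv, hg]
  have hcl : ∀ q ∈ S, ∃ x0 : ℕ, x0.Coprime (W * Pr (Pool.Agent.Y61.Z.fe g D q)) ∧
      ∀ d : Fin K → ℕ, (∀ j, d j ∣ Pool.Agent.Y61.Z.fe g D q j) → ∀ x : ℕ,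
      (x ≡ x0 [MOD (W * Pr d)] ↔ x ≡ b [MOD W] ∧ Cd h d x) := by
    intro q hq
    apply Pool.Agent.Y61.Z.exists_class h H
    rw [hfe]
    exact hS q hq
  choose! x0 hx0 using hcl
  have hgood : Pool.Agent.Y61.Z.GoodX h W b D g S x0 := hx0
  have hfib : Pool.Agent.Y61.Z.Fib W b D F g S (fun _ => 1) (fun _ => 1) :=
    ⟨hS, fun q _ => hfu q, fun q _ => hfv q, fun q hq => by rw [hfe]; exact hF q hq⟩
  refine le_trans ?_ (hfib.pt H.wpos hD hgood hx)
  apply sum_le_sum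
  intro q hq
  have h1 := Pool.Agent.Y61.Z.dl_eq h (D := D) (g := g) (hS q hq) hD (x0 q) (hx0 q hq).2 x
  have hP1 : Pr (fun _ : Fin K => 1) = 1 := by unfold Pr; simp
  have hDu : Du h (fun _ : Fin K => 1) (fun _ : Fin K => 1) x = 0 := by
    have hCd : Cd h (fun _ : Fin K => 1) x := by
      intro j
      simp
    unfold Du
    rw [hP1]
    unfold ind
    rw [if_pos ⟨hCd, hCd⟩, if_pos (by simp)]
    simp
  rw [hfu, hfv, hDu, hP1] at h1
  have h2 : dl h W b D q x = Pool.Agent.Y61.Z.br D (W * Pr (Pool.Agent.Y61.Z.fe g D q)) (x0 q) x := by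
    rw [h1]
    unfold ind
    rw [if_pos (by simp : Nat.Coprime x (1 * 1))]
    simp
  rw [h2]
  have h3 : (1 : ℝ) ≤ ((S.filter (fun q' => W * Pr (Pool.Agent.Y61.Z.fe g D q') =
      W * Pr (Pool.Agent.Y61.Z.fe g D q))).card : ℝ) := by
    have : 0 < (S.filter (fun q' => W * Pr (Pool.Agent.Y61.Z.fe g D q') =
      W * Pr (Pool.Agent.Y61.Z.fe g D q))).card := Finset.card_pos.2 ⟨q, by simp [hq]⟩
    exact_mod_cast this
  exact le_mul_of_one_le_left (abs_nonneg _) h3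

/-- the first family of trigonometric functions of `n` -/
noncomputable def B1 (X : ℝ) (k n : ℕ) : ℝ := Real.cos (2 * π * k * ((Real.log n - Real.log X) / 8)) -
    2 * Real.cos (2 * π * k * ((Real.log n - Real.log X) / 8 - 1 / 16)) +
    Real.cos (2 * π * k * ((Real.log n - Real.log X) / 8 - 1 / 8))

/-- the second family of trigonometric functions of `n` -/
noncomputable def B2 (X : ℝ) (k n : ℕ) : ℝ := Real.sin (2 * π * k * ((Real.log n - Real.log X) / 8)) -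
    2 * Real.sin (2 * π * k * ((Real.log n - Real.log X) / 8 - 1 / 16)) +
    Real.sin (2 * π * k * ((Real.log n - Real.log X) / 8 - 1 / 8))

lemma B1b (X : ℝ) (k n : ℕ) : |B1 X k n / 4| ≤ 1 := by
  have h1 := abs_le.1 (Real.abs_cos_le_one (2 * π * k * ((Real.log n - Real.log X) / 8)))
  have h2 := abs_le.1 (Real.abs_cos_le_one (2 * π * k * ((Real.log n - Real.log X) / 8 - 1 / 16)))
  have h3 := abs_le.1 (Real.abs_cos_le_one (2 * π * k * ((Real.log n - Real.log X) / 8 - 1 / 8)))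
  rw [abs_le]
  unfold B1
  constructor <;> linarith [h1.1, h1.2, h2.1, h2.2, h3.1, h3.2]

lemma B2b (X : ℝ) (k n : ℕ) : |B2 X k n / 4| ≤ 1 := by
  have h1 := abs_le.1 (Real.abs_sin_le_one (2 * π * k * ((Real.log n - Real.log X) / 8)))
  have h2 := abs_le.1 (Real.abs_sin_le_one (2 * π * k * ((Real.log n - Real.log X) / 8 - 1 / 16)))
  have h3 := abs_le.1 (Real.abs_sin_le_one (2 * π * k * ((Real.log n - Real.log X) / 8 - 1 / 8)))
  rw [abs_le]
  unfold B2
  constructor <;> linarith [h1.1, h1.2, h2.1, h2.2, h3.1, h3.2]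

lemma cos_diff (x y : ℝ) : |Real.cos x - Real.cos y| ≤ |x - y| := by
  rw [Real.cos_sub_cos, abs_mul, abs_mul, abs_neg, abs_two]
  have h1 := Real.abs_sin_le_one ((x + y) / 2)
  have h2 : |Real.sin ((x - y) / 2)| ≤ |(x - y) / 2| := Real.abs_sin_le_abs
  have h3 : |(x - y) / 2| = |x - y| / 2 := by rw [abs_div, abs_two]
  rw [h3] at h2
  have h4 := abs_nonneg (Real.sin ((x - y) / 2))
  nlinarith [abs_nonneg (Real.sin ((x + y) / 2))]

lemma sin_diff (x y : ℝ) : |Real.sin x - Real.sin y| ≤ |x - y| := by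
  rw [Real.sin_sub_sin, abs_mul, abs_mul, abs_two]
  have h1 := Real.abs_cos_le_one ((x + y) / 2)
  have h2 : |Real.sin ((x - y) / 2)| ≤ |(x - y) / 2| := Real.abs_sin_le_abs
  have h3 : |(x - y) / 2| = |x - y| / 2 := by rw [abs_div, abs_two]
  rw [h3] at h2
  have h4 := abs_nonneg (Real.sin ((x - y) / 2))
  nlinarith [abs_nonneg (Real.cos ((x + y) / 2))]

lemma log_diff (n : ℕ) (hn : 0 < n) : |Real.log ((n + 1 : ℕ) : ℝ) - Real.log n| ≤ 1 / n := by
  have hn0 : (0 : ℝ) < n := by exact_mod_cast hn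
  rw [← Real.log_div (by positivity) hn0.ne']
  have h1 : (((n + 1 : ℕ) : ℝ) / n) = 1 + 1 / n := by
    push_cast
    field_simp
  rw [h1, abs_of_nonneg (Real.log_nonneg (by
    have : (0 : ℝ) ≤ 1 / n := by positivity
    linarith))]
  have := Real.log_le_sub_one_of_pos (show (0 : ℝ) < 1 + 1 / n by positivity)
  linarith

lemma B1d (X : ℝ) (k n : ℕ) (hn : 0 < n) : |B1 X k (n + 1) / 4 - B1 X k n / 4| ≤ k / n := by
  have hl := log_diff n hn
  have hπ := Real.pi_lt_four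
  have hπ0 := Real.pi_pos
  have hk : (0 : ℝ) ≤ k := Nat.cast_nonneg _
  have hn0 : (0 : ℝ) < n := by exact_mod_cast hn
  have key : ∀ t : ℝ, |2 * π * k * ((Real.log ((n + 1 : ℕ) : ℝ) - Real.log X) / 8 - t) -
      2 * π * k * ((Real.log n - Real.log X) / 8 - t)| ≤ k / n := by
    intro t
    have : 2 * π * k * ((Real.log ((n + 1 : ℕ) : ℝ) - Real.log X) / 8 - t) -
      2 * π * k * ((Real.log n - Real.log X) / 8 - t) =
      (2 * π / 8) * (k * (Real.log ((n + 1 : ℕ) : ℝ) - Real.log n)) := by ring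
    rw [this, abs_mul, abs_mul, abs_of_nonneg (by positivity : (0 : ℝ) ≤ 2 * π / 8), abs_of_nonneg hk]
    have h1 : (k : ℝ) * |Real.log ((n + 1 : ℕ) : ℝ) - Real.log n| ≤ k * (1 / n) :=
      mul_le_mul_of_nonneg_left hl hk
    have h2 : 0 ≤ (k : ℝ) * |Real.log ((n + 1 : ℕ) : ℝ) - Real.log n| := by positivity
    calc 2 * π / 8 * ((k : ℝ) * |Real.log ((n + 1 : ℕ) : ℝ) - Real.log n|) ≤
          1 * (k * (1 / n)) := mul_le_mul (by linarith) h1 h2 zero_le_one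
      _ = k / n := by ring
  have k0 := key 0
  simp only [sub_zero] at k0
  have h0 := (cos_diff _ _).trans k0
  have h1 := (cos_diff _ _).trans (key (1 / 16))
  have h2 := (cos_diff _ _).trans (key (1 / 8))
  have e : B1 X k (n + 1) / 4 - B1 X k n / 4 =
      ((Real.cos (2 * π * k * ((Real.log ((n + 1 : ℕ) : ℝ) - Real.log X) / 8)) -
        Real.cos (2 * π * k * ((Real.log n - Real.log X) / 8))) -
      2 * (Real.cos (2 * π * k * ((Real.log ((n + 1 : ℕ) : ℝ) - Real.log X) / 8 - 1 / 16)) -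
        Real.cos (2 * π * k * ((Real.log n - Real.log X) / 8 - 1 / 16))) +
      (Real.cos (2 * π * k * ((Real.log ((n + 1 : ℕ) : ℝ) - Real.log X) / 8 - 1 / 8)) -
        Real.cos (2 * π * k * ((Real.log n - Real.log X) / 8 - 1 / 8)))) / 4 := by
    unfold B1
    ring
  rw [e]
  rw [abs_le] at h0 h1 h2 ⊢
  constructor <;> linarith [h0.1, h0.2, h1.1, h1.2, h2.1, h2.2]

lemma B2d (X : ℝ) (k n : ℕ) (hn : 0 < n) : |B2 X k (n + 1) / 4 - B2 X k n / 4| ≤ k / n := by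
  have hl := log_diff n hn
  have hπ := Real.pi_lt_four
  have hπ0 := Real.pi_pos
  have hk : (0 : ℝ) ≤ k := Nat.cast_nonneg _
  have hn0 : (0 : ℝ) < n := by exact_mod_cast hn
  have key : ∀ t : ℝ, |2 * π * k * ((Real.log ((n + 1 : ℕ) : ℝ) - Real.log X) / 8 - t) -
      2 * π * k * ((Real.log n - Real.log X) / 8 - t)| ≤ k / n := by
    intro t
    have : 2 * π * k * ((Real.log ((n + 1 : ℕ) : ℝ) - Real.log X) / 8 - t) -
      2 * π * k * ((Real.log n - Real.log X) / 8 - t) =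
      (2 * π / 8) * (k * (Real.log ((n + 1 : ℕ) : ℝ) - Real.log n)) := by ring
    rw [this, abs_mul, abs_mul, abs_of_nonneg (by positivity : (0 : ℝ) ≤ 2 * π / 8), abs_of_nonneg hk]
    have h1 : (k : ℝ) * |Real.log ((n + 1 : ℕ) : ℝ) - Real.log n| ≤ k * (1 / n) :=
      mul_le_mul_of_nonneg_left hl hk
    have h2 : 0 ≤ (k : ℝ) * |Real.log ((n + 1 : ℕ) : ℝ) - Real.log n| := by positivity
    calc 2 * π / 8 * ((k : ℝ) * |Real.log ((n + 1 : ℕ) : ℝ) - Real.log n|) ≤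
          1 * (k * (1 / n)) := mul_le_mul (by linarith) h1 h2 zero_le_one
      _ = k / n := by ring
  have k0 := key 0
  simp only [sub_zero] at k0
  have h0 := (sin_diff _ _).trans k0
  have h1 := (sin_diff _ _).trans (key (1 / 16))
  have h2 := (sin_diff _ _).trans (key (1 / 8))
  have e : B2 X k (n + 1) / 4 - B2 X k n / 4 =
      ((Real.sin (2 * π * k * ((Real.log ((n + 1 : ℕ) : ℝ) - Real.log X) / 8)) -
        Real.sin (2 * π * k * ((Real.log n - Real.log X) / 8))) -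
      2 * (Real.sin (2 * π * k * ((Real.log ((n + 1 : ℕ) : ℝ) - Real.log X) / 8 - 1 / 16)) -
        Real.sin (2 * π * k * ((Real.log n - Real.log X) / 8 - 1 / 16))) +
      (Real.sin (2 * π * k * ((Real.log ((n + 1 : ℕ) : ℝ) - Real.log X) / 8 - 1 / 8)) -
        Real.sin (2 * π * k * ((Real.log n - Real.log X) / 8 - 1 / 8)))) / 4 := by
    unfold B2
    ring
  rw [e]
  rw [abs_le] at h0 h1 h2 ⊢
  constructor <;> linarith [h0.1, h0.2, h1.1, h1.2, h2.1, h2.2]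

/-- total variation of the product of a smooth function and a trigonometric one -/
lemma TV_bound (N k : ℕ) (hN : 0 < N) (L : ℝ) (hL : Real.log ((2 * N + 1 : ℕ) : ℝ) ≤ L) (hL1 : 1 ≤ L) (g : ℕ → ℝ)
    (hg : (∀ l, g l = 1) ∨ ∀ l, g l = Real.log l) (B : ℕ → ℝ) (hB : ∀ n, |B n| ≤ 1)
    (hBd : ∀ n : ℕ, 0 < n → |B (n + 1) - B n| ≤ k / n) :
    TV (fun n => g n * B n) N ≤ 1 + L * k := by
  have hN0 : (0 : ℝ) < N := by exact_mod_cast hN
  have hk : (0 : ℝ) ≤ k := Nat.cast_nonneg _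
  unfold TV
  have h1 : ∀ n ∈ Ioc N (2 * N), |g (n + 1) * B (n + 1) - g n * B n| ≤ (1 + L * k) / N := by
    intro n hn
    rw [mem_Ioc] at hn
    have hn0 : 0 < n := by omega
    have hnr : (0 : ℝ) < n := by exact_mod_cast hn0
    have hNn : (N : ℝ) ≤ n := by exact_mod_cast hn.1.le
    have e : g (n + 1) * B (n + 1) - g n * B n = (g (n + 1) - g n) * B (n + 1) + g n * (B (n + 1) - B n) := by ring
    rw [e]
    refine (abs_add_le _ _).trans ?_
    rw [abs_mul, abs_mul]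
    have a1 : |g (n + 1) - g n| ≤ 1 / n := by
      rcases hg with hg | hg
      · rw [hg, hg]
        simp
      · rw [hg, hg]
        exact log_diff n hn0
    have a2 : |g n| ≤ L := by
      rcases hg with hg | hg
      · rw [hg, abs_one]
        exact hL1
      · rw [hg, abs_of_nonneg (Real.log_natCast_nonneg _)]
        refine le_trans ?_ hL
        apply Real.log_le_log hnr
        exact_mod_cast (by omega : n ≤ 2 * N + 1)
    have a3 := hB (n + 1)
    have a4 := hBd n hn0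
    calc |g (n + 1) - g n| * |B (n + 1)| + |g n| * |B (n + 1) - B n| ≤ (1 / n) * 1 + L * (k / n) := by
          gcongr
      _ = (1 + L * k) / n := by ring
      _ ≤ (1 + L * k) / N := by
          apply div_le_div_of_nonneg_left _ hN0 hNn
          positivity
  refine (sum_le_sum h1).trans ?_
  rw [sum_const, Nat.card_Ioc, nsmul_eq_mul]
  have : ((2 * N - N : ℕ) : ℝ) = N := by
    congr 1
    omega
  rw [this]
  apply le_of_eq
  field_simp

/-- separation of the variables, with control of the variation in `n` -/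
lemma sepS {X : ℝ} (hX : 0 < X) (I J : Finset ℕ) (E : ℕ → ℕ → ℝ) (α β : ℕ → ℝ) (T T' : ℝ) (K0 : ℕ)
    (hK0 : 1 ≤ K0)
    (hT : ∀ k ≤ K0, ∀ a : ℕ → ℝ, (∀ m, |a m| ≤ |α m|) →
      |∑ m ∈ I, ∑ n ∈ J, a m * (β n * (B1 X k n / 4)) * E m n| ≤ T ∧
      |∑ m ∈ I, ∑ n ∈ J, a m * (β n * (B2 X k n / 4)) * E m n| ≤ T)
    (hT0 : |∑ m ∈ I, ∑ n ∈ J, α m * β n * E m n| ≤ T)
    (hT' : ∀ a b : ℕ → ℝ, (∀ m, |a m| ≤ |α m|) → (∀ n, |b n| ≤ |β n|) →
      |∑ m ∈ I, ∑ n ∈ J, a m * b n * E m n| ≤ T')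
    (hI : ∀ m ∈ I, 0 < m) (hJ : ∀ n ∈ J, 0 < n)
    (hv : ∀ m ∈ I, ∀ n ∈ J, |Real.log (((m * n : ℕ) : ℝ) / X)| ≤ 7) :
    |∑ m ∈ I, ∑ n ∈ J, α m * β n * Phi (((m * n : ℕ) : ℝ) / X) * E m n| ≤
      6 * T + 4 * (T' * (1 / Real.sqrt K0) * ∑' n : ℕ, 1 / (n : ℝ) ^ (3 / 2 : ℝ)) := by
  set A1 : ℕ → ℕ → ℝ := fun k m => Real.cos (2 * π * k * (Real.log m / 8)) with hA1
  set A2 : ℕ → ℕ → ℝ := fun k m => Real.sin (2 * π * k * (Real.log m / 8)) with hA2
  set w : ℕ → ℝ := fun n => Real.log n - Real.log X with hw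
  have hA1b : ∀ k m, |A1 k m| ≤ 1 := fun k m => Real.abs_cos_le_one _
  have hA2b : ∀ k m, |A2 k m| ≤ 1 := fun k m => Real.abs_sin_le_one _
  have hTn : 0 ≤ T := (abs_nonneg _).trans hT0
  have hTn' : 0 ≤ T' := (abs_nonneg _).trans (hT' α β (fun _ => le_rfl) (fun _ => le_rfl))
  set Z : ℝ := ∑' n : ℕ, 1 / (n : ℝ) ^ (3 / 2 : ℝ) with hZ
  have hsumm : Summable (fun n : ℕ => 1 / (n : ℝ) ^ (3 / 2 : ℝ)) :=
    Real.summable_one_div_nat_rpow.2 (by norm_num)
  have key : ∀ m ∈ I, ∀ n ∈ J, HasSum (fun k : ℕ => α m * β n * E m n *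
      (1 / (k : ℝ) ^ 2 * (A1 k m * B1 X k n - A2 k m * B2 X k n)))
      (α m * β n * E m n * (π ^ 2 * (1 / 128 - Phi (((m * n : ℕ) : ℝ) / X) / 4))) := by
    intro m hm n hn
    have h := (Phi_series (hv m hm n hn)).mul_left (α m * β n * E m n)
    have hm0 : (m : ℝ) ≠ 0 := by exact_mod_cast (hI m hm).ne'
    have hn0 : (n : ℝ) ≠ 0 := by exact_mod_cast (hJ n hn).ne'
    have e1 : Real.log (((m * n : ℕ) : ℝ) / X) = Real.log m + w n := by
      rw [Nat.cast_mul, Real.log_div (mul_ne_zero hm0 hn0) hX.ne', Real.log_mul hm0 hn0, hw]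
      ring
    rw [e1] at h
    have e2 : ∀ (k : ℕ) (t : ℝ), Real.cos (2 * π * k * ((Real.log m + w n) / 8 - t)) =
        A1 k m * Real.cos (2 * π * k * (w n / 8 - t)) -
          A2 k m * Real.sin (2 * π * k * (w n / 8 - t)) := by
      intro k t
      have : 2 * π * k * ((Real.log m + w n) / 8 - t) =
        2 * π * k * (Real.log m / 8) + 2 * π * k * (w n / 8 - t) := by ring
      rw [this, Real.cos_add]
    have e3 : ∀ (k : ℕ), Real.cos (2 * π * k * ((Real.log m + w n) / 8)) =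
        A1 k m * Real.cos (2 * π * k * (w n / 8)) -
          A2 k m * Real.sin (2 * π * k * (w n / 8)) := by
      intro k
      have := e2 k 0
      simpa only [sub_zero] using this
    refine Eq.mp (congrArg (fun f : ℕ → ℝ => HasSum f _) (funext fun k => ?_)) h
    rw [e2, e2, e3]
    unfold B1 B2
    simp only [hw]
    ring
  have hsum := hasSum_sum fun m hm => hasSum_sum fun n hn => key m hm n hn
  set c0 : ℝ := 8 * (T' * (1 / Real.sqrt K0)) with hc0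
  have hz : HasSum (fun k : ℕ => 8 * T * (1 / (k : ℝ) ^ 2) + c0 * (1 / (k : ℝ) ^ (3 / 2 : ℝ)))
      (8 * T * (π ^ 2 / 6) + c0 * Z) :=
    (hasSum_zeta_two.mul_left _).add (hsumm.hasSum.mul_left _)
  have hb : ∀ k : ℕ, ‖∑ m ∈ I, ∑ n ∈ J, α m * β n * E m n *
      (1 / (k : ℝ) ^ 2 * (A1 k m * B1 X k n - A2 k m * B2 X k n))‖ ≤
      8 * T * (1 / (k : ℝ) ^ 2) + c0 * (1 / (k : ℝ) ^ (3 / 2 : ℝ)) := by
    intro k
    have e : ∑ m ∈ I, ∑ n ∈ J, α m * β n * E m n *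
        (1 / (k : ℝ) ^ 2 * (A1 k m * B1 X k n - A2 k m * B2 X k n)) =
        1 / (k : ℝ) ^ 2 * (4 * (∑ m ∈ I, ∑ n ∈ J, (α m * A1 k m) * (β n * (B1 X k n / 4)) * E m n) -
          4 * (∑ m ∈ I, ∑ n ∈ J, (α m * A2 k m) * (β n * (B2 X k n / 4)) * E m n)) := by
      rw [mul_sum, mul_sum, ← sum_sub_distrib, mul_sum]
      refine sum_congr rfl fun m _ => ?_
      rw [mul_sum, mul_sum, ← sum_sub_distrib, mul_sum]
      refine sum_congr rfl fun n _ => ?_
      ring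
    have ha1 : ∀ m, |α m * A1 k m| ≤ |α m| := fun m => by
      rw [abs_mul]; exact mul_le_of_le_one_right (abs_nonneg _) (hA1b k m)
    have ha2 : ∀ m, |α m * A2 k m| ≤ |α m| := fun m => by
      rw [abs_mul]; exact mul_le_of_le_one_right (abs_nonneg _) (hA2b k m)
    have hb1 : ∀ n, |β n * (B1 X k n / 4)| ≤ |β n| := fun n => by
      rw [abs_mul]; exact mul_le_of_le_one_right (abs_nonneg _) (B1b X k n)
    have hb2 : ∀ n, |β n * (B2 X k n / 4)| ≤ |β n| := fun n => by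
      rw [abs_mul]; exact mul_le_of_le_one_right (abs_nonneg _) (B2b X k n)
    have gen : ∀ T0 : ℝ, |∑ m ∈ I, ∑ n ∈ J, (α m * A1 k m) * (β n * (B1 X k n / 4)) * E m n| ≤ T0 →
        |∑ m ∈ I, ∑ n ∈ J, (α m * A2 k m) * (β n * (B2 X k n / 4)) * E m n| ≤ T0 →
        ‖∑ m ∈ I, ∑ n ∈ J, α m * β n * E m n *
          (1 / (k : ℝ) ^ 2 * (A1 k m * B1 X k n - A2 k m * B2 X k n))‖ ≤ 8 * T0 * (1 / (k : ℝ) ^ 2) := by
      intro T0 h1 h2
      rw [e, Real.norm_eq_abs, abs_mul, abs_of_nonneg (by positivity : (0 : ℝ) ≤ 1 / (k : ℝ) ^ 2),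
        mul_comm]
      refine mul_le_mul_of_nonneg_right ?_ (by positivity)
      rw [abs_le] at h1 h2 ⊢
      constructor <;> linarith [h1.1, h1.2, h2.1, h2.2]
    have hc0n : 0 ≤ c0 := by rw [hc0]; positivity
    by_cases hk : k ≤ K0
    · have h1 := (hT k hk (fun m => α m * A1 k m) ha1).1
      have h2 := (hT k hk (fun m => α m * A2 k m) ha2).2
      refine (gen T h1 h2).trans ?_
      have : 0 ≤ c0 * (1 / (k : ℝ) ^ (3 / 2 : ℝ)) := by positivity
      linarith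
    · have h1 := hT' (fun m => α m * A1 k m) (fun n => β n * (B1 X k n / 4)) ha1 hb1
      have h2 := hT' (fun m => α m * A2 k m) (fun n => β n * (B2 X k n / 4)) ha2 hb2
      refine (gen T' h1 h2).trans ?_
      have hk0 : (0 : ℝ) < k := by
        have : 0 < k := by omega
        exact_mod_cast this
      have hK0r : (0 : ℝ) < K0 := by exact_mod_cast hK0
      have hkK : (K0 : ℝ) ≤ k := by exact_mod_cast (not_le.1 hk).le
      have h3 : 1 / (k : ℝ) ^ 2 ≤ (1 / Real.sqrt K0) * (1 / (k : ℝ) ^ (3 / 2 : ℝ)) := by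
        have h4 : (k : ℝ) ^ 2 = Real.sqrt k * (k : ℝ) ^ (3 / 2 : ℝ) := by
          rw [Real.sqrt_eq_rpow, ← Real.rpow_add hk0, ← Real.rpow_natCast]
          norm_num
        rw [h4, ← one_div_mul_one_div]
        apply mul_le_mul_of_nonneg_right _ (by positivity)
        exact one_div_le_one_div_of_le (Real.sqrt_pos.2 hK0r) (Real.sqrt_le_sqrt hkK)
      calc 8 * T' * (1 / (k : ℝ) ^ 2) ≤ 8 * T' * ((1 / Real.sqrt K0) * (1 / (k : ℝ) ^ (3 / 2 : ℝ))) :=
            mul_le_mul_of_nonneg_left h3 (by positivity)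
        _ = c0 * (1 / (k : ℝ) ^ (3 / 2 : ℝ)) := by rw [hc0]; ring
        _ ≤ _ := by
            have : 0 ≤ 8 * T * (1 / (k : ℝ) ^ 2) := by positivity
            linarith
  have hfin := hsum.norm_le_of_bounded hz hb
  have e4 : ∑ m ∈ I, ∑ n ∈ J, α m * β n * E m n *
      (π ^ 2 * (1 / 128 - Phi (((m * n : ℕ) : ℝ) / X) / 4)) =
      π ^ 2 * (1 / 128 * (∑ m ∈ I, ∑ n ∈ J, α m * β n * E m n) -
        (∑ m ∈ I, ∑ n ∈ J, α m * β n * Phi (((m * n : ℕ) : ℝ) / X) * E m n) / 4) := by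
    rw [mul_sum, sum_div, ← sum_sub_distrib, mul_sum]
    refine sum_congr rfl fun m _ => ?_
    rw [mul_sum, sum_div, ← sum_sub_distrib, mul_sum]
    refine sum_congr rfl fun n _ => ?_
    ring
  have hπ : 0 < π ^ 2 := by positivity
  have hπ8 : 8 ≤ π ^ 2 := by
    have := Real.pi_gt_three
    nlinarith
  have hZ0 : 0 ≤ Z := tsum_nonneg fun n => by positivity
  set c1 : ℝ := T' * (1 / Real.sqrt K0) * Z with hc1
  have hc1n : 0 ≤ c1 := by rw [hc1]; positivity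
  rw [e4, Real.norm_eq_abs, abs_mul, abs_of_pos hπ] at hfin
  have h5 : |1 / 128 * (∑ m ∈ I, ∑ n ∈ J, α m * β n * E m n) -
        (∑ m ∈ I, ∑ n ∈ J, α m * β n * Phi (((m * n : ℕ) : ℝ) / X) * E m n) / 4| ≤ 4 / 3 * T + c1 := by
    have : π ^ 2 * |1 / 128 * (∑ m ∈ I, ∑ n ∈ J, α m * β n * E m n) -
        (∑ m ∈ I, ∑ n ∈ J, α m * β n * Phi (((m * n : ℕ) : ℝ) / X) * E m n) / 4| ≤
        π ^ 2 * (4 / 3 * T + c1) := by
      refine hfin.trans ?_
      have h6 : c0 * Z = 8 * c1 := by rw [hc0, hc1]; ring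
      rw [h6]
      nlinarith
    exact le_of_mul_le_mul_left this hπ
  rw [abs_le] at h5 hT0 ⊢
  constructor <;> linarith [h5.1, h5.2, hT0.1, hT0.2]

end Pool.Agent.K9h6.N.Bx
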