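import Mathlib
import Pool.Agent.K9h6.N.Bxs1

/-! Project K9h6/N, task T4b: smooth bilinear sums with the weight `Phi`. -/

set_option autoImplicit false

open Finset Filter

namespace Pool.Agent.K9h6.N.Bx

open Pool.Agent.Y826.Z Pool.Agent.Y674.ZB
open Pool.Agent.H378R2 (Phi)
open scoped Real

lemma ev_tau128 (J : ℕ) {ε : ℝ} (hε : 0 < ε) : ∀ᶠ X : ℝ in atTop, ∀ n : ℕ, 1 ≤ n → (n : ℝ) ≤ 128 * X →
    tau n ^ J * Real.log X ≤ X ^ ε := by
  have h1 : Tendsto (fun X : ℝ => 128 * X) atTop atTop := tendsto_id.const_mul_atTop (by norm_num)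
  have h2 := h1.eventually (Pool.Agent.K9h6.N.Tii.ev_tauJ J (show 0 < ε / 2 by positivity))
  filter_upwards [h2, eventually_ge_atTop 1, Pool.Agent.Y61.Z.ev_rpow (128 ^ (ε / 2)) (show 0 < ε / 2 by positivity)]
    with X h3 hX1 h4 n hn hnX
  have hX0 : 0 < X := by linarith
  have h5 := h3 n hn hnX
  have h6 : Real.log X ≤ Real.log (128 * X) := Real.log_le_log hX0 (by linarith)
  calc tau n ^ J * Real.log X ≤ tau n ^ J * Real.log (128 * X) :=
        mul_le_mul_of_nonneg_left h6 (pow_nonneg (Pool.Agent.Y61.Z.tau_nonneg _) _)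
    _ ≤ (128 * X) ^ (ε / 2) := h5
    _ = 128 ^ (ε / 2) * X ^ (ε / 2) := Real.mul_rpow (by norm_num) hX0.le
    _ ≤ X ^ (ε / 2) * X ^ (ε / 2) := mul_le_mul_of_nonneg_right h4 (by positivity)
    _ = X ^ ε := by rw [← Real.rpow_add hX0]; congr 1; ring

/-- the trivial bound for large `X` -/
lemma ev_dl {K : ℕ} (h : Fin K → ℤ) {W b : ℕ} (H : Hyp h W b) (B : ℕ) (hB : 1 ≤ B) {ε : ℝ} (hε : 0 < ε) :
    ∀ᶠ X : ℝ in atTop, ∀ S : Finset (Fin K → ℕ), (∀ q ∈ S, Squarefree (W * Pr q)) →
    (∀ q ∈ S, ((W * Pr q : ℕ) : ℝ) ≤ X) → ∀ x : ℕ, X / 16 < x → (x : ℝ) ≤ 64 * X →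
    ∑ q ∈ S, |dl h W b (D0 X B) q x| ≤ X ^ ε := by
  have hη : 0 < ε / (2 * (K + 1)) := by positivity
  filter_upwards [ev_tau128 (K + 1) hη, Pool.Agent.Y61.Z.ev_log (W + 2), eventually_ge_atTop 1,
    Pool.Agent.Y61.Z.ev_log_rpow (tau W ^ K * 2 * 2 ^ (2 ^ (K + 1) * K)) (2 ^ (K + 1) * K) (show 0 < ε / 2 by positivity),
    eventually_ge_atTop (16 * ((∑ j, (h j).natAbs : ℕ) + 1 : ℝ))] with X h1 h2 hX1 h4 h5
  intro S hS hSX x hx1 hx2
  have hX0 : 0 < X := by linarith
  have hW0 : (0 : ℝ) ≤ W := Nat.cast_nonneg _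
  have hl1 : 1 ≤ Real.log X := by linarith
  have hlB : Real.log X ≤ Real.log X ^ B := le_self_pow₀ hl1 (by omega)
  have hDW : ∀ p : ℕ, p.Prime → p ∣ W → p ≤ D0 X B := by
    intro p _ hpW
    have h6 : p ≤ W := Nat.le_of_dvd H.wpos hpW
    refine h6.trans (Nat.le_floor ?_)
    linarith
  have hsum : ∀ j, (h j).natAbs ≤ ∑ j, (h j).natAbs := fun j =>
    single_le_sum (f := fun j => (h j).natAbs) (fun _ _ => Nat.zero_le _) (mem_univ j)
  have hSx : ((∑ j, (h j).natAbs : ℕ) : ℝ) + 1 ≤ X / 16 := by linarith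
  have hnz : ∀ j, (x : ℤ) + h j ≠ 0 := by
    intro j h0
    have h7 : x ≤ ∑ j, (h j).natAbs := by
      have := hsum j
      omega
    have h8 : (x : ℝ) ≤ ((∑ j, (h j).natAbs : ℕ) : ℝ) := by exact_mod_cast h7
    linarith
  have h9 := dl_triv h H hDW S hS (F := ⌊X⌋₊) (fun q hq => Nat.le_floor (hSX q hq)) hnz
  refine h9.trans ?_
  have hF1 : 1 ≤ ⌊X⌋₊ := Nat.le_floor (by push_cast; exact hX1)
  have hlF : Real.log (⌊X⌋₊ : ℝ) ≤ Real.log X :=
    Real.log_le_log (by exact_mod_cast hF1) (Nat.floor_le hX0.le)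
  have hlF0 : 0 ≤ Real.log (⌊X⌋₊ : ℝ) := Real.log_natCast_nonneg _
  set e := 2 ^ (K + 1) * K with he
  have h10 : 1 + (1 + Real.log (⌊X⌋₊ : ℝ)) ^ e ≤ 2 * 2 ^ e * Real.log X ^ e := by
    have h11 : (1 + Real.log (⌊X⌋₊ : ℝ)) ^ e ≤ (2 * Real.log X) ^ e :=
      pow_le_pow_left₀ (by linarith) (by linarith) _
    have h12 : 1 ≤ (2 * Real.log X) ^ e := one_le_pow₀ (by linarith)
    calc 1 + (1 + Real.log (⌊X⌋₊ : ℝ)) ^ e ≤ 2 * (2 * Real.log X) ^ e := by linarith
      _ = _ := by rw [mul_pow]; ring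
  have hτW : 0 ≤ tau W ^ K := pow_nonneg (Pool.Agent.Y61.Z.tau_nonneg _) _
  have h13 : tau W ^ K * (1 + (1 + Real.log (⌊X⌋₊ : ℝ)) ^ e) ≤ X ^ (ε / 2) := by
    calc tau W ^ K * (1 + (1 + Real.log (⌊X⌋₊ : ℝ)) ^ e) ≤ tau W ^ K * (2 * 2 ^ e * Real.log X ^ e) :=
          mul_le_mul_of_nonneg_left h10 hτW
      _ = tau W ^ K * 2 * 2 ^ e * Real.log X ^ e := by ring
      _ ≤ X ^ (ε / 2) := h4
  have h14 : ∏ j, tau ((x : ℤ) + h j).natAbs ^ (K + 1) ≤ X ^ (ε / 2) := by
    have h15 : ∀ j, tau ((x : ℤ) + h j).natAbs ^ (K + 1) ≤ X ^ (ε / (2 * (K + 1))) := by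
      intro j
      have h16 : (((x : ℤ) + h j).natAbs : ℝ) ≤ 128 * X := by
        have h17 : ((x : ℤ) + h j).natAbs ≤ x + ∑ j, (h j).natAbs := by
          have := hsum j
          have := Int.natAbs_add_le (x : ℤ) (h j)
          rw [Int.natAbs_natCast] at this
          omega
        have h18 : (((x : ℤ) + h j).natAbs : ℝ) ≤ ((x + ∑ j, (h j).natAbs : ℕ) : ℝ) := by exact_mod_cast h17
        rw [Nat.cast_add] at h18
        linarith
      have h19 := h1 ((x : ℤ) + h j).natAbs (Int.natAbs_pos.2 (hnz j)) h16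
      refine le_trans ?_ h19
      apply le_mul_of_one_le_right (pow_nonneg (Pool.Agent.Y61.Z.tau_nonneg _) _) hl1
    calc ∏ j, tau ((x : ℤ) + h j).natAbs ^ (K + 1) ≤ ∏ _j : Fin K, X ^ (ε / (2 * (K + 1))) :=
          prod_le_prod (fun j _ => pow_nonneg (Pool.Agent.Y61.Z.tau_nonneg _) _) fun j _ => h15 j
      _ = (X ^ (ε / (2 * (K + 1)))) ^ K := by rw [prod_const, card_univ, Fintype.card_fin]
      _ = X ^ (ε / (2 * (K + 1)) * K) := by rw [← Real.rpow_natCast, ← Real.rpow_mul hX0.le]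
      _ ≤ X ^ (ε / 2) := by
          apply Real.rpow_le_rpow_of_exponent_le hX1
          rw [div_mul_eq_mul_div, div_le_div_iff₀ (by positivity) (by norm_num)]
          nlinarith
  calc tau W ^ K * (1 + (1 + Real.log (⌊X⌋₊ : ℝ)) ^ e) * ∏ j, tau ((x : ℤ) + h j).natAbs ^ (K + 1) ≤
        X ^ (ε / 2) * X ^ (ε / 2) := by
        apply mul_le_mul h13 h14 _ (by positivity)
        exact prod_nonneg fun j _ => pow_nonneg (Pool.Agent.Y61.Z.tau_nonneg _) _
    _ = X ^ ε := by rw [← Real.rpow_add hX0]; congr 1; ring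

/-- **T4b** -/
theorem bxs (hT : S_TIIS) : S_BXS := by
  intro K h W b hyp δ hδ hδ1
  obtain ⟨ε, hε, H⟩ := hT K h W b hyp δ hδ
  refine ⟨ε, hε, fun J A => ?_⟩
  obtain ⟨B0, HB⟩ := H J (A + 3)
  refine ⟨max B0 1, fun B hB => ?_⟩
  have hBB0 : B0 ≤ B := (le_max_left _ _).trans hB
  have hBB1 : 1 ≤ B := (le_max_right _ _).trans hB
  set η : ℝ := ε / 24 with hη
  have hη0 : 0 < η := by positivity
  set Zc : ℝ := ∑' n : ℕ, 1 / (n : ℝ) ^ (3 / 2 : ℝ) with hZc
  have hZc0 : 0 ≤ Zc := tsum_nonneg fun n => by positivity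
  filter_upwards [HB B hBB0, Pool.Agent.Y61.Z.ev_log 28, eventually_ge_atTop 3,
    ev_tau128 J hη0, ev_dl h hyp B hBB1 hη0,
    Pool.Agent.Y61.Z.ev_log_rpow (128 * Zc) (A + 3) (show 0 < ε / 8 by positivity),
    Pool.Agent.Y61.Z.ev_log_rpow 2 1 (show 0 < ε / 2 by positivity),
    Pool.Agent.Y61.Z.ev_rpow 4 (show (0 : ℝ) < 1 / 2 by norm_num),
    Pool.Agent.Y61.Z.ev_rpow (W * 2 ^ K) (show (0 : ℝ) < 9 / 20 by norm_num),
    Pool.Agent.Y61.Z.ev_rpow 4 (show 0 < ε / 2 by positivity)] with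
    X HX hX2 hX3 htau hdl hZX htv hX4 hWK hK4
  intro Q hQ hQ1 hG S hS c hc N hN1 hN2 α g hα hg
  have hX0 : 0 < X := by linarith
  have hX1 : 1 ≤ X := by linarith
  have hL : 0 < Real.log X := by linarith
  have hL1 : 1 ≤ Real.log X := by linarith
  obtain ⟨n3, hn3⟩ : ∃ n3, n3 = ⌊3 * X⌋₊ := ⟨_, rfl⟩
  rw [← hn3]
  have hn3X : (n3 : ℝ) ≤ 3 * X := by rw [hn3]; exact Nat.floor_le (by positivity)
  -- the size of `N`
  have hNX : 4 * (N : ℝ) ≤ X := by
    have h1 : X ^ (3 / 8 + δ : ℝ) ≤ X ^ (1 / 2 : ℝ) :=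
      Real.rpow_le_rpow_of_exponent_le hX1 (by linarith)
    have h2 : X ^ (1 / 2 : ℝ) * X ^ (1 / 2 : ℝ) = X := by rw [← Real.rpow_add hX0]; norm_num
    have h3 : 0 < X ^ (1 / 2 : ℝ) := by positivity
    nlinarith
  have hN0 : 0 < N := by
    have h1 : (1 : ℝ) ≤ X ^ (5 / 16 - δ : ℝ) := Real.one_le_rpow hX1 (by linarith)
    have h2 : (1 : ℝ) ≤ N := h1.trans hN1
    exact_mod_cast h2
  have hNr : (0 : ℝ) < N := by exact_mod_cast hN0
  have hlogN : Real.log ((2 * N + 1 : ℕ) : ℝ) ≤ Real.log X := by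
    apply Real.log_le_log (by positivity)
    push_cast
    have : (1 : ℝ) ≤ N := by exact_mod_cast hN0
    linarith
  -- the number of blocks
  obtain ⟨I, hI⟩ : ∃ I, I = Nat.log 2 n3 + 1 := ⟨_, rfl⟩
  have hI1 : n3 ≤ 2 ^ I * 1 := by
    have h1 : n3 < 2 ^ I := by rw [hI]; exact Nat.lt_pow_succ_log_self (by norm_num) _
    omega
  have hn30 : n3 ≠ 0 := by
    rw [hn3]
    exact (Nat.floor_pos.2 (by linarith)).ne'
  have hI2 : (I : ℝ) ≤ 4 * Real.log X := by
    have h1 : (2 : ℝ) ^ (Nat.log 2 n3) ≤ n3 := by exact_mod_cast Nat.pow_log_le_self 2 hn30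
    have h2 : (n3 : ℝ) ≤ X ^ 2 := by nlinarith
    have h3 := Real.log_le_log (by positivity) (h1.trans h2)
    rw [Real.log_pow, Real.log_pow] at h3
    have h4 := Real.log_two_gt_d9
    push_cast at h3
    have h5 : (Nat.log 2 n3 : ℝ) * 0.69 ≤ Nat.log 2 n3 * Real.log 2 :=
      mul_le_mul_of_nonneg_left (by linarith) (Nat.cast_nonneg _)
    rw [hI]
    push_cast
    linarith
  obtain ⟨T, hTd⟩ : ∃ T, T = X / (Real.log X) ^ (A + 3) := ⟨_, rfl⟩
  have hT0 : 0 ≤ T := by rw [hTd]; positivity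
  -- the coefficients
  obtain ⟨α', hα'⟩ : ∃ α' : ℕ → ℝ, α' = fun m => if m ≤ n3 then α m else 0 := ⟨_, rfl⟩
  have hτ0 : ∀ m, 0 ≤ tau m := Pool.Agent.Y61.Z.tau_nonneg
  have hα'b : ∀ m, |α' m| ≤ tau m ^ J * Real.log X := by
    intro m
    rw [hα']
    by_cases hm : m ≤ n3
    · simp only [if_pos hm]; exact hα m
    · simp only [if_neg hm, abs_zero]
      have := hτ0 m
      positivity
  have hgb : ∀ n ∈ Ioc N (2 * N), |g n| ≤ Real.log X := by
    intro n hn
    rw [mem_Ioc] at hn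
    rcases hg with hg | hg
    · rw [hg, abs_one]; exact hL1
    · rw [hg, abs_of_nonneg (Real.log_natCast_nonneg _)]
      refine le_trans ?_ hlogN
      apply Real.log_le_log
      · exact_mod_cast (by omega : 0 < n)
      · exact_mod_cast (by omega : n ≤ 2 * N + 1)
  obtain ⟨E, hE⟩ : ∃ E : ℕ → ℕ → ℝ, E = fun m n => ∑ q ∈ S, c q * dl h W b (D0 X B) q (m * n) :=
    ⟨_, rfl⟩
  have hswap : ∀ (I J' : Finset ℕ) (a b' : ℕ → ℝ), ∑ m ∈ I, ∑ n ∈ J', a m * b' n * E m n =
      ∑ q ∈ S, c q * ∑ m ∈ I, ∑ n ∈ J', a m * b' n * dl h W b (D0 X B) q (m * n) := by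
    intro I J' a b'
    simp only [hE, mul_sum]
    symm
    rw [sum_comm]
    refine sum_congr rfl fun m _ => ?_
    rw [sum_comm]
    refine sum_congr rfl fun n _ => sum_congr rfl fun q _ => ?_
    ring
  -- the moduli
  have hPrq : ∀ q ∈ S, ((W * Pr q : ℕ) : ℝ) ≤ X := by
    intro q hq
    have h1 : (Pr q : ℝ) ≤ 2 ^ K * ∏ j, Q j := by
      unfold Pr
      push_cast
      calc ∏ j, (q j : ℝ) ≤ ∏ j, (2 * Q j) :=
            prod_le_prod (fun j _ => Nat.cast_nonneg _) fun j _ => ((hS q hq).2.1 j).2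
        _ = 2 ^ K * ∏ j, Q j := by
            rw [prod_mul_distrib, prod_const, card_univ, Fintype.card_fin]
    push_cast
    calc (W : ℝ) * Pr q ≤ W * (2 ^ K * X ^ (11 / 20 : ℝ)) := by
          apply mul_le_mul_of_nonneg_left _ (Nat.cast_nonneg _)
          exact h1.trans (mul_le_mul_of_nonneg_left hQ1 (by positivity))
      _ = (W * 2 ^ K) * X ^ (11 / 20 : ℝ) := by ring
      _ ≤ X ^ (9 / 20 : ℝ) * X ^ (11 / 20 : ℝ) := mul_le_mul_of_nonneg_right hWK (by positivity)
      _ = X := by rw [← Real.rpow_add hX0]; norm_num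
  have hEb : ∀ m n : ℕ, X / 16 < ((m * n : ℕ) : ℝ) → ((m * n : ℕ) : ℝ) ≤ 64 * X → |E m n| ≤ X ^ η := by
    intro m n h1 h2
    rw [hE]
    simp only
    refine (abs_sum_le_sum_abs _ _).trans ?_
    refine le_trans (sum_le_sum fun q _ => ?_) (hdl S (fun q hq => (hS q hq).1) hPrq (m * n) h1 h2)
    rw [abs_mul]
    exact mul_le_of_le_one_left (abs_nonneg _) (hc q)
  -- the parameter
  obtain ⟨K0, hK0⟩ : ∃ K0, K0 = ⌊X ^ (ε / 2)⌋₊ := ⟨_, rfl⟩
  have hK01 : 1 ≤ K0 := by
    rw [hK0]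
    exact Nat.le_floor (by norm_num; linarith)
  have hK0le : (K0 : ℝ) ≤ X ^ (ε / 2) := by rw [hK0]; exact Nat.floor_le (by positivity)
  have hK0ge : X ^ (ε / 2) / 4 ≤ K0 := by
    have := Nat.lt_floor_add_one (X ^ (ε / 2))
    rw [← hK0] at this
    linarith
  have hsK0 : X ^ (ε / 4) / 2 ≤ Real.sqrt K0 := by
    apply Real.le_sqrt_of_sq_le
    refine le_trans (le_of_eq ?_) hK0ge
    rw [div_pow, ← Real.rpow_natCast, ← Real.rpow_mul hX0.le]
    norm_num
    congr 1
    ring_nf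
  -- one block
  have hblock : ∀ M : ℕ, 1 ≤ M →
      |∑ m ∈ Ioc M (2 * M), ∑ n ∈ Ioc N (2 * N),
        α' m * g n * Phi (((m * n : ℕ) : ℝ) / X) * E m n| ≤ 7 * T := by
    intro M hM
    by_cases hc1 : X / 16 ≤ (M : ℝ) * N
    · by_cases hc2 : (M : ℝ) * N ≤ 16 * X
      · obtain ⟨gg, hg2, hgS⟩ := hG.2 M N hc1 hc2 hN1 hN2
        have hpair : ∀ m ∈ Ioc M (2 * M), ∀ n ∈ Ioc N (2 * N),
            X / 16 < ((m * n : ℕ) : ℝ) ∧ ((m * n : ℕ) : ℝ) ≤ 64 * X := by
          intro m hm n hn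
          rw [mem_Ioc] at hm hn
          have a1 : (M : ℝ) < m := by exact_mod_cast hm.1
          have a2 : (m : ℝ) ≤ 2 * M := by exact_mod_cast hm.2
          have b1 : (N : ℝ) < n := by exact_mod_cast hn.1
          have b2 : (n : ℝ) ≤ 2 * N := by exact_mod_cast hn.2
          have hM0 : (0 : ℝ) ≤ M := Nat.cast_nonneg _
          rw [Nat.cast_mul]
          constructor
          · calc X / 16 ≤ (M : ℝ) * N := hc1
              _ < m * n := mul_lt_mul'' a1 b1 hM0 hNr.le
          · calc (m : ℝ) * n ≤ (2 * M) * (2 * N) := mul_le_mul a2 b2 (by linarith) (by positivity)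
              _ = 4 * (M * N) := by ring
              _ ≤ 64 * X := by linarith
        have hmain : ∀ (a : ℕ → ℝ) (Bf : ℕ → ℝ) (k : ℕ), k ≤ K0 → (∀ m, |a m| ≤ |α' m|) → (∀ n, |Bf n| ≤ 1) →
            (∀ n : ℕ, 0 < n → |Bf (n + 1) - Bf n| ≤ k / n) →
            |∑ m ∈ Ioc M (2 * M), ∑ n ∈ Ioc N (2 * N), a m * (g n * Bf n) * E m n| ≤ T := by
          intro a Bf k hk ha hBf hBfd
          rw [hswap, hTd]
          refine HX M N Q gg hQ hg2 hgS S hS c hc a (fun n => g n * Bf n)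
            (fun m _ => (ha m).trans (hα'b m)) (fun n hn => ?_) ?_
          · rw [abs_mul]
            have h1 : |g n| * |Bf n| ≤ Real.log X * 1 :=
              mul_le_mul (hgb n hn) (hBf n) (abs_nonneg _) hL.le
            rw [mem_Ioc] at hn
            have h2 : 1 ≤ tau n ^ J := one_le_pow₀ (Pool.Agent.Y61.Z.one_le_tau (by omega))
            nlinarith
          · have h1 := TV_bound N k hN0 (Real.log X) hlogN hL1 g hg Bf hBf hBfd
            refine h1.trans ?_
            have h2 : (k : ℝ) ≤ X ^ (ε / 2) := le_trans (by exact_mod_cast hk) hK0le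
            rw [pow_one] at htv
            have h3 : 1 ≤ Real.log X * X ^ (ε / 2) := by
              have : 1 ≤ X ^ (ε / 2) := by linarith
              nlinarith
            calc 1 + Real.log X * k ≤ Real.log X * X ^ (ε / 2) + Real.log X * X ^ (ε / 2) := by
                  gcongr
              _ = (2 * Real.log X) * X ^ (ε / 2) := by ring
              _ ≤ X ^ (ε / 2) * X ^ (ε / 2) := mul_le_mul_of_nonneg_right htv (by positivity)
              _ = X ^ ε := by rw [← Real.rpow_add hX0]; congr 1; ring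
        set T' : ℝ := 16 * X * (X ^ η * X ^ η * X ^ η) with hT'
        have htriv : ∀ a b' : ℕ → ℝ, (∀ m, |a m| ≤ |α' m|) → (∀ n, |b' n| ≤ |g n|) →
            |∑ m ∈ Ioc M (2 * M), ∑ n ∈ Ioc N (2 * N), a m * b' n * E m n| ≤ T' := by
          intro a b' ha hb'
          refine (abs_sum_le_sum_abs _ _).trans ?_
          have h1 : ∀ m ∈ Ioc M (2 * M), |∑ n ∈ Ioc N (2 * N), a m * b' n * E m n| ≤
              N * (X ^ η * X ^ η * X ^ η) := by
            intro m hm
            refine (abs_sum_le_sum_abs _ _).trans ?_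
            have h2 : ∀ n ∈ Ioc N (2 * N), |a m * b' n * E m n| ≤ X ^ η * X ^ η * X ^ η := by
              intro n hn
              obtain ⟨p1, p2⟩ := hpair m hm n hn
              have h3 := hEb m n p1 p2
              rw [abs_mul, abs_mul]
              have h4 : |a m| ≤ X ^ η := by
                by_cases hm3 : m ≤ n3
                · refine ((ha m).trans (hα'b m)).trans (htau m ?_ ?_)
                  · rw [mem_Ioc] at hm; omega
                  · have : (m : ℝ) ≤ n3 := by exact_mod_cast hm3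
                    linarith
                · have h5 : α' m = 0 := by rw [hα']; simp only [if_neg hm3]
                  have h6 := ha m
                  rw [h5, abs_zero] at h6
                  exact h6.trans (by positivity)
              have h5 : |b' n| ≤ X ^ η := by
                refine (hb' n).trans ((hgb n hn).trans ?_)
                have h6 := htau 1 le_rfl (by push_cast; linarith)
                have h7 : tau 1 = 1 := by simp [tau]
                rw [h7, one_pow, one_mul] at h6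
                exact h6
              gcongr
            refine (sum_le_sum h2).trans ?_
            rw [sum_const, Nat.card_Ioc, nsmul_eq_mul]
            have : ((2 * N - N : ℕ) : ℝ) = N := by
              congr 1
              omega
            rw [this]
          refine (sum_le_sum h1).trans ?_
          rw [sum_const, Nat.card_Ioc, nsmul_eq_mul]
          have : ((2 * M - M : ℕ) : ℝ) = M := by
            congr 1
            omega
          rw [this, hT']
          have h8 : 0 ≤ X ^ η * X ^ η * X ^ η := by positivity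
          calc (M : ℝ) * (N * (X ^ η * X ^ η * X ^ η)) = (M * N) * (X ^ η * X ^ η * X ^ η) := by ring
            _ ≤ 16 * X * (X ^ η * X ^ η * X ^ η) := mul_le_mul_of_nonneg_right hc2 h8
        have hfin := sepS hX0 (Ioc M (2 * M)) (Ioc N (2 * N)) E α' g T T' K0 hK01
          (fun k hk a ha => ⟨hmain a (fun n => B1 X k n / 4) k hk ha (B1b X k) (B1d X k),
            hmain a (fun n => B2 X k n / 4) k hk ha (B2b X k) (B2d X k)⟩)
          (by
            have := hmain α' (fun _ => 1) 0 (Nat.zero_le _) (fun _ => le_rfl) (fun _ => by simp)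
              (fun n hn => by simp)
            simpa only [mul_one] using this)
          htriv (fun m hm => by rw [mem_Ioc] at hm; omega)
          (fun n hn => by rw [mem_Ioc] at hn; omega)
          (fun m hm n hn => block_log hX0 hc1 hc2 hm hn)
        refine hfin.trans ?_
        have h9 : 4 * (T' * (1 / Real.sqrt K0) * Zc) ≤ T := by
          have h10 : 1 / Real.sqrt K0 ≤ 2 / X ^ (ε / 4) := by
            rw [div_le_div_iff₀ (lt_of_lt_of_le (by positivity) hsK0) (by positivity)]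
            linarith
          have h11 : X ^ η * X ^ η * X ^ η = X ^ (ε / 8) := by
            rw [← Real.rpow_add hX0, ← Real.rpow_add hX0]
            congr 1
            rw [hη]
            ring
          have hT'0 : 0 ≤ T' := by rw [hT']; positivity
          have h12 : X ^ (ε / 8) * X ^ (ε / 8) = X ^ (ε / 4) := by
            rw [← Real.rpow_add hX0]
            congr 1
            ring
          have h13 : 0 < X ^ (ε / 8) := by positivity
          calc 4 * (T' * (1 / Real.sqrt K0) * Zc) ≤ 4 * (T' * (2 / X ^ (ε / 4)) * Zc) := by gcongr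
            _ = X * (128 * Zc) * (X ^ (ε / 8) / X ^ (ε / 4)) := by rw [hT', h11]; ring
            _ = X * (128 * Zc) / X ^ (ε / 8) := by rw [← h12]; field_simp
            _ ≤ X / Real.log X ^ (A + 3) := by
                rw [div_le_div_iff₀ h13 (by positivity)]
                calc X * (128 * Zc) * Real.log X ^ (A + 3) = X * (128 * Zc * Real.log X ^ (A + 3)) := by ring
                  _ ≤ X * X ^ (ε / 8) := mul_le_mul_of_nonneg_left hZX hX0.le
            _ = T := by rw [hTd]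
        linarith
      · have : ∑ m ∈ Ioc M (2 * M), ∑ n ∈ Ioc N (2 * N),
            α' m * g n * Phi (((m * n : ℕ) : ℝ) / X) * E m n = 0 := by
          refine sum_eq_zero fun m hm => sum_eq_zero fun n hn => ?_
          rw [mem_Ioc] at hm hn
          rw [Phi_high, mul_zero, zero_mul]
          rw [le_div_iff₀ hX0, Nat.cast_mul]
          rw [not_le] at hc2
          have a1 : (M : ℝ) ≤ m := by exact_mod_cast hm.1.le
          have b1 : (N : ℝ) ≤ n := by exact_mod_cast hn.1.le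
          have := mul_le_mul a1 b1 (Nat.cast_nonneg _) ((Nat.cast_nonneg M).trans a1)
          linarith
        rw [this, abs_zero]
        positivity
    · have : ∑ m ∈ Ioc M (2 * M), ∑ n ∈ Ioc N (2 * N),
          α' m * g n * Phi (((m * n : ℕ) : ℝ) / X) * E m n = 0 := by
        refine sum_eq_zero fun m hm => sum_eq_zero fun n hn => ?_
        rw [mem_Ioc] at hm hn
        have hm0 : 0 < m := by omega
        have hn0 : 0 < n := by omega
        rw [Phi_low (by positivity), mul_zero, zero_mul]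
        rw [div_le_iff₀ hX0, Nat.cast_mul]
        rw [not_le] at hc1
        have a1 : (m : ℝ) ≤ 2 * M := by exact_mod_cast hm.2
        have b1 : (n : ℝ) ≤ 2 * N := by exact_mod_cast hn.2
        have := mul_le_mul a1 b1 (Nat.cast_nonneg _) (by positivity)
        linarith
      rw [this, abs_zero]
      positivity
  -- decomposition
  have hdec : ∑ q ∈ S, c q * ∑ m ∈ Icc 1 n3, ∑ n ∈ Ioc N (2 * N),
      α m * g n * Phi (((m * n : ℕ) : ℝ) / X) * dl h W b (D0 X B) q (m * n) =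
      ∑ i ∈ range I, ∑ m ∈ Ioc (2 ^ i * 1) (2 * (2 ^ i * 1)),
        ∑ n ∈ Ioc N (2 * N),
          α' m * g n * Phi (((m * n : ℕ) : ℝ) / X) * E m n := by
    have h1 : ∑ q ∈ S, c q * ∑ m ∈ Icc 1 n3, ∑ n ∈ Ioc N (2 * N),
        α m * g n * Phi (((m * n : ℕ) : ℝ) / X) * dl h W b (D0 X B) q (m * n) =
        ∑ m ∈ Icc 1 n3, ∑ n ∈ Ioc N (2 * N),
          α m * g n * Phi (((m * n : ℕ) : ℝ) / X) * E m n := by
      simp only [hE, mul_sum]
      rw [sum_comm]
      refine sum_congr rfl fun m _ => ?_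
      rw [sum_comm]
      refine sum_congr rfl fun n _ => sum_congr rfl fun q _ => ?_
      ring
    have hsub : Ioc 1 n3 ⊆ Ioc 1 (2 ^ I * 1) := Ioc_subset_Ioc_right hI1
    have hsub2 : Ioc 1 n3 ⊆ Icc 1 n3 := Ioc_subset_Icc_self
    have h2 : ∑ m ∈ Icc 1 n3, ∑ n ∈ Ioc N (2 * N),
          α m * g n * Phi (((m * n : ℕ) : ℝ) / X) * E m n =
        ∑ m ∈ Ioc 1 n3, ∑ n ∈ Ioc N (2 * N),
          α m * g n * Phi (((m * n : ℕ) : ℝ) / X) * E m n := by
      symm
      apply sum_subset hsub2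
      intro m hm hm2
      have hm1 : m = 1 := by
        rw [mem_Icc] at hm
        rw [mem_Ioc] at hm2
        by_contra h
        exact hm2 ⟨by omega, hm.2⟩
      subst hm1
      refine sum_eq_zero fun n hn => ?_
      rw [mem_Ioc] at hn
      rw [Phi_low, mul_zero, zero_mul]
      · have : (0 : ℝ) < ((1 * n : ℕ) : ℝ) := by exact_mod_cast (by omega : 0 < 1 * n)
        positivity
      · rw [div_le_one hX0]
        have : ((1 * n : ℕ) : ℝ) ≤ 2 * N := by exact_mod_cast (by omega : 1 * n ≤ 2 * N)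
        linarith
    rw [h1, h2, ← dyadic]
    rw [← sum_subset hsub]
    · refine sum_congr rfl fun m hm => ?_
      rw [mem_Ioc] at hm
      rw [hα']
      simp only [if_pos hm.2]
    · intro m hm hm2
      rw [mem_Ioc] at hm hm2
      have : ¬ m ≤ n3 := fun h => hm2 ⟨hm.1, h⟩
      refine sum_eq_zero fun n _ => ?_
      rw [hα']
      simp only [if_neg this, zero_mul]
  rw [hdec]
  calc |∑ i ∈ range I, ∑ m ∈ Ioc (2 ^ i * 1) (2 * (2 ^ i * 1)),
        ∑ n ∈ Ioc N (2 * N),
          α' m * g n * Phi (((m * n : ℕ) : ℝ) / X) * E m n|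
      ≤ ∑ i ∈ range I, 7 * T := by
        refine (abs_sum_le_sum_abs _ _).trans (sum_le_sum fun i _ => ?_)
        exact hblock _ (Nat.le_mul_of_pos_left _ (by positivity))
    _ = (I : ℝ) * (7 * T) := by
        rw [sum_const, card_range, nsmul_eq_mul]
    _ ≤ (4 * Real.log X) * (7 * T) :=
        mul_le_mul_of_nonneg_right hI2 (by positivity)
    _ = 28 / Real.log X * (1 / Real.log X) * (X / (Real.log X) ^ A) := by
        rw [hTd, pow_add]
        field_simp
        ring
    _ ≤ 1 * 1 * (X / (Real.log X) ^ A) := by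
        refine mul_le_mul_of_nonneg_right ?_ (by positivity)
        apply mul_le_mul _ _ (by positivity) zero_le_one
        · rw [div_le_one hL]
          exact hX2
        · rw [div_le_one hL]
          exact hL1
    _ = X / (Real.log X) ^ A := by ring

end Pool.Agent.K9h6.N.Bx
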