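import Mathlib
import Pool.Agent.K9h6.N.Defs
import Pool.Agent.Y818.YZ.Lam

/-! T6, part 1: Heath-Brown's identity (`J = 4`), dyadic pieces, bounds (helper6). -/

set_option autoImplicit false

open Finset Filter

namespace Pool.Agent.K9h6.N.La

open Pool.Agent.Y826.Z
open Pool.Agent.Y818.YZ (box Phi_low Phi_high tau_ge_one tau_nonneg)

/-- the arithmetic function `1` on the positive integers -/
noncomputable abbrev zr : ArithmeticFunction ℝ := ((ArithmeticFunction.zeta : ArithmeticFunction ℕ) : ArithmeticFunction ℝ)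

/-- the truncated Möbius function -/
noncomputable def Mz (z : ℕ) : ArithmeticFunction ℝ :=
  ⟨fun n => if n ≤ z then ((ArithmeticFunction.moebius n : ℤ) : ℝ) else 0, by simp⟩

theorem Mz_apply (z n : ℕ) : Mz z n = if n ≤ z then ((ArithmeticFunction.moebius n : ℤ) : ℝ) else 0 := rfl

/-- evaluation at `n` as an additive homomorphism -/
noncomputable def evn (n : ℕ) : ArithmeticFunction ℝ →+ ℝ where
  toFun f := f n
  map_zero' := by simp
  map_add' f g := by simp

theorem mul_vanish {f g : ArithmeticFunction ℝ} {a b : ℕ} (hf : ∀ n, n < a → f n = 0)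
    (hg : ∀ n, n < b → g n = 0) : ∀ n, n < a * b → (f * g) n = 0 := by
  intro n hn
  rw [ArithmeticFunction.mul_apply]
  refine Finset.sum_eq_zero fun p hp => ?_
  have hp' := Nat.mem_divisorsAntidiagonal.1 hp
  by_cases h1 : p.1 < a
  · rw [hf _ h1, zero_mul]
  · by_cases h2 : p.2 < b
    · rw [hg _ h2, mul_zero]
    · exfalso
      have := Nat.mul_le_mul (not_lt.1 h1) (not_lt.1 h2)
      rw [hp'.1] at this
      omega

theorem pow_vanish {f : ArithmeticFunction ℝ} {a : ℕ} (hf : ∀ n, n < a → f n = 0) (j : ℕ) :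
    ∀ n, n < a ^ (j + 1) → (f ^ (j + 1)) n = 0 := by
  induction j with
  | zero => simpa using hf
  | succ j ih =>
    intro n hn
    rw [pow_succ]
    rw [pow_succ] at hn
    exact mul_vanish ih hf n hn

theorem eta_vanish (z : ℕ) (hz : 1 ≤ z) : ∀ n, n < z + 1 → (1 - zr * Mz z) n = 0 := by
  intro n hn
  rcases Nat.eq_zero_or_pos n with h0 | h0
  · subst h0; simp
  have h1 : (zr * Mz z) n = (zr *
        ((ArithmeticFunction.moebius : ArithmeticFunction ℤ) : ArithmeticFunction ℝ)) n := by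
    rw [ArithmeticFunction.coe_zeta_mul_apply, ArithmeticFunction.coe_zeta_mul_apply]
    refine Finset.sum_congr rfl fun d hd => ?_
    have hd' : d ≤ z := (Nat.divisor_le hd).trans (by omega)
    simp [Mz, hd']
  have h2 : (1 - zr * Mz z) n = (1 : ArithmeticFunction ℝ) n - (zr * Mz z) n := by
    exact map_sub (evn n) (1 : ArithmeticFunction ℝ) (zr * Mz z)
  rw [h2, h1, ArithmeticFunction.coe_zeta_mul_coe_moebius, sub_self]

/-- the eight factors of the `j`-th term -/
noncomputable def FF (z j : ℕ) (k : Fin 8) : ArithmeticFunction ℝ :=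
  if k.val < 4 then (if k.val < j then Mz z else 1)
  else if k.val < 7 then (if k.val < j + 3 then zr else 1) else ArithmeticFunction.log

theorem hb (z n : ℕ) (hz : 1 ≤ z) (hnz : n < (z + 1) ^ 4) :
    ArithmeticFunction.vonMangoldt n = 4 * (∏ k, FF z 1 k) n - 6 * (∏ k, FF z 2 k) n +
      4 * (∏ k, FF z 3 k) n - (∏ k, FF z 4 k) n := by
  rcases Nat.eq_zero_or_pos n with h0 | h0
  · subst h0; simp
  set M := Mz z with hM
  have hE : ((ArithmeticFunction.vonMangoldt * (1 - zr * M) ^ 4 : ArithmeticFunction ℝ)) n = 0 := by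
    have h5 := pow_vanish (eta_vanish z hz) 3
    rw [ArithmeticFunction.mul_apply]
    refine Finset.sum_eq_zero fun p hp => ?_
    have hp' := Nat.mem_divisorsAntidiagonal.1 hp
    have hle : p.2 ≤ n := Nat.le_of_dvd (by omega) ⟨p.1, by rw [← hp'.1]; ring⟩
    rw [h5 p.2 (by simpa using lt_of_le_of_lt hle hnz), mul_zero]
  have hLz : ArithmeticFunction.vonMangoldt * zr = ArithmeticFunction.log :=
    ArithmeticFunction.vonMangoldt_mul_zeta
  have f1 : (∏ k, FF z 1 k) = M * ArithmeticFunction.log := by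
    simp [Fin.prod_univ_succ, FF, hM]
  have f2 : (∏ k, FF z 2 k) = M ^ 2 * zr * ArithmeticFunction.log := by
    simp [Fin.prod_univ_succ, FF, hM]
    ring
  have f3 : (∏ k, FF z 3 k) = M ^ 3 * zr ^ 2 * ArithmeticFunction.log := by
    simp [Fin.prod_univ_succ, FF, hM]
    ring
  have f4 : (∏ k, FF z 4 k) = M ^ 4 * zr ^ 3 * ArithmeticFunction.log := by
    simp [Fin.prod_univ_succ, FF, hM]
    ring
  have hid : (ArithmeticFunction.vonMangoldt : ArithmeticFunction ℝ) =
      ArithmeticFunction.vonMangoldt * (1 - zr * M) ^ 4 +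
      ((4 : ℤ) • (∏ k, FF z 1 k) + (-6 : ℤ) • (∏ k, FF z 2 k) +
       (4 : ℤ) • (∏ k, FF z 3 k) + (-1 : ℤ) • (∏ k, FF z 4 k)) := by
    rw [f1, f2, f3, f4, ← hLz]
    simp only [zsmul_eq_mul]
    push_cast
    ring
  have hev := congrArg (evn n) hid
  simp only [map_add, map_zsmul] at hev
  have e1 : evn n (ArithmeticFunction.vonMangoldt * (1 - zr * M) ^ 4) = 0 := hE
  rw [e1, zero_add] at hev
  have e2 : ∀ f : ArithmeticFunction ℝ, evn n f = f n := fun f => rfl
  simp only [e2, zsmul_eq_mul] at hev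
  rw [hev]
  push_cast
  ring

/-! ### pieces -/

/-- the part of `f` on `(2 ^ (i - 1), 2 ^ i]` -/
noncomputable def pc (i : ℕ) (f : ArithmeticFunction ℝ) : ArithmeticFunction ℝ :=
  ⟨fun n => if Nat.clog 2 n = i then f n else 0, by simp⟩

theorem pc_apply (i : ℕ) (f : ArithmeticFunction ℝ) (n : ℕ) :
    pc i f n = if Nat.clog 2 n = i then f n else 0 := rfl

theorem pc_le {i : ℕ} {f : ArithmeticFunction ℝ} {n : ℕ} (h : pc i f n ≠ 0) : n ≤ 2 ^ i := by
  rw [pc_apply] at h
  split_ifs at h with h1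
  · rw [← h1]
    exact Nat.le_pow_clog (by norm_num) n
  · exact absurd rfl h

theorem pc_ge {i : ℕ} {f : ArithmeticFunction ℝ} {n : ℕ} (h : pc i f n ≠ 0) : 2 ^ i ≤ 2 * n := by
  rw [pc_apply] at h
  split_ifs at h with h1
  · have h0 : n ≠ 0 := by
      intro h0
      rw [h0, ArithmeticFunction.map_zero] at h
      exact h rfl
    rcases Nat.eq_zero_or_pos i with hi | hi
    · rw [hi, pow_zero]; omega
    · have h2 : 2 ^ (i - 1) < n := by
        rw [← Nat.lt_clog_iff_pow_lt (by norm_num)]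
        omega
      have h3 : 2 ^ i = 2 ^ (i - 1) * 2 := by
        rw [← pow_succ]
        congr 1
        omega
      omega
  · exact absurd rfl h

/-- on an interval `(2 ^ (i - 1), 2 ^ i]`, `i ≥ 1` -/
theorem pc_mem {i : ℕ} (hi : 1 ≤ i) (n : ℕ) : Nat.clog 2 n = i ↔ n ∈ Ioc (2 ^ (i - 1)) (2 * 2 ^ (i - 1)) := by
  rw [mem_Ioc]
  have h3 : 2 * 2 ^ (i - 1) = 2 ^ i := by
    rw [mul_comm, ← pow_succ]
    congr 1
    omega
  rw [h3]
  constructor
  · intro h
    refine ⟨?_, ?_⟩
    · rw [← Nat.lt_clog_iff_pow_lt (by norm_num)]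
      omega
    · rw [← h]
      exact Nat.le_pow_clog (by norm_num) n
  · rintro ⟨h1, h2⟩
    rw [← Nat.lt_clog_iff_pow_lt (by norm_num)] at h1
    have h4 := Nat.clog_le_of_le_pow h2
    omega

/-! ### congruence up to `T` -/

theorem mul_congr' {T : ℕ} {f f' g g' : ArithmeticFunction ℝ} (hf : ∀ n, n ≤ T → f n = f' n)
    (hg : ∀ n, n ≤ T → g n = g' n) : ∀ n, n ≤ T → (f * g) n = (f' * g') n := by
  intro n hn
  rcases Nat.eq_zero_or_pos n with h0 | h0
  · subst h0; simp
  rw [ArithmeticFunction.mul_apply, ArithmeticFunction.mul_apply]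
  refine sum_congr rfl fun p hp => ?_
  have hp' := Nat.mem_divisorsAntidiagonal.1 hp
  have h1 : p.1 ≤ n := Nat.le_of_dvd h0 ⟨p.2, hp'.1.symm⟩
  have h2 : p.2 ≤ n := Nat.le_of_dvd h0 ⟨p.1, by rw [← hp'.1]; ring⟩
  rw [hf _ (h1.trans hn), hg _ (h2.trans hn)]

theorem prod_congr' {T : ℕ} {ι : Type*} [DecidableEq ι] (s : Finset ι) {F F' : ι → ArithmeticFunction ℝ}
    (hF : ∀ k ∈ s, ∀ n, n ≤ T → F k n = F' k n) : ∀ n, n ≤ T → (∏ k ∈ s, F k) n = (∏ k ∈ s, F' k) n := by
  induction s using Finset.induction_on with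
  | empty => intro n _; simp
  | insert a s ha ih =>
    rw [prod_insert ha, prod_insert ha]
    exact mul_congr' (hF a (mem_insert_self _ _)) (ih fun k hk => hF k (mem_insert_of_mem hk))

theorem sum_ev {ι : Type*} (s : Finset ι) (F : ι → ArithmeticFunction ℝ) (n : ℕ) :
    (∑ k ∈ s, F k) n = ∑ k ∈ s, F k n := by
  exact map_sum (evn n) F s

theorem sum_pc (I : ℕ) (f : ArithmeticFunction ℝ) (n : ℕ) (hn : n ≤ 2 ^ I) :
    (∑ i ∈ range (I + 1), pc i f) n = f n := by
  rw [sum_ev]
  simp only [pc_apply]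
  rw [sum_ite_eq]
  rw [if_pos]
  rw [mem_range]
  have := Nat.clog_le_of_le_pow (b := 2) hn
  omega

/-- the decomposition into boxes -/
theorem boxes (I : ℕ) (F : Fin 8 → ArithmeticFunction ℝ) (n : ℕ) (hn : n ≤ 2 ^ I) :
    (∏ k, F k) n = ∑ i ∈ Fintype.piFinset (fun _ : Fin 8 => range (I + 1)), (∏ k, pc (i k) (F k)) n := by
  rw [← sum_ev]
  have h := Finset.prod_univ_sum (fun _ : Fin 8 => range (I + 1)) (fun k i => pc i (F k))
  rw [← h]
  exact prod_congr' (T := 2 ^ I) univ (fun k _ m hm => (sum_pc I (F k) m hm).symm) n hn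

/-! ### supports of the products -/

theorem prod_le {F : Fin 8 → ArithmeticFunction ℝ} {i : Fin 8 → ℕ} (s : Finset (Fin 8)) :
    ∀ n, (∏ k ∈ s, pc (i k) (F k)) n ≠ 0 → n ≤ 2 ^ (∑ k ∈ s, i k) := by
  induction s using Finset.induction_on with
  | empty =>
    intro n hn
    rw [prod_empty, ArithmeticFunction.one_apply] at hn
    split_ifs at hn with h
    · simp [h]
    · exact absurd rfl hn
  | insert a s ha ih =>
    intro n hn
    rw [prod_insert ha, ArithmeticFunction.mul_apply] at hn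
    obtain ⟨p, hp, hp2⟩ := exists_ne_zero_of_sum_ne_zero hn
    have h1 := pc_le (left_ne_zero_of_mul hp2)
    have h2 := ih _ (right_ne_zero_of_mul hp2)
    rw [sum_insert ha, pow_add, ← (Nat.mem_divisorsAntidiagonal.1 hp).1]
    exact Nat.mul_le_mul h1 h2

theorem prod_ge {F : Fin 8 → ArithmeticFunction ℝ} {i : Fin 8 → ℕ} (s : Finset (Fin 8)) :
    ∀ n, (∏ k ∈ s, pc (i k) (F k)) n ≠ 0 → 2 ^ (∑ k ∈ s, i k) ≤ 2 ^ s.card * n := by
  induction s using Finset.induction_on with
  | empty =>
    intro n hn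
    rw [prod_empty, ArithmeticFunction.one_apply] at hn
    split_ifs at hn with h
    · simp [h]
    · exact absurd rfl hn
  | insert a s ha ih =>
    intro n hn
    rw [prod_insert ha, ArithmeticFunction.mul_apply] at hn
    obtain ⟨p, hp, hp2⟩ := exists_ne_zero_of_sum_ne_zero hn
    have h1 := pc_ge (left_ne_zero_of_mul hp2)
    have h2 := ih _ (right_ne_zero_of_mul hp2)
    rw [sum_insert ha, pow_add, card_insert_of_notMem ha, ← (Nat.mem_divisorsAntidiagonal.1 hp).1]
    calc 2 ^ i a * 2 ^ (∑ k ∈ s, i k) ≤ (2 * p.1) * (2 ^ s.card * p.2) := Nat.mul_le_mul h1 h2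
      _ = 2 ^ (s.card + 1) * (p.1 * p.2) := by rw [pow_succ]; ring

/-! ### bounds -/

theorem tau_mono {a b : ℕ} (hb : b ≠ 0) (h : a ∣ b) : tau a ≤ tau b := by
  unfold tau
  exact_mod_cast card_le_card (Nat.divisors_subset_of_dvd hb h)

theorem conv_bd {f g : ArithmeticFunction ℝ} {a : ℕ} {C D : ℝ} (hC : 0 ≤ C) (hD : 0 ≤ D)
    (hf : ∀ n, |f n| ≤ C) (hg : ∀ n, |g n| ≤ tau n ^ a * D) : ∀ n, |(f * g) n| ≤ tau n ^ (a + 1) * (C * D) := by
  intro n
  rcases Nat.eq_zero_or_pos n with h0 | h0
  · subst h0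
    rw [ArithmeticFunction.map_zero, abs_zero]
    have := tau_nonneg 0
    positivity
  rw [ArithmeticFunction.mul_apply]
  have ht := tau_nonneg n
  calc |∑ x ∈ n.divisorsAntidiagonal, f x.1 * g x.2|
      ≤ ∑ x ∈ n.divisorsAntidiagonal, C * (tau n ^ a * D) := by
        refine (abs_sum_le_sum_abs _ _).trans (sum_le_sum fun x hx => ?_)
        have hx' := Nat.mem_divisorsAntidiagonal.1 hx
        rw [abs_mul]
        refine mul_le_mul (hf _) ((hg _).trans ?_) (abs_nonneg _) hC
        have := tau_mono (b := n) (by omega) (show x.2 ∣ n from ⟨x.1, by rw [← hx'.1]; ring⟩)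
        have h3 := tau_nonneg x.2
        gcongr
    _ = tau n ^ (a + 1) * (C * D) := by
        rw [sum_const, nsmul_eq_mul]
        have : (n.divisorsAntidiagonal.card : ℝ) = tau n := by
          unfold tau
          have h4 := congrArg Finset.card (Nat.map_div_right_divisors (n := n))
          rw [card_map] at h4
          rw [h4]
        rw [this]
        ring

theorem prod_bd {G : Fin 8 → ArithmeticFunction ℝ} {C : Fin 8 → ℝ} (hC : ∀ k, 0 ≤ C k)
    (hG : ∀ k n, |G k n| ≤ C k) (s : Finset (Fin 8)) :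
    ∀ n, |(∏ k ∈ s, G k) n| ≤ tau n ^ s.card * ∏ k ∈ s, C k := by
  induction s using Finset.induction_on with
  | empty =>
    intro n
    rw [prod_empty, prod_empty, card_empty, pow_zero, ArithmeticFunction.one_apply]
    split_ifs <;> simp
  | insert a s ha ih =>
    rw [prod_insert ha, prod_insert ha, card_insert_of_notMem ha]
    exact conv_bd (hC a) (prod_nonneg fun k _ => hC k) (hG a) ih

theorem log_piece {i I : ℕ} (hi : i ≤ I) (n : ℕ) : |pc i ArithmeticFunction.log n| ≤ I * Real.log 2 := by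
  have h2 : 0 ≤ Real.log 2 := Real.log_nonneg (by norm_num)
  by_cases h : pc i ArithmeticFunction.log n = 0
  · rw [h, abs_zero]; positivity
  · have h1 := pc_le h
    rw [pc_apply] at h ⊢
    split_ifs at h ⊢ with h3
    · rw [ArithmeticFunction.log_apply]
      rcases Nat.eq_zero_or_pos n with h0 | h0
      · rw [h0]; simp; positivity
      · rw [abs_of_nonneg (Real.log_nonneg (by exact_mod_cast h0))]
        calc Real.log n ≤ Real.log ((2 : ℝ) ^ i) := Real.log_le_log (by exact_mod_cast h0) (by exact_mod_cast h1)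
          _ = i * Real.log 2 := Real.log_pow _ _
          _ ≤ I * Real.log 2 := by gcongr
    · exact absurd rfl h

theorem pc_abs (i : ℕ) {f : ArithmeticFunction ℝ} {C : ℝ} (hC : 0 ≤ C) (hf : ∀ n, |f n| ≤ C) (n : ℕ) :
    |pc i f n| ≤ C := by
  rw [pc_apply]
  split_ifs
  · exact hf n
  · rw [abs_zero]; exact hC

theorem FF_bd (z j : ℕ) (k : Fin 8) (hk : k ≠ 7) (n : ℕ) : |FF z j k n| ≤ 1 := by
  have hk7 : k.val < 7 := by
    have := k.isLt
    rcases Nat.lt_or_ge k.val 7 with h | h
    · exact h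
    · exact absurd (Fin.ext (by simp; omega)) hk
  have h1 : |(1 : ArithmeticFunction ℝ) n| ≤ 1 := by
    rw [ArithmeticFunction.one_apply]; split_ifs <;> simp
  unfold FF
  split_ifs
  · rw [Mz_apply]
    split_ifs
    · exact_mod_cast ArithmeticFunction.abs_moebius_le_one
    · simp
  · exact h1
  · rw [ArithmeticFunction.natCoe_apply, ArithmeticFunction.zeta_apply]
    split_ifs <;> simp
  · exact h1

/-- the bound for a partial product -/
theorem part_bd (z j I : ℕ) (i : Fin 8 → ℕ) (hi : ∀ k, i k ≤ I) (s : Finset (Fin 8)) (D : ℝ)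
    (hD : (I : ℝ) * Real.log 2 ≤ D) (hD1 : 1 ≤ D) (n : ℕ) :
    |(∏ k ∈ s, pc (i k) (FF z j k)) n| ≤ tau n ^ 8 * D := by
  have h0 := prod_bd (G := fun k => pc (i k) (FF z j k)) (C := fun k => if k = 7 then D else 1)
    (fun k => by split_ifs <;> linarith)
    (fun k m => by
      by_cases hk : k = 7
      · rw [if_pos hk]
        have : FF z j k = ArithmeticFunction.log := by
          subst hk
          simp [FF]
        rw [this]
        exact (log_piece (hi k) m).trans hD
      · rw [if_neg hk]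
        exact pc_abs _ zero_le_one (FF_bd z j k hk) m) s n
  have hprod : ∏ k ∈ s, (if k = 7 then D else (1 : ℝ)) ≤ D := by
    rw [prod_ite_eq' s 7 (fun _ => D)]
    split_ifs
    · exact le_rfl
    · exact hD1
  have hpn : 0 ≤ ∏ k ∈ s, (if k = 7 then D else (1 : ℝ)) := prod_nonneg fun k _ => by split_ifs <;> linarith
  rcases Nat.eq_zero_or_pos n with hn | hn
  · subst hn
    rw [ArithmeticFunction.map_zero, abs_zero]
    have := tau_nonneg 0
    positivity
  · have ht := tau_ge_one (n := n) (by omega)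
    refine h0.trans ?_
    have hcard : s.card ≤ 8 := by
      have := card_le_univ s
      simpa using this
    exact mul_le_mul (pow_le_pow_right₀ ht hcard) hprod hpn (by positivity)

/-- a long factor is smooth -/
theorem FF_long (z j : ℕ) (k : Fin 8) (hk : 4 ≤ k.val) (i : ℕ) (hi : 1 ≤ i) :
    (∀ n, pc i (FF z j k) n = 0) ∨
      (∀ n, pc i (FF z j k) n = if n ∈ Ioc (2 ^ (i - 1)) (2 * 2 ^ (i - 1)) then 1 else 0) ∨
      (∀ n : ℕ, pc i (FF z j k) n = if n ∈ Ioc (2 ^ (i - 1)) (2 * 2 ^ (i - 1)) then Real.log n else 0) := by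
  by_cases h7 : k.val < 7
  · by_cases h3 : k.val < j + 3
    · right; left
      intro n
      rw [pc_apply]
      simp only [pc_mem hi]
      split_ifs with h
      · unfold FF
        rw [if_neg (by omega), if_pos h7, if_pos h3, ArithmeticFunction.natCoe_apply, ArithmeticFunction.zeta_apply]
        rw [mem_Ioc] at h
        rw [if_neg (by omega)]
        simp
      · rfl
    · left
      intro n
      rw [pc_apply]
      simp only [pc_mem hi]
      split_ifs with h
      · unfold FF
        rw [if_neg (by omega), if_pos h7, if_neg h3, ArithmeticFunction.one_apply]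
        rw [mem_Ioc] at h
        rw [if_neg]
        intro h1
        rw [h1] at h
        have : 1 ≤ 2 ^ (i - 1) := Nat.one_le_two_pow
        omega
      · rfl
  · right; right
    intro n
    rw [pc_apply]
    simp only [pc_mem hi]
    split_ifs with h
    · unfold FF
      rw [if_neg (by omega), if_neg h7, ArithmeticFunction.log_apply]
    · rfl

/-- a short factor -/
theorem FF_short (z j : ℕ) (hz : 1 ≤ z) (k : Fin 8) (hk : k.val < 4) (i n : ℕ) (h : pc i (FF z j k) n ≠ 0) : n ≤ z := by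
  rw [pc_apply] at h
  split_ifs at h with h1
  · unfold FF at h
    rw [if_pos hk] at h
    split_ifs at h with h2
    · rw [Mz_apply] at h
      by_contra h3
      rw [if_neg h3] at h
      exact h rfl
    · rw [ArithmeticFunction.one_apply] at h
      split_ifs at h with h3
      · omega
      · exact absurd rfl h
  · exact absurd rfl h

theorem prod_factor {F : Fin 8 → ArithmeticFunction ℝ} {i : Fin 8 → ℕ} (s : Finset (Fin 8)) :
    ∀ n, (∏ k ∈ s, pc (i k) (F k)) n ≠ 0 → ∀ k ∈ s, ∃ m, pc (i k) (F k) m ≠ 0 := by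
  induction s using Finset.induction_on with
  | empty => intro n _ k hk; exact absurd hk (notMem_empty _)
  | insert a s ha ih =>
    intro n hn k hk
    rw [prod_insert ha, ArithmeticFunction.mul_apply] at hn
    obtain ⟨p, hp, hp2⟩ := exists_ne_zero_of_sum_ne_zero hn
    rcases mem_insert.1 hk with rfl | hk'
    · exact ⟨p.1, left_ne_zero_of_mul hp2⟩
    · exact ih _ (right_ne_zero_of_mul hp2) k hk'

end Pool.Agent.K9h6.N.La
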