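import Mathlib

/-! T6, part 2: the combinatorial lemma for Heath-Brown's identity with `J = 4` (helper6). -/

set_option autoImplicit false

open Finset

namespace Pool.Agent.K9h6.N.La

theorem greedy {ι : Type*} [DecidableEq ι] (a : ι → ℝ) (w lo s0 : ℝ) (t : Finset ι) (ha : ∀ k ∈ t, a k ≤ w)
    (h0 : s0 < lo) (h1 : lo ≤ s0 + ∑ k ∈ t, a k) :
    ∃ t' ⊆ t, lo ≤ s0 + ∑ k ∈ t', a k ∧ s0 + ∑ k ∈ t', a k < lo + w := by
  induction t using Finset.induction_on with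
  | empty => simp at h1; linarith
  | insert x t hx ih =>
    by_cases h2 : lo ≤ s0 + ∑ k ∈ t, a k
    · obtain ⟨t', ht, h3⟩ := ih (fun k hk => ha k (mem_insert_of_mem hk)) h2
      exact ⟨t', ht.trans (subset_insert _ _), h3⟩
    · refine ⟨insert x t, subset_rfl, h1, ?_⟩
      rw [sum_insert hx]
      have := ha x (mem_insert_self _ _)
      push Not at h2
      linarith

theorem comb (a : Fin 8 → ℝ) (η : ℝ) (hη : 0 < η) (hη2 : η ≤ 1 / 64)
    (hs1 : 1 ≤ ∑ k, a k) (hs : ∀ k : Fin 8, k.val < 4 → a k ≤ 1 / 4 + η) :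
    (∃ k : Fin 8, 4 ≤ k.val ∧ 5 / 8 + η ≤ a k) ∨
    (∃ s : Finset (Fin 8), 3 / 8 - η ≤ ∑ k ∈ s, a k ∧ ∑ k ∈ s, a k ≤ 5 / 8 + η) ∨
    (∃ k : Fin 8, 4 ≤ k.val ∧ 5 / 16 ≤ a k ∧ a k ≤ 3 / 8) := by
  have big : ∀ k : Fin 8, 5 / 16 ≤ a k → 4 ≤ k.val := by
    intro k hk
    by_contra h
    have := hs k (by omega)
    linarith
  by_cases h1 : ∃ k, 3 / 8 - η ≤ a k
  · obtain ⟨k, hk⟩ := h1
    by_cases h2 : a k ≤ 5 / 8 + η
    · right; left
      exact ⟨{k}, by rw [sum_singleton]; exact hk, by rw [sum_singleton]; exact h2⟩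
    · left
      exact ⟨k, big k (by linarith), by linarith⟩
  push Not at h1
  by_cases h2 : ∃ k, 5 / 16 ≤ a k
  · obtain ⟨k, hk⟩ := h2
    right; right
    exact ⟨k, big k hk, hk, by linarith [h1 k]⟩
  push Not at h2
  right; left
  by_cases h3 : ∃ i j, i ≠ j ∧ 1 / 4 + 2 * η < a i ∧ 1 / 4 + 2 * η < a j
  · obtain ⟨i, j, hij, hi, hj⟩ := h3
    refine ⟨{i, j}, ?_, ?_⟩
    · rw [sum_pair hij]; linarith
    · rw [sum_pair hij]; linarith [h2 i, h2 j]
  push Not at h3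
  set Lg := univ.filter (fun k => 1 / 4 + 2 * η < a k) with hLg
  have hc : Lg.card ≤ 1 := by
    rw [card_le_one]
    intro x hx y hy
    rw [hLg, mem_filter] at hx hy
    by_contra hne
    have := h3 x y hne hx.2
    linarith [hy.2]
  have hL : ∑ k ∈ Lg, a k < 3 / 8 - η := by
    rcases Nat.eq_zero_or_pos Lg.card with h0 | h0
    · rw [card_eq_zero] at h0
      rw [h0, sum_empty]
      linarith
    · obtain ⟨x, hx⟩ := card_eq_one.1 (le_antisymm hc h0)
      rw [hx, sum_singleton]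
      linarith [h2 x]
  have hsum : ∑ k ∈ Lg, a k + ∑ k ∈ univ.filter (fun k => ¬ (1 / 4 + 2 * η < a k)), a k = ∑ k, a k := by
    rw [hLg]
    exact sum_filter_add_sum_filter_not _ _ _
  obtain ⟨t', ht, h4, h5⟩ := greedy a (1 / 4 + 2 * η) (3 / 8 - η) (∑ k ∈ Lg, a k)
    (univ.filter (fun k => ¬ (1 / 4 + 2 * η < a k)))
    (fun k hk => by
      have := (mem_filter.1 hk).2
      linarith) hL (by linarith)
  have hd : Disjoint Lg t' := by
    rw [disjoint_left]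
    intro x hx hx'
    have h6 := (mem_filter.1 (ht hx')).2
    rw [hLg, mem_filter] at hx
    exact h6 hx.2
  refine ⟨Lg ∪ t', ?_, ?_⟩
  · rw [sum_union hd]; linarith
  · rw [sum_union hd]; linarith

end Pool.Agent.K9h6.N.La
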