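import Mathlib
import Pool.Agent.K9h6.N.Lam1
import Pool.Agent.K9h6.N.Lam2

/-! T6, part 3: boxes (helper6). -/

set_option autoImplicit false

open Finset Filter

namespace Pool.Agent.K9h6.N.La

open Pool.Agent.Y826.Z
open Pool.Agent.Y818.YZ (box Phi_low Phi_high tau_ge_one tau_nonneg)

theorem Sz_mono {δ δ' X : ℝ} {M N : ℕ} {RA RB E U V : ℝ} (hX : 1 ≤ X) (hd : δ' ≤ δ) (h : Sz δ X M N RA RB E U V) :
    Sz δ' X M N RA RB E U V := by
  have h1 : X ^ (-δ) ≤ X ^ (-δ') := Real.rpow_le_rpow_of_exponent_le hX (by linarith)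
  have h2 : X ^ δ' ≤ X ^ δ := Real.rpow_le_rpow_of_exponent_le hX hd
  have hN : (0 : ℝ) ≤ N := Nat.cast_nonneg _
  have hM : (0 : ℝ) ≤ M := Nat.cast_nonneg _
  exact { h with
    c1 := h.c1.trans (mul_le_mul_of_nonneg_left h1 hN)
    c2 := h.c2.trans (mul_le_mul_of_nonneg_left h1 hM)
    c3 := h.c3.trans (mul_le_mul_of_nonneg_left h1 hN)
    c4 := h.c4.trans (mul_le_mul_of_nonneg_left h1 (by positivity))
    c5 := (mul_le_mul_of_nonneg_left h2 (by positivity)).trans h.c5 }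

theorem SzS_mono {δ δ' X : ℝ} {M N : ℕ} {RA RB U V : ℝ} (hX : 1 ≤ X) (hd : δ' ≤ δ) (h : SzS δ X M N RA RB U V) :
    SzS δ' X M N RA RB U V := by
  have h1 : X ^ (-δ) ≤ X ^ (-δ') := Real.rpow_le_rpow_of_exponent_le hX (by linarith)
  have h2 : X ^ δ' ≤ X ^ δ := Real.rpow_le_rpow_of_exponent_le hX hd
  have hN : (0 : ℝ) ≤ N := Nat.cast_nonneg _
  exact { h with
    c1 := h.c1.trans (mul_le_mul_of_nonneg_left h1 hN)
    c3 := h.c3.trans (mul_le_mul_of_nonneg_left h1 hN)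
    c4 := h.c4.trans (mul_le_mul_of_nonneg_left h1 (by positivity))
    c5 := (mul_le_mul_of_nonneg_left h2 (by positivity)).trans h.c5 }

theorem groupOK_mono {K : ℕ} {δ δ' X : ℝ} {Q : Fin K → ℝ} (hX : 1 ≤ X) (hd : δ' ≤ δ) (h : GroupOK δ X Q) :
    GroupOK δ' X Q := by
  refine ⟨fun M N a1 a2 a3 a4 => ?_, fun M N a1 a2 a3 a4 => ?_⟩
  · obtain ⟨g, hg⟩ := h.1 M N a1 a2 ((Real.rpow_le_rpow_of_exponent_le hX (by linarith)).trans a3) a4
    exact ⟨g, Sz_mono hX hd hg⟩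
  · obtain ⟨g, hg1, hg⟩ := h.2 M N a1 a2 ((Real.rpow_le_rpow_of_exponent_le hX (by linarith)).trans a3)
      (a4.trans (Real.rpow_le_rpow_of_exponent_le hX (by linarith)))
    exact ⟨g, hg1, SzS_mono hX hd hg⟩

/-- convolutions as sums over a square -/
theorem conv_box (T : ℕ) (w : ℕ → ℝ) (hw : ∀ n, T < n → w n = 0) (f g : ArithmeticFunction ℝ) :
    ∑ n ∈ Icc 1 T, (f * g) n * w n = ∑ m ∈ Icc 1 T, ∑ n ∈ Icc 1 T, f m * g n * w (m * n) := by
  rw [← box T (fun b c => f b * g c * w (b * c)) (fun b c h => by rw [hw _ h, mul_zero])]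
  refine sum_congr rfl fun n _ => ?_
  rw [ArithmeticFunction.mul_apply, sum_mul]
  refine sum_congr rfl fun i hi => ?_
  rw [(Nat.mem_divisorsAntidiagonal.1 hi).1]

/-- both variables long -/
theorem conv_II (T L : ℕ) (w : ℕ → ℝ) (hw : ∀ n, T < n → w n = 0) (f g : ArithmeticFunction ℝ)
    (hf : ∀ n, f n ≠ 0 → L < n) (hg : ∀ n, g n ≠ 0 → L < n) :
    ∑ n ∈ Icc 1 T, (f * g) n * w n = ∑ m ∈ Ioc L T, ∑ n ∈ Ioc L T, f m * g n * w (m * n) := by
  rw [conv_box T w hw]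
  have hsub : Ioc L T ⊆ Icc 1 T := by
    intro x hx
    rw [mem_Ioc] at hx
    rw [mem_Icc]
    omega
  symm
  have e : ∀ m ∈ Ioc L T, ∑ n ∈ Ioc L T, f m * g n * w (m * n) = ∑ n ∈ Icc 1 T, f m * g n * w (m * n) := by
    intro m _
    apply sum_subset hsub
    intro n hn hn'
    rw [mem_Icc] at hn
    rw [mem_Ioc] at hn'
    have : g n = 0 := by
      by_contra h
      exact hn' ⟨hg n h, hn.2⟩
    rw [this]
    ring
  rw [sum_congr rfl e]
  apply sum_subset hsub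
  intro n hn hn'
  rw [mem_Icc] at hn
  rw [mem_Ioc] at hn'
  have : f n = 0 := by
    by_contra h
    exact hn' ⟨hf n h, hn.2⟩
  rw [this]
  simp

/-- one variable in a dyadic interval -/
theorem conv_smooth (T N : ℕ) (w : ℕ → ℝ) (hw : ∀ n, T < n → w n = 0) (f G : ArithmeticFunction ℝ) (g : ℕ → ℝ)
    (hG : ∀ n, G n = if n ∈ Ioc N (2 * N) then g n else 0) :
    ∑ n ∈ Icc 1 T, (f * G) n * w n = ∑ m ∈ Icc 1 T, ∑ n ∈ Ioc N (2 * N), f m * g n * w (m * n) := by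
  rw [conv_box T w hw]
  refine sum_congr rfl fun m hm => ?_
  rw [mem_Icc] at hm
  have e : ∀ n ∈ Icc 1 T, f m * G n * w (m * n) = if n ∈ Ioc N (2 * N) then f m * g n * w (m * n) else 0 := by
    intro n _
    rw [hG n]
    split_ifs <;> ring
  rw [sum_congr rfl e, sum_ite_mem]
  apply sum_subset inter_subset_right
  intro n hn hn'
  rw [mem_inter, not_and] at hn'
  have h1 : ¬ n ∈ Icc 1 T := fun h => hn' h hn
  rw [mem_Icc] at h1
  rw [mem_Ioc] at hn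
  have h2 : T < n := by omega
  rw [hw (m * n) (by nlinarith)]
  ring

/-- one variable in a dyadic interval, the other one short -/
theorem conv_I (T N D : ℕ) (w : ℕ → ℝ) (hw : ∀ n, T < n → w n = 0) (f G : ArithmeticFunction ℝ) (g : ℕ → ℝ)
    (hG : ∀ n, G n = if n ∈ Ioc N (2 * N) then g n else 0) (hf : ∀ n, f n ≠ 0 → n ≤ D) (hDT : D ≤ T) :
    ∑ n ∈ Icc 1 T, (f * G) n * w n = ∑ m ∈ Icc 1 D, ∑ n ∈ Ioc N (2 * N), f m * g n * w (m * n) := by
  rw [conv_smooth T N w hw f G g hG]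
  symm
  apply sum_subset (Icc_subset_Icc_right hDT)
  intro n hn hn'
  rw [mem_Icc] at hn hn'
  have : f n = 0 := by
    by_contra h
    exact hn' ⟨hn.1, hf n h⟩
  rw [this]
  simp

end Pool.Agent.K9h6.N.La
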