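import Mathlib
import Pool.Agent.K9h6.N.Lam3

/-! T6: the von Mangoldt function by Heath-Brown's identity (helper6). -/

set_option autoImplicit false

open Finset Filter

namespace Pool.Agent.K9h6.N.La

open Pool.Agent.Y826.Z
open Pool.Agent.Y818.YZ (box Phi_low Phi_high tau_ge_one tau_nonneg)

theorem rpow_two_pow {X : ℝ} (hX : 1 < X) (i : Fin 8 → ℕ) (s : Finset (Fin 8)) :
    X ^ (∑ k ∈ s, (i k : ℝ) * Real.log 2 / Real.log X) = (2 : ℝ) ^ (∑ k ∈ s, i k) := by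
  have hl : 0 < Real.log X := Real.log_pos hX
  rw [Real.rpow_def_of_pos (by linarith)]
  have : Real.log X * ∑ k ∈ s, (i k : ℝ) * Real.log 2 / Real.log X = ((∑ k ∈ s, i k : ℕ) : ℝ) * Real.log 2 := by
    rw [mul_sum]
    push_cast
    rw [sum_mul]
    refine sum_congr rfl fun k _ => ?_
    field_simp
  rw [this, mul_comm, ← Real.rpow_def_of_pos (by norm_num), Real.rpow_natCast]

theorem ev_fin (A : ℕ) : ∀ᶠ X : ℝ in atTop, X ^ (99 / 100 : ℝ) ≤ X / (Real.log X) ^ A := by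
  have h1 := (isLittleO_log_rpow_rpow_atTop (A : ℝ) (show (0 : ℝ) < 1 / 100 by norm_num)).bound
    (show (0 : ℝ) < 1 by norm_num)
  filter_upwards [h1, eventually_ge_atTop 1, Real.tendsto_log_atTop.eventually_ge_atTop 1] with X hX1 hX2 hX3
  rw [Real.norm_of_nonneg (by positivity), Real.norm_of_nonneg (by positivity), Real.rpow_natCast] at hX1
  have h2 : X ^ (99 / 100 : ℝ) * X ^ (1 / 100 : ℝ) = X := by
    rw [← Real.rpow_add (by linarith)]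
    norm_num
  have h3 : 0 ≤ X ^ (99 / 100 : ℝ) := by positivity
  rw [le_div_iff₀ (by positivity)]
  calc X ^ (99 / 100 : ℝ) * (Real.log X) ^ A
      ≤ X ^ (99 / 100 : ℝ) * (1 * X ^ (1 / 100 : ℝ)) := by gcongr
    _ = X ^ (99 / 100 : ℝ) * X ^ (1 / 100 : ℝ) := by ring
    _ = X := h2

/-- one box -/
theorem boxb {X η δ0 Bd : ℝ} {T I z j : ℕ} {i : Fin 8 → ℕ} {ι : Type*} (S : Finset ι) (c : ι → ℝ) (dd : ι → ℕ → ℝ)
    (hX : 3 ≤ X) (hδ : δ0 = 8 * η) (hη : 0 < η) (hδ0 : δ0 ≤ 1 / 16) (hXη : 1000 ≤ X ^ η)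
    (hT : T = ⌊3 * X⌋₊) (hz : z = ⌊(3 * X) ^ (1 / 4 : ℝ)⌋₊) (hz1 : 1 ≤ z) (hi : ∀ k, i k ≤ I)
    (hI : (I : ℝ) * Real.log 2 ≤ 2 * Real.log X) (hBd : 0 ≤ Bd)
    (hl1 : 1 ≤ Real.log X)
    (pII : ∀ α β : ℕ → ℝ, (∀ m, |α m| ≤ tau m ^ 8 * Real.log X) → (∀ n, |β n| ≤ tau n ^ 8 * Real.log X) →
      |∑ q ∈ S, c q * ∑ m ∈ Ioc ⌊X ^ (3 / 8 - δ0 / 2 : ℝ)⌋₊ ⌊3 * X⌋₊, ∑ n ∈ Ioc ⌊X ^ (3 / 8 - δ0 / 2 : ℝ)⌋₊ ⌊3 * X⌋₊,
        α m * β n * H378R2.Phi (((m * n : ℕ) : ℝ) / X) * dd q (m * n)| ≤ Bd)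
    (pS : ∀ N : ℕ, X ^ (5 / 16 - δ0 : ℝ) ≤ N → (N : ℝ) ≤ X ^ (3 / 8 + δ0 : ℝ) →
      ∀ α g : ℕ → ℝ, (∀ m, |α m| ≤ tau m ^ 8 * Real.log X) → ((∀ l, g l = 1) ∨ ∀ l, g l = Real.log l) →
      |∑ q ∈ S, c q * ∑ m ∈ Icc 1 ⌊3 * X⌋₊, ∑ n ∈ Ioc N (2 * N),
        α m * g n * H378R2.Phi (((m * n : ℕ) : ℝ) / X) * dd q (m * n)| ≤ Bd)
    (pI : ∀ γ : ℕ → ℝ, (∀ d, |γ d| ≤ tau d ^ 8 * Real.log X) →
      ∀ g : ℕ → ℝ, ((∀ l, g l = 1) ∨ ∀ l, g l = Real.log l) → ∀ D1 N : ℕ, (D1 : ℝ) ≤ X ^ (2 / 5 : ℝ) →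
      |∑ q ∈ S, c q * ∑ d ∈ Icc 1 D1, γ d * ∑ l ∈ Ioc N (2 * N),
        g l * H378R2.Phi (((d * l : ℕ) : ℝ) / X) * dd q (d * l)| ≤ Bd) :
    |∑ q ∈ S, c q * ∑ n ∈ Icc 1 T, (∏ k, pc (i k) (FF z j k)) n * (H378R2.Phi (n / X) * dd q n)| ≤ 4 * Bd := by
  have hX0 : 0 < X := by linarith
  have hX1 : 1 < X := by linarith
  have hηs : η ≤ 1 / 128 := by linarith
  by_cases hzero : ∀ n ∈ Icc 1 T, (∏ k, pc (i k) (FF z j k)) n * H378R2.Phi (n / X) = 0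
  · have : ∑ q ∈ S, c q * ∑ n ∈ Icc 1 T, (∏ k, pc (i k) (FF z j k)) n * (H378R2.Phi (n / X) * dd q n) = 0 := by
      refine sum_eq_zero fun q _ => ?_
      rw [sum_eq_zero, mul_zero]
      intro n hn
      rw [← mul_assoc, hzero n hn, zero_mul]
    rw [this, abs_zero]
    linarith
  push Not at hzero
  obtain ⟨n0, hn0, hne⟩ := hzero
  have hne1 := left_ne_zero_of_mul hne
  have hne2 := right_ne_zero_of_mul hne
  have hn0T : (n0 : ℝ) ≤ 3 * X := by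
    have h1 : n0 ≤ ⌊3 * X⌋₊ := by rw [← hT]; exact (mem_Icc.1 hn0).2
    exact (Nat.cast_le.2 h1).trans (Nat.floor_le (by positivity))
  have hn0X : X < n0 := by
    by_contra h
    exact hne2 (Phi_low n0 X hX0 (not_lt.1 h))
  -- exponents
  set a : Fin 8 → ℝ := fun k => (i k : ℝ) * Real.log 2 / Real.log X with ha
  have hpow : ∀ s : Finset (Fin 8), X ^ (∑ k ∈ s, a k) = (2 : ℝ) ^ (∑ k ∈ s, i k) := rpow_two_pow hX1 i
  have hpow1 : ∀ k, X ^ (a k) = (2 : ℝ) ^ (i k) := by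
    intro k
    have := hpow {k}
    rwa [sum_singleton, sum_singleton] at this
  have hs1 : 1 ≤ ∑ k, a k := by
    rw [← Real.rpow_le_rpow_left_iff hX1, hpow, Real.rpow_one]
    have h1 := prod_le univ n0 hne1
    have h2 : (n0 : ℝ) ≤ (2 : ℝ) ^ (∑ k, i k) := by exact_mod_cast h1
    linarith
  have hs2 : ∑ k, a k ≤ 1 + η := by
    rw [← Real.rpow_le_rpow_left_iff hX1, hpow, Real.rpow_add hX0, Real.rpow_one]
    have h1 := prod_ge univ n0 hne1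
    have h2 : (2 : ℝ) ^ (∑ k, i k) ≤ 2 ^ 8 * n0 := by
      have h3 : (univ : Finset (Fin 8)).card = 8 := by simp
      rw [h3] at h1
      exact_mod_cast h1
    nlinarith
  have hsh : ∀ k : Fin 8, k.val < 4 → a k ≤ 1 / 4 + η := by
    intro k hk
    obtain ⟨m, hm⟩ := prod_factor univ n0 hne1 k (mem_univ _)
    have h1 := FF_short z j hz1 k hk _ _ hm
    have h2 := pc_ge hm
    rw [← Real.rpow_le_rpow_left_iff hX1, hpow1, Real.rpow_add hX0]
    have h3 : (2 : ℝ) ^ (i k) ≤ 2 * z := by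
      have : 2 ^ (i k) ≤ 2 * z := by omega
      exact_mod_cast this
    have h4 : (z : ℝ) ≤ (3 * X) ^ (1 / 4 : ℝ) := by
      rw [hz]
      exact Nat.floor_le (by positivity)
    have h5 : (3 * X) ^ (1 / 4 : ℝ) ≤ 3 * X ^ (1 / 4 : ℝ) := by
      rw [Real.mul_rpow (by norm_num) hX0.le]
      have : (3 : ℝ) ^ (1 / 4 : ℝ) ≤ 3 ^ (1 : ℝ) := Real.rpow_le_rpow_of_exponent_le (by norm_num) (by norm_num)
      rw [Real.rpow_one] at this
      gcongr
    have h6 : 0 ≤ X ^ (1 / 4 : ℝ) := by positivity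
    nlinarith
  -- the weight
  have hw : ∀ q, ∀ n, T < n → H378R2.Phi (n / X) * dd q n = 0 := by
    intro q n hn
    rw [Phi_high n X hX0 ((Nat.lt_floor_add_one (3 * X)).le.trans (by
      have : T + 1 ≤ n := hn
      rw [hT] at this
      exact_mod_cast this)), zero_mul]
  -- the bound of the coefficients
  have hco : ∀ s : Finset (Fin 8), ∀ n, |(1 / 2 : ℝ) * (∏ k ∈ s, pc (i k) (FF z j k)) n| ≤ tau n ^ 8 * Real.log X := by
    intro s n
    have h1 := part_bd z j I i hi s (2 * Real.log X) hI (by linarith) n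
    rw [abs_mul, abs_of_pos (by norm_num : (0 : ℝ) < 1 / 2)]
    linarith
  -- one long factor
  have hlong : ∀ k : Fin 8, 4 ≤ k.val → 5 / 16 ≤ a k → 1 ≤ i k ∧ ∃ g : ℕ → ℝ, ((∀ l, g l = 1) ∨ ∀ l : ℕ, g l = Real.log l) ∧
      ∀ n, pc (i k) (FF z j k) n = if n ∈ Ioc (2 ^ (i k - 1)) (2 * 2 ^ (i k - 1)) then g n else 0 := by
    intro k hk hak
    have hik : 1 ≤ i k := by
      by_contra h
      have : i k = 0 := by omega
      rw [ha] at hak
      simp only [this] at hak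
      norm_num at hak
    refine ⟨hik, ?_⟩
    rcases FF_long z j k hk (i k) hik with h | h | h
    · exfalso
      obtain ⟨m, hm⟩ := prod_factor univ n0 hne1 k (mem_univ _)
      exact hm (h m)
    · exact ⟨fun _ => 1, Or.inl fun _ => rfl, h⟩
    · exact ⟨fun n => Real.log n, Or.inr fun _ => rfl, h⟩
  have herase : ∀ k : Fin 8, (∏ k, pc (i k) (FF z j k)) =
      (∏ l ∈ univ.erase k, pc (i l) (FF z j l)) * pc (i k) (FF z j k) := by
    intro k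
    rw [mul_comm]
    exact (mul_prod_erase univ (fun l => pc (i l) (FF z j l)) (mem_univ k)).symm
  rcases comb a η hη (by linarith) hs1 hsh with ⟨k, hk, hak⟩ | ⟨s, hs3, hs4⟩ | ⟨k, hk, hak1, hak2⟩
  · -- type I
    obtain ⟨hik, g, hg, hG⟩ := hlong k hk (by linarith)
    set D1 := 2 ^ (∑ l ∈ univ.erase k, i l) with hD1
    have hD1X : (D1 : ℝ) ≤ X ^ (2 / 5 : ℝ) := by
      rw [hD1]
      push_cast
      rw [← hpow]
      apply Real.rpow_le_rpow_of_exponent_le hX1.le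
      have := sum_erase_add univ a (mem_univ k)
      linarith
    have hD1T : D1 ≤ T := by
      rw [hT]
      apply Nat.le_floor
      have : X ^ (2 / 5 : ℝ) ≤ X ^ (1 : ℝ) := Real.rpow_le_rpow_of_exponent_le hX1.le (by norm_num)
      rw [Real.rpow_one] at this
      linarith
    have h1 := pI (fun m => (1 / 2 : ℝ) * (∏ l ∈ univ.erase k, pc (i l) (FF z j l)) m) (hco _) g hg D1
      (2 ^ (i k - 1)) hD1X
    have e : ∑ q ∈ S, c q * ∑ n ∈ Icc 1 T, (∏ k, pc (i k) (FF z j k)) n * (H378R2.Phi (n / X) * dd q n) =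
        2 * ∑ q ∈ S, c q * ∑ d ∈ Icc 1 D1, ((1 / 2 : ℝ) * (∏ l ∈ univ.erase k, pc (i l) (FF z j l)) d) *
          ∑ l ∈ Ioc (2 ^ (i k - 1)) (2 * 2 ^ (i k - 1)), g l * H378R2.Phi (((d * l : ℕ) : ℝ) / X) * dd q (d * l) := by
      rw [mul_sum]
      refine sum_congr rfl fun q _ => ?_
      rw [herase k, conv_I T (2 ^ (i k - 1)) D1 _ (hw q) _ _ g hG
        (fun n hn => prod_le (univ.erase k) n hn) hD1T, mul_left_comm (2 : ℝ)]
      congr 1
      rw [mul_sum]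
      refine sum_congr rfl fun d _ => ?_
      rw [mul_sum, mul_sum]
      refine sum_congr rfl fun l _ => ?_
      ring
    rw [e, abs_mul, abs_of_pos (by norm_num : (0 : ℝ) < 2)]
    linarith
  · -- type II
    have hsc : ∑ k ∈ univ \ s, a k + ∑ k ∈ s, a k = ∑ k, a k := sum_sdiff (subset_univ s)
    have hsupp : ∀ t : Finset (Fin 8), 3 / 8 - η ≤ ∑ k ∈ t, a k → ∀ n, (∏ k ∈ t, pc (i k) (FF z j k)) n ≠ 0 →
        ⌊X ^ (3 / 8 - δ0 / 2 : ℝ)⌋₊ < n := by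
      intro t ht n hn
      have h1 := prod_ge t n hn
      have h2 : (2 : ℝ) ^ (∑ k ∈ t, i k) ≤ 2 ^ 8 * n := by
        have h3 : t.card ≤ 8 := by
          have := card_le_univ t
          simpa using this
        have h4 : 2 ^ t.card ≤ 2 ^ 8 := Nat.pow_le_pow_right (by norm_num) h3
        have h5 : 2 ^ (∑ k ∈ t, i k) ≤ 2 ^ 8 * n := h1.trans (Nat.mul_le_mul_right _ h4)
        exact_mod_cast h5
      rw [← hpow] at h2
      have h3 : X ^ (3 / 8 - η : ℝ) ≤ X ^ (∑ k ∈ t, a k) := Real.rpow_le_rpow_of_exponent_le hX1.le ht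
      have h4 : X ^ (3 / 8 - δ0 / 2 : ℝ) * X ^ η ≤ X ^ (3 / 8 - η : ℝ) := by
        rw [← Real.rpow_add hX0]
        apply Real.rpow_le_rpow_of_exponent_le hX1.le
        linarith
      have h5 : 0 < X ^ (3 / 8 - δ0 / 2 : ℝ) := by positivity
      rw [Nat.floor_lt (by positivity)]
      nlinarith
    have h1 := pII (fun m => (1 / 2 : ℝ) * (∏ k ∈ univ \ s, pc (i k) (FF z j k)) m)
      (fun m => (1 / 2 : ℝ) * (∏ k ∈ s, pc (i k) (FF z j k)) m) (hco _) (hco _)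
    rw [← hT] at h1
    have e : ∑ q ∈ S, c q * ∑ n ∈ Icc 1 T, (∏ k, pc (i k) (FF z j k)) n * (H378R2.Phi (n / X) * dd q n) =
        4 * ∑ q ∈ S, c q * ∑ m ∈ Ioc ⌊X ^ (3 / 8 - δ0 / 2 : ℝ)⌋₊ T, ∑ n ∈ Ioc ⌊X ^ (3 / 8 - δ0 / 2 : ℝ)⌋₊ T,
          ((1 / 2 : ℝ) * (∏ k ∈ univ \ s, pc (i k) (FF z j k)) m) * ((1 / 2 : ℝ) * (∏ k ∈ s, pc (i k) (FF z j k)) n) *
            H378R2.Phi (((m * n : ℕ) : ℝ) / X) * dd q (m * n) := by
      rw [mul_sum]
      refine sum_congr rfl fun q _ => ?_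
      rw [← prod_sdiff (subset_univ s), conv_II T ⌊X ^ (3 / 8 - δ0 / 2 : ℝ)⌋₊ _ (hw q) _ _
        (hsupp _ (by linarith)) (hsupp _ hs3), mul_left_comm (4 : ℝ)]
      congr 1
      rw [mul_sum]
      refine sum_congr rfl fun d _ => ?_
      rw [mul_sum]
      refine sum_congr rfl fun l _ => ?_
      ring
    rw [e, abs_mul, abs_of_pos (by norm_num : (0 : ℝ) < 4)]
    linarith
  · -- smooth short variable
    obtain ⟨hik, g, hg, hG⟩ := hlong k hk hak1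
    have hN : (2 : ℝ) * ((2 ^ (i k - 1) : ℕ) : ℝ) = X ^ (a k) := by
      rw [hpow1]
      push_cast
      rw [mul_comm, ← pow_succ]
      congr 1
      omega
    have hN1 : X ^ (5 / 16 - δ0 : ℝ) ≤ ((2 ^ (i k - 1) : ℕ) : ℝ) := by
      have h1 : X ^ (5 / 16 - δ0 : ℝ) * X ^ η ≤ X ^ (a k) := by
        rw [← Real.rpow_add hX0]
        apply Real.rpow_le_rpow_of_exponent_le hX1.le
        linarith
      have h5 : 0 < X ^ (5 / 16 - δ0 : ℝ) := by positivity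
      nlinarith
    have hN2 : ((2 ^ (i k - 1) : ℕ) : ℝ) ≤ X ^ (3 / 8 + δ0 : ℝ) := by
      have h1 : X ^ (a k) ≤ X ^ (3 / 8 + δ0 : ℝ) := Real.rpow_le_rpow_of_exponent_le hX1.le (by linarith)
      have h2 : (0 : ℝ) ≤ ((2 ^ (i k - 1) : ℕ) : ℝ) := Nat.cast_nonneg _
      linarith
    have h1 := pS (2 ^ (i k - 1)) hN1 hN2 (fun m => (1 / 2 : ℝ) * (∏ l ∈ univ.erase k, pc (i l) (FF z j l)) m) g (hco _) hg
    rw [← hT] at h1
    have e : ∑ q ∈ S, c q * ∑ n ∈ Icc 1 T, (∏ k, pc (i k) (FF z j k)) n * (H378R2.Phi (n / X) * dd q n) =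
        2 * ∑ q ∈ S, c q * ∑ m ∈ Icc 1 T, ∑ n ∈ Ioc (2 ^ (i k - 1)) (2 * 2 ^ (i k - 1)),
          ((1 / 2 : ℝ) * (∏ l ∈ univ.erase k, pc (i l) (FF z j l)) m) * g n *
            H378R2.Phi (((m * n : ℕ) : ℝ) / X) * dd q (m * n) := by
      rw [mul_sum]
      refine sum_congr rfl fun q _ => ?_
      rw [herase k, conv_smooth T (2 ^ (i k - 1)) _ (hw q) _ _ g hG, mul_left_comm (2 : ℝ)]
      congr 1
      rw [mul_sum]
      refine sum_congr rfl fun d _ => ?_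
      rw [mul_sum]
      refine sum_congr rfl fun l _ => ?_
      ring
    rw [e, abs_mul, abs_of_pos (by norm_num : (0 : ℝ) < 2)]
    linarith

theorem lam (hA : S_BXA) (hB : S_BXS) (hI : S_TI2) : S_LAM := by
  intro K h W b hyp δ hδ
  obtain ⟨δ0, hδ0⟩ : ∃ δ0, δ0 = min δ (1 / 16) := ⟨_, rfl⟩
  have hd0 : 0 < δ0 := by rw [hδ0]; exact lt_min hδ (by norm_num)
  have hd1 : δ0 ≤ 1 / 16 := by rw [hδ0]; exact min_le_right _ _
  have hd2 : δ0 ≤ δ := by rw [hδ0]; exact min_le_left _ _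
  obtain ⟨ε1, hε1, h1⟩ := hA K h W b hyp δ0 hd0 hd1
  obtain ⟨ε2, hε2, h2⟩ := hB K h W b hyp δ0 hd0 hd1
  refine ⟨min ε1 ε2, lt_min hε1 hε2, fun A => ?_⟩
  obtain ⟨B1, hB1⟩ := h1 8 (A + 9)
  obtain ⟨B2, hB2⟩ := h2 8 (A + 9)
  refine ⟨max B1 B2, fun B hBB => ?_⟩
  have hη : 0 < δ0 / 8 := by linarith
  have hpowK : ∀ᶠ X : ℝ in atTop, (2 : ℝ) ^ K ≤ X ^ (1 / 100 : ℝ) :=
    (tendsto_rpow_atTop (show (0 : ℝ) < 1 / 100 by norm_num)).eventually_ge_atTop _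
  have hpowη : ∀ᶠ X : ℝ in atTop, (1000 : ℝ) ≤ X ^ (δ0 / 8) :=
    (tendsto_rpow_atTop hη).eventually_ge_atTop _
  filter_upwards [hB1 B ((le_max_left _ _).trans hBB), hB2 B ((le_max_right _ _).trans hBB), hI K h W b hyp 8 B,
    Real.tendsto_log_atTop.eventually_ge_atTop (60 * 4 ^ 8), ev_fin (A + 9), hpowK, hpowη, eventually_ge_atTop 6] with
    X hbxa hbxs hti hlog hfin hK hXη hX6
  intro Q hQ hprod hG S hS c hc
  have hX0 : 0 < X := by linarith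
  have hl0 : 0 < Real.log X := by norm_num at hlog; linarith
  have hl1 : 1 ≤ Real.log X := by norm_num at hlog; linarith
  have hG' := groupOK_mono (by linarith) hd2 hG
  have hS1 : ∀ q ∈ S, Squarefree (W * Pr q) ∧ (∀ j, Q j < q j ∧ (q j : ℝ) ≤ 2 * Q j) ∧
      (Pr (sm (D0 X B) q) : ℝ) ≤ X ^ ε1 := by
    intro q hq
    obtain ⟨g1, g2, g3⟩ := hS q hq
    exact ⟨g1, g2, g3.trans (Real.rpow_le_rpow_of_exponent_le (by linarith) (min_le_left _ _))⟩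
  have hS2 : ∀ q ∈ S, Squarefree (W * Pr q) ∧ (∀ j, Q j < q j ∧ (q j : ℝ) ≤ 2 * Q j) ∧
      (Pr (sm (D0 X B) q) : ℝ) ≤ X ^ ε2 := by
    intro q hq
    obtain ⟨g1, g2, g3⟩ := hS q hq
    exact ⟨g1, g2, g3.trans (Real.rpow_le_rpow_of_exponent_le (by linarith) (min_le_right _ _))⟩
  have hSq : ∀ q ∈ S, Squarefree (W * Pr q) ∧ (Pr q : ℝ) ≤ X ^ (14 / 25 : ℝ) := by
    intro q hq
    obtain ⟨h1, h2, _⟩ := hS q hq
    refine ⟨h1, ?_⟩
    have h3 : (Pr q : ℝ) ≤ ∏ j, (2 * Q j) := by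
      unfold Pr
      push_cast
      exact prod_le_prod (fun j _ => by positivity) (fun j _ => (h2 j).2)
    rw [prod_mul_distrib, prod_const, card_univ, Fintype.card_fin] at h3
    calc (Pr q : ℝ) ≤ 2 ^ K * ∏ j, Q j := h3
      _ ≤ X ^ (1 / 100 : ℝ) * X ^ (11 / 20 : ℝ) := by
        apply mul_le_mul hK hprod _ (by positivity)
        exact prod_nonneg (fun j _ => (hQ j).le)
      _ = X ^ (14 / 25 : ℝ) := by
        rw [← Real.rpow_add hX0]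
        norm_num
  obtain ⟨T, hT⟩ : ∃ T, T = ⌊3 * X⌋₊ := ⟨_, rfl⟩
  obtain ⟨z, hz⟩ : ∃ z, z = ⌊(3 * X) ^ (1 / 4 : ℝ)⌋₊ := ⟨_, rfl⟩
  have hz1 : 1 ≤ z := by
    rw [hz]
    apply Nat.le_floor
    rw [Nat.cast_one]
    exact Real.one_le_rpow (by linarith) (by norm_num)
  have hT1 : 1 < T := by
    rw [hT]
    apply Nat.lt_of_lt_of_le (by norm_num : 1 < 18)
    apply Nat.le_floor
    push_cast
    linarith
  have hTr : (T : ℝ) ≤ 3 * X := by rw [hT]; exact Nat.floor_le (by positivity)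
  have hTz : T < (z + 1) ^ 4 := by
    have h5 : (3 * X) ^ (1 / 4 : ℝ) < z + 1 := by
      rw [hz]
      exact Nat.lt_floor_add_one _
    have h6 : (3 * X) < ((z : ℝ) + 1) ^ 4 := by
      calc 3 * X = ((3 * X) ^ (1 / 4 : ℝ)) ^ (4 : ℕ) := by
            rw [← Real.rpow_natCast, ← Real.rpow_mul (by positivity)]
            norm_num
        _ < ((z : ℝ) + 1) ^ 4 := by
            apply pow_lt_pow_left₀ h5 (by positivity) (by norm_num)
    have h7 : (T : ℝ) < (((z + 1) ^ 4 : ℕ) : ℝ) := by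
      push_cast
      linarith
    exact_mod_cast h7
  set I := Nat.clog 2 T with hIdef
  have hTI : T ≤ 2 ^ I := Nat.le_pow_clog (by norm_num) T
  have hI2 : (2 : ℝ) ^ I ≤ 6 * X := by
    have h5 := Nat.pow_pred_clog_lt_self (by norm_num : 1 < 2) hT1
    have h6 : 0 < I := Nat.clog_pos (by norm_num) (by omega)
    have h7 : 2 ^ I = 2 ^ (I.pred) * 2 := by
      rw [← pow_succ]
      congr 1
      simp only [Nat.pred_eq_sub_one]
      omega
    have h8 : 2 ^ I ≤ 2 * T := by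
      rw [h7]
      have : 2 ^ I.pred < T := h5
      omega
    have h9 : (2 : ℝ) ^ I ≤ 2 * T := by exact_mod_cast h8
    linarith
  have hIl : (I : ℝ) * Real.log 2 ≤ 2 * Real.log X := by
    rw [← Real.log_pow]
    calc Real.log (2 ^ I) ≤ Real.log (6 * X) := Real.log_le_log (by positivity) hI2
      _ ≤ Real.log (X * X) := Real.log_le_log (by positivity) (by nlinarith)
      _ = 2 * Real.log X := by rw [Real.log_mul (by positivity) (by positivity)]; ring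
  have hI4 : ((I + 1 : ℕ) : ℝ) ≤ 4 * Real.log X := by
    push_cast
    have h5 := Real.log_two_gt_d9
    have h6 : (I : ℝ) * (2 / 3) ≤ 2 * Real.log X := by
      refine le_trans ?_ hIl
      apply mul_le_mul_of_nonneg_left _ (Nat.cast_nonneg _)
      linarith
    linarith
  obtain ⟨Bd, hBd⟩ : ∃ Bd, Bd = X / (Real.log X) ^ (A + 9) := ⟨_, rfl⟩
  have hBd0 : 0 ≤ Bd := by rw [hBd]; positivity
  -- each box
  have hbox : ∀ j, ∀ i ∈ Fintype.piFinset (fun _ : Fin 8 => range (I + 1)),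
      |∑ q ∈ S, c q * ∑ n ∈ Icc 1 T, (∏ k, pc (i k) (FF z j k)) n *
        (H378R2.Phi (n / X) * dl h W b (D0 X B) q n)| ≤ 4 * Bd := by
    intro j i hi
    rw [Fintype.mem_piFinset] at hi
    refine boxb (η := δ0 / 8) (δ0 := δ0) (I := I) S c (fun q n => dl h W b (D0 X B) q n) (by linarith) (by ring) hη hd1 hXη hT hz hz1
      (fun k => by have := hi k; rw [mem_range] at this; omega) hIl hBd0 hl1 ?_ ?_ ?_
    · intro α β hα hβ
      rw [hBd]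
      exact hbxa Q hQ hG' S hS1 c hc α β hα hβ
    · intro N hN1 hN2 α g hα hg
      rw [hBd]
      exact hbxs Q hQ hprod hG' S hS2 c hc N hN1 hN2 α g hα hg
    · intro γ hγ g hg D1 N hD1
      rw [hBd]
      exact (hti S hSq c hc γ hγ g hg D1 N hD1).trans hfin
  have hj : ∀ j, |∑ q ∈ S, c q * ∑ n ∈ Icc 1 T, (∏ k, FF z j k) n *
        (H378R2.Phi (n / X) * dl h W b (D0 X B) q n)| ≤ (4 * Real.log X) ^ 8 * (4 * Bd) := by
    intro j
    have e : ∑ q ∈ S, c q * ∑ n ∈ Icc 1 T, (∏ k, FF z j k) n * (H378R2.Phi (n / X) * dl h W b (D0 X B) q n) =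
        ∑ i ∈ Fintype.piFinset (fun _ : Fin 8 => range (I + 1)), ∑ q ∈ S, c q * ∑ n ∈ Icc 1 T,
          (∏ k, pc (i k) (FF z j k)) n * (H378R2.Phi (n / X) * dl h W b (D0 X B) q n) := by
      rw [sum_comm]
      refine sum_congr rfl fun q _ => ?_
      rw [← mul_sum, sum_comm]
      congr 1
      refine sum_congr rfl fun n hn => ?_
      rw [← sum_mul, ← boxes I (FF z j) n ((mem_Icc.1 hn).2.trans hTI)]
    rw [e]
    calc _ ≤ ∑ i ∈ Fintype.piFinset (fun _ : Fin 8 => range (I + 1)), 4 * Bd :=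
          (abs_sum_le_sum_abs _ _).trans (sum_le_sum (hbox j))
      _ = ((I + 1 : ℕ) : ℝ) ^ 8 * (4 * Bd) := by
          rw [sum_const, nsmul_eq_mul, Fintype.card_piFinset]
          simp
      _ ≤ (4 * Real.log X) ^ 8 * (4 * Bd) := by gcongr
  have hmain : ∑ q ∈ S, c q * ∑ n ∈ Icc 1 ⌊3 * X⌋₊, H378R2.Phi (n / X) * ArithmeticFunction.vonMangoldt n *
      dl h W b (D0 X B) q n =
      4 * (∑ q ∈ S, c q * ∑ n ∈ Icc 1 T, (∏ k, FF z 1 k) n * (H378R2.Phi (n / X) * dl h W b (D0 X B) q n)) -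
      6 * (∑ q ∈ S, c q * ∑ n ∈ Icc 1 T, (∏ k, FF z 2 k) n * (H378R2.Phi (n / X) * dl h W b (D0 X B) q n)) +
      4 * (∑ q ∈ S, c q * ∑ n ∈ Icc 1 T, (∏ k, FF z 3 k) n * (H378R2.Phi (n / X) * dl h W b (D0 X B) q n)) -
      (∑ q ∈ S, c q * ∑ n ∈ Icc 1 T, (∏ k, FF z 4 k) n * (H378R2.Phi (n / X) * dl h W b (D0 X B) q n)) := by
    rw [← hT]
    simp only [mul_sum]
    rw [← sum_sub_distrib, ← sum_add_distrib, ← sum_sub_distrib]
    refine sum_congr rfl fun q _ => ?_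
    rw [← sum_sub_distrib, ← sum_add_distrib, ← sum_sub_distrib]
    refine sum_congr rfl fun n hn => ?_
    rw [hb z n hz1 (lt_of_le_of_lt (mem_Icc.1 hn).2 hTz)]
    ring
  rw [hmain]
  have hfinal : 15 * ((4 * Real.log X) ^ 8 * (4 * Bd)) ≤ X / (Real.log X) ^ A := by
    rw [hBd]
    have e1 : 15 * ((4 * Real.log X) ^ 8 * (4 * (X / (Real.log X) ^ (A + 9)))) =
        (X / (Real.log X) ^ A) * ((60 * 4 ^ 8) / Real.log X) := by
      field_simp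
      ring
    rw [e1]
    have h5 : (60 * 4 ^ 8) / Real.log X ≤ 1 := by
      rw [div_le_one hl0]
      exact hlog
    have h6 : 0 ≤ X / (Real.log X) ^ A := by positivity
    nlinarith
  have g1 := hj 1
  have g2 := hj 2
  have g3 := hj 3
  have g4 := hj 4
  refine le_trans ?_ hfinal
  rw [abs_le] at g1 g2 g3 g4 ⊢
  constructor
  · linarith [g1.1, g2.2, g3.1, g4.2]
  · linarith [g1.2, g2.1, g3.2, g4.1]

end Pool.Agent.K9h6.N.La
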