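import Mathlib
import Pool.Agent.Y826.Z.CritB
import Pool.Agent.K9h6.N.P2

/-! T7c: asymptotics of the quadratic forms (as in `Pool.Agent.Y826.Z.CritB`; helper6). -/

set_option autoImplicit false

open Finset Filter
open scoped ContDiff

namespace Pool.Agent.K9h6.N

open Pool.Agent.Y826.Z Pool.Agent.H378R2 Pool.Agent.H95R2.BG

/-- S2 for quadratic forms, beyond the level `1/2` -/
theorem S2quad_c (hP2 : S_P2) {K0 : ℕ} {ι : Type} (A : Finset ι) (τ : ℝ) (hτ : 0 < τ) (hτ' : τ < 1 / 8)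
    (F : ι → Fin K0 → ℝ → ℝ) (c : ι → Fin K0 → ℝ) (hF : ∀ a ∈ A, ∀ j, GF (F a j) (c a j))
    (x : ι → ι → ℝ) (hsum : ∀ a ∈ A, ∀ b ∈ A, x a b ≠ 0 → (∑ j, c a j + ∑ j, c b j ≤ 2 ∨
      (∑ j, c a j + ∑ j, c b j ≤ 54 / 25 ∧ ∃ δ : ℝ, 0 < δ ∧ GoodT δ (tp (c a) (c b))))) (ε : ℝ) (hε : 0 < ε) :
    ∃ D0 : ℕ, ∀ D : ℕ, D0 ≤ D → ∀ h : Fin (K0 + 1) → ℕ, Sep D h → ∀ (i : Fin (K0 + 1)) (a0 : ℕ),
      (a0 + h i).Coprime (WD D) → ∀ᶠ X : ℝ in atTop,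
      |∑ n ∈ Icc 1 ⌊3 * X⌋₊, nu X (WD D) a0 n * th (n + h i) * (∑ a ∈ A, ∑ b ∈ A, x a b *
          ((∏ j, vv τ D X (F a j) ((n : ℤ) + hrem h i j)) * ∏ j, vv τ D X (F b j) ((n : ℤ) + hrem h i j))) -
        NN τ D X (K0 + 1) * Real.log X * ((1 / 4 - τ) * ∑ a ∈ A, ∑ b ∈ A, x a b * ∏ j, DD (F a j) (F b j))| ≤
      ε * (NN τ D X (K0 + 1) * Real.log X) := by
  classical
  obtain ⟨hε', hε''⟩ := Quad.eps_le A x ε hε
  set ε' := ε / (∑ a ∈ A, ∑ b ∈ A, |x a b| + 1) with hdef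
  have key : ∀ p ∈ (A ×ˢ A).filter (fun p => x p.1 p.2 ≠ 0), ∃ D0 : ℕ, ∀ D : ℕ, D0 ≤ D →
      ∀ h : Fin (K0 + 1) → ℕ, Sep D h → ∀ (i : Fin (K0 + 1)) (a : ℕ),
      (a + h i).Coprime (WD D) → ∀ᶠ X : ℝ in atTop,
      |∑ n ∈ Icc 1 ⌊3 * X⌋₊, nu X (WD D) a n * th (n + h i) *
          ∏ j : Fin K0, (vv τ D X (F p.1 j) ((n : ℤ) + hrem h i j) *
            vv τ D X (F p.2 j) ((n : ℤ) + hrem h i j)) -
        NN τ D X (K0 + 1) * Real.log X * ((1 / 4 - τ) * ∏ j, DD (F p.1 j) (F p.2 j))| ≤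
      ε' * (NN τ D X (K0 + 1) * Real.log X) := by
    intro p hp
    rw [Finset.mem_filter, Finset.mem_product] at hp
    exact hP2 τ hτ hτ' (F p.1) (F p.2) (c p.1) (c p.2) (hF _ hp.1.1) (hF _ hp.1.2)
      (hsum _ hp.1.1 _ hp.1.2 hp.2) ε' hε'
  choose! D0 hD0 using key
  refine ⟨((A ×ˢ A).filter (fun p => x p.1 p.2 ≠ 0)).sup D0, fun D hD h hS i a0 hcop => ?_⟩
  have hall : ∀ᶠ X : ℝ in atTop, ∀ p ∈ (A ×ˢ A).filter (fun p => x p.1 p.2 ≠ 0),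
      |∑ n ∈ Icc 1 ⌊3 * X⌋₊, nu X (WD D) a0 n * th (n + h i) *
          ∏ j : Fin K0, (vv τ D X (F p.1 j) ((n : ℤ) + hrem h i j) *
            vv τ D X (F p.2 j) ((n : ℤ) + hrem h i j)) -
        NN τ D X (K0 + 1) * Real.log X * ((1 / 4 - τ) * ∏ j, DD (F p.1 j) (F p.2 j))| ≤
      ε' * (NN τ D X (K0 + 1) * Real.log X) := by
    rw [Filter.eventually_all_finset]
    intro p hp
    exact hD0 p hp D ((Finset.le_sup hp).trans hD) h hS i a0 hcop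
  filter_upwards [hall, NN_pos τ (by linarith) D (K0 + 1), eventually_ge_atTop 1] with X hX hN hX1
  have hlog : 0 ≤ Real.log X := Real.log_nonneg hX1
  have := Quad.gen A x
    (fun a b => ∑ n ∈ Icc 1 ⌊3 * X⌋₊, nu X (WD D) a0 n * th (n + h i) *
          ∏ j : Fin K0, (vv τ D X (F a j) ((n : ℤ) + hrem h i j) *
            vv τ D X (F b j) ((n : ℤ) + hrem h i j)))
    (fun a b => (1 / 4 - τ) * ∏ j, DD (F a j) (F b j)) (NN τ D X (K0 + 1) * Real.log X) ε ε'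
    (mul_nonneg hN.le hlog) hε''
    (fun a ha b hb h0 => hX (a, b) (Finset.mem_filter.2 ⟨Finset.mem_product.2 ⟨ha, hb⟩, h0⟩))
  have e2 : ∑ n ∈ Icc 1 ⌊3 * X⌋₊, nu X (WD D) a0 n * th (n + h i) * (∑ a ∈ A, ∑ b ∈ A, x a b *
          ((∏ j, vv τ D X (F a j) ((n : ℤ) + hrem h i j)) * ∏ j, vv τ D X (F b j) ((n : ℤ) + hrem h i j))) =
      ∑ a ∈ A, ∑ b ∈ A, x a b * ∑ n ∈ Icc 1 ⌊3 * X⌋₊, nu X (WD D) a0 n * th (n + h i) *
          ∏ j : Fin K0, (vv τ D X (F a j) ((n : ℤ) + hrem h i j) *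
            vv τ D X (F b j) ((n : ℤ) + hrem h i j)) := by
    simp only [Finset.mul_sum]
    rw [Finset.sum_comm]
    refine Finset.sum_congr rfl fun a _ => ?_
    rw [Finset.sum_comm]
    refine Finset.sum_congr rfl fun b _ => ?_
    refine Finset.sum_congr rfl fun n _ => ?_
    rw [Finset.prod_mul_distrib]
    ring
  have e3 : ∑ a ∈ A, ∑ b ∈ A, x a b * ((1 / 4 - τ) * ∏ j, DD (F a j) (F b j)) =
      (1 / 4 - τ) * ∑ a ∈ A, ∑ b ∈ A, x a b * ∏ j, DD (F a j) (F b j) := by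
    simp only [Finset.mul_sum]
    refine Finset.sum_congr rfl fun a _ => Finset.sum_congr rfl fun b _ => ?_
    ring
  rw [e2, ← e3]
  exact this

/-- the asymptotic lower bound for the quadratic form -/
theorem lim_qq_c (hP2 : S_P2) {K0 N1 M : ℕ} {f : ℕ → ℝ → ℝ} {β : ℝ} (hN1 : 0 < N1) (hf : Cells N1 M f β)
    (F : (Fin (K0 + 1) → ℕ) → ℝ) (A : Finset (Fin K0 → ℕ)) (hA : A ⊆ Box K0 M)
    (κ : (Fin K0 → ℕ) → (Fin K0 → ℕ) → ℝ) (hκ : ∀ c ∈ A, ∀ c' ∈ A, κ c c' ≠ 0 → Ev N1 c c')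
    (τ : ℝ) (hτ : 0 < τ) (hτ' : τ < 1 / 8) (ε : ℝ) (hε : 0 < ε) :
    ∃ D0 : ℕ, ∀ D : ℕ, D0 ≤ D → ∀ h : Fin (K0 + 1) → ℕ, Sep D h → ∀ (i : Fin (K0 + 1)) (a : ℕ),
      (a + h i).Coprime (WD D) → ∀ᶠ X : ℝ in atTop,
      NN τ D X (K0 + 1) * Real.log X *
          ((1 / 4 - τ) * (β ^ K0 * ∑ c ∈ A, κ c c * UU M F i c ^ 2) - ε) ≤
        ∑ n ∈ Icc 1 ⌊3 * X⌋₊, nu X (WD D) a n * (th (n + h i) * qqc τ D X f M F h i A κ n) := by
  classical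
  have hN : (0 : ℝ) < N1 := by exact_mod_cast hN1
  have key := fun i : Fin (K0 + 1) => S2quad_c hP2 A τ hτ hτ' (fun c j => f (c j))
    (fun c j => ((c j : ℝ) + 1) / N1)
    (fun c hc j => hf.good _ (Lim.mem_Box.1 (hA hc) j))
    (fun c c' => κ c c' * (UU M F i c * UU M F i c'))
    (fun a ha b hb hab => by
      rw [Lim.sum_len, Lim.sum_len, ← add_div]
      have h1 : κ a b ≠ 0 := by
        intro h0
        rw [h0, zero_mul] at hab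
        exact hab rfl
      rcases hκ a ha b hb h1 with h2 | ⟨h2, δ, hδ, hG⟩
      · left
        have := Lim.le_two hN1 h2
        exact_mod_cast this
      · right
        refine ⟨?_, δ, hδ, hG⟩
        rw [div_le_iff₀ hN]
        have h3 : (25 * ((rad a : ℝ) + (rad b : ℝ))) ≤ 54 * (N1 : ℝ) := by exact_mod_cast h2
        linarith) ε hε
  choose D0 hD0 using key
  refine ⟨Finset.univ.sup D0, fun D hD h hS i a hcop => ?_⟩
  filter_upwards [hD0 i D ((Finset.le_sup (Finset.mem_univ i)).trans hD) h hS i a hcop] with X hX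
  have e1 : ∀ n : ℕ, qqc τ D X f M F h i A κ n =
      ∑ a ∈ A, ∑ b ∈ A, κ a b * (UU M F i a * UU M F i b) *
          ((∏ j, vv τ D X (f (a j)) ((n : ℤ) + hrem h i j)) *
            ∏ j, vv τ D X (f (b j)) ((n : ℤ) + hrem h i j)) := by
    intro n
    unfold qqc prodv
    refine Finset.sum_congr rfl fun a _ => ?_
    refine Finset.sum_congr rfl fun b _ => ?_
    ring
  have e2 : ∑ a ∈ A, ∑ b ∈ A, κ a b * (UU M F i a * UU M F i b) *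
      ∏ j, DD (f (a j)) (f (b j)) =
      β ^ K0 * ∑ c ∈ A, κ c c * UU M F i c ^ 2 := by
    have h1 : ∀ a ∈ A, ∑ b ∈ A, κ a b * (UU M F i a * UU M F i b) *
        ∏ j, DD (f (a j)) (f (b j)) = β ^ K0 * (κ a a * UU M F i a ^ 2) := by
      intro a ha
      rw [Finset.sum_eq_single_of_mem a ha]
      · rw [Lim.prod_DD hf, if_pos rfl]
        ring
      · intro b _ hb
        rw [Lim.prod_DD hf, if_neg (Ne.symm hb), mul_zero]
    rw [Finset.sum_congr rfl h1, ← Finset.mul_sum]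
  simp only [e1, ← mul_assoc] at hX ⊢
  simp only [← mul_assoc] at e2
  rw [e2] at hX
  have := (abs_le.1 hX).1
  linarith

end Pool.Agent.K9h6.N
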