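import Mathlib
import Pool.Agent.Y826.Z.Lay
import Pool.Agent.K9h6.N.Crit

/-! T7c: the layered choice of the multipliers (as in `Pool.Agent.Y826.Z.Lay`; helper6). -/

set_option autoImplicit false

open Finset Filter

namespace Pool.Agent.K9h6.N

open Pool.Agent.Y826.Z Pool.Agent.Y826.Z.LayAux Pool.Agent.H95R2.BG Pool.Agent.H378R2

/-- the layered choice of the multipliers -/
theorem lay (hC : S_CRIT) : S_LAY := by
  intro K0 N1 M R L Dm hN1 hM hR hDm hL F hF A hA hUU hAR ρ hρ hEv r μ hμ T W hW0 hWA hWB hcrit h hadm Q b hQ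
    hb ε hε
  have hN1r : (0 : ℝ) < N1 := by exact_mod_cast hN1
  have hσ0 : ∀ c : Fin K0 → ℕ, 0 ≤ (rad c : ℝ) / N1 := fun c => by positivity
  refine hC hN1 hM hR F hF A hA hUU r μ hμ
    (al L Dm μ T ρ (fun c : Fin K0 → ℕ => (rad c : ℝ) / N1))
    (kk L Dm μ T ρ (fun c : Fin K0 → ℕ => (rad c : ℝ) / N1)) ?_ ?_ ?_ h hadm Q b hQ hb ε hε
  · intro Y
    exact psd μ hμ _ (bl L Dm μ T ρ (fun c : Fin K0 → ℕ => (rad c : ℝ) / N1)) _ Y
  · intro c hc c' hc' hne
    refine hEv c hc c' hc' ?_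
    by_contra hcon
    exact hne (kk_zero L Dm μ T ρ _ hμ c c' (hσ0 c) (hσ0 c') (hρ c hc) (hρ c' hc') (by omega))
  · refine hcrit.trans_le ?_
    refine Finset.sum_le_sum fun i _ => Finset.sum_le_sum fun c hc => ?_
    refine mul_le_mul_of_nonneg_right ?_ (sq_nonneg _)
    refine diag L Dm μ T ρ (fun c : Fin K0 → ℕ => (rad c : ℝ) / N1) hμ (W c) c (hσ0 c) ?_
      (hW0 c hc) (hWA c hc) (hWB c hc)
    show (rad c : ℝ) / N1 < 2
    rw [div_lt_iff₀ hN1r]
    have h1 := hAR c hc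
    have h2 : rad c < 2 * N1 := by omega
    exact_mod_cast h2

end Pool.Agent.K9h6.N
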