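import Mathlib
import Pool.Agent.K9h6.N.Defs
import Pool.Agent.Y535.ZP.OA
import Pool.Agent.Y826.Z.OB3
import Pool.Agent.Y814.Z.OC

/-! Project K9h6/N, task T1: the off-diagonal terms for a smooth short variable, lemmas. -/

set_option autoImplicit false

open Finset Filter

namespace Pool.Agent.K9h6.N.Off

open Pool.Agent.Y826.Z

/-- summation by parts -/
lemma abel_range (w : ℕ → ℝ) (F : ℕ → ℂ) (L : ℕ) (S b T : ℝ) (hb0 : 0 ≤ b) (hb : ∀ j < L, |w j| ≤ b)
    (hT : ∑ j ∈ range (L - 1), |w (j + 1) - w j| ≤ T) (hS0 : 0 ≤ S)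
    (hS : ∀ l ≤ L, ‖∑ j ∈ range l, F j‖ ≤ S) :
    ‖∑ j ∈ range L, (w j : ℂ) * F j‖ ≤ (b + T) * S := by
  have hT0 : 0 ≤ T := le_trans (sum_nonneg fun _ _ => abs_nonneg _) hT
  rcases Nat.eq_zero_or_pos L with h0 | h0
  · subst h0
    simp only [range_zero, sum_empty, norm_zero]
    positivity
  have h1 := Finset.sum_range_by_parts (R := ℂ) (M := ℂ) (fun j => (w j : ℂ)) F L
  simp only [smul_eq_mul] at h1
  rw [h1]
  refine (norm_sub_le _ _).trans ?_
  rw [add_mul]
  apply add_le_add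
  · rw [norm_mul, Complex.norm_real, Real.norm_eq_abs]
    exact mul_le_mul (hb _ (by omega)) (hS L le_rfl) (norm_nonneg _) hb0
  · refine (norm_sum_le _ _).trans ?_
    refine le_trans ?_ (mul_le_mul_of_nonneg_right hT hS0)
    rw [sum_mul]
    apply sum_le_sum
    intro j hj
    rw [mem_range] at hj
    rw [norm_mul, ← Complex.ofReal_sub, Complex.norm_real, Real.norm_eq_abs]
    exact mul_le_mul_of_nonneg_left (hS (j + 1) (by omega)) (abs_nonneg _)

/-- sums over short intervals -/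
lemma pref {ε C : ℝ} (hε : 0 < ε) (hC : 1 ≤ C)
    (hV : ∀ (P : Finset ℕ), (∀ p ∈ P, p.Prime) →
      ∀ (A c : (p : ℕ) → ZMod p) (a : ℤ) (N d : ℕ), 1 ≤ d → d ≤ N → (∀ p ∈ P, ¬ p ∣ d) →
      ∀ Z : ℤ → ℂ, (∀ n, Z (n + d) = Z n) → (∀ n, ‖Z n‖ ≤ 1) →
      ‖∑ n ∈ Ico a (a + N), Z n * PH P A c n‖ ^ 2 ≤
        C * ((N : ℝ) * ((∏ p ∈ P, p : ℕ) : ℝ)) ^ ε *
          ((N : ℝ) * d + N * Real.sqrt ((∏ p ∈ P.filter (fun p => A p = 0), p : ℕ) : ℝ) *
            (Real.sqrt ((∏ p ∈ P, p : ℕ) : ℝ) + N / Real.sqrt ((∏ p ∈ P, p : ℕ) : ℝ))))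
    (P : Finset ℕ) (hP : ∀ p ∈ P, p.Prime) (A c : (p : ℕ) → ZMod p) (a : ℤ) (L N d : ℕ) (hL : L ≤ N)
    (hN : 1 ≤ N) (hd : 1 ≤ d) (hPd : ∀ p ∈ P, ¬ p ∣ d) (Z : ℤ → ℂ) (hZ : ∀ n, Z (n + d) = Z n)
    (hZ1 : ∀ n, ‖Z n‖ ≤ 1) :
    ‖∑ n ∈ Ico a (a + L), Z n * PH P A c n‖ ^ 2 ≤
        C * ((N : ℝ) * ((∏ p ∈ P, p : ℕ) : ℝ)) ^ ε *
          ((N : ℝ) * d + N * Real.sqrt ((∏ p ∈ P.filter (fun p => A p = 0), p : ℕ) : ℝ) *
            (Real.sqrt ((∏ p ∈ P, p : ℕ) : ℝ) + N / Real.sqrt ((∏ p ∈ P, p : ℕ) : ℝ))) := by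
  have hprod : (1 : ℝ) ≤ ((∏ p ∈ P, p : ℕ) : ℝ) := by
    have : 0 < ∏ p ∈ P, p := Finset.prod_pos fun p hp => (hP p hp).pos
    exact_mod_cast this
  have hN1 : (1 : ℝ) ≤ N := by exact_mod_cast hN
  have hLN : (L : ℝ) ≤ N := by exact_mod_cast hL
  have hL0 : (0 : ℝ) ≤ L := Nat.cast_nonneg _
  set R := ((∏ p ∈ P, p : ℕ) : ℝ) with hR
  set g := Real.sqrt ((∏ p ∈ P.filter (fun p => A p = 0), p : ℕ) : ℝ) with hg
  have hg0 : 0 ≤ g := Real.sqrt_nonneg _
  by_cases hdL : d ≤ L
  · refine (hV P hP A c a L d hd hdL hPd Z hZ hZ1).trans ?_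
    have hs : 0 ≤ Real.sqrt R := Real.sqrt_nonneg _
    have hd0 : (0 : ℝ) ≤ d := Nat.cast_nonneg _
    apply mul_le_mul
    · apply mul_le_mul_of_nonneg_left _ (by linarith)
      apply Real.rpow_le_rpow (by positivity) _ hε.le
      exact mul_le_mul_of_nonneg_right hLN (by linarith)
    · gcongr
    · positivity
    · positivity
  · have h1 : ‖∑ n ∈ Ico a (a + L), Z n * PH P A c n‖ ≤ L := by
      refine (norm_sum_le _ _).trans ?_
      have h2 : ∀ n ∈ Ico a (a + (L : ℤ)), ‖Z n * PH P A c n‖ ≤ 1 := by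
        intro n _
        rw [norm_mul]
        exact mul_le_one₀ (hZ1 n) (norm_nonneg _) (Pool.Agent.Y535.ZP.PH_norm _ _ _ _)
      refine (sum_le_sum h2).trans ?_
      simp
    have h3 : (L : ℝ) ≤ d := by exact_mod_cast (not_le.1 hdL).le
    have h4 : 1 ≤ C * ((N : ℝ) * R) ^ ε := by
      have : 1 ≤ ((N : ℝ) * R) ^ ε := Real.one_le_rpow (by nlinarith) hε.le
      nlinarith
    have hs : 0 ≤ Real.sqrt R := Real.sqrt_nonneg _
    calc ‖∑ n ∈ Ico a (a + L), Z n * PH P A c n‖ ^ 2 ≤ (L : ℝ) ^ 2 :=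
          pow_le_pow_left₀ (norm_nonneg _) h1 2
      _ = L * L := by ring
      _ ≤ N * d := mul_le_mul hLN h3 hL0 (by positivity)
      _ ≤ (N : ℝ) * d + N * g * (Real.sqrt R + N / Real.sqrt R) := by
          have : 0 ≤ N * g * (Real.sqrt R + N / Real.sqrt R) := by positivity
          linarith
      _ ≤ C * ((N : ℝ) * R) ^ ε * ((N : ℝ) * d + N * g * (Real.sqrt R + N / Real.sqrt R)) := by
          apply le_mul_of_one_le_left _ h4
          positivity

/-- frequencies weighted by greatest common divisors -/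
lemma freq_sum (q P : ℕ) (hP : P ≠ 0) :
    ∑ k ∈ freq q, (1 / |(k : ℝ)|) * (Int.gcd k (P : ℤ) : ℝ) ≤ 2 * tau P * (1 + Real.log q) := by
  classical
  set f : ℕ → ℝ := fun n => (1 / (n : ℝ)) * (Nat.gcd n P : ℝ) with hf
  have hf0 : ∀ n, 0 ≤ f n := fun n => by rw [hf]; positivity
  have h1 : ∑ k ∈ freq q, (1 / |(k : ℝ)|) * (Int.gcd k (P : ℤ) : ℝ) = ∑ k ∈ freq q, f k.natAbs := by
    apply sum_congr rfl
    intro k _
    rw [hf]
    simp only
    rw [Nat.cast_natAbs, Int.cast_abs]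
    rfl
  have h2 : ∑ k ∈ freq q, f k.natAbs ≤ 2 * ∑ n ∈ Icc 1 q, f n := by
    have hsub : freq q ⊆ (Icc 1 q).image (fun n : ℕ => (n : ℤ)) ∪ (Icc 1 q).image (fun n : ℕ => -(n : ℤ)) := by
      intro k hk
      unfold freq at hk
      rw [mem_filter, mem_Ioc] at hk
      obtain ⟨⟨a1, a2⟩, a3, a4, a5⟩ := hk
      rw [mem_union, mem_image, mem_image]
      rcases lt_or_gt_of_ne a3 with h | h
      · right
        refine ⟨k.natAbs, ?_, by omega⟩
        rw [mem_Icc]; omega
      · left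
        refine ⟨k.natAbs, ?_, by omega⟩
        rw [mem_Icc]; omega
    refine (sum_le_sum_of_subset_of_nonneg hsub (fun k _ _ => hf0 _)).trans ?_
    have h3 : ∑ k ∈ (Icc 1 q).image (fun n : ℕ => (n : ℤ)) ∪ (Icc 1 q).image (fun n : ℕ => -(n : ℤ)), f k.natAbs ≤
        ∑ k ∈ (Icc 1 q).image (fun n : ℕ => (n : ℤ)), f k.natAbs +
        ∑ k ∈ (Icc 1 q).image (fun n : ℕ => -(n : ℤ)), f k.natAbs := by
      rw [← sum_union_inter]
      have : 0 ≤ ∑ k ∈ (Icc 1 q).image (fun n : ℕ => (n : ℤ)) ∩ (Icc 1 q).image (fun n : ℕ => -(n : ℤ)), f k.natAbs :=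
        sum_nonneg fun k _ => hf0 _
      linarith
    refine h3.trans ?_
    rw [sum_image (by intro a _ b _ h; simpa using h),
      sum_image (by intro a _ b _ h; simpa using h)]
    simp only [Int.natAbs_natCast, Int.natAbs_neg]
    linarith
  have h4 : ∑ n ∈ Icc 1 q, f n ≤ tau P * (1 + Real.log q) := by
    have h5 : ∀ n ∈ Icc 1 q, f n ≤ ∑ g ∈ P.divisors, if g ∣ n then (1 / (n : ℝ)) * g else 0 := by
      intro n _
      have hmem : Nat.gcd n P ∈ P.divisors := Nat.mem_divisors.2 ⟨Nat.gcd_dvd_right n P, hP⟩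
      refine le_trans ?_ (Finset.single_le_sum (f := fun g : ℕ => if g ∣ n then (1 / (n : ℝ)) * g else 0)
        (fun g _ => by split_ifs <;> positivity) hmem)
      simp only [Nat.gcd_dvd_left n P, if_true]
      exact le_rfl
    refine (sum_le_sum h5).trans ?_
    rw [sum_comm]
    have h6 : ∀ g ∈ P.divisors, ∑ n ∈ Icc 1 q, (if g ∣ n then (1 / (n : ℝ)) * g else 0) ≤ 1 + Real.log q := by
      intro g hg
      have hg0 : 0 < g := Nat.pos_of_mem_divisors hg
      have hgr : (0 : ℝ) < g := by exact_mod_cast hg0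
      rw [← sum_filter]
      have h7 : (Icc 1 q).filter (fun n => g ∣ n) = (Icc 1 (q / g)).image (fun j => g * j) := by
        ext n
        rw [mem_filter, mem_image, mem_Icc]
        constructor
        · rintro ⟨⟨b1, b2⟩, j, rfl⟩
          refine ⟨j, ?_, rfl⟩
          rw [mem_Icc]
          constructor
          · rcases Nat.eq_zero_or_pos j with h | h
            · subst h; simp at b1
            · exact h
          · rw [Nat.le_div_iff_mul_le hg0]; linarith [mul_comm g j]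
        · rintro ⟨j, hj, rfl⟩
          rw [mem_Icc] at hj
          have := Nat.mul_le_of_le_div g j q hj.2
          refine ⟨⟨?_, by linarith [mul_comm g j]⟩, Dvd.intro _ rfl⟩
          exact Nat.mul_pos hg0 hj.1
      rw [h7, sum_image (by intro a _ b _ h; exact Nat.eq_of_mul_eq_mul_left hg0 h)]
      have h8 : ∀ j ∈ Icc 1 (q / g), (1 / ((g * j : ℕ) : ℝ)) * g = 1 / (j : ℝ) := by
        intro j hj
        rw [mem_Icc] at hj
        have : (0 : ℝ) < j := by exact_mod_cast hj.1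
        push_cast
        field_simp
      rw [sum_congr rfl h8]
      rcases Nat.eq_zero_or_pos q with hq | hq
      · subst hq
        simp
      have h9 : ∑ j ∈ Icc 1 (q / g), 1 / (j : ℝ) ≤ ∑ j ∈ Icc 1 q, 1 / (j : ℝ) := by
        apply sum_le_sum_of_subset_of_nonneg
        · intro j hj
          rw [mem_Icc] at hj ⊢
          exact ⟨hj.1, hj.2.trans (Nat.div_le_self _ _)⟩
        · intro j _ _
          positivity
      refine h9.trans ?_
      have h10 := harmonic_le_one_add_log q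
      have h11 : ((harmonic q : ℚ) : ℝ) = ∑ j ∈ Icc 1 q, 1 / (j : ℝ) := by
        rw [harmonic_eq_sum_Icc]
        push_cast
        apply sum_congr rfl
        intro j _
        rw [one_div]
      rw [← h11]
      exact h10
    refine (sum_le_sum h6).trans ?_
    rw [sum_const, nsmul_eq_mul]
    rfl
  rw [h1]
  calc ∑ k ∈ freq q, f k.natAbs ≤ 2 * ∑ n ∈ Icc 1 q, f n := h2
    _ ≤ 2 * (tau P * (1 + Real.log q)) := by linarith
    _ = _ := by ring

/-- a dyadic sum of products `β n β (n + t)` against a function with small sums over intervals -/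
lemma smooth_sum (N : ℕ) (β : ℕ → ℝ) (t : ℤ) (b0 T S : ℝ) (hb0 : 0 ≤ b0)
    (hβ : ∀ n ∈ Ioc N (2 * N), |β n| ≤ b0) (hT : TV β N ≤ T) (F : ℤ → ℂ) (hS0 : 0 ≤ S)
    (hS : ∀ (a : ℤ) (L : ℕ), L ≤ N → ‖∑ n ∈ Ico a (a + L), F n‖ ≤ S) :
    ‖∑ n ∈ Ioc N (2 * N), (Pool.Agent.Y535.ZP.Bf N β t n : ℂ) * F n‖ ≤ (b0 ^ 2 + 2 * b0 * T) * S := by
  classical
  have hT0 : 0 ≤ T := le_trans (sum_nonneg fun _ _ => abs_nonneg _) hT
  set a : ℤ := max (N : ℤ) (N - t) + 1 with ha
  set e : ℤ := min (2 * (N : ℤ)) (2 * N - t) with he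
  set L : ℕ := (e + 1 - a).toNat with hL
  have hLN : L ≤ N := by omega
  set w : ℕ → ℝ := fun j => β (a + j).toNat * β (a + j + t).toNat with hw
  have hin : ∀ j < L, (a + j).toNat ∈ Ioc N (2 * N) ∧ (a + j + t).toNat ∈ Ioc N (2 * N) := by
    intro j hj
    rw [mem_Ioc, mem_Ioc]
    omega
  -- rewriting
  have hBf : ∀ n ∈ Ioc N (2 * N), Pool.Agent.Y535.ZP.Bf N β t n =
      if (N : ℤ) < n + t ∧ (n : ℤ) + t ≤ 2 * N then β n * β ((n : ℤ) + t).toNat else 0 := by
    intro n hn
    unfold Pool.Agent.Y535.ZP.Bf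
    split_ifs with h
    · rw [sum_eq_single ((n : ℤ) + t).toNat]
      · unfold ind
        rw [if_pos (by omega), one_mul]
      · intro m hm hne
        unfold ind
        rw [if_neg (by omega), zero_mul]
      · intro hne
        exfalso
        apply hne
        rw [mem_Ioc]
        omega
    · apply sum_eq_zero
      intro m hm
      rw [mem_Ioc] at hm
      unfold ind
      rw [if_neg (by omega), zero_mul]
  have hre : ∑ n ∈ Ioc N (2 * N), (Pool.Agent.Y535.ZP.Bf N β t n : ℂ) * F n =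
      ∑ j ∈ range L, (w j : ℂ) * F (a + j) := by
    have h1 : ∑ n ∈ Ioc N (2 * N), (Pool.Agent.Y535.ZP.Bf N β t n : ℂ) * F n =
        ∑ n ∈ (Ioc N (2 * N)).filter (fun n : ℕ => (N : ℤ) < n + t ∧ (n : ℤ) + t ≤ 2 * N),
          ((β n * β ((n : ℤ) + t).toNat : ℝ) : ℂ) * F n := by
      rw [sum_filter]
      apply sum_congr rfl
      intro n hn
      rw [hBf n hn]
      split_ifs
      · rfl
      · simp
    rw [h1]
    apply sum_bij' (fun (n : ℕ) _ => ((n : ℤ) - a).toNat) (fun (j : ℕ) _ => (a + j).toNat)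
    · intro n hn
      rw [mem_filter, mem_Ioc] at hn
      rw [mem_range]
      omega
    · intro j hj
      rw [mem_range] at hj
      rw [mem_filter, mem_Ioc]
      omega
    · intro n hn
      rw [mem_filter, mem_Ioc] at hn
      omega
    · intro j hj
      rw [mem_range] at hj
      omega
    · intro n hn
      rw [mem_filter, mem_Ioc] at hn
      have e1 : a + (((n : ℤ) - a).toNat : ℤ) = n := by omega
      rw [hw]
      simp only [e1]
      congr 2
  rw [hre]
  apply abel_range w (fun j => F (a + j)) L S (b0 ^ 2) (2 * b0 * T) (sq_nonneg _) _ _ hS0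
  · intro l hl
    have h1 : ∑ j ∈ range l, F (a + j) = ∑ n ∈ Ico a (a + l), F n := by
      apply sum_bij' (fun (j : ℕ) _ => a + (j : ℤ)) (fun (n : ℤ) _ => (n - a).toNat)
      · intro j hj
        rw [mem_range] at hj
        rw [mem_Ico]
        omega
      · intro n hn
        rw [mem_Ico] at hn
        rw [mem_range]
        omega
      · intro j _
        omega
      · intro n hn
        rw [mem_Ico] at hn
        omega
      · intro j _
        rfl
    rw [h1]
    exact hS a l (hl.trans hLN)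
  · intro j hj
    obtain ⟨h1, h2⟩ := hin j hj
    rw [hw]
    simp only
    rw [abs_mul, sq]
    exact mul_le_mul (hβ _ h1) (hβ _ h2) (abs_nonneg _) hb0
  · have h1 : ∀ j ∈ range (L - 1), |w (j + 1) - w j| ≤
        b0 * |β ((a + j).toNat + 1) - β (a + j).toNat| +
        b0 * |β ((a + j + t).toNat + 1) - β (a + j + t).toNat| := by
      intro j hj
      rw [mem_range] at hj
      obtain ⟨a1, a2⟩ := hin j (by omega)
      obtain ⟨a3, a4⟩ := hin (j + 1) (by omega)
      have e1 : (a + ((j + 1 : ℕ) : ℤ)).toNat = (a + j).toNat + 1 := by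
        rw [mem_Ioc] at a1 a3; omega
      have e2 : (a + ((j + 1 : ℕ) : ℤ) + t).toNat = (a + j + t).toNat + 1 := by
        rw [mem_Ioc] at a2 a4; omega
      rw [e1] at a3
      rw [e2] at a4
      rw [hw]
      simp only [e1, e2]
      set x := (a + j).toNat
      set y := (a + j + t).toNat
      have e3 : β (x + 1) * β (y + 1) - β x * β y = (β (x + 1) - β x) * β (y + 1) + β x * (β (y + 1) - β y) := by
        ring
      rw [e3]
      refine (abs_add_le _ _).trans ?_
      rw [abs_mul, abs_mul]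
      have h5 := hβ _ a4
      have h6 := hβ _ a1
      have h7 := abs_nonneg (β (x + 1) - β x)
      have h8 := abs_nonneg (β (y + 1) - β y)
      nlinarith
    refine (sum_le_sum h1).trans ?_
    rw [sum_add_distrib, ← mul_sum, ← mul_sum]
    have h2 : ∑ j ∈ range (L - 1), |β ((a + j).toNat + 1) - β (a + j).toNat| ≤ T := by
      refine le_trans ?_ hT
      unfold TV
      have hinj : Set.InjOn (fun j : ℕ => (a + (j : ℤ)).toNat) (range (L - 1) : Finset ℕ) := by
        intro i hi j hj hij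
        rw [mem_coe, mem_range] at hi hj
        have b1 := (hin i (by omega)).1
        have b2 := (hin j (by omega)).1
        rw [mem_Ioc] at b1 b2
        simp only at hij
        omega
      rw [← sum_image (f := fun n => |β (n + 1) - β n|) hinj]
      apply sum_le_sum_of_subset_of_nonneg
      · intro n hn
        rw [mem_image] at hn
        obtain ⟨j, hj, rfl⟩ := hn
        rw [mem_range] at hj
        exact (hin j (by omega)).1
      · intro n _ _
        exact abs_nonneg _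
    have h3 : ∑ j ∈ range (L - 1), |β ((a + j + t).toNat + 1) - β (a + j + t).toNat| ≤ T := by
      refine le_trans ?_ hT
      unfold TV
      have hinj : Set.InjOn (fun j : ℕ => (a + (j : ℤ) + t).toNat) (range (L - 1) : Finset ℕ) := by
        intro i hi j hj hij
        rw [mem_coe, mem_range] at hi hj
        have b1 := (hin i (by omega)).2
        have b2 := (hin j (by omega)).2
        rw [mem_Ioc] at b1 b2
        simp only at hij
        omega
      rw [← sum_image (f := fun n => |β (n + 1) - β n|) hinj]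
      apply sum_le_sum_of_subset_of_nonneg
      · intro n hn
        rw [mem_image] at hn
        obtain ⟨j, hj, rfl⟩ := hn
        rw [mem_range] at hj
        exact (hin j (by omega)).2
      · intro n _ _
        exact abs_nonneg _
    nlinarith

end Pool.Agent.K9h6.N.Off
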