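import Mathlib
import Pool.Agent.K9h6.N.Offs1

/-! Project K9h6/N, task T1: the off-diagonal terms for a smooth short variable. -/

set_option autoImplicit false

open Finset Filter

namespace Pool.Agent.K9h6.N.Off

open Pool.Agent.Y826.Z Pool.Agent.Y826.Z.OB

lemma Bd_gcd (N D d g : ℝ) (hd : 0 ≤ d) (hg : 1 ≤ g) : Bd N D d g ≤ g * Bd N D d 1 := by
  unfold Bd
  rw [Real.one_rpow, one_mul, mul_add g]
  have h1 : g ^ (1 / 4 : ℝ) ≤ g := by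
    calc g ^ (1 / 4 : ℝ) ≤ g ^ (1 : ℝ) := Real.rpow_le_rpow_of_exponent_le hg (by norm_num)
      _ = g := Real.rpow_one g
  have h2 := Real.rpow_nonneg hd (1 / 4 : ℝ)
  apply add_le_add
  · exact le_mul_of_one_le_left (Real.sqrt_nonneg _) hg
  · exact mul_le_mul_of_nonneg_right h1 (by positivity)

/-- one term: everything fixed except `n₁, n₂, m` -/
lemma one_term {ε C : ℝ} (hε : 0 < ε) (hC : 1 ≤ C)
    (hV : ∀ (P : Finset ℕ), (∀ p ∈ P, p.Prime) →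
      ∀ (A c : (p : ℕ) → ZMod p) (a : ℤ) (N d : ℕ), 1 ≤ d → d ≤ N → (∀ p ∈ P, ¬ p ∣ d) →
      ∀ Z : ℤ → ℂ, (∀ n, Z (n + d) = Z n) → (∀ n, ‖Z n‖ ≤ 1) →
      ‖∑ n ∈ Ico a (a + N), Z n * PH P A c n‖ ^ 2 ≤
        C * ((N : ℝ) * ((∏ p ∈ P, p : ℕ) : ℝ)) ^ ε *
          ((N : ℝ) * d + N * Real.sqrt ((∏ p ∈ P.filter (fun p => A p = 0), p : ℕ) : ℝ) *
            (Real.sqrt ((∏ p ∈ P, p : ℕ) : ℝ) + N / Real.sqrt ((∏ p ∈ P, p : ℕ) : ℝ))))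
    (hPH : S_PH) {K : ℕ} (h : Fin K → ℤ) (W b : ℕ) (hyp : Hyp h W b) (a r u1 u2 v1 v2 : Fin K → ℕ) (l : ℤ)
    (M N : ℕ) (X b0 T : ℝ) (β : ℕ → ℝ) (hX : 1 ≤ X) (hN : 1 ≤ N) (hNX : (N : ℝ) ≤ X)
    (hsq : Squarefree (W * Pr a * Pr r * Pr u1 * Pr u2 * Pr v1 * Pr v2))
    (hqX : ((W * Pr a * Pr r * Pr u1 * Pr u2 * Pr v1 * Pr v2 : ℕ) : ℝ) ≤ X)
    (hβ : ∀ n ∈ Ioc N (2 * N), |β n| ≤ b0) (hT : TV β N ≤ T) :
    |∑ n1 ∈ Ioc N (2 * N), ∑ n2 ∈ Ioc N (2 * N),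
      ind ((n2 : ℤ) = n1 + l * ((W * Pr a * Pr r : ℕ) : ℤ)) * (β n1 * β n2 *
        ∑ m ∈ Ioc M (2 * M), ind (Lc h W b a r (m * n1)) * Du h u1 v1 (m * n1) * Du h u2 v2 (m * n2))| ≤
    4 * ((b0 ^ 2 + 2 * b0 * T) * (Real.sqrt C * X ^ ε * Bd N ((W * Pr a * Pr v1 * Pr v2 : ℕ) : ℝ)
      ((Pr r * Pr u1 * Pr u2 : ℕ) : ℝ) 1) * (2 * tau (Pr r * Pr u1 * Pr u2) * (1 + Real.log X))) := by
  classical
  have hsq1 : Squarefree (W * Pr a * Pr r * Pr u1 * Pr u2) :=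
    hsq.squarefree_of_dvd ⟨Pr v1 * Pr v2, by ring⟩
  obtain ⟨nn, ω, A, Z, hω, hA, hZ1, hZ2, hR⟩ := hPH K h W b hyp a r u1 u2 l M hsq1
  have hb0 : 0 ≤ b0 := (abs_nonneg _).trans (hβ (N + 1) (by rw [mem_Ioc]; omega))
  have hT0 : 0 ≤ T := le_trans (sum_nonneg fun _ _ => abs_nonneg _) hT
  have hX0 : 0 < X := by linarith
  have hlogX : 0 ≤ Real.log X := Real.log_nonneg hX
  set t : ℤ := l * ((W * Pr a * Pr r : ℕ) : ℤ) with ht
  set Pi : ℕ := Pr r * Pr u1 * Pr u2 with hPi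
  set q : ℕ := W * Pr a * Pr r * Pr u1 * Pr u2 * Pr v1 * Pr v2 with hq
  set d : ℕ := W * Pr a * Pr v1 * Pr v2 with hd
  have hqd : q = d * Pi := by rw [hq, hd, hPi]; ring
  have hq0 : 0 < q := Nat.pos_of_ne_zero hsq.ne_zero
  have hPisf : Squarefree Pi := hsq.squarefree_of_dvd ⟨d, by rw [hqd]; ring⟩
  have hPi0 : 0 < Pi := Nat.pos_of_ne_zero hPisf.ne_zero
  have hd0 : 0 < d := by
    rcases Nat.eq_zero_or_pos d with h0 | h0
    · rw [hqd, h0] at hq0; simp at hq0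
    · exact h0
  set PP := Pi.primeFactors with hPP
  have hprod : ∏ p ∈ PP, p = Pi := Nat.prod_primeFactors_of_squarefree hPisf
  have hPP' : ∀ p ∈ PP, p.Prime := fun p hp => Nat.prime_of_mem_primeFactors hp
  have hcop : ∀ p ∈ PP, ¬ p ∣ d := by
    intro p hp hpd
    have hpp := hPP' p hp
    have hpPi : p ∣ Pi := Nat.dvd_of_mem_primeFactors hp
    have : p * p ∣ q := by rw [hqd]; exact Nat.mul_dvd_mul hpd hpPi
    exact hpp.one_lt.ne' (Nat.isUnit_iff.mp (hsq p this))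
  set cc : (p : ℕ) → ZMod p := fun p => if p ∣ Pr u2 then ((t : ℤ) : ZMod p) else 0 with hcc
  set AA : Fin nn → ℤ → (p : ℕ) → ZMod p := fun ξ k p => (k : ZMod p) * ((q / p : ℕ) : ZMod p)⁻¹ * A ξ p with hAA
  set FF : Fin nn → ℤ → ℤ → ℂ := fun ξ k n => Z ξ v1 v2 k n * PH PP (AA ξ k) cc n with hFF
  set S : ℝ := Real.sqrt C * X ^ ε * Bd N (d : ℝ) (Pi : ℝ) 1 with hS
  have hXe : 0 ≤ X ^ ε := Real.rpow_nonneg hX0.le _
  have hBd1 : 0 ≤ Bd N (d : ℝ) (Pi : ℝ) 1 :=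
    Pool.Agent.Y535.ZP.Bd_nonneg _ _ _ _ (Nat.cast_nonneg _) zero_le_one
  have hS0 : 0 ≤ S := by rw [hS]; positivity
  have hN0 : (0 : ℝ) ≤ N := Nat.cast_nonneg _
  have hPr0 : (0 : ℝ) < Pi := by exact_mod_cast hPi0
  have hPX : (Pi : ℝ) ≤ X := by
    refine le_trans ?_ hqX
    exact_mod_cast Nat.le_of_dvd hq0 ⟨d, by rw [hqd]; ring⟩
  have hpow : ((N : ℝ) * Pi) ^ ε ≤ (X ^ ε) ^ 2 := by
    calc ((N : ℝ) * Pi) ^ ε ≤ (X * X) ^ ε := by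
          apply Real.rpow_le_rpow (by positivity) _ hε.le
          exact mul_le_mul hNX hPX hPr0.le hX0.le
      _ = (X ^ ε) ^ 2 := by rw [Real.mul_rpow hX0.le hX0.le]; ring
  -- sums over intervals
  have hint : ∀ (ξ : Fin nn) (k : ℤ), k ≠ 0 → ∀ (x : ℤ) (L : ℕ), L ≤ N →
      ‖∑ n ∈ Ico x (x + L), FF ξ k n‖ ≤ (Int.gcd k (Pi : ℤ) : ℝ) * S := by
    intro ξ k hk x L hL
    have hv := pref hε hC hV PP hPP' (AA ξ k) cc x L N d hL hN hd0 hcop (Z ξ v1 v2 k)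
      (hZ2 ξ v1 v2 k) (hZ1 ξ v1 v2 k)
    rw [hprod] at hv
    set G := ∏ p ∈ PP.filter (fun p => AA ξ k p = 0), p with hG
    set gg := Int.gcd k (Pi : ℤ) with hgg
    have hggpos : 0 < gg := Int.gcd_pos_of_ne_zero_left _ hk
    have hGdvd : G ∣ gg := by
      rw [hG]
      apply Finset.prod_primes_dvd
      · intro p hp
        exact (hPP' p (mem_filter.mp hp).1).prime
      · intro p hp
        rw [mem_filter] at hp
        have hpp := hPP' p hp.1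
        have : Fact p.Prime := ⟨hpp⟩
        have hpPi : p ∣ Pi := Nat.dvd_of_mem_primeFactors hp.1
        have h0 := hp.2
        have hA0 : A ξ p ≠ 0 := hA ξ p hpp hpPi
        have hqp : ((q / p : ℕ) : ZMod p) ≠ 0 := by
          intro h1
          rw [ZMod.natCast_eq_zero_iff] at h1
          have hpq : p ∣ q := hpPi.trans ⟨d, by rw [hqd]; ring⟩
          have h2 : p * p ∣ q := by
            have := Nat.mul_dvd_mul_left p h1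
            rwa [Nat.mul_div_cancel' hpq] at this
          exact hpp.one_lt.ne' (Nat.isUnit_iff.mp (hsq p h2))
        rw [hAA] at h0
        simp only at h0
        have h3 := (mul_eq_zero.mp h0).resolve_right hA0
        have h4 := (mul_eq_zero.mp h3).resolve_right (inv_ne_zero hqp)
        have h5 : (p : ℤ) ∣ k := (ZMod.intCast_zmod_eq_zero_iff_dvd k p).1 h4
        have := Int.dvd_coe_gcd h5 (Int.natCast_dvd_natCast.mpr hpPi)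
        rw [hgg]
        exact_mod_cast this
    have hGle : (G : ℝ) ≤ gg := by exact_mod_cast Nat.le_of_dvd hggpos hGdvd
    have hB := Pool.Agent.Y535.ZP.Bd_sq N d Pi G hN0 (Nat.cast_nonneg _) hPr0 (Nat.cast_nonneg _)
    have hB2 : Bd N d Pi G ≤ Bd N (d : ℝ) Pi gg :=
      Pool.Agent.Y535.ZP.Bd_mono _ _ _ _ _ _ hN0 hPr0.le (Nat.cast_nonneg _) le_rfl hGle
    have hB3 : Bd N (d : ℝ) Pi gg ≤ gg * Bd N (d : ℝ) Pi 1 :=
      Bd_gcd _ _ _ _ hPr0.le (by exact_mod_cast hggpos)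
    have hB0 : 0 ≤ Bd N d Pi G := Pool.Agent.Y535.ZP.Bd_nonneg _ _ _ _ hPr0.le (Nat.cast_nonneg _)
    have hfin : ‖∑ n ∈ Ico x (x + (L : ℤ)), FF ξ k n‖ ^ 2 ≤ ((gg : ℝ) * S) ^ 2 := by
      have e1 : ((gg : ℝ) * S) ^ 2 = C * (X ^ ε) ^ 2 * ((gg : ℝ) * Bd N (d : ℝ) Pi 1) ^ 2 := by
        rw [hS]
        calc ((gg : ℝ) * (Real.sqrt C * X ^ ε * Bd N (d : ℝ) Pi 1)) ^ 2
            = (Real.sqrt C) ^ 2 * (X ^ ε) ^ 2 * ((gg : ℝ) * Bd N (d : ℝ) Pi 1) ^ 2 := by ring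
          _ = _ := by rw [Real.sq_sqrt (by linarith)]
      rw [e1]
      refine hv.trans ?_
      apply mul_le_mul
      · exact mul_le_mul_of_nonneg_left hpow (by linarith)
      · exact hB.trans (pow_le_pow_left₀ hB0 (hB2.trans hB3) 2)
      · positivity
      · positivity
    exact (pow_le_pow_iff_left₀ (norm_nonneg _) (by positivity) (by norm_num)).mp hfin
  -- the sum over `n`
  have hn : ∀ (ξ : Fin nn) (k : ℤ), k ∈ freq q →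
      ‖Ih M q k * ∑ n ∈ Ioc N (2 * N), (Pool.Agent.Y535.ZP.Bf N β t n : ℂ) * FF ξ k n‖ ≤
        ((b0 ^ 2 + 2 * b0 * T) * S) * ((1 / |(k : ℝ)|) * (Int.gcd k (Pi : ℤ) : ℝ)) := by
    intro ξ k hk
    have hk0 : k ≠ 0 := by
      unfold freq at hk
      exact (mem_filter.1 hk).2.1
    have h1 := smooth_sum N β t b0 T ((Int.gcd k (Pi : ℤ) : ℝ) * S) hb0 hβ hT (FF ξ k) (by positivity)
      (hint ξ k hk0)
    rw [norm_mul]
    have h2 := Pool.Agent.Y535.ZP.Ih_dec M q k hk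
    calc ‖Ih M q k‖ * ‖∑ n ∈ Ioc N (2 * N), (Pool.Agent.Y535.ZP.Bf N β t n : ℂ) * FF ξ k n‖
        ≤ (1 / |(k : ℝ)|) * ((b0 ^ 2 + 2 * b0 * T) * ((Int.gcd k (Pi : ℤ) : ℝ) * S)) :=
          mul_le_mul h2 h1 (norm_nonneg _) (by positivity)
      _ = _ := by ring
  set TT0 := ∑ n1 ∈ Ioc N (2 * N), ∑ n2 ∈ Ioc N (2 * N),
      ind ((n2 : ℤ) = n1 + t) * (β n1 * β n2 *
        ∑ m ∈ Ioc M (2 * M), ind (Lc h W b a r (m * n1)) * Du h u1 v1 (m * n1) * Du h u2 v2 (m * n2)) with hTT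
  have hTE : (TT0 : ℂ) = ∑ ξ, (ω ξ : ℂ) * ∑ k ∈ freq q,
      Ih M q k * ∑ n ∈ Ioc N (2 * N), (Pool.Agent.Y535.ZP.Bf N β t n : ℂ) * FF ξ k n := by
    have e0 : ∑ ξ, (ω ξ : ℂ) * ∑ k ∈ freq q,
        Ih M q k * ∑ n ∈ Ioc N (2 * N), (Pool.Agent.Y535.ZP.Bf N β t n : ℂ) * FF ξ k n =
        ∑ n ∈ Ioc N (2 * N), (Pool.Agent.Y535.ZP.Bf N β t n : ℂ) * ∑ ξ, (ω ξ : ℂ) *
          ∑ k ∈ freq q, Ih M q k * Z ξ v1 v2 k n * PH PP (AA ξ k) cc n := by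
      simp only [mul_sum]
      rw [sum_comm' (s := Ioc N (2 * N)) (t := fun _ => univ) (t' := univ)
        (s' := fun _ => Ioc N (2 * N)) (by simp)]
      apply sum_congr rfl; intro ξ _
      rw [sum_comm]
      apply sum_congr rfl; intro n _
      apply sum_congr rfl; intro k _
      simp only [hFF]
      ring
    rw [e0, hTT]
    push_cast
    apply sum_congr rfl; intro n1 hn1
    unfold Pool.Agent.Y535.ZP.Bf
    push_cast
    rw [sum_mul]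
    apply sum_congr rfl; intro n2 hn2
    by_cases hnn : (n2 : ℤ) = n1 + t
    · have hr := hR v1 v2 hsq n1 n2 hnn
      push_cast at hr
      rw [hr]
      ring
    · have : ind ((n2 : ℤ) = n1 + t) = 0 := by unfold ind; rw [if_neg hnn]
      rw [this]; simp
  have h1 : |TT0| = ‖(TT0 : ℂ)‖ := by rw [Complex.norm_real, Real.norm_eq_abs]
  rw [h1, hTE]
  refine (norm_sum_le _ _).trans ?_
  have hlog : Real.log q ≤ Real.log X := Real.log_le_log (by exact_mod_cast hq0) hqX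
  have hτ0 : 0 ≤ tau Pi := tau_nonneg _
  have hin : ∀ ξ : Fin nn, ‖∑ k ∈ freq q,
      Ih M q k * ∑ n ∈ Ioc N (2 * N), (Pool.Agent.Y535.ZP.Bf N β t n : ℂ) * FF ξ k n‖ ≤
      (b0 ^ 2 + 2 * b0 * T) * S * (2 * tau Pi * (1 + Real.log X)) := by
    intro ξ
    refine (norm_sum_le _ _).trans ((sum_le_sum (hn ξ)).trans ?_)
    rw [← mul_sum]
    apply mul_le_mul_of_nonneg_left _ (by positivity)
    refine (freq_sum q Pi hPi0.ne').trans ?_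
    gcongr
  calc ∑ ξ, ‖(ω ξ : ℂ) * ∑ k ∈ freq q,
      Ih M q k * ∑ n ∈ Ioc N (2 * N), (Pool.Agent.Y535.ZP.Bf N β t n : ℂ) * FF ξ k n‖
      ≤ ∑ ξ, |ω ξ| * ((b0 ^ 2 + 2 * b0 * T) * S * (2 * tau Pi * (1 + Real.log X))) := by
        apply sum_le_sum
        intro ξ _
        rw [norm_mul, Complex.norm_real, Real.norm_eq_abs]
        exact mul_le_mul_of_nonneg_left (hin ξ) (abs_nonneg _)
    _ = (∑ ξ, |ω ξ|) * ((b0 ^ 2 + 2 * b0 * T) * S * (2 * tau Pi * (1 + Real.log X))) := by rw [sum_mul]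
    _ ≤ 4 * ((b0 ^ 2 + 2 * b0 * T) * S * (2 * tau Pi * (1 + Real.log X))) :=
        mul_le_mul_of_nonneg_right hω (by positivity)

/-- the main term of the bound -/
lemma Bd_main (N : ℕ) (Λ RA RB U V E : ℝ) (W Pa Pr' Pu1 Pu2 Pv1 Pv2 : ℕ)
    (hΛ : 1 ≤ Λ) (hRA : 0 < RA) (hRB : 0 < RB) (hU : 0 < U) (hV : 0 < V) (hE : 0 < E) (hE4 : E ^ 4 = RB * U ^ 2)
    (hW : (W : ℝ) ≤ Λ) (hPa : (Pa : ℝ) ≤ RA * Λ) (hPr : (Pr' : ℝ) ≤ RB * Λ) (hPr2 : RB / Λ ≤ Pr')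
    (hPu1 : (Pu1 : ℝ) ≤ U * Λ) (hPu12 : U / Λ ≤ Pu1)
    (hPu2 : (Pu2 : ℝ) ≤ U * Λ) (hPu22 : U / Λ ≤ Pu2)
    (hPv1 : (Pv1 : ℝ) ≤ V * Λ) (hPv2 : (Pv2 : ℝ) ≤ V * Λ) :
    Bd N ((W * Pa * Pv1 * Pv2 : ℕ) : ℝ) ((Pr' * Pu1 * Pu2 : ℕ) : ℝ) 1 ≤
      Λ ^ 2 * (Real.sqrt (N * (RA * V ^ 2)) + Real.sqrt N * E + N / E) := by
  have hΛ0 : 0 < Λ := by linarith
  unfold Bd
  rw [Real.one_rpow, one_mul]
  set d : ℝ := ((Pr' * Pu1 * Pu2 : ℕ) : ℝ) with hd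
  have hdle : d ≤ (E * Λ) ^ 4 := by
    rw [hd]
    push_cast
    calc (Pr' : ℝ) * Pu1 * Pu2 ≤ (RB * Λ) * (U * Λ) * (U * Λ) := by gcongr
      _ = RB * U ^ 2 * Λ ^ 3 := by ring
      _ ≤ RB * U ^ 2 * Λ ^ 4 := by
          apply mul_le_mul_of_nonneg_left (pow_le_pow_right₀ hΛ (by norm_num)) (by positivity)
      _ = (E * Λ) ^ 4 := by rw [← hE4]; ring
  have hdge : (E / Λ) ^ 4 ≤ d := by
    rw [hd]
    push_cast
    calc (E / Λ) ^ 4 = RB * U ^ 2 / Λ ^ 4 := by rw [div_pow, hE4]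
      _ ≤ RB * U ^ 2 / Λ ^ 3 := by
          apply div_le_div_of_nonneg_left (by positivity) (by positivity)
            (pow_le_pow_right₀ hΛ (by norm_num))
      _ = (RB / Λ) * (U / Λ) * (U / Λ) := by field_simp
      _ ≤ (Pr' : ℝ) * Pu1 * Pu2 := by gcongr
  have hdpos : 0 < d := lt_of_lt_of_le (by positivity) hdge
  have hd1 : d ^ (1 / 4 : ℝ) ≤ E * Λ := by
    have : ((E * Λ) ^ 4 : ℝ) ^ (1 / 4 : ℝ) = E * Λ := by
      rw [← Real.rpow_natCast, ← Real.rpow_mul (by positivity)]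
      norm_num
    rw [← this]
    exact Real.rpow_le_rpow hdpos.le hdle (by norm_num)
  have hd2 : E / Λ ≤ d ^ (1 / 4 : ℝ) := by
    have : ((E / Λ) ^ 4 : ℝ) ^ (1 / 4 : ℝ) = E / Λ := by
      rw [← Real.rpow_natCast, ← Real.rpow_mul (by positivity)]
      norm_num
    rw [← this]
    exact Real.rpow_le_rpow (by positivity) hdge (by norm_num)
  have hN0 : (0 : ℝ) ≤ N := Nat.cast_nonneg N
  have hs1 : Real.sqrt (N * ((W * Pa * Pv1 * Pv2 : ℕ) : ℝ)) ≤ Λ ^ 2 * Real.sqrt (N * (RA * V ^ 2)) := by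
    have h1 : Real.sqrt (N * ((W * Pa * Pv1 * Pv2 : ℕ) : ℝ)) ≤ Real.sqrt ((Λ ^ 2) ^ 2 * (N * (RA * V ^ 2))) := by
      apply Real.sqrt_le_sqrt
      push_cast
      calc (N : ℝ) * ((W : ℝ) * Pa * Pv1 * Pv2) ≤ N * (Λ * (RA * Λ) * (V * Λ) * (V * Λ)) := by gcongr
        _ = (Λ ^ 2) ^ 2 * (N * (RA * V ^ 2)) := by ring
    rw [Real.sqrt_mul (by positivity : (0 : ℝ) ≤ (Λ ^ 2) ^ 2), Real.sqrt_sq (by positivity)] at h1
    exact h1
  have hs2 : Real.sqrt N * (d ^ (1 / 4 : ℝ) + Real.sqrt N / d ^ (1 / 4 : ℝ)) ≤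
      Λ * (Real.sqrt N * E + N / E) := by
    have h1 : Real.sqrt N / d ^ (1 / 4 : ℝ) ≤ Real.sqrt N / (E / Λ) :=
      div_le_div_of_nonneg_left (Real.sqrt_nonneg _) (by positivity) hd2
    have h2 : Real.sqrt N * (d ^ (1 / 4 : ℝ) + Real.sqrt N / d ^ (1 / 4 : ℝ)) ≤
        Real.sqrt N * (E * Λ + Real.sqrt N / (E / Λ)) :=
      mul_le_mul_of_nonneg_left (add_le_add hd1 h1) (Real.sqrt_nonneg _)
    refine h2.trans (le_of_eq ?_)
    have h3 : Real.sqrt N * Real.sqrt N = N := Real.mul_self_sqrt hN0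
    have h4 : Real.sqrt N * (Real.sqrt N / (E / Λ)) = Λ * (N / E) := by
      rw [← mul_div_assoc, h3]
      field_simp
    rw [mul_add, h4]
    ring
  have hR0 : 0 ≤ Real.sqrt N * E + N / E := by positivity
  have hΛ2 : Λ ≤ Λ ^ 2 := by nlinarith
  have hs3 := mul_le_mul_of_nonneg_right hΛ2 hR0
  calc Real.sqrt (N * ((W * Pa * Pv1 * Pv2 : ℕ) : ℝ)) +
        Real.sqrt N * (d ^ (1 / 4 : ℝ) + Real.sqrt N / d ^ (1 / 4 : ℝ))
      ≤ Λ ^ 2 * Real.sqrt (N * (RA * V ^ 2)) + Λ ^ 2 * (Real.sqrt N * E + N / E) :=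
        add_le_add hs1 (hs2.trans hs3)
    _ = _ := by ring

/-- the final inequality -/
lemma fin_ineq (M N RA RB U V E H Λ : ℝ) (hM : 0 < M) (hN : 0 < N) (hRA : 0 < RA) (hRB : 0 < RB)
    (hU : 0 < U) (hV : 0 < V) (hE : 0 < E) (hE4 : E ^ 4 = RB * U ^ 2) (hΛ : 4 ≤ Λ) (hH1 : 1 ≤ H)
    (hH : RA * RB * U ^ 2 * V ^ 2 / M ≤ H)
    (s3 : RA * V ^ 2 * H ^ 2 * Λ ^ 1000 ≤ N) (s4 : RB * U ^ 2 * H ^ 4 * Λ ^ 1000 ≤ N ^ 2)
    (s5 : H ^ 4 * Λ ^ 1000 ≤ RB * U ^ 2) :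
    Λ ^ 27 * (N * U ^ 2 * V ^ 2) * (Real.sqrt (N * (RA * V ^ 2)) + Real.sqrt N * E + N / E) ≤
      Λ⁻¹ * (M * N ^ 2 / (RA * RB)) := by
  have hΛ0 : 0 < Λ := by linarith
  have hΛ1 : 1 ≤ Λ := by linarith
  have hle : ∀ {m n : ℕ}, m ≤ n → Λ ^ m ≤ Λ ^ n := fun h => pow_le_pow_right₀ hΛ1 h
  have t1 : H * Λ ^ 30 * Real.sqrt (N * (RA * V ^ 2)) ≤ N := by
    apply le_of_sq _ hN.le
    rw [mul_pow, Real.sq_sqrt (by positivity)]
    calc (H * Λ ^ 30) ^ 2 * (N * (RA * V ^ 2)) = N * (RA * V ^ 2 * H ^ 2 * Λ ^ 60) := by ring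
      _ ≤ N * (RA * V ^ 2 * H ^ 2 * Λ ^ 1000) := by
          have := @hle 60 1000 (by norm_num)
          gcongr
      _ ≤ N * N := by gcongr
      _ = N ^ 2 := by ring
  have t2 : H * Λ ^ 30 * (Real.sqrt N * E) ≤ N := by
    have h1 : H * Λ ^ 30 * E ≤ Real.sqrt N := by
      apply pow4_le (by positivity) (Real.sqrt_nonneg _)
      have h2 : (Real.sqrt N) ^ 4 = N ^ 2 := by
        calc (Real.sqrt N) ^ 4 = ((Real.sqrt N) ^ 2) ^ 2 := by ring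
          _ = N ^ 2 := by rw [Real.sq_sqrt hN.le]
      rw [h2]
      calc (H * Λ ^ 30 * E) ^ 4 = E ^ 4 * H ^ 4 * Λ ^ 120 := by ring
        _ = RB * U ^ 2 * H ^ 4 * Λ ^ 120 := by rw [hE4]
        _ ≤ RB * U ^ 2 * H ^ 4 * Λ ^ 1000 := by
            have := @hle 120 1000 (by norm_num)
            gcongr
        _ ≤ N ^ 2 := s4
    calc H * Λ ^ 30 * (Real.sqrt N * E) = Real.sqrt N * (H * Λ ^ 30 * E) := by ring
      _ ≤ Real.sqrt N * Real.sqrt N := mul_le_mul_of_nonneg_left h1 (Real.sqrt_nonneg _)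
      _ = N := Real.mul_self_sqrt hN.le
  have t3 : H * Λ ^ 30 * (N / E) ≤ N := by
    have h1 : H * Λ ^ 30 ≤ E := by
      apply pow4_le (by positivity) hE.le
      rw [hE4]
      calc (H * Λ ^ 30) ^ 4 = H ^ 4 * Λ ^ 120 := by ring
        _ ≤ H ^ 4 * Λ ^ 1000 := by
            have := @hle 120 1000 (by norm_num)
            gcongr
        _ ≤ RB * U ^ 2 := s5
    calc H * Λ ^ 30 * (N / E) ≤ E * (N / E) := by gcongr
      _ = N := by field_simp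
  set B := Real.sqrt (N * (RA * V ^ 2)) + Real.sqrt N * E + N / E with hB
  have hB0 : 0 ≤ B := by rw [hB]; positivity
  have t4 : H * Λ ^ 28 * B ≤ N := by
    have h2 : H * Λ ^ 30 * B ≤ 3 * N := by
      calc H * Λ ^ 30 * B = H * Λ ^ 30 * Real.sqrt (N * (RA * V ^ 2)) + H * Λ ^ 30 * (Real.sqrt N * E) +
            H * Λ ^ 30 * (N / E) := by rw [hB]; ring
        _ ≤ 3 * N := by linarith
    have h3 : H * Λ ^ 28 * B * 3 ≤ H * Λ ^ 30 * B := by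
      calc H * Λ ^ 28 * B * 3 ≤ H * Λ ^ 28 * B * Λ ^ 2 := by
            have : (3 : ℝ) ≤ Λ ^ 2 := by nlinarith
            gcongr
        _ = _ := by ring
    linarith
  have t5 : RA * RB * U ^ 2 * V ^ 2 ≤ H * M := by
    rwa [div_le_iff₀ hM] at hH
  rw [inv_mul_eq_div, div_div, le_div_iff₀ (by positivity)]
  calc Λ ^ 27 * (N * U ^ 2 * V ^ 2) * B * (RA * RB * Λ) = N * (RA * RB * U ^ 2 * V ^ 2) * (Λ ^ 28 * B) := by ring
    _ ≤ N * (H * M) * (Λ ^ 28 * B) := by gcongr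
    _ = M * N * (H * Λ ^ 28 * B) := by ring
    _ ≤ M * N * N := by gcongr
    _ = M * N ^ 2 := by ring

/-- the deterministic form -/
theorem main_det {ε C : ℝ} (hε : 0 < ε) (hC : 1 ≤ C)
    (hV : ∀ (P : Finset ℕ), (∀ p ∈ P, p.Prime) →
      ∀ (A c : (p : ℕ) → ZMod p) (a : ℤ) (N d : ℕ), 1 ≤ d → d ≤ N → (∀ p ∈ P, ¬ p ∣ d) →
      ∀ Z : ℤ → ℂ, (∀ n, Z (n + d) = Z n) → (∀ n, ‖Z n‖ ≤ 1) →
      ‖∑ n ∈ Ico a (a + N), Z n * PH P A c n‖ ^ 2 ≤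
        C * ((N : ℝ) * ((∏ p ∈ P, p : ℕ) : ℝ)) ^ ε *
          ((N : ℝ) * d + N * Real.sqrt ((∏ p ∈ P.filter (fun p => A p = 0), p : ℕ) : ℝ) *
            (Real.sqrt ((∏ p ∈ P, p : ℕ) : ℝ) + N / Real.sqrt ((∏ p ∈ P, p : ℕ) : ℝ))))
    (hPH : S_PH) {K : ℕ} (h : Fin K → ℤ) (W b M N : ℕ) (hyp : Hyp h W b) (SA SB SU SV : Finset (Fin K → ℕ))
    (th : (Fin K → ℕ) → ℝ) (c : (Fin K → ℕ) → (Fin K → ℕ) → (Fin K → ℕ) → (Fin K → ℕ) → ℝ) (β : ℕ → ℝ)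
    (Λ X RA RB U V H : ℝ) (hX : 256 ≤ X) (hΛ : 4 ≤ Λ) (hΛX : Λ ^ 2 ≤ X) (hWΛ : (W : ℝ) ≤ Λ)
    (hCΛ : Real.sqrt C ≤ Λ) (hXe : (X ^ 3) ^ ε ≤ Λ) (hlog : 1 + Real.log (X ^ 3) ≤ Λ)
    (hτ : ∀ n : ℕ, n ≠ 0 → (n : ℝ) ≤ X ^ 10 → tau n ^ (K + 1) ≤ Λ)
    (hMN : (M : ℝ) * N ≤ 16 * X) (hM : 0 < M) (hN : 0 < N)
    (hRA : 0 < RA) (hRB : 0 < RB) (hU : 0 < U) (hV0 : 0 < V)
    (hH1 : 1 ≤ H) (hH : RA * RB * U ^ 2 * V ^ 2 / M ≤ H)
    (s1 : RA * RB * Λ ^ 1000 ≤ N)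
    (s3 : RA * V ^ 2 * H ^ 2 * Λ ^ 1000 ≤ N) (s4 : RB * U ^ 2 * H ^ 4 * Λ ^ 1000 ≤ (N : ℝ) ^ 2)
    (s5 : H ^ 4 * Λ ^ 1000 ≤ RB * U ^ 2)
    (hcb : ∀ a r u v, |c a r u v| ≤ 1)
    (hcs : ∀ a r u v, c a r u v ≠ 0 → Squarefree (W * Pr a * Pr r * Pr u * Pr v))
    (hth : ∀ a ∈ SA, |th a| ≤ Λ)
    (hPa : ∀ a ∈ SA, (Pr a : ℝ) ≤ RA * Λ) (hPa2 : ∀ a ∈ SA, RA / Λ ≤ Pr a)
    (hPr : ∀ r ∈ SB, (Pr r : ℝ) ≤ RB * Λ) (hPr2 : ∀ r ∈ SB, RB / Λ ≤ Pr r)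
    (hPu : ∀ u ∈ SU, (Pr u : ℝ) ≤ U * Λ) (hPu2 : ∀ u ∈ SU, U / Λ ≤ Pr u)
    (hPv : ∀ v ∈ SV, (Pr v : ℝ) ≤ V * Λ) (hPv2 : ∀ v ∈ SV, V / Λ ≤ Pr v)
    (hβ : ∀ n ∈ Ioc N (2 * N), |β n| ≤ Λ) (hTV : TV β N ≤ Λ) :
    |Soff h W b M N SA SB SU SV th c β| ≤ Λ⁻¹ * (M * (N : ℝ) ^ 2 / (RA * RB)) := by
  classical
  have hΛ0 : 0 < Λ := by linarith
  have hΛ1 : 1 ≤ Λ := by linarith
  have hMr : (0 : ℝ) < M := by exact_mod_cast hM
  have hNr : (0 : ℝ) < N := by exact_mod_cast hN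
  have hM1 : (1 : ℝ) ≤ M := by exact_mod_cast hM
  have hN1 : (1 : ℝ) ≤ N := by exact_mod_cast hN
  have hW0 : 0 < W := hyp.wpos
  have hRHS : 0 ≤ Λ⁻¹ * (M * (N : ℝ) ^ 2 / (RA * RB)) := by positivity
  by_cases hne : SA.Nonempty ∧ SB.Nonempty ∧ SU.Nonempty ∧ SV.Nonempty
  swap
  · have h0 : Soff h W b M N SA SB SU SV th c β = 0 := by
      unfold Soff
      by_cases h1 : SA.Nonempty
      · by_cases h2 : SB.Nonempty
        · by_cases h3 : SU.Nonempty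
          · have h4 : ¬ SV.Nonempty := fun h4 => hne ⟨h1, h2, h3, h4⟩
            rw [Finset.not_nonempty_iff_eq_empty] at h4
            subst h4
            simp
          · rw [Finset.not_nonempty_iff_eq_empty] at h3
            subst h3
            simp
        · rw [Finset.not_nonempty_iff_eq_empty] at h2
          subst h2
          simp
      · rw [Finset.not_nonempty_iff_eq_empty] at h1
        subst h1
        simp
    rw [h0, abs_zero]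
    exact hRHS
  obtain ⟨⟨a0, ha0⟩, ⟨r0, hr0⟩, ⟨u0, hu0⟩, ⟨v0, hv0⟩⟩ := hne
  have nA : ∀ a ∈ SA, Pr a ≠ 0 := fun a ha => Pr_pos_of (by positivity) (hPa2 a ha)
  have nB : ∀ a ∈ SB, Pr a ≠ 0 := fun a ha => Pr_pos_of (by positivity) (hPr2 a ha)
  have nU : ∀ a ∈ SU, Pr a ≠ 0 := fun a ha => Pr_pos_of (by positivity) (hPu2 a ha)
  have nV : ∀ a ∈ SV, Pr a ≠ 0 := fun a ha => Pr_pos_of (by positivity) (hPv2 a ha)
  have one_le : ∀ {x : Fin K → ℕ}, Pr x ≠ 0 → (1 : ℝ) ≤ Pr x := fun hx => by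
    exact_mod_cast Nat.one_le_iff_ne_zero.2 hx
  have lA : 1 ≤ RA * Λ := (one_le (nA a0 ha0)).trans (hPa a0 ha0)
  have lB : 1 ≤ RB * Λ := (one_le (nB r0 hr0)).trans (hPr r0 hr0)
  have hΛ1000 : 1 ≤ Λ ^ 1000 := one_le_pow₀ hΛ1
  have hle : ∀ {m n : ℕ}, m ≤ n → Λ ^ m ≤ Λ ^ n := fun h => pow_le_pow_right₀ hΛ1 h
  have hH2 : 1 ≤ H ^ 2 := one_le_pow₀ hH1
  have hH4 : 1 ≤ H ^ 4 := one_le_pow₀ hH1
  -- crude upper bounds
  have tA : RA ≤ N := by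
    calc RA = RA * 1 := by ring
      _ ≤ RA * (RB * Λ) := by gcongr
      _ = RA * RB * Λ ^ 1 := by ring
      _ ≤ RA * RB * Λ ^ 1000 := mul_le_mul_of_nonneg_left (hle (by norm_num)) (by positivity)
      _ ≤ N := s1
  have tB : RB ≤ N := by
    calc RB = 1 * RB := by ring
      _ ≤ (RA * Λ) * RB := by gcongr
      _ = RA * RB * Λ ^ 1 := by ring
      _ ≤ RA * RB * Λ ^ 1000 := mul_le_mul_of_nonneg_left (hle (by norm_num)) (by positivity)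
      _ ≤ N := s1
  have tU : U ≤ N := by
    apply le_of_sq _ hNr.le
    calc U ^ 2 = 1 * U ^ 2 := by ring
      _ ≤ (RB * Λ) * U ^ 2 := by gcongr
      _ = RB * U ^ 2 * 1 * Λ ^ 1 := by ring
      _ ≤ RB * U ^ 2 * H ^ 4 * Λ ^ 1000 := by
          have := @hle 1 1000 (by norm_num)
          gcongr
      _ ≤ (N : ℝ) ^ 2 := s4
  have tV : V ≤ N := by
    apply le_of_sq _ hNr.le
    calc V ^ 2 = 1 * V ^ 2 := by ring
      _ ≤ (RA * Λ) * V ^ 2 := by gcongr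
      _ = RA * V ^ 2 * 1 * Λ ^ 1 := by ring
      _ ≤ RA * V ^ 2 * H ^ 2 * Λ ^ 1000 := by
          have := @hle 1 1000 (by norm_num)
          gcongr
      _ ≤ N := s3
      _ ≤ (N : ℝ) ^ 2 := by nlinarith
  have hX0 : 0 < X := by linarith
  have hX1 : 1 ≤ X := by linarith
  have hΛX' : Λ ≤ X := by nlinarith
  have hN16 : (N : ℝ) ≤ 16 * X := by nlinarith
  have hX3 : (1 : ℝ) ≤ X ^ 3 := one_le_pow₀ hX1
  have hXle : ∀ {m n : ℕ}, m ≤ n → X ^ m ≤ X ^ n := fun h => pow_le_pow_right₀ hX1 h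
  have hNX3 : (N : ℝ) ≤ X ^ 3 := by nlinarith [mul_pos hX0 hX0]
  have b10 : ∀ {R : ℝ}, R ≤ N → R * Λ ≤ X ^ 10 := by
    intro R hR
    calc R * Λ ≤ N * Λ := by gcongr
      _ ≤ 16 * X * X := by gcongr
      _ ≤ X * X * X := by
          have : (16 : ℝ) ≤ X := by linarith
          gcongr
      _ = X ^ 3 := by ring
      _ ≤ X ^ 10 := hXle (by norm_num)
  have τK : ∀ n : ℕ, n ≠ 0 → (n : ℝ) ≤ X ^ 10 → tau n ^ K ≤ Λ := fun n h1 h2 =>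
    (pow_le_pow_right₀ (tau_ge_one h1) (by omega)).trans (hτ n h1 h2)
  have τ1 : ∀ n : ℕ, n ≠ 0 → (n : ℝ) ≤ X ^ 10 → tau n ≤ Λ := fun n h1 h2 => by
    calc tau n = tau n ^ 1 := (pow_one _).symm
      _ ≤ tau n ^ (K + 1) := pow_le_pow_right₀ (tau_ge_one h1) (by omega)
      _ ≤ Λ := hτ n h1 h2
  have cA : (SA.card : ℝ) ≤ Λ * (RA * Λ) :=
    card_tuple SA (RA * Λ) Λ (by positivity) hΛ0.le hPa nA (fun n h1 h2 => τK n h1 (h2.trans (b10 tA)))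
  have cB : (SB.card : ℝ) ≤ Λ * (RB * Λ) :=
    card_tuple SB (RB * Λ) Λ (by positivity) hΛ0.le hPr nB (fun n h1 h2 => τK n h1 (h2.trans (b10 tB)))
  have cU : (SU.card : ℝ) ≤ Λ * (U * Λ) :=
    card_tuple SU (U * Λ) Λ (by positivity) hΛ0.le hPu nU (fun n h1 h2 => τK n h1 (h2.trans (b10 tU)))
  have cV : (SV.card : ℝ) ≤ Λ * (V * Λ) :=
    card_tuple SV (V * Λ) Λ (by positivity) hΛ0.le hPv nV (fun n h1 h2 => τK n h1 (h2.trans (b10 tV)))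
  set E : ℝ := (RB * U ^ 2) ^ (1 / 4 : ℝ) with hEdef
  have hE0 : 0 < E := Real.rpow_pos_of_pos (by positivity) _
  have hE4 : E ^ 4 = RB * U ^ 2 := by
    rw [hEdef, ← Real.rpow_natCast, ← Real.rpow_mul (by positivity)]
    norm_num
  set B : ℝ := Real.sqrt (N * (RA * V ^ 2)) + Real.sqrt N * E + N / E with hB
  have hB0 : 0 ≤ B := by rw [hB]; positivity
  set L : ℕ := ⌊(N : ℝ) * Λ ^ 2 / (RA * RB)⌋₊ with hL
  have hLle : (L : ℝ) ≤ N * Λ ^ 2 / (RA * RB) := Nat.floor_le (by positivity)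
  have hp : ∀ a ∈ SA, ∀ r ∈ SB, 0 < W * Pr a * Pr r ∧ N / (W * Pr a * Pr r) ≤ L := by
    intro a ha r hr
    have n1 : 0 < Pr a := Nat.pos_of_ne_zero (nA a ha)
    have n2 : 0 < Pr r := Nat.pos_of_ne_zero (nB r hr)
    refine ⟨by positivity, ?_⟩
    apply Nat.le_floor
    have hW1 : (1 : ℝ) ≤ W := by exact_mod_cast hW0
    have h1 : ((N / (W * Pr a * Pr r) : ℕ) : ℝ) ≤ (N : ℝ) / ((W * Pr a * Pr r : ℕ) : ℝ) := Nat.cast_div_le
    refine h1.trans ?_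
    have h2 : RA / Λ * (RB / Λ) ≤ ((W * Pr a * Pr r : ℕ) : ℝ) := by
      push_cast
      calc RA / Λ * (RB / Λ) ≤ (Pr a : ℝ) * Pr r := mul_le_mul (hPa2 a ha) (hPr2 r hr) (by positivity) (by positivity)
        _ = 1 * Pr a * Pr r := by ring
        _ ≤ (W : ℝ) * Pr a * Pr r := by gcongr
    calc (N : ℝ) / ((W * Pr a * Pr r : ℕ) : ℝ) ≤ N / (RA / Λ * (RB / Λ)) :=
          div_le_div_of_nonneg_left hNr.le (by positivity) h2
      _ = N * Λ ^ 2 / (RA * RB) := by field_simp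
  -- fixed outer variables
  set G0 : ℝ := (SV.card : ℝ) ^ 2 * (24 * (Λ ^ 8 * B)) with hG0
  have hG0nn : 0 ≤ G0 := by rw [hG0]; positivity
  have hG : ∀ a ∈ SA, ∀ r ∈ SB, ∀ u1 ∈ SU, ∀ u2 ∈ SU, ∀ l : ℤ,
      |TT h W b M N SV c β a r u1 u2 l| ≤ (fun _ => G0) (a, r, u1, u2) := by
    intro a ha r hr u1 hu1 u2 hu2 l
    simp only
    unfold TT
    refine (Finset.abs_sum_le_sum_abs _ _).trans ?_
    have hone : ∀ v1 ∈ SV, |∑ v2 ∈ SV, kap c a r u1 u2 v1 v2 * ∑ n1 ∈ Ioc N (2 * N), ∑ n2 ∈ Ioc N (2 * N),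
      ind ((n2 : ℤ) = n1 + l * ((W * Pr a * Pr r : ℕ) : ℤ)) * (β n1 * β n2 *
        ∑ m ∈ Ioc M (2 * M), ind (Lc h W b a r (m * n1)) * Du h u1 v1 (m * n1) * Du h u2 v2 (m * n2))| ≤
        SV.card * (24 * (Λ ^ 8 * B)) := by
      intro v1 hv1
      refine (Finset.abs_sum_le_sum_abs _ _).trans ?_
      rw [← nsmul_eq_mul]
      apply Finset.sum_le_card_nsmul
      intro v2 hv2
      rw [abs_mul]
      by_cases hk : kap c a r u1 u2 v1 v2 = 0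
      · rw [hk, abs_zero, zero_mul]
        positivity
      have hs := kap_sf W c hcs a r u1 u2 v1 v2 hk
      have hk1 := kap_le c hcb a r u1 u2 v1 v2
      have hqX : ((W * Pr a * Pr r * Pr u1 * Pr u2 * Pr v1 * Pr v2 : ℕ) : ℝ) ≤ X ^ 3 := by
        push_cast
        have t5 : RA * RB * U ^ 2 * V ^ 2 ≤ H * M := by
          rwa [div_le_iff₀ hMr] at hH
        have t6 : H * Λ ^ 7 ≤ (N : ℝ) ^ 2 := by
          calc H * Λ ^ 7 ≤ H ^ 4 * Λ ^ 1000 := by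
                have := @hle 7 1000 (by norm_num)
                have : H ≤ H ^ 4 := by
                  calc H = H ^ 1 := (pow_one _).symm
                    _ ≤ H ^ 4 := pow_le_pow_right₀ hH1 (by norm_num)
                gcongr
            _ = 1 * (H ^ 4 * Λ ^ 1000) := by ring
            _ ≤ (RB * U ^ 2) * (H ^ 4 * Λ ^ 1000) := by
                have : 1 ≤ RB * U ^ 2 := by
                  refine le_trans ?_ s5
                  nlinarith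
                gcongr
            _ = RB * U ^ 2 * H ^ 4 * Λ ^ 1000 := by ring
            _ ≤ (N : ℝ) ^ 2 := s4
        calc (W : ℝ) * Pr a * Pr r * Pr u1 * Pr u2 * Pr v1 * Pr v2 ≤
              Λ * (RA * Λ) * (RB * Λ) * (U * Λ) * (U * Λ) * (V * Λ) * (V * Λ) := by
              have g1 := hPa a ha
              have g2 := hPr r hr
              have g3 := hPu u1 hu1
              have g4 := hPu u2 hu2
              have g5 := hPv v1 hv1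
              have g6 := hPv v2 hv2
              gcongr
          _ = (RA * RB * U ^ 2 * V ^ 2) * Λ ^ 7 := by ring
          _ ≤ (H * M) * Λ ^ 7 := by gcongr
          _ = M * (H * Λ ^ 7) := by ring
          _ ≤ M * (N : ℝ) ^ 2 := by gcongr
          _ = (M * N) * N := by ring
          _ ≤ (16 * X) * (16 * X) := by gcongr
          _ = 256 * X ^ 2 := by ring
          _ ≤ X * X ^ 2 := by gcongr
          _ = X ^ 3 := by ring
      have h1 := one_term hε hC hV hPH h W b hyp a r u1 u2 v1 v2 l M N (X ^ 3) Λ Λ β hX3 hN hNX3 hs hqX hβ hTV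
      have h2 := Bd_main N Λ RA RB U V E W (Pr a) (Pr r) (Pr u1) (Pr u2) (Pr v1) (Pr v2) hΛ1 hRA hRB hU hV0 hE0
        hE4 hWΛ (hPa a ha) (hPr r hr) (hPr2 r hr) (hPu u1 hu1) (hPu2 u1 hu1) (hPu u2 hu2) (hPu2 u2 hu2)
        (hPv v1 hv1) (hPv v2 hv2)
      set Pi : ℕ := Pr r * Pr u1 * Pr u2 with hPi
      have hPi0 : Pi ≠ 0 := mul_ne_zero (mul_ne_zero (nB r hr) (nU u1 hu1)) (nU u2 hu2)
      have hPile : (Pi : ℝ) ≤ X ^ 10 := by
        refine le_trans ?_ (hXle (show 3 ≤ 10 by norm_num))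
        refine le_trans ?_ hqX
        have hq0 : 0 < W * Pr a * Pr r * Pr u1 * Pr u2 * Pr v1 * Pr v2 := Nat.pos_of_ne_zero hs.ne_zero
        exact_mod_cast Nat.le_of_dvd hq0 ⟨W * Pr a * Pr v1 * Pr v2, by rw [hPi]; ring⟩
      have hτP := τ1 Pi hPi0 hPile
      have hτP0 := tau_nonneg Pi
      have hlog0 : 0 ≤ 1 + Real.log (X ^ 3) := by
        have := Real.log_nonneg hX3
        linarith
      have hXe0 : 0 ≤ (X ^ 3) ^ ε := Real.rpow_nonneg (by linarith) _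
      have hBd0 : 0 ≤ Bd N ((W * Pr a * Pr v1 * Pr v2 : ℕ) : ℝ) (Pi : ℝ) 1 :=
        Pool.Agent.Y535.ZP.Bd_nonneg _ _ _ _ (Nat.cast_nonneg _) zero_le_one
      have hs0 : 0 ≤ Real.sqrt C := Real.sqrt_nonneg _
      refine le_trans (mul_le_mul hk1 h1 (abs_nonneg _) zero_le_one) ?_
      rw [one_mul]
      calc 4 * ((Λ ^ 2 + 2 * Λ * Λ) * (Real.sqrt C * (X ^ 3) ^ ε * Bd N ((W * Pr a * Pr v1 * Pr v2 : ℕ) : ℝ)
            (Pi : ℝ) 1) * (2 * tau Pi * (1 + Real.log (X ^ 3))))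
          ≤ 4 * ((Λ ^ 2 + 2 * Λ * Λ) * (Λ * Λ * (Λ ^ 2 * B)) * (2 * Λ * Λ)) := by gcongr
        _ = 24 * (Λ ^ 8 * B) := by ring
    refine (Finset.sum_le_sum hone).trans ?_
    rw [Finset.sum_const, nsmul_eq_mul, hG0]
    apply le_of_eq
    ring
  have hmain := soff_le h W b M N SA SB SU SV th c β L hp Λ hΛ0.le hth (fun _ => G0) hG
  refine hmain.trans ?_
  have hsum : ∑ o ∈ OO SA SB SU, (fun _ : (Fin K → ℕ) × (Fin K → ℕ) × (Fin K → ℕ) × (Fin K → ℕ) => G0) o =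
      (SA.card : ℝ) * SB.card * (SU.card : ℝ) ^ 2 * G0 := by
    simp only [Finset.sum_const, nsmul_eq_mul]
    unfold OO
    rw [Finset.card_product, Finset.card_product, Finset.card_product]
    push_cast
    ring
  rw [hsum]
  refine le_trans ?_ (fin_ineq M N RA RB U V E H Λ hMr hNr hRA hRB hU hV0 hE0 hE4 hΛ hH1 hH s3 s4 s5)
  rw [← hB]
  calc Λ * (2 * L) * ((SA.card : ℝ) * SB.card * (SU.card : ℝ) ^ 2 * G0)
      ≤ Λ * (2 * (N * Λ ^ 2 / (RA * RB))) * ((Λ * (RA * Λ)) * (Λ * (RB * Λ)) * (Λ * (U * Λ)) ^ 2 *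
        ((Λ * (V * Λ)) ^ 2 * (24 * (Λ ^ 8 * B)))) := by
        rw [hG0]
        gcongr
    _ = 48 * (Λ ^ 23 * (N * U ^ 2 * V ^ 2) * B) := by
        field_simp
        ring
    _ ≤ Λ ^ 4 * (Λ ^ 23 * (N * U ^ 2 * V ^ 2) * B) := by
        have : (48 : ℝ) ≤ Λ ^ 4 := by
          calc (48 : ℝ) ≤ 4 ^ 4 := by norm_num
            _ ≤ Λ ^ 4 := pow_le_pow_left₀ (by norm_num) hΛ 4
        gcongr
    _ = Λ ^ 27 * (N * U ^ 2 * V ^ 2) * B := by ring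

/-- **T1** -/
theorem offs (hPH : S_PH) (hV : S_VDC) : S_OFFS := by
  intro K h W b hyp δ hδ
  set δ' : ℝ := min δ 1 with hδ'
  have hd1 : δ' ≤ 1 := min_le_right _ _
  have hd2 : δ' ≤ δ := min_le_left _ _
  have hd0 : 0 < δ' := lt_min hδ one_pos
  set ε : ℝ := δ' / 1000 with hεdef
  have hε : 0 < ε := by positivity
  have hε1 : 2 * ε ≤ 1 := by rw [hεdef]; linarith
  obtain ⟨C, hC1, hVV⟩ := hV (ε / 3) (by positivity)
  refine ⟨ε, hε, ?_⟩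
  have hlogev := (isLittleO_log_rpow_atTop hε).bound (show (0 : ℝ) < 1 / 100 by norm_num)
  filter_upwards [eventually_ge_atTop 256, (tendsto_rpow_atTop hε).eventually_ge_atTop 4,
    (tendsto_rpow_atTop hε).eventually_ge_atTop (W : ℝ), (tendsto_rpow_atTop hε).eventually_ge_atTop (Real.sqrt C),
    hlogev, Pool.Agent.Y814.Z.ev_tau K ε hε] with X h256 hΛ4 hWΛ hCΛ hlg hτ
  intro M N RA RB U V hS SA SB SU SV th c hF β hβ hTV
  have hX0 : 0 < X := by linarith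
  have hX1 : 1 ≤ X := by linarith
  set Λ : ℝ := X ^ ε with hΛdef
  have hΛ0 : 0 < Λ := by linarith
  have hinv : X ^ (-ε) = Λ⁻¹ := by rw [Real.rpow_neg hX0.le]
  have hΛ1000 : Λ ^ 1000 = X ^ δ' := by
    rw [hΛdef, ← Real.rpow_natCast, ← Real.rpow_mul hX0.le]
    congr 1
    rw [hεdef]
    push_cast
    ring
  have hΛX : Λ ^ 2 ≤ X := by
    rw [hΛdef, ← Real.rpow_natCast, ← Real.rpow_mul hX0.le]
    calc X ^ (ε * ((2 : ℕ) : ℝ)) ≤ X ^ (1 : ℝ) :=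
          Real.rpow_le_rpow_of_exponent_le hX1 (by push_cast; linarith)
      _ = X := Real.rpow_one X
  have hdle : Λ ^ 1000 ≤ X ^ δ := by
    rw [hΛ1000]
    exact Real.rpow_le_rpow_of_exponent_le hX1 hd2
  have hXd : 0 < X ^ δ := by positivity
  have hdn : X ^ (-δ) * Λ ^ 1000 ≤ 1 := by
    rw [Real.rpow_neg hX0.le, inv_mul_le_iff₀ hXd, mul_one]
    exact hdle
  have hMN0 : 0 < (M : ℝ) * N := lt_of_lt_of_le (by positivity) hS.mn1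
  have hM : 0 < M := by
    rcases Nat.eq_zero_or_pos M with h0 | h0
    · rw [h0] at hMN0; simp at hMN0
    · exact h0
  have hN : 0 < N := by
    rcases Nat.eq_zero_or_pos N with h0 | h0
    · rw [h0] at hMN0; simp at hMN0
    · exact h0
  have hΛ1000pos : 0 ≤ Λ ^ 1000 := by positivity
  have tr : ∀ {x y : ℝ}, 0 ≤ y → x ≤ y * X ^ (-δ) → x * Λ ^ 1000 ≤ y := by
    intro x y hy hxy
    calc x * Λ ^ 1000 ≤ (y * X ^ (-δ)) * Λ ^ 1000 := mul_le_mul_of_nonneg_right hxy hΛ1000pos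
      _ = y * (X ^ (-δ) * Λ ^ 1000) := by ring
      _ ≤ y * 1 := mul_le_mul_of_nonneg_left hdn hy
      _ = y := mul_one y
  have hlogX : 0 ≤ Real.log X := Real.log_nonneg hX1
  have hlog3 : 1 + Real.log (X ^ 3) ≤ Λ := by
    rw [Real.norm_of_nonneg hlogX, Real.norm_of_nonneg (by positivity)] at hlg
    rw [Real.log_pow]
    push_cast
    linarith
  set H : ℝ := max 1 (RA * RB * U ^ 2 * V ^ 2 / M) with hH
  have mul1 : ∀ R : ℝ, R * X ^ (-ε) = R / Λ := fun R => by rw [hinv]; rfl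
  have hrs0 : ∀ u : Fin K → ℕ, rs (∅ : Finset (Fin K))ᶜ u = u := by
    intro u
    funext j
    unfold rs
    simp
  have hXe3 : (X ^ 3) ^ (ε / 3) ≤ Λ := by
    apply le_of_eq
    rw [hΛdef, ← Real.rpow_natCast, ← Real.rpow_mul hX0.le]
    congr 1
    push_cast
    ring
  have hres := main_det (by positivity : 0 < ε / 3) hC1 hVV hPH h W b M N hyp SA SB SU SV th c β Λ X RA RB U V H
    h256 hΛ4 hΛX hWΛ hCΛ hXe3 hlog3 hτ hS.mn2 hM hN hS.ra hS.rb hS.u hS.v (le_max_left _ _) (le_max_right _ _)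
    (tr (Nat.cast_nonneg _) hS.c1) (tr (Nat.cast_nonneg _) hS.c3)
    (tr (by positivity) hS.c4)
    ((mul_le_mul_of_nonneg_left hdle (by positivity)).trans hS.c5)
    hF.cb hF.cs
    (fun a ha => by
      rw [abs_of_nonneg (by linarith [hF.th1 a ha])]
      exact hF.th2 a ha)
    hF.sa2 (fun a ha => by rw [← mul1]; exact hF.sa1 a ha)
    hF.sb2 (fun a ha => by rw [← mul1]; exact hF.sb1 a ha)
    (fun u hu => by
      have := hF.su2 u hu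
      rwa [hrs0] at this)
    (fun u hu => by
      rw [← mul1]
      have := hF.su1 u hu
      rwa [hrs0] at this)
    hF.sv2 (fun a ha => by rw [← mul1]; exact hF.sv1 a ha)
    hβ hTV
  rw [hinv]
  exact hres

end Pool.Agent.K9h6.N.Off
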