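import Mathlib
import Pool.Agent.K9h6.N.Defs
import Pool.Agent.K9h6.N.Tii1
import Pool.Agent.Y895.Z.TI
import Pool.Agent.Y674.ZB.BX

/-! Project K9h6/N, task T5: sums with one long smooth variable in a dyadic interval. -/

set_option autoImplicit false

open Finset Filter

namespace Pool.Agent.K9h6.N.Ti2

open Pool.Agent.Y826.Z Pool.Agent.Y826.Z.TIa

/-- **T5** -/
theorem ti2 : S_TI2 := by
  intro K h W b H J B
  filter_upwards [Pool.Agent.K9h6.N.Tii.ev_tauJ J (show (0 : ℝ) < 1 / 200 by norm_num), eventually_ge_atTop 8,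
    Pool.Agent.Y61.Z.ev_log 4,
    Pool.Agent.Y61.Z.ev_log_rpow (2 ^ K * (8 * 9)) (K + 2) (show (0 : ℝ) < 1 / 200 by norm_num)]
    with X htau hX8 hlog4 hfin S hS c hc γ hγ g hg D1 N hD1
  have hX0 : 0 < X := by linarith
  have hX1 : 1 ≤ X := by linarith
  have hL1 : 1 ≤ Real.log X := by linarith
  have hL0 : 0 < Real.log X := by linarith
  set Z : ℝ := 8 * (3 * Real.log X) ^ 2 with hZ
  have hZ0 : 0 ≤ Z := by rw [hZ]; positivity
  -- the inner sums
  have hL : ∀ q ∈ S, ∀ d ∈ Icc 1 D1, |∑ l ∈ Ioc N (2 * N),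
      g l * H378R2.Phi (((d * l : ℕ) : ℝ) / X) * dl h W b (D0 X B) q (d * l)| ≤ Z := by
    intro q hq d hd
    rw [mem_Icc] at hd
    by_cases hN : (N : ℝ) ≤ 3 * X
    · have h0 : ∀ L : ℕ, (L : ℝ) ≤ 6 * X → |∑ l ∈ Icc 1 L,
          g l * H378R2.Phi (((d * l : ℕ) : ℝ) / X) * dl h W b (D0 X B) q (d * l)| ≤ Z / 2 := by
        intro L hLX
        refine (weight_sum g hg X hX0 d hd.1 L (fun l => dl h W b (D0 X B) q (d * l))
          (fun y => dl_sum H (D0 X B) q (hS q hq).1 d y)).trans ?_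
        have h1 : Real.log L ≤ 2 * Real.log X := by
          rcases Nat.eq_zero_or_pos L with h0 | h0
          · subst h0
            simp only [Nat.cast_zero, Real.log_zero]
            positivity
          · have h2 : Real.log L ≤ Real.log (X ^ 2) :=
              Real.log_le_log (by exact_mod_cast h0) (by nlinarith)
            rw [Real.log_pow] at h2
            push_cast at h2
            exact h2
        have h2 : 0 ≤ Real.log L := Real.log_natCast_nonneg L
        have h3 : 2 + Real.log L ≤ 3 * Real.log X := by linarith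
        have h4 : (2 + Real.log L) ^ 2 ≤ (3 * Real.log X) ^ 2 := pow_le_pow_left₀ (by linarith) h3 2
        rw [hZ]
        linarith
      have e : ∑ l ∈ Ioc N (2 * N), g l * H378R2.Phi (((d * l : ℕ) : ℝ) / X) * dl h W b (D0 X B) q (d * l) =
          ∑ l ∈ Icc 1 (2 * N), g l * H378R2.Phi (((d * l : ℕ) : ℝ) / X) * dl h W b (D0 X B) q (d * l) -
          ∑ l ∈ Icc 1 N, g l * H378R2.Phi (((d * l : ℕ) : ℝ) / X) * dl h W b (D0 X B) q (d * l) := by
        have h1 : Icc 1 (2 * N) = Icc 1 N ∪ Ioc N (2 * N) := by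
          ext x
          rw [mem_union, mem_Icc, mem_Icc, mem_Ioc]
          omega
        have h2 : Disjoint (Icc 1 N) (Ioc N (2 * N)) := by
          rw [disjoint_left]
          intro x hx hx2
          rw [mem_Icc] at hx
          rw [mem_Ioc] at hx2
          omega
        rw [h1, sum_union h2]
        ring
      rw [e]
      refine (abs_sub _ _).trans ?_
      have h1 := h0 (2 * N) (by push_cast; linarith)
      have h2 := h0 N (by linarith)
      linarith
    · have e : ∑ l ∈ Ioc N (2 * N), g l * H378R2.Phi (((d * l : ℕ) : ℝ) / X) * dl h W b (D0 X B) q (d * l) = 0 := by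
        apply sum_eq_zero
        intro l hl
        rw [mem_Ioc] at hl
        rw [Pool.Agent.Y674.ZB.Phi_high, mul_zero, zero_mul]
        rw [le_div_iff₀ hX0, Nat.cast_mul]
        have h1 : (1 : ℝ) ≤ d := by exact_mod_cast hd.1
        have h2 : (N : ℝ) ≤ l := by exact_mod_cast hl.1.le
        rw [not_le] at hN
        nlinarith
      rw [e, abs_zero]
      exact hZ0
  have hX25 : X ^ (2 / 5 : ℝ) ≤ X := by
    calc X ^ (2 / 5 : ℝ) ≤ X ^ (1 : ℝ) := Real.rpow_le_rpow_of_exponent_le hX1 (by norm_num)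
      _ = X := Real.rpow_one X
  have hq : ∀ q ∈ S, |∑ d ∈ Icc 1 D1, γ d * ∑ l ∈ Ioc N (2 * N),
      g l * H378R2.Phi (((d * l : ℕ) : ℝ) / X) * dl h W b (D0 X B) q (d * l)| ≤
      X ^ (2 / 5 : ℝ) * (X ^ (1 / 200 : ℝ) * Z) := by
    intro q hq
    refine (abs_sum_le_sum_abs _ _).trans ?_
    have h1 : ∀ d ∈ Icc 1 D1, |γ d * ∑ l ∈ Ioc N (2 * N),
        g l * H378R2.Phi (((d * l : ℕ) : ℝ) / X) * dl h W b (D0 X B) q (d * l)| ≤ X ^ (1 / 200 : ℝ) * Z := by
      intro d hd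
      rw [abs_mul]
      have hd2 := mem_Icc.1 hd
      have h2 : (d : ℝ) ≤ D1 := by exact_mod_cast hd2.2
      exact mul_le_mul ((hγ d).trans (htau d hd2.1 (by linarith))) (hL q hq d hd) (abs_nonneg _) (by positivity)
    refine (sum_le_sum h1).trans ?_
    rw [sum_const, Nat.card_Icc, nsmul_eq_mul, Nat.add_sub_cancel]
    exact mul_le_mul_of_nonneg_right hD1 (by positivity)
  have hYpos : 1 ≤ X ^ (14 / 25 : ℝ) := Real.one_le_rpow hX1 (by norm_num)
  have hcard : (S.card : ℝ) ≤ X ^ (14 / 25 : ℝ) * (1 + Real.log (X ^ (14 / 25 : ℝ))) ^ K := by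
    refine card_tuples S _ hYpos fun q hq => ⟨?_, (hS q hq).2⟩
    intro h0
    have h1 := (hS q hq).1
    rw [h0, mul_zero] at h1
    exact not_squarefree_zero h1
  have hb : (1 + Real.log (X ^ (14 / 25 : ℝ))) ^ K ≤ (2 * Real.log X) ^ K := by
    rw [Real.log_rpow hX0]
    apply pow_le_pow_left₀ (by positivity)
    linarith
  refine (abs_sum_le_sum_abs _ _).trans ?_
  set Z2 := X ^ (2 / 5 : ℝ) * (X ^ (1 / 200 : ℝ) * Z) with hZ2
  have hZ20 : 0 ≤ Z2 := by rw [hZ2]; positivity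
  calc ∑ q ∈ S, |c q * ∑ d ∈ Icc 1 D1, γ d * ∑ l ∈ Ioc N (2 * N),
        g l * H378R2.Phi (((d * l : ℕ) : ℝ) / X) * dl h W b (D0 X B) q (d * l)| ≤
      ∑ q ∈ S, Z2 := by
        refine sum_le_sum fun q hq' => ?_
        rw [abs_mul]
        calc _ ≤ 1 * Z2 := mul_le_mul (hc q) (hq q hq') (abs_nonneg _) zero_le_one
          _ = Z2 := one_mul Z2
    _ = S.card * Z2 := by rw [sum_const, nsmul_eq_mul]
    _ ≤ (X ^ (14 / 25 : ℝ) * (2 * Real.log X) ^ K) * Z2 := by
        apply mul_le_mul_of_nonneg_right _ hZ20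
        exact hcard.trans (mul_le_mul_of_nonneg_left hb (by positivity))
    _ = X ^ (14 / 25 : ℝ) * X ^ (2 / 5 : ℝ) * X ^ (1 / 200 : ℝ) * (2 ^ K * (8 * 9) * Real.log X ^ (K + 2)) := by
        rw [hZ2, hZ, mul_pow, mul_pow, pow_add]
        ring
    _ ≤ X ^ (14 / 25 : ℝ) * X ^ (2 / 5 : ℝ) * X ^ (1 / 200 : ℝ) * X ^ (1 / 200 : ℝ) := by
        gcongr
    _ = X ^ (14 / 25 + 2 / 5 + 1 / 200 + 1 / 200 : ℝ) := by
        rw [Real.rpow_add hX0, Real.rpow_add hX0, Real.rpow_add hX0]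
    _ ≤ X ^ (99 / 100 : ℝ) := Real.rpow_le_rpow_of_exponent_le hX1 (by norm_num)

end Pool.Agent.K9h6.N.Ti2
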