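import Mathlib
import Pool.Agent.K9h6.N.Defs
import Pool.Agent.Y474.TRIV.G

/-! Project K9h6/N, task T2: the diagonal terms, coefficients bounded by powers of the divisor function
(adapted from Y474/TRIV). -/

set_option autoImplicit false

namespace Pool.Agent.K9h6.N.Triv

open Finset Filter
open Pool.Agent.Y826.Z Pool.Agent.Y474.TRIV

variable {K : ℕ} {h : Fin K → ℤ}

theorem amgmJ (J x : ℕ) : tau x ^ (2 * J + 1) * Gd h x ^ 7 ≤
    tau x ^ (2 * J + 1 + 7 * K) + ∑ j, tau ((x : ℤ) + h j).natAbs ^ (2 * J + 1 + 7 * K) := by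
  classical
  set y : Option (Fin K) → ℝ := fun i => i.elim (tau x) (fun j => tau ((x : ℤ) + h j).natAbs) with hy
  have hy0 : ∀ i, 0 ≤ y i := by
    intro i
    cases i with
    | none => exact tau_nonneg _
    | some j => exact tau_nonneg _
  obtain ⟨i0, -, hi0⟩ := exists_max_image univ y ⟨none, mem_univ _⟩
  have h1 : tau x ^ (2 * J + 1) * Gd h x ^ 7 ≤ y i0 ^ (2 * J + 1 + 7 * K) := by
    have h2 : tau x ≤ y i0 := hi0 none (mem_univ _)
    have h3 : Gd h x ≤ y i0 ^ K := by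
      unfold Gd
      calc ∏ j, tau ((x : ℤ) + h j).natAbs ≤ ∏ _j : Fin K, y i0 :=
            prod_le_prod (fun _ _ => tau_nonneg _) (fun j _ => hi0 (some j) (mem_univ _))
        _ = y i0 ^ K := by rw [prod_const, card_univ, Fintype.card_fin]
    have h4 := hy0 i0
    calc tau x ^ (2 * J + 1) * Gd h x ^ 7 ≤ y i0 ^ (2 * J + 1) * (y i0 ^ K) ^ 7 := by
          have := tau_nonneg x
          have := Gd_nonneg (h := h) x
          gcongr
      _ = y i0 ^ (2 * J + 1 + 7 * K) := by rw [← pow_mul, ← pow_add, mul_comm K 7]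
  have h5 : y i0 ^ (2 * J + 1 + 7 * K) ≤ ∑ i, y i ^ (2 * J + 1 + 7 * K) :=
    single_le_sum (f := fun i => y i ^ (2 * J + 1 + 7 * K)) (fun i _ => pow_nonneg (hy0 i) _) (mem_univ i0)
  refine (h1.trans h5).trans (le_of_eq ?_)
  rw [Fintype.sum_option]
  rfl

theorem sum_HJ (J L H : ℕ) (hH : ∀ j, (h j).natAbs ≤ H) :
    ∑ x ∈ Icc 1 L, tau x ^ (2 * J + 1) * Gd h x ^ 7 ≤
      (2 * K + 1) * (((L + H : ℕ) : ℝ) * (1 + Real.log ((L + H : ℕ) : ℝ)) ^ (2 ^ (2 * J + 1 + 7 * K))) := by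
  set B : ℝ := ((L + H : ℕ) : ℝ) * (1 + Real.log ((L + H : ℕ) : ℝ)) ^ (2 ^ (2 * J + 1 + 7 * K)) with hB
  have h1 := tau_pow_sum (2 * J + 1 + 7 * K) (L + H)
  have h0 : ∑ x ∈ Icc 1 L, tau x ^ (2 * J + 1 + 7 * K) ≤ B :=
    (sum_le_sum_of_subset_of_nonneg (Icc_subset_Icc le_rfl (Nat.le_add_right L H))
      fun y _ _ => pow_nonneg (tau_nonneg y) _).trans h1
  have h2 : ∀ j, ∑ x ∈ Icc 1 L, tau ((x : ℤ) + h j).natAbs ^ (2 * J + 1 + 7 * K) ≤ 2 * B := by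
    intro j
    refine (shift_sum _ L H (by omega) (h j) (hH j)).trans ?_
    linarith
  calc ∑ x ∈ Icc 1 L, tau x ^ (2 * J + 1) * Gd h x ^ 7
      ≤ ∑ x ∈ Icc 1 L, (tau x ^ (2 * J + 1 + 7 * K) + ∑ j, tau ((x : ℤ) + h j).natAbs ^ (2 * J + 1 + 7 * K)) :=
        sum_le_sum fun x _ => amgmJ J x
    _ = ∑ x ∈ Icc 1 L, tau x ^ (2 * J + 1 + 7 * K) +
        ∑ j, ∑ x ∈ Icc 1 L, tau ((x : ℤ) + h j).natAbs ^ (2 * J + 1 + 7 * K) := by
        rw [sum_add_distrib, sum_comm]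
    _ ≤ B + ∑ _j : Fin K, 2 * B := add_le_add h0 (sum_le_sum fun j _ => h2 j)
    _ = (2 * K + 1) * B := by
        rw [sum_const, card_univ, Fintype.card_fin, nsmul_eq_mul]
        ring

/-- the moment -/
theorem momJ (J : ℕ) (h : Fin K → ℤ) : ∃ (C1 : ℝ) (C2 : ℕ), 0 < C1 ∧ ∀ᶠ X : ℝ in atTop, ∀ M N : ℕ,
    (M : ℝ) * N ≤ 16 * X → ∀ β : ℕ → ℝ, (∀ n ∈ Ioc N (2 * N), |β n| ≤ tau n ^ J * Real.log X) →
    ∑ m ∈ Ioc M (2 * M), ∑ n ∈ Ioc N (2 * N), β n ^ 2 * Gd h (m * n) ^ 7 ≤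
      C1 * X * Real.log X ^ C2 := by
  set k := 2 * J + 1 + 7 * K with hk
  set H : ℕ := ∑ j, (h j).natAbs with hH
  refine ⟨(2 * K + 1) * (65 * 3 ^ (2 ^ k)), 2 + 2 ^ k, by positivity, ?_⟩
  filter_upwards [eventually_ge_atTop (Real.exp 1), eventually_ge_atTop (65 : ℝ),
    eventually_ge_atTop (H : ℝ)] with X hX1 hX2 hX3
  intro M N hMN β hβ
  have hL : 1 ≤ Real.log X := by
    rw [Real.le_log_iff_exp_le (by linarith)]
    exact hX1
  have hX0 : 0 < X := by linarith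
  -- reduce to one variable
  have h1 : ∑ m ∈ Ioc M (2 * M), ∑ n ∈ Ioc N (2 * N), β n ^ 2 * Gd h (m * n) ^ 7 ≤
      Real.log X ^ 2 * ∑ m ∈ Icc 1 (2 * M), ∑ n ∈ Icc 1 (2 * N),
        tau (m * n) ^ (2 * J) * Gd h (m * n) ^ 7 := by
    rw [mul_sum]
    have hs1 : Ioc M (2 * M) ⊆ Icc 1 (2 * M) := by
      intro m hm
      rw [mem_Ioc] at hm
      exact mem_Icc.2 ⟨by omega, hm.2⟩
    have hs2 : Ioc N (2 * N) ⊆ Icc 1 (2 * N) := by
      intro m hm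
      rw [mem_Ioc] at hm
      exact mem_Icc.2 ⟨by omega, hm.2⟩
    have hnn : ∀ m n : ℕ, 0 ≤ Real.log X ^ 2 * (tau (m * n) ^ (2 * J) * Gd h (m * n) ^ 7) := by
      intro m n
      have := tau_nonneg (m * n)
      have := Gd_nonneg (h := h) (m * n)
      positivity
    calc ∑ m ∈ Ioc M (2 * M), ∑ n ∈ Ioc N (2 * N), β n ^ 2 * Gd h (m * n) ^ 7
        ≤ ∑ m ∈ Ioc M (2 * M), ∑ n ∈ Ioc N (2 * N),
          Real.log X ^ 2 * (tau (m * n) ^ (2 * J) * Gd h (m * n) ^ 7) := by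
          apply sum_le_sum
          intro m hm
          apply sum_le_sum
          intro n hn
          have hm' := mem_Ioc.1 hm
          have hn' := mem_Ioc.1 hn
          have h2 := hβ n hn
          have h3 : tau n ≤ tau (m * n) :=
            tau_mono (Dvd.intro_left _ rfl) (Nat.mul_pos (by omega) (by omega)).ne'
          have h4 : β n ^ 2 ≤ Real.log X ^ 2 * tau (m * n) ^ (2 * J) := by
            rw [← sq_abs, mul_comm 2 J, pow_mul, ← mul_pow]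
            apply pow_le_pow_left₀ (abs_nonneg _)
            calc |β n| ≤ tau n ^ J * Real.log X := h2
              _ ≤ tau (m * n) ^ J * Real.log X :=
                mul_le_mul_of_nonneg_right (pow_le_pow_left₀ (tau_nonneg _) h3 J) (by linarith)
              _ = _ := mul_comm _ _
          have h5 := pow_nonneg (Gd_nonneg (h := h) (m * n)) 7
          calc β n ^ 2 * Gd h (m * n) ^ 7 ≤ (Real.log X ^ 2 * tau (m * n) ^ (2 * J)) * Gd h (m * n) ^ 7 :=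
                mul_le_mul_of_nonneg_right h4 h5
            _ = _ := by ring
      _ ≤ ∑ m ∈ Icc 1 (2 * M), ∑ n ∈ Icc 1 (2 * N),
          Real.log X ^ 2 * (tau (m * n) ^ (2 * J) * Gd h (m * n) ^ 7) := by
          refine (sum_le_sum fun m _ => sum_le_sum_of_subset_of_nonneg hs2
            fun n _ _ => hnn m n).trans ?_
          exact sum_le_sum_of_subset_of_nonneg hs1 fun m _ _ => sum_nonneg fun n _ => hnn m n
      _ = _ := by
          apply sum_congr rfl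
          intro m _
          rw [mul_sum]
  have h6 := two_one (2 * M) (2 * N) (fun x => tau x ^ (2 * J) * Gd h x ^ 7) (fun x => by
    have := tau_nonneg x
    have := Gd_nonneg (h := h) x
    positivity)
  have h7 : ∑ n ∈ Icc 1 (2 * M * (2 * N)), tau n * (tau n ^ (2 * J) * Gd h n ^ 7) =
      ∑ x ∈ Icc 1 (2 * M * (2 * N)), tau x ^ (2 * J + 1) * Gd h x ^ 7 := by
    apply sum_congr rfl
    intro x _
    ring
  rw [h7] at h6
  have h8 := sum_HJ (h := h) J (2 * M * (2 * N)) H (fun j =>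
    single_le_sum (f := fun j => (h j).natAbs) (fun _ _ => Nat.zero_le _) (mem_univ j))
  set L : ℕ := 2 * M * (2 * N) with hLdef
  have h9 : ((L + H : ℕ) : ℝ) ≤ 65 * X := by
    rw [hLdef]
    push_cast
    nlinarith
  have h10 : 1 + Real.log ((L + H : ℕ) : ℝ) ≤ 3 * Real.log X := by
    rcases Nat.eq_zero_or_pos (L + H) with h0 | h0
    · rw [h0]
      simp only [Nat.cast_zero, Real.log_zero]
      linarith
    · have h11 : (0 : ℝ) < ((L + H : ℕ) : ℝ) := by exact_mod_cast h0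
      have h12 : Real.log ((L + H : ℕ) : ℝ) ≤ Real.log (X ^ 2) := by
        apply Real.log_le_log h11
        nlinarith
      rw [Real.log_pow] at h12
      push_cast at h12
      push_cast
      linarith
  have h11 : 0 ≤ 1 + Real.log ((L + H : ℕ) : ℝ) := by
    have := Real.log_natCast_nonneg (L + H)
    linarith
  calc ∑ m ∈ Ioc M (2 * M), ∑ n ∈ Ioc N (2 * N), β n ^ 2 * Gd h (m * n) ^ 7
      ≤ Real.log X ^ 2 * ((2 * K + 1) * (((L + H : ℕ) : ℝ) *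
          (1 + Real.log ((L + H : ℕ) : ℝ)) ^ (2 ^ k))) :=
        h1.trans (mul_le_mul_of_nonneg_left (h6.trans h8) (by positivity))
    _ ≤ Real.log X ^ 2 * ((2 * K + 1) * ((65 * X) * (3 * Real.log X) ^ (2 ^ k))) := by
        gcongr
    _ = _ := by ring

theorem okp {δ ε X : ℝ} {M N : ℕ} {RA RB E U V : ℝ} {W : ℕ} {G : Finset (Fin K)}
    {SA SB SU SV : Finset (Fin K → ℕ)}
    {th : (Fin K → ℕ) → ℝ} {c : (Fin K → ℕ) → (Fin K → ℕ) → (Fin K → ℕ) → (Fin K → ℕ) → ℝ}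
    (hε : 0 < ε) (hε1 : ε ≤ 1 / 2) (hX : 16 ≤ X)
    (hs : SzW δ X M N RA RB E U V)
    (hf : Fm ε X W RA RB E U V G SA SB SU SV th c) {a r : Fin K → ℕ}
    {D : ℕ}
    (hu : ∀ u ∈ SU, ∀ p : ℕ, p.Prime → p ∣ Pr u → D < p)
    (hv : ∀ v ∈ SV, ∀ p : ℕ, p.Prime → p ∣ Pr v → D < p) :
    OKP ⌊X ^ 2⌋₊ D (PP SU SV (c a r)) := by
  classical
  have hX0 : 0 < X := by linarith
  have hX1 : 1 ≤ X := by linarith
  have hXe' : 0 < X ^ (-ε) := Real.rpow_pos_of_pos hX0 _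
  have hXe : 0 < X ^ ε := Real.rpow_pos_of_pos hX0 _
  have hXe1 : 1 ≤ X ^ ε := Real.one_le_rpow hX1 hε.le
  have hXeX : X ^ ε * X ^ ε ≤ X := by
    rw [← Real.rpow_add hX0]
    calc X ^ (ε + ε) ≤ X ^ (1 : ℝ) := Real.rpow_le_rpow_of_exponent_le hX1 (by linarith)
      _ = X := Real.rpow_one X
  have hXeX' : X ^ ε ≤ X := by nlinarith
  have hmem : ∀ z ∈ PP SU SV (c a r), z.1 ∈ SU ∧ z.2 ∈ SV := by
    intro z hz
    unfold PP at hz
    exact mem_product.1 (mem_filter.1 hz).1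
  have key : ∀ (y : Fin K → ℕ), (0 : ℝ) < Pr y → (Pr y : ℝ) ≤ X ^ 2 → y ∈ Bo K ⌊X ^ 2⌋₊ := by
    intro y h3 h5
    have h4 : 0 < Pr y := by exact_mod_cast h3
    unfold Bo
    rw [Fintype.mem_piFinset]
    intro j
    have hj : y j ∣ Pr y := dvd_Pr y j
    rw [mem_Icc]
    constructor
    · exact Nat.pos_of_dvd_of_pos hj h4
    · exact (Nat.le_of_dvd h4 hj).trans (Nat.le_floor h5)
  constructor
  · intro z hz
    obtain ⟨h1, h2⟩ := hmem z hz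
    have hU := hs.eu
    have hV := hs.vX
    constructor
    · have e1 : (Pr z.1 : ℝ) = (Pr (rs G z.1) : ℝ) * (Pr (rs Gᶜ z.1) : ℝ) := by
        exact_mod_cast Pr_rs G z.1
      have p1 : (0 : ℝ) < Pr (rs G z.1) :=
        lt_of_lt_of_le (mul_pos hs.e hXe') (hf.se1 _ h1)
      have p2 : (0 : ℝ) < Pr (rs Gᶜ z.1) :=
        lt_of_lt_of_le (mul_pos hs.u hXe') (hf.su1 _ h1)
      apply key
      · rw [e1]
        positivity
      · rw [e1]
        calc (Pr (rs G z.1) : ℝ) * (Pr (rs Gᶜ z.1) : ℝ) ≤ (E * X ^ ε) * (U * X ^ ε) :=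
              mul_le_mul (hf.se2 _ h1) (hf.su2 _ h1) p2.le (mul_pos hs.e hXe).le
          _ = (E * U) * (X ^ ε * X ^ ε) := by ring
          _ ≤ X * X := mul_le_mul hU hXeX (by positivity) hX0.le
          _ = X ^ 2 := by ring
    · have p2 : (0 : ℝ) < Pr z.2 := lt_of_lt_of_le (mul_pos hs.v hXe') (hf.sv1 _ h2)
      apply key _ p2
      calc (Pr z.2 : ℝ) ≤ V * X ^ ε := hf.sv2 _ h2
        _ ≤ X * X := mul_le_mul hV hXeX' hXe.le hX0.le
        _ = X ^ 2 := by ring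
  · intro z hz p hp hpd
    obtain ⟨h1, h2⟩ := hmem z hz
    rcases (hp.dvd_mul).1 hpd with h3 | h3
    · exact hu _ h1 p hp h3
    · exact hv _ h2 p hp h3

/-- **T2** -/
theorem trivw : S_TRIVW := by
  intro K h W b hy δ hδ
  set ε : ℝ := min (1 / 2) (δ / 3) with hε
  have hε0 : 0 < ε := lt_min (by norm_num) (by linarith)
  have hε1 : ε ≤ 1 / 2 := min_le_left _ _
  have hε2 : 3 * ε ≤ δ := by
    have := min_le_right (1 / 2) (δ / 3)
    linarith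
  refine ⟨ε, hε0, ?_⟩
  intro J A
  obtain ⟨C1, C2, hC1, hmom⟩ := momJ J h
  refine ⟨8 * K + 2 + C2 + A, ?_⟩
  intro B hB
  set c1 : ℝ := 4 * 10 ^ (4 * K) + K ^ 2 with hc1
  set c2 : ℝ := K ^ 2 + 96 * K ^ 2 * 10 ^ (4 * K) with hc2
  have hc10 : 0 < c1 := by positivity
  have hc20 : 0 ≤ c2 := by positivity
  set H : ℕ := ∑ j, (h j).natAbs with hH
  -- growth
  have hgrow : ∀ᶠ X : ℝ in atTop, 32 * c1 * C1 * Real.log X ^ (8 * K + C2 + A) ≤ X ^ (δ - ε) := by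
    have hδε : 0 < δ - ε := by linarith
    have h1 := (isLittleO_log_rpow_rpow_atTop (r := ((8 * K + C2 + A : ℕ) : ℝ)) (s := δ - ε) hδε).def
      (c := 1 / (32 * c1 * C1)) (by positivity)
    filter_upwards [h1, eventually_ge_atTop (1 : ℝ)] with X hX hX1
    have hlog : 0 ≤ Real.log X := Real.log_nonneg hX1
    rw [Real.rpow_natCast, Real.norm_of_nonneg (by positivity),
      Real.norm_of_nonneg (by positivity)] at hX
    calc 32 * c1 * C1 * Real.log X ^ (8 * K + C2 + A)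
        ≤ 32 * c1 * C1 * (1 / (32 * c1 * C1) * X ^ (δ - ε)) :=
          mul_le_mul_of_nonneg_left hX (by positivity)
      _ = X ^ (δ - ε) := by field_simp
  have hlogbig : ∀ᶠ X : ℝ in atTop, 64 * c2 * C1 + 1 ≤ Real.log X :=
    Real.tendsto_log_atTop.eventually_ge_atTop _
  filter_upwards [hmom, hgrow, hlogbig, eventually_ge_atTop (Real.exp 1),
    eventually_ge_atTop (16 : ℝ), eventually_gt_atTop (16 * (H : ℝ))] with X hmomX hgr hlb hXe hX16 hXH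
  intro M N RA RB E U V hs G SA SB SU SV th c hf hu hv β hβ
  have hX0 : 0 < X := by linarith
  have hX1 : 1 ≤ X := by linarith
  have hL : 1 ≤ Real.log X := by
    rw [Real.le_log_iff_exp_le hX0]
    exact hXe
  set Λ := Real.log X with hΛ
  have hΛ0 : 0 < Λ := by linarith
  have hN : 1 ≤ N := by
    have h1 := hs.n1
    have h2 : (1 : ℝ) ≤ X ^ (1 / 4 : ℝ) := Real.one_le_rpow hX1 (by norm_num)
    have h3 : (1 : ℝ) ≤ N := h2.trans h1
    exact_mod_cast h3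
  -- the parameter D
  set D := D0 X B with hD
  have hΛB : 1 ≤ Λ ^ B := one_le_pow₀ hL
  have hD1 : 0 < D := by
    rw [hD]
    unfold D0
    exact Nat.floor_pos.2 hΛB
  have hD2 : Λ ^ B ≤ 2 * D := by
    have h1 : Λ ^ B < (⌊Λ ^ B⌋₊ : ℝ) + 1 := Nat.lt_floor_add_one _
    have h2 : (1 : ℝ) ≤ D := by exact_mod_cast hD1
    have h3 : (D : ℝ) = (⌊Λ ^ B⌋₊ : ℝ) := rfl
    linarith
  -- good points
  have hgood : ∀ m ∈ Ioc M (2 * M), ∀ n ∈ Ioc N (2 * N), Good h (m * n) := by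
    intro m hm n hn j hj
    rw [mem_Ioc] at hm hn
    have h1 : M * N ≤ m * n := Nat.mul_le_mul hm.1.le hn.1.le
    have h2 : (X / 16 : ℝ) ≤ ((m * n : ℕ) : ℝ) := hs.mn1.trans (by exact_mod_cast h1)
    have h3 : (h j).natAbs ≤ H :=
      single_le_sum (f := fun j => (h j).natAbs) (fun _ _ => Nat.zero_le _) (mem_univ j)
    have h4 : (H : ℝ) < ((m * n : ℕ) : ℝ) := by linarith
    have h5 : H < m * n := by exact_mod_cast h4
    omega
  -- the main bound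
  have hpos : ∀ a ∈ SA, ∀ r ∈ SB, 0 < Pr a * Pr r := by
    intro a ha r hr
    have h1 : (0 : ℝ) < Pr a :=
      lt_of_lt_of_le (mul_pos hs.ra (Real.rpow_pos_of_pos hX0 _)) (hf.sa1 a ha)
    have h2 : (0 : ℝ) < Pr r :=
      lt_of_lt_of_le (mul_pos hs.rb (Real.rpow_pos_of_pos hX0 _)) (hf.sb1 r hr)
    exact Nat.mul_pos (by exact_mod_cast h1) (by exact_mod_cast h2)
  have hXe0 : 0 < X ^ ε := Real.rpow_pos_of_pos hX0 _
  have hmain := main_bound hy (Z := ⌊X ^ 2⌋₊) (D := D) (M := M) (N := N) (RA := RA) (RB := RB)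
    (Xe := X ^ ε) (SU := SU) (SV := SV) hD1 hs.ra hs.rb hXe0.le hf.cb hf.cs hpos
    (fun a ha => zero_le_one.trans (hf.th1 a ha)) hf.th2 hf.sar
    (fun a ha r hr => okp hε0 hε1 hX16 hs hf hu hv) β hgood
  refine hmain.trans ?_
  have hM := hmomX M N hs.mn2 β hβ
  -- the constants
  have hZlog : Real.log (⌊X ^ 2⌋₊ : ℝ) ≤ 2 * Λ := by
    have h1 : (⌊X ^ 2⌋₊ : ℝ) ≤ X ^ 2 := Nat.floor_le (by positivity)
    have h2 : 0 < ⌊X ^ 2⌋₊ := Nat.floor_pos.2 (one_le_pow₀ hX1)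
    have h3 : (0 : ℝ) < (⌊X ^ 2⌋₊ : ℝ) := by exact_mod_cast h2
    refine (Real.log_le_log h3 h1).trans (le_of_eq ?_)
    rw [Real.log_pow, ← hΛ]
    norm_num
  have hPh := Ph_le (K := K) hL hZlog
  have hPh1 := one_le_Ph (K := K) ⌊X ^ 2⌋₊
  have hPh2 : Ph K ⌊X ^ 2⌋₊ ^ 2 ≤ 10 ^ (4 * K) * Λ ^ (8 * K) := by
    calc Ph K ⌊X ^ 2⌋₊ ^ 2 ≤ (10 ^ (2 * K) * Λ ^ (4 * K)) ^ 2 :=
          pow_le_pow_left₀ (by linarith) hPh 2
      _ = _ := by
          rw [mul_pow, ← pow_mul, ← pow_mul]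
          congr 2
          · ring
          · ring
  have hb1 : 4 * Ph K ⌊X ^ 2⌋₊ ^ 2 + K ^ 2 ≤ c1 * Λ ^ (8 * K) := by
    have h1 : (1 : ℝ) ≤ Λ ^ (8 * K) := one_le_pow₀ hL
    have h2 : (K : ℝ) ^ 2 ≤ K ^ 2 * Λ ^ (8 * K) := le_mul_of_one_le_right (by positivity) h1
    rw [hc1]
    linarith
  have hDr : (0 : ℝ) < D := by exact_mod_cast hD1
  have hb2 : K ^ 2 / D + kap K ⌊X ^ 2⌋₊ D ≤ c2 * Λ ^ (8 * K + 1) / D := by
    unfold kap
    rw [← add_div]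
    apply div_le_div_of_nonneg_right _ hDr.le
    have h1 : (1 : ℝ) ≤ Λ ^ (8 * K + 1) := one_le_pow₀ hL
    have h2 : (K : ℝ) ^ 2 ≤ K ^ 2 * Λ ^ (8 * K + 1) := le_mul_of_one_le_right (by positivity) h1
    have h0 : 0 ≤ Real.log (⌊X ^ 2⌋₊ : ℝ) := Real.log_natCast_nonneg _
    have h3 : 48 * (K : ℝ) ^ 2 * Real.log (⌊X ^ 2⌋₊ : ℝ) * Ph K ⌊X ^ 2⌋₊ ^ 2 ≤
        48 * (K : ℝ) ^ 2 * (2 * Λ) * (10 ^ (4 * K) * Λ ^ (8 * K)) := by gcongr
    have h4 : 48 * (K : ℝ) ^ 2 * (2 * Λ) * (10 ^ (4 * K) * Λ ^ (8 * K)) =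
        96 * K ^ 2 * 10 ^ (4 * K) * Λ ^ (8 * K + 1) := by ring
    rw [hc2]
    linarith
  have hRR : 0 < RA * RB := mul_pos hs.ra hs.rb
  have hNR : (0 : ℝ) ≤ N / (RA * RB) := by positivity
  have hMN : (0 : ℝ) ≤ (M : ℝ) * N := by positivity
  have hXMN : X ≤ 16 * ((M : ℝ) * N) := by
    have := hs.mn1
    linarith
  set T : ℝ := (M : ℝ) * (N : ℝ) ^ 2 / (RA * RB) with hT
  have hT0 : 0 ≤ T := by positivity
  have hmom0 : 0 ≤ C1 * X * Λ ^ C2 := by positivity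
  have hK0 := kap_nonneg (K := K) ⌊X ^ 2⌋₊ D
  have hstep : (X ^ ε * (4 * Ph K ⌊X ^ 2⌋₊ ^ 2 + K ^ 2) +
      N / (RA * RB) * (K ^ 2 / D + kap K ⌊X ^ 2⌋₊ D)) *
      ∑ m ∈ Ioc M (2 * M), ∑ n ∈ Ioc N (2 * N), β n ^ 2 * Gd h (m * n) ^ 7 ≤
      (X ^ ε * (c1 * Λ ^ (8 * K)) + N / (RA * RB) * (c2 * Λ ^ (8 * K + 1) / D)) *
        (C1 * X * Λ ^ C2) := by
    apply mul_le_mul _ hM _ (by positivity)
    · exact add_le_add (mul_le_mul_of_nonneg_left hb1 hXe0.le)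
        (mul_le_mul_of_nonneg_left hb2 hNR)
    · apply sum_nonneg
      intro m _
      apply sum_nonneg
      intro n _
      exact mul_nonneg (sq_nonneg _) (pow_nonneg (Gd_nonneg _) _)
  refine hstep.trans ?_
  -- the first term
  have hMNT : (M : ℝ) * N ≤ T * X ^ (-δ) := by
    have h1 := hs.c1
    rw [hT, div_mul_eq_mul_div, le_div_iff₀ hRR]
    calc (M : ℝ) * N * (RA * RB) ≤ M * N * (N * X ^ (-δ)) := mul_le_mul_of_nonneg_left h1 hMN
      _ = _ := by ring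
  have hXδ : X ^ (-δ) * X ^ ε * X ^ (δ - ε) = 1 := by
    rw [← Real.rpow_add hX0, ← Real.rpow_add hX0]
    ring_nf
    exact Real.rpow_zero X
  have hXd : 0 < X ^ (-δ) := Real.rpow_pos_of_pos hX0 _
  have hΛA : 0 < Λ ^ A := by positivity
  have t1 : X ^ ε * (c1 * Λ ^ (8 * K)) * (C1 * X * Λ ^ C2) ≤ T / (2 * Λ ^ A) := by
    rw [le_div_iff₀ (by positivity)]
    calc X ^ ε * (c1 * Λ ^ (8 * K)) * (C1 * X * Λ ^ C2) * (2 * Λ ^ A)
        = (2 * c1 * C1 * Λ ^ (8 * K + C2 + A)) * X ^ ε * X := by ring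
      _ ≤ (2 * c1 * C1 * Λ ^ (8 * K + C2 + A)) * X ^ ε * (16 * (T * X ^ (-δ))) := by
          apply mul_le_mul_of_nonneg_left _ (by positivity)
          linarith
      _ = (32 * c1 * C1 * Λ ^ (8 * K + C2 + A)) * (T * (X ^ (-δ) * X ^ ε)) := by ring
      _ ≤ X ^ (δ - ε) * (T * (X ^ (-δ) * X ^ ε)) :=
          mul_le_mul_of_nonneg_right hgr (by positivity)
      _ = T * (X ^ (-δ) * X ^ ε * X ^ (δ - ε)) := by ring
      _ = T := by rw [hXδ, mul_one]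
  have t2 : N / (RA * RB) * (c2 * Λ ^ (8 * K + 1) / D) * (C1 * X * Λ ^ C2) ≤ T / (2 * Λ ^ A) := by
    rw [le_div_iff₀ (by positivity)]
    have h1 : N / (RA * RB) * X ≤ 16 * T := by
      calc N / (RA * RB) * X ≤ N / (RA * RB) * (16 * ((M : ℝ) * N)) :=
            mul_le_mul_of_nonneg_left hXMN hNR
        _ = 16 * T := by rw [hT]; ring
    have h2 : 64 * c2 * C1 * Λ ^ (8 * K + 1 + C2 + A) ≤ Λ ^ B := by
      calc 64 * c2 * C1 * Λ ^ (8 * K + 1 + C2 + A) ≤ Λ * Λ ^ (8 * K + 1 + C2 + A) := by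
            apply mul_le_mul_of_nonneg_right _ (by positivity)
            linarith
        _ = Λ ^ (8 * K + 2 + C2 + A) := by ring
        _ ≤ Λ ^ B := pow_le_pow_right₀ hL hB
    have h3 : 64 * c2 * C1 * Λ ^ (8 * K + 1 + C2 + A) ≤ 2 * D := h2.trans hD2
    calc N / (RA * RB) * (c2 * Λ ^ (8 * K + 1) / D) * (C1 * X * Λ ^ C2) * (2 * Λ ^ A)
        = (N / (RA * RB) * X) * (2 * c2 * C1 * Λ ^ (8 * K + 1 + C2 + A)) / D := by ring
      _ ≤ (16 * T) * (2 * c2 * C1 * Λ ^ (8 * K + 1 + C2 + A)) / D := by gcongr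
      _ = T * (64 * c2 * C1 * Λ ^ (8 * K + 1 + C2 + A)) / (2 * D) := by field_simp; ring
      _ ≤ T * (2 * D) / (2 * D) := by gcongr
      _ = T := by field_simp
  calc (X ^ ε * (c1 * Λ ^ (8 * K)) + N / (RA * RB) * (c2 * Λ ^ (8 * K + 1) / D)) *
        (C1 * X * Λ ^ C2)
      = X ^ ε * (c1 * Λ ^ (8 * K)) * (C1 * X * Λ ^ C2) +
        N / (RA * RB) * (c2 * Λ ^ (8 * K + 1) / D) * (C1 * X * Λ ^ C2) := by ring
    _ ≤ T / (2 * Λ ^ A) + T / (2 * Λ ^ A) := add_le_add t1 t2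
    _ = T / Λ ^ A := by field_simp; ring


end Pool.Agent.K9h6.N.Triv
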