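import Pool.Agent.Y950.Z.ZZ1
import Pool.Agent.K9h6.N.Defs

/-! T7b, part 1: the boxes satisfy the grouping condition (helper6). -/

set_option autoImplicit false

open Finset Filter

namespace Pool.Agent.K9h6.N.Zz

open Pool.Agent.Y826.Z Pool.Agent.Y950.Z

lemma groupOK_of_good {K : ℕ} {δ : ℝ} (hδ : 0 < δ) (hδ1 : δ ≤ 1 / 5) {t : Fin K → ℝ} (hG : GoodT δ t) :
    ∀ᶠ X : ℝ in atTop, ∀ Q : Fin K → ℝ, (∀ j, 1 / 2 ≤ Q j) → (∀ j, Q j ≤ X ^ t j) →
      X ^ (1 / 2 - δ) ≤ ∏ j, Q j → GroupOK (δ / 4) X Q := by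
  have e1 : ∀ᶠ X : ℝ in atTop, Real.log 16 ≤ δ * Real.log X :=
    (Real.tendsto_log_atTop.const_mul_atTop hδ).eventually_ge_atTop _
  have e2 : ∀ᶠ X : ℝ in atTop, (16 : ℝ) ^ 8 ≤ X ^ (3 * δ / 4) :=
    (tendsto_rpow_atTop (by positivity)).eventually_ge_atTop _
  filter_upwards [eventually_gt_atTop 1, e1, e2] with X hX1 hX2 hX3
  intro Q hQ1 hQ2 hQ3
  have hX0 : 0 < X := by linarith
  have hL : 0 < Real.log X := Real.log_pos hX1
  have hQ0 : ∀ j, 0 < Q j := fun j => lt_of_lt_of_le (by norm_num) (hQ1 j)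
  set L := Real.log X with hLdef
  have hlog2 : Real.log 2 ≤ Real.log 16 := Real.log_le_log (by norm_num) (by norm_num)
  obtain ⟨hgA, hgB⟩ := hG (fun j => Real.log (Q j) / L) (fun j => by
      constructor
      · rw [le_div_iff₀ hL]
        have : Real.log (1 / 2) ≤ Real.log (Q j) := Real.log_le_log (by norm_num) (hQ1 j)
        rw [one_div, Real.log_inv] at this
        linarith
      · rw [div_le_iff₀ hL]
        have := Real.log_le_log (hQ0 j) (hQ2 j)
        rwa [Real.log_rpow hX0] at this) (by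
      rw [← Finset.sum_div, le_div_iff₀ hL, ← Real.log_prod (fun j _ => (hQ0 j).ne')]
      have := Real.log_le_log (Real.rpow_pos_of_pos hX0 _) hQ3
      rwa [Real.log_rpow hX0] at this)
  have hkey : ∀ a : ℝ, 16 ^ 8 * X ^ (a - δ) ≤ X ^ (a - δ / 4) := by
    intro a
    calc 16 ^ 8 * X ^ (a - δ) ≤ X ^ (3 * δ / 4) * X ^ (a - δ) :=
          mul_le_mul_of_nonneg_right hX3 (by positivity)
      _ = X ^ (a - δ / 4) := by rw [← Real.rpow_add hX0]; congr 1; ring
  refine ⟨fun M N hMN1 hMN2 hN1 hN2 => ?_, fun M N hMN1 hMN2 hN1 hN2 => ?_⟩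
  · have hNpos : (0 : ℝ) < N := lt_of_lt_of_le (by positivity) hN1
    have hMpos : (0 : ℝ) < M := by
      by_contra h
      have : (M : ℝ) = 0 := le_antisymm (not_lt.1 h) (Nat.cast_nonneg _)
      rw [this, zero_mul] at hMN1
      linarith
    obtain ⟨g, hg⟩ := hgA (Real.log N / L) (by
      rw [le_div_iff₀ hL]
      have := Real.log_le_log (by positivity) hN1
      rw [Real.log_rpow hX0] at this
      have h2 : (3 / 8 - δ) * L ≤ (3 / 8 - δ / 4) * L := by
        apply mul_le_mul_of_nonneg_right _ hL.le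
        linarith
      linarith) (by
      rw [div_le_iff₀ hL]
      have := Real.log_le_log hNpos hN2
      rw [Real.log_mul (by norm_num) (Real.rpow_pos_of_pos hX0 _).ne', Real.log_rpow hX0] at this
      linarith)
    refine ⟨g, ?_⟩
    obtain ⟨h1, h2, h3, h4, h5⟩ := hg (fun i => ∑ j ∈ univ.filter (fun j => g j = i),
      Real.log (Q j) / L) (fun _ => rfl) _ rfl
    rw [szg_eq hX1 Q hQ0 g 0, szg_eq hX1 Q hQ0 g 1, szg_eq hX1 Q hQ0 g 2, szg_eq hX1 Q hQ0 g 3,
      szg_eq hX1 Q hQ0 g 4]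
    simp only [← hLdef]
    set y0 := ∑ j ∈ univ.filter (fun j => g j = 0), Real.log (Q j) / L
    set y1 := ∑ j ∈ univ.filter (fun j => g j = 1), Real.log (Q j) / L
    set y2 := ∑ j ∈ univ.filter (fun j => g j = 2), Real.log (Q j) / L
    set y3 := ∑ j ∈ univ.filter (fun j => g j = 3), Real.log (Q j) / L
    set y4 := ∑ j ∈ univ.filter (fun j => g j = 4), Real.log (Q j) / L
    set ν := Real.log N / L with hνdef
    set η := max 0 (y0 + y1 + 2 * y2 + 2 * y3 + 2 * y4 - (1 - ν)) with hηdef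
    have hNν : (N : ℝ) = X ^ ν := by
      rw [Real.rpow_def_of_pos hX0, hνdef, mul_div_cancel₀ _ hL.ne', Real.exp_log hNpos]
    have hMlow : X ^ (1 - ν) / 16 ≤ M := by
      rw [Real.rpow_sub hX0, Real.rpow_one, ← hNν, div_div, div_le_iff₀ (by positivity)]
      linarith
    have hη0 : 0 ≤ η := le_max_left _ _
    -- the maximum
    set E := max 1 (X ^ y0 * X ^ y1 * (X ^ y2) ^ 2 * (X ^ y3) ^ 2 * (X ^ y4) ^ 2 / M) with hE
    have hE1 : 1 ≤ E := le_max_left _ _
    have hE16 : E ≤ 16 * X ^ η := by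
      apply max_le
      · have := Real.one_le_rpow hX1.le hη0
        linarith
      · rw [div_le_iff₀ hMpos]
        have h : X ^ y0 * X ^ y1 * (X ^ y2) ^ 2 * (X ^ y3) ^ 2 * (X ^ y4) ^ 2 =
            X ^ (y0 + y1 + 2 * y2 + 2 * y3 + 2 * y4) := by
          rw [rpow_pow' hX0.le, rpow_pow' hX0.le, rpow_pow' hX0.le, ← Real.rpow_add hX0,
            ← Real.rpow_add hX0, ← Real.rpow_add hX0, ← Real.rpow_add hX0]
          congr 1
          push_cast
          ring
        rw [h]
        calc X ^ (y0 + y1 + 2 * y2 + 2 * y3 + 2 * y4) ≤ X ^ (η + (1 - ν)) := by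
              apply Real.rpow_le_rpow_of_exponent_le hX1.le
              have := le_max_right 0 (y0 + y1 + 2 * y2 + 2 * y3 + 2 * y4 - (1 - ν))
              linarith
          _ = 16 * X ^ η * (X ^ (1 - ν) / 16) := by rw [Real.rpow_add hX0]; ring
          _ ≤ 16 * X ^ η * M := by
              apply mul_le_mul_of_nonneg_left hMlow
              positivity
    have hE4 : E ^ 4 ≤ 16 ^ 8 * X ^ (4 * η) := by
      calc E ^ 4 ≤ (16 * X ^ η) ^ 4 := pow_le_pow_left₀ (by linarith) hE16 4
        _ = 16 ^ 4 * X ^ (4 * η) := by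
            rw [mul_pow, rpow_pow' hX0.le]
            congr 2
            push_cast
            ring
        _ ≤ 16 ^ 8 * X ^ (4 * η) := by
            apply mul_le_mul_of_nonneg_right (by norm_num) (by positivity)
    have hE8 : E ^ 8 ≤ 16 ^ 8 * X ^ (8 * η) := by
      calc E ^ 8 ≤ (16 * X ^ η) ^ 8 := pow_le_pow_left₀ (by linarith) hE16 8
        _ = 16 ^ 8 * X ^ (8 * η) := by
            rw [mul_pow, rpow_pow' hX0.le]
            congr 2
            push_cast
            ring
    refine ⟨hMN1, hMN2, ?_, hN2, by positivity, by positivity, by positivity, by positivity,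
      by positivity, ?_, ?_, ?_, ?_, ?_⟩
    · exact (Real.rpow_le_rpow_of_exponent_le hX1.le (by linarith)).trans hN1
    · -- c1
      rw [← Real.rpow_add hX0, hNν, ← Real.rpow_add hX0]
      apply Real.rpow_le_rpow_of_exponent_le hX1.le
      linarith
    · -- c2
      have h : X ^ y0 * X ^ y1 * (X ^ y2) ^ 2 * (X ^ y3) ^ 2 = X ^ (y0 + y1 + 2 * y2 + 2 * y3) := by
        rw [rpow_pow' hX0.le, rpow_pow' hX0.le, ← Real.rpow_add hX0, ← Real.rpow_add hX0,
          ← Real.rpow_add hX0]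
        congr 1
        push_cast
        ring
      rw [h]
      calc X ^ (y0 + y1 + 2 * y2 + 2 * y3) ≤ X ^ (1 - ν - δ) :=
            Real.rpow_le_rpow_of_exponent_le hX1.le h2
        _ = 1 * X ^ (1 - ν - δ) := by rw [one_mul]
        _ ≤ (16 ^ 8 / 16) * X ^ (1 - ν - δ) := by
            apply mul_le_mul_of_nonneg_right (by norm_num) (by positivity)
        _ = (16 ^ 8 * X ^ (1 - ν - δ)) / 16 := by ring
        _ ≤ X ^ (1 - ν - δ / 4) / 16 := by
            apply div_le_div_of_nonneg_right (hkey _) (by norm_num)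
        _ = (X ^ (1 - ν) / 16) * X ^ (-(δ / 4)) := by
            rw [sub_eq_add_neg (1 - ν), Real.rpow_add hX0]; ring
        _ ≤ M * X ^ (-(δ / 4)) := mul_le_mul_of_nonneg_right hMlow (by positivity)
    · -- c3
      have h : X ^ y0 * (X ^ y2) ^ 2 * (X ^ y4) ^ 4 = X ^ (y0 + 2 * y2 + 4 * y4) := by
        rw [rpow_pow' hX0.le, rpow_pow' hX0.le, ← Real.rpow_add hX0, ← Real.rpow_add hX0]
        congr 1
        push_cast
        ring
      rw [h]
      calc X ^ (y0 + 2 * y2 + 4 * y4) * E ^ 4 ≤ X ^ (y0 + 2 * y2 + 4 * y4) * (16 ^ 8 * X ^ (4 * η)) :=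
            mul_le_mul_of_nonneg_left hE4 (by positivity)
        _ = 16 ^ 8 * X ^ (y0 + 2 * y2 + 4 * y4 + 4 * η) := by
            rw [Real.rpow_add hX0 (y0 + 2 * y2 + 4 * y4)]; ring
        _ ≤ 16 ^ 8 * X ^ (ν - δ) := by
            apply mul_le_mul_of_nonneg_left _ (by norm_num)
            exact Real.rpow_le_rpow_of_exponent_le hX1.le h3
        _ ≤ X ^ (ν - δ / 4) := hkey _
        _ = N * X ^ (-(δ / 4)) := by rw [hNν, ← Real.rpow_add hX0, sub_eq_add_neg]
    · -- c4
      have h : X ^ y1 * (X ^ y3) ^ 2 = X ^ (y1 + 2 * y3) := by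
        rw [rpow_pow' hX0.le, ← Real.rpow_add hX0]
        congr 1
        push_cast
        ring
      rw [h]
      calc X ^ (y1 + 2 * y3) * E ^ 8 ≤ X ^ (y1 + 2 * y3) * (16 ^ 8 * X ^ (8 * η)) :=
            mul_le_mul_of_nonneg_left hE8 (by positivity)
        _ = 16 ^ 8 * X ^ (y1 + 2 * y3 + 8 * η) := by rw [Real.rpow_add hX0 (y1 + 2 * y3)]; ring
        _ ≤ 16 ^ 8 * X ^ (2 * ν - δ) := by
            apply mul_le_mul_of_nonneg_left _ (by norm_num)
            exact Real.rpow_le_rpow_of_exponent_le hX1.le h4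
        _ ≤ X ^ (2 * ν - δ / 4) := hkey _
        _ = (N : ℝ) ^ 2 * X ^ (-(δ / 4)) := by
            rw [hNν, rpow_pow' hX0.le, ← Real.rpow_add hX0]
            congr 1
            push_cast
            ring
    · -- c5
      have h : X ^ y1 * (X ^ y3) ^ 2 = X ^ (y1 + 2 * y3) := by
        rw [rpow_pow' hX0.le, ← Real.rpow_add hX0]
        congr 1
        push_cast
        ring
      rw [h]
      calc E ^ 8 * X ^ (δ / 4) ≤ (16 ^ 8 * X ^ (8 * η)) * X ^ (δ / 4) :=
            mul_le_mul_of_nonneg_right hE8 (by positivity)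
        _ = 16 ^ 8 * X ^ (8 * η + 5 * δ / 4 - δ) := by
            rw [mul_assoc, ← Real.rpow_add hX0]
            congr 2
            ring
        _ ≤ X ^ (8 * η + 5 * δ / 4 - δ / 4) := hkey _
        _ ≤ X ^ (y1 + 2 * y3) := by
            apply Real.rpow_le_rpow_of_exponent_le hX1.le
            linarith
  · have hNpos : (0 : ℝ) < N := lt_of_lt_of_le (by positivity) hN1
    have hMpos : (0 : ℝ) < M := by
      by_contra h
      have : (M : ℝ) = 0 := le_antisymm (not_lt.1 h) (Nat.cast_nonneg _)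
      rw [this, zero_mul] at hMN1
      linarith
    obtain ⟨g, hg2, hg⟩ := hgB (Real.log N / L) (by
      rw [le_div_iff₀ hL]
      have := Real.log_le_log (by positivity) hN1
      rw [Real.log_rpow hX0] at this
      have h2 : (5 / 16 - δ) * L ≤ (5 / 16 - δ / 4) * L := by
        apply mul_le_mul_of_nonneg_right _ hL.le
        linarith
      linarith) (by
      rw [div_le_iff₀ hL]
      have := Real.log_le_log hNpos hN2
      rw [Real.log_rpow hX0] at this
      have h2 : (3 / 8 + δ / 4) * L ≤ (3 / 8 + δ) * L := by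
        apply mul_le_mul_of_nonneg_right _ hL.le
        linarith
      linarith)
    refine ⟨g, hg2, ?_⟩
    obtain ⟨h1, h3, h4, h5⟩ := hg (fun i => ∑ j ∈ univ.filter (fun j => g j = i),
      Real.log (Q j) / L) (fun _ => rfl) _ rfl
    rw [szg_eq hX1 Q hQ0 g 0, szg_eq hX1 Q hQ0 g 1, szg_eq hX1 Q hQ0 g 3,
      szg_eq hX1 Q hQ0 g 4]
    simp only [← hLdef]
    set y0 := ∑ j ∈ univ.filter (fun j => g j = 0), Real.log (Q j) / L
    set y1 := ∑ j ∈ univ.filter (fun j => g j = 1), Real.log (Q j) / L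
    set y3 := ∑ j ∈ univ.filter (fun j => g j = 3), Real.log (Q j) / L
    set y4 := ∑ j ∈ univ.filter (fun j => g j = 4), Real.log (Q j) / L
    set ν := Real.log N / L with hνdef
    set η := max 0 (y0 + y1 + 2 * y3 + 2 * y4 - (1 - ν)) with hηdef
    have hNν : (N : ℝ) = X ^ ν := by
      rw [Real.rpow_def_of_pos hX0, hνdef, mul_div_cancel₀ _ hL.ne', Real.exp_log hNpos]
    have hMlow : X ^ (1 - ν) / 16 ≤ M := by
      rw [Real.rpow_sub hX0, Real.rpow_one, ← hNν, div_div, div_le_iff₀ (by positivity)]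
      linarith
    have hη0 : 0 ≤ η := le_max_left _ _
    -- the maximum
    set E := max 1 (X ^ y0 * X ^ y1 * (X ^ y3) ^ 2 * (X ^ y4) ^ 2 / M) with hE
    have hE1 : 1 ≤ E := le_max_left _ _
    have hE16 : E ≤ 16 * X ^ η := by
      apply max_le
      · have := Real.one_le_rpow hX1.le hη0
        linarith
      · rw [div_le_iff₀ hMpos]
        have h : X ^ y0 * X ^ y1 * (X ^ y3) ^ 2 * (X ^ y4) ^ 2 =
            X ^ (y0 + y1 + 2 * y3 + 2 * y4) := by
          rw [rpow_pow' hX0.le, rpow_pow' hX0.le, ← Real.rpow_add hX0,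
            ← Real.rpow_add hX0, ← Real.rpow_add hX0]
          congr 1
          push_cast
          ring
        rw [h]
        calc X ^ (y0 + y1 + 2 * y3 + 2 * y4) ≤ X ^ (η + (1 - ν)) := by
              apply Real.rpow_le_rpow_of_exponent_le hX1.le
              have := le_max_right 0 (y0 + y1 + 2 * y3 + 2 * y4 - (1 - ν))
              linarith
          _ = 16 * X ^ η * (X ^ (1 - ν) / 16) := by rw [Real.rpow_add hX0]; ring
          _ ≤ 16 * X ^ η * M := by
              apply mul_le_mul_of_nonneg_left hMlow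
              positivity
    have hE2 : E ^ 2 ≤ 16 ^ 8 * X ^ (2 * η) := by
      calc E ^ 2 ≤ (16 * X ^ η) ^ 2 := pow_le_pow_left₀ (by linarith) hE16 2
        _ = 16 ^ 2 * X ^ (2 * η) := by
            rw [mul_pow, rpow_pow' hX0.le]
            congr 2
            push_cast
            ring
        _ ≤ 16 ^ 8 * X ^ (2 * η) := by
            apply mul_le_mul_of_nonneg_right (by norm_num) (by positivity)
    have hE4 : E ^ 4 ≤ 16 ^ 8 * X ^ (4 * η) := by
      calc E ^ 4 ≤ (16 * X ^ η) ^ 4 := pow_le_pow_left₀ (by linarith) hE16 4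
        _ = 16 ^ 4 * X ^ (4 * η) := by
            rw [mul_pow, rpow_pow' hX0.le]
            congr 2
            push_cast
            ring
        _ ≤ 16 ^ 8 * X ^ (4 * η) := by
            apply mul_le_mul_of_nonneg_right (by norm_num) (by positivity)
    refine ⟨hMN1, hMN2, ?_, ?_, by positivity, by positivity, by positivity, by positivity,
      ?_, ?_, ?_, ?_⟩
    · exact (Real.rpow_le_rpow_of_exponent_le hX1.le (by linarith)).trans hN1
    · have h6 : (N : ℝ) ≤ X ^ (1 / 2 : ℝ) :=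
        hN2.trans (Real.rpow_le_rpow_of_exponent_le hX1.le (by linarith))
      have h7 : 0 ≤ X ^ (1 / 2 : ℝ) := by positivity
      linarith
    · -- c1
      rw [← Real.rpow_add hX0, hNν, ← Real.rpow_add hX0]
      apply Real.rpow_le_rpow_of_exponent_le hX1.le
      linarith
    · -- c3
      have h : X ^ y0 * (X ^ y4) ^ 2 = X ^ (y0 + 2 * y4) := by
        rw [rpow_pow' hX0.le, ← Real.rpow_add hX0]
        congr 1
        push_cast
        ring
      rw [h]
      calc X ^ (y0 + 2 * y4) * E ^ 2 ≤ X ^ (y0 + 2 * y4) * (16 ^ 8 * X ^ (2 * η)) :=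
            mul_le_mul_of_nonneg_left hE2 (by positivity)
        _ = 16 ^ 8 * X ^ (y0 + 2 * y4 + 2 * η) := by
            rw [Real.rpow_add hX0 (y0 + 2 * y4)]; ring
        _ ≤ 16 ^ 8 * X ^ (ν - δ) := by
            apply mul_le_mul_of_nonneg_left _ (by norm_num)
            exact Real.rpow_le_rpow_of_exponent_le hX1.le h3
        _ ≤ X ^ (ν - δ / 4) := hkey _
        _ = N * X ^ (-(δ / 4)) := by rw [hNν, ← Real.rpow_add hX0, sub_eq_add_neg]
    · -- c4
      have h : X ^ y1 * (X ^ y3) ^ 2 = X ^ (y1 + 2 * y3) := by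
        rw [rpow_pow' hX0.le, ← Real.rpow_add hX0]
        congr 1
        push_cast
        ring
      rw [h]
      calc X ^ (y1 + 2 * y3) * E ^ 4 ≤ X ^ (y1 + 2 * y3) * (16 ^ 8 * X ^ (4 * η)) :=
            mul_le_mul_of_nonneg_left hE4 (by positivity)
        _ = 16 ^ 8 * X ^ (y1 + 2 * y3 + 4 * η) := by rw [Real.rpow_add hX0 (y1 + 2 * y3)]; ring
        _ ≤ 16 ^ 8 * X ^ (2 * ν - δ) := by
            apply mul_le_mul_of_nonneg_left _ (by norm_num)
            exact Real.rpow_le_rpow_of_exponent_le hX1.le h4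
        _ ≤ X ^ (2 * ν - δ / 4) := hkey _
        _ = (N : ℝ) ^ 2 * X ^ (-(δ / 4)) := by
            rw [hNν, rpow_pow' hX0.le, ← Real.rpow_add hX0]
            congr 1
            push_cast
            ring
    · -- c5
      have h : X ^ y1 * (X ^ y3) ^ 2 = X ^ (y1 + 2 * y3) := by
        rw [rpow_pow' hX0.le, ← Real.rpow_add hX0]
        congr 1
        push_cast
        ring
      rw [h]
      calc E ^ 4 * X ^ (δ / 4) ≤ (16 ^ 8 * X ^ (4 * η)) * X ^ (δ / 4) :=
            mul_le_mul_of_nonneg_right hE4 (by positivity)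
        _ = 16 ^ 8 * X ^ (4 * η + 5 * δ / 4 - δ) := by
            rw [mul_assoc, ← Real.rpow_add hX0]
            congr 2
            ring
        _ ≤ X ^ (4 * η + 5 * δ / 4 - δ / 4) := hkey _
        _ ≤ X ^ (y1 + 2 * y3) := by
            apply Real.rpow_le_rpow_of_exponent_le hX1.le
            linarith

end Pool.Agent.K9h6.N.Zz
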