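import Pool.Agent.Y950.Z.ZZ
import Pool.Agent.K9h6.N.ZZ1

/-! T7b: all dyadic boxes and divisor weights, `S_ZZ` from `S_Z` (the proof of `Pool.Agent.Y950.Z.zz`, helper6). -/

set_option autoImplicit false

open Finset Filter

namespace Pool.Agent.K9h6.N.Zz

open Pool.Agent.Y826.Z
open Pool.Agent.H378R2 (EPhi Phi)
open Pool.Agent.Y950.Z (bq_coprime box_lt le_box clog_le triv_bound tau_nonneg fiber_le)

lemma GoodT_mono {K : ℕ} {δ δ' : ℝ} {t : Fin K → ℝ} (hd : δ' ≤ δ) (hG : GoodT δ t) :
    GoodT δ' t := by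
  intro x hx hs
  obtain ⟨hA, hB⟩ := hG x (fun j => ⟨by linarith [(hx j).1], (hx j).2⟩) (by linarith)
  refine ⟨fun ν h1 h2 => ?_, fun ν h1 h2 => ?_⟩
  · obtain ⟨g, hg⟩ := hA ν (by linarith) (by linarith)
    refine ⟨g, fun y hy η hη => ?_⟩
    obtain ⟨a1, a2, a3, a4, a5⟩ := hg y hy η hη
    exact ⟨by linarith, by linarith, by linarith, by linarith, by linarith⟩
  · obtain ⟨g, hg2, hg⟩ := hB ν (by linarith) (by linarith)
    refine ⟨g, hg2, fun y hy η hη => ?_⟩
    obtain ⟨a1, a3, a4, a5⟩ := hg y hy η hη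
    exact ⟨by linarith, by linarith, by linarith, by linarith⟩

theorem zz (hZ : S_Z) : S_ZZ := by
  classical
  intro K h W b hyp t ht0 ht hG bq hbq A C
  obtain ⟨δ0, hδ0, hG0⟩ := hG
  set δ : ℝ := min δ0 (1 / 10) with hδdef
  have hδ : 0 < δ := lt_min hδ0 (by norm_num)
  have hδ1 : δ ≤ 1 / 10 := min_le_right _ _
  have hGδ : GoodT δ t := GoodT_mono (min_le_left _ _) hG0
  obtain ⟨C', htriv⟩ := triv_bound h W b hyp (2 * C)
  have hgrp := groupOK_of_good hδ (by linarith) hGδ
  have hbox := hZ K h W b hyp (δ / 4) (by positivity) (2 * (A + 1) + C' + 2 * K)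
  have hbv := H95R2.BG.bv_tent W hyp.wpos (1 / 2 - δ / 2) (by linarith) (K + C) (A + 1)
  have e4 : ∀ᶠ X : ℝ in atTop, (2 : ℝ) ^ K ≤ X ^ (δ / 2) :=
    (tendsto_rpow_atTop (by positivity)).eventually_ge_atTop _
  filter_upwards [eventually_gt_atTop 1, htriv, hgrp, hbox, hbv, e4,
    Real.tendsto_log_atTop.eventually_ge_atTop 3] with X hX1 htriv hgrp hbox hbv hX4 hL
  have hX0 : 0 < X := by linarith
  have hL0 : 0 < Real.log X := by linarith
  set SA := (Fintype.piFinset (fun j => Icc 1 ⌊X ^ (t j)⌋₊)).filter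
    (fun q => Squarefree (W * Pr q)) with hSA
  have hq1 : ∀ q ∈ SA, ∀ j, 1 ≤ q j ∧ (q j : ℝ) ≤ X ^ t j := by
    intro q hq j
    rw [hSA, Finset.mem_filter, Fintype.mem_piFinset] at hq
    have := hq.1 j
    rw [mem_Icc] at this
    exact ⟨this.1, (Nat.le_floor_iff (by positivity)).1 this.2⟩
  have hsf : ∀ q ∈ SA, Squarefree (W * Pr q) := fun q hq => (Finset.mem_filter.1 hq).2
  have hPrX : ∀ q ∈ SA, (Pr q : ℝ) ≤ X ^ (27 / 50 : ℝ) := by
    intro q hq
    unfold Pr
    push_cast
    calc ∏ j, (q j : ℝ) ≤ ∏ j, X ^ t j :=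
          Finset.prod_le_prod (fun j _ => Nat.cast_nonneg _) fun j _ => (hq1 q hq j).2
      _ = X ^ (∑ j, t j) := by rw [Real.rpow_sum_of_pos hX0]
      _ ≤ X ^ (27 / 50 : ℝ) := Real.rpow_le_rpow_of_exponent_le hX1.le ht
  have hPrX' : ∀ q ∈ SA, (Pr q : ℝ) ≤ X := by
    intro q hq
    refine (hPrX q hq).trans ?_
    calc X ^ (27 / 50 : ℝ) ≤ X ^ (1 : ℝ) := Real.rpow_le_rpow_of_exponent_le hX1.le (by norm_num)
      _ = X := Real.rpow_one X
  set S1 := SA.filter (fun q => (Pr q : ℝ) ≤ X ^ (1 / 2 - δ / 2)) with hS1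
  set S2 := SA.filter (fun q => ¬ (Pr q : ℝ) ≤ X ^ (1 / 2 - δ / 2)) with hS2
  rw [← Finset.sum_filter_add_sum_filter_not SA (fun q => (Pr q : ℝ) ≤ X ^ (1 / 2 - δ / 2))]
  -- small moduli
  have hsmall : ∑ q ∈ S1, tau (Pr q) ^ C * |EPhi X (W * Pr q) (bq q)| ≤
      X / (Real.log X) ^ (A + 1) := by
    obtain ⟨B, hB1, hB2⟩ := H95R2.BG.S2.worst X W hyp.wpos
    calc ∑ q ∈ S1, tau (Pr q) ^ C * |EPhi X (W * Pr q) (bq q)|
        ≤ ∑ q ∈ S1, tau (Pr q) ^ C * |EPhi X (W * Pr q) (B (Pr q))| := by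
          refine Finset.sum_le_sum fun q hq => ?_
          rw [hS1, Finset.mem_filter] at hq
          apply mul_le_mul_of_nonneg_left _ (pow_nonneg (tau_nonneg _) _)
          apply hB2
          · exact Nat.one_le_iff_ne_zero.2 ((hsf q hq.1).of_mul_right).ne_zero
          · exact bq_coprime hyp hbq (hsf q hq.1)
      _ ≤ ∑ m ∈ (Icc 1 ⌊X ^ (1 / 2 - δ / 2)⌋₊).filter (fun q => Squarefree q),
            tau m ^ K * (tau m ^ C * |EPhi X (W * m) (B m)|) := by
          apply fiber_le S1 _ _ _ (fun m => tau m ^ C * |EPhi X (W * m) (B m)|)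
            (fun m => mul_nonneg (pow_nonneg (tau_nonneg _) _) (abs_nonneg _))
          · intro m hm
            rw [Finset.mem_filter] at hm
            exact hm.2.ne_zero
          · intro q hq
            rw [hS1, Finset.mem_filter] at hq
            have h1 : Squarefree (Pr q) := (hsf q hq.1).of_mul_right
            rw [Finset.mem_filter, mem_Icc]
            exact ⟨⟨Nat.one_le_iff_ne_zero.2 h1.ne_zero, Nat.le_floor hq.2⟩, h1⟩
      _ = ∑ m ∈ (Icc 1 ⌊X ^ (1 / 2 - δ / 2)⌋₊).filter (fun q => Squarefree q),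
            (m.divisors.card : ℝ) ^ (K + C) * |EPhi X (W * m) (B m)| := by
          refine Finset.sum_congr rfl fun m _ => ?_
          rw [← mul_assoc, ← pow_add]
          rfl
      _ ≤ X / (Real.log X) ^ (A + 1) := hbv B hB1
  -- the boxes
  set m := ⌊1 + 2 * Real.log X⌋₊ with hm
  set BI := Fintype.piFinset (fun _ : Fin K => range (m + 1)) with hBI
  have hBIcard : (BI.card : ℝ) ≤ (Real.log X) ^ (2 * K) := by
    rw [hBI, Fintype.card_piFinset_const, card_range]
    push_cast
    rw [pow_mul]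
    apply pow_le_pow_left₀ (by positivity)
    have : (m : ℝ) ≤ 1 + 2 * Real.log X := Nat.floor_le (by positivity)
    nlinarith
  have hlarge1 : ∑ q ∈ S2, |EPhi X (W * Pr q) (bq q)| ≤
      (Real.log X) ^ (2 * K) * (X / (Real.log X) ^ (2 * (A + 1) + C' + 2 * K)) := by
    have hmaps : ∀ q ∈ S2, (fun j => Nat.clog 2 (q j)) ∈ BI := by
      intro q hq
      rw [hS2, Finset.mem_filter] at hq
      rw [hBI, Fintype.mem_piFinset]
      intro j
      rw [mem_range]
      have h1 := (hq1 q hq.1 j).1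
      have h2 : (q j : ℝ) ≤ X := by
        refine le_trans ?_ (hPrX' q hq.1)
        exact_mod_cast Nat.le_of_dvd (Nat.pos_of_ne_zero ((hsf q hq.1).of_mul_right).ne_zero)
          (Finset.dvd_prod_of_mem _ (mem_univ j))
      exact Nat.lt_succ_of_le (clog_le h1 h2)
    rw [← Finset.sum_fiberwise_of_maps_to hmaps]
    calc ∑ i ∈ BI, ∑ q ∈ S2.filter (fun q => (fun j => Nat.clog 2 (q j)) = i),
          |EPhi X (W * Pr q) (bq q)|
        ≤ ∑ i ∈ BI, X / (Real.log X) ^ (2 * (A + 1) + C' + 2 * K) := by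
          refine Finset.sum_le_sum fun i _ => ?_
          rcases (S2.filter (fun q => (fun j => Nat.clog 2 (q j)) = i)).eq_empty_or_nonempty with
            he | ⟨q0, hq0⟩
          · rw [he, Finset.sum_empty]
            positivity
          · rw [Finset.mem_filter, hS2, Finset.mem_filter] at hq0
            obtain ⟨⟨hq0A, hq0b⟩, hq0i⟩ := hq0
            have hQlt : ∀ j, (2 : ℝ) ^ (i j) / 2 < q0 j := by
              intro j
              rw [← hq0i]
              exact box_lt (hq1 q0 hq0A j).1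
            have hQle : ∀ j, (q0 j : ℝ) ≤ 2 * ((2 : ℝ) ^ (i j) / 2) := by
              intro j
              rw [← hq0i]
              exact le_box _
            have hprodle : ∏ j, (2 : ℝ) ^ (i j) / 2 ≤ Pr q0 := by
              unfold Pr
              push_cast
              exact Finset.prod_le_prod (fun j _ => by positivity) fun j _ => (hQlt j).le
            apply hbox (fun j => (2 : ℝ) ^ (i j) / 2) (fun j => by positivity)
            · refine hprodle.trans ((hPrX q0 hq0A).trans ?_)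
              exact Real.rpow_le_rpow_of_exponent_le hX1.le (by norm_num)
            · apply hgrp
              · intro j
                have : (1 : ℝ) ≤ 2 ^ (i j) := one_le_pow₀ (by norm_num)
                linarith
              · intro j
                exact (hQlt j).le.trans (hq1 q0 hq0A j).2
              · have h1 : (Pr q0 : ℝ) ≤ 2 ^ K * ∏ j, (2 : ℝ) ^ (i j) / 2 := by
                  calc (Pr q0 : ℝ) = ∏ j, (q0 j : ℝ) := by unfold Pr; push_cast; rfl
                    _ ≤ ∏ j, 2 * ((2 : ℝ) ^ (i j) / 2) :=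
                      Finset.prod_le_prod (fun j _ => Nat.cast_nonneg _) fun j _ => hQle j
                    _ = 2 ^ K * ∏ j, (2 : ℝ) ^ (i j) / 2 := by
                      rw [Finset.prod_mul_distrib, Finset.prod_const, Finset.card_univ,
                        Fintype.card_fin]
                have h2 : X ^ (1 / 2 - δ / 2) < 2 ^ K * ∏ j, (2 : ℝ) ^ (i j) / 2 :=
                  lt_of_lt_of_le (not_le.1 hq0b) h1
                have h3 : X ^ (1 / 2 - δ / 2) = X ^ (δ / 2) * X ^ (1 / 2 - δ) := by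
                  rw [← Real.rpow_add hX0]
                  congr 1
                  ring
                have hP0 : 0 < ∏ j, (2 : ℝ) ^ (i j) / 2 := Finset.prod_pos fun j _ => by positivity
                have h4 : X ^ (δ / 2) * X ^ (1 / 2 - δ) < X ^ (δ / 2) * ∏ j, (2 : ℝ) ^ (i j) / 2 := by
                  rw [← h3]
                  exact lt_of_lt_of_le h2 (mul_le_mul_of_nonneg_right hX4 hP0.le)
                exact (lt_of_mul_lt_mul_left h4 (by positivity)).le
            · exact hbq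
            · intro q hq
              rw [Finset.mem_filter, hS2, Finset.mem_filter] at hq
              obtain ⟨⟨hqA, -⟩, hqi⟩ := hq
              refine ⟨hsf q hqA, fun j => ?_⟩
              rw [← hqi]
              exact ⟨box_lt (hq1 q hqA j).1, le_box _⟩
      _ = BI.card * (X / (Real.log X) ^ (2 * (A + 1) + C' + 2 * K)) := by
          rw [Finset.sum_const, nsmul_eq_mul]
      _ ≤ _ := mul_le_mul_of_nonneg_right hBIcard (by positivity)
  have hlarge2 : ∑ q ∈ S2, tau (Pr q) ^ (2 * C) * |EPhi X (W * Pr q) (bq q)| ≤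
      X * (Real.log X) ^ C' := by
    apply htriv bq hbq
    intro q hq
    rw [hS2, Finset.mem_filter] at hq
    exact ⟨hsf q hq.1, hPrX' q hq.1⟩
  have hlarge : ∑ q ∈ S2, tau (Pr q) ^ C * |EPhi X (W * Pr q) (bq q)| ≤
      X / (Real.log X) ^ (A + 1) := by
    have hcs := Finset.sum_mul_sq_le_sq_mul_sq S2
      (fun q => tau (Pr q) ^ C * Real.sqrt |EPhi X (W * Pr q) (bq q)|)
      (fun q => Real.sqrt |EPhi X (W * Pr q) (bq q)|)
    have e1 : ∀ q : Fin K → ℕ, tau (Pr q) ^ C * Real.sqrt |EPhi X (W * Pr q) (bq q)| *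
        Real.sqrt |EPhi X (W * Pr q) (bq q)| = tau (Pr q) ^ C * |EPhi X (W * Pr q) (bq q)| := by
      intro q
      rw [mul_assoc, Real.mul_self_sqrt (abs_nonneg _)]
    have e2 : ∀ q : Fin K → ℕ, (tau (Pr q) ^ C * Real.sqrt |EPhi X (W * Pr q) (bq q)|) ^ 2 =
        tau (Pr q) ^ (2 * C) * |EPhi X (W * Pr q) (bq q)| := by
      intro q
      rw [mul_pow, Real.sq_sqrt (abs_nonneg _), ← pow_mul, mul_comm C 2]
    simp only [e1, e2, Real.sq_sqrt (abs_nonneg _)] at hcs
    have h0 : 0 ≤ ∑ q ∈ S2, |EPhi X (W * Pr q) (bq q)| := Finset.sum_nonneg fun _ _ => abs_nonneg _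
    have h5 : (∑ q ∈ S2, tau (Pr q) ^ C * |EPhi X (W * Pr q) (bq q)|) ^ 2 ≤
        (X / (Real.log X) ^ (A + 1)) ^ 2 := by
      refine hcs.trans ?_
      calc (∑ q ∈ S2, tau (Pr q) ^ (2 * C) * |EPhi X (W * Pr q) (bq q)|) *
            ∑ q ∈ S2, |EPhi X (W * Pr q) (bq q)|
          ≤ (X * (Real.log X) ^ C') *
            ((Real.log X) ^ (2 * K) * (X / (Real.log X) ^ (2 * (A + 1) + C' + 2 * K))) :=
            mul_le_mul hlarge2 hlarge1 h0 (by positivity)
        _ = (X / (Real.log X) ^ (A + 1)) ^ 2 := by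
            rw [div_pow, ← pow_mul, pow_add, pow_add]
            field_simp
            ring
    exact (sq_le_sq₀ (Finset.sum_nonneg fun q _ =>
      mul_nonneg (pow_nonneg (tau_nonneg _) _) (abs_nonneg _)) (by positivity)).1 h5
  calc _ ≤ X / (Real.log X) ^ (A + 1) + X / (Real.log X) ^ (A + 1) := add_le_add hsmall hlarge
    _ = (X / (Real.log X) ^ A) * (2 / Real.log X) := by
        rw [pow_succ]
        field_simp
        ring
    _ ≤ (X / (Real.log X) ^ A) * 1 := by
        apply mul_le_mul_of_nonneg_left _ (by positivity)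
        rw [div_le_one hL0]
        linarith
    _ = X / (Real.log X) ^ A := mul_one _

end Pool.Agent.K9h6.N.Zz
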