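import Mathlib
import Pool.Agent.Y826.Z.Main
import Pool.Agent.K9h6.N.Offs
import Pool.Agent.K9h6.N.Triv
import Pool.Agent.K9h6.N.Tii
import Pool.Agent.K9h6.N.Bxa
import Pool.Agent.K9h6.N.Bxs
import Pool.Agent.K9h6.N.Ti2
import Pool.Agent.K9h6.N.Lam
import Pool.Agent.K9h6.N.Zd
import Pool.Agent.K9h6.N.ZZ
import Pool.Agent.K9h6.N.Lay

/-! Primes in residue classes to factorable moduli beyond the level `1/2`, second version, unconditionally: all the
parts together (helper6). -/

set_option autoImplicit false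

namespace Pool.Agent.K9h6.N

theorem s_offs : S_OFFS := Off.offs Pool.Agent.Y870.Z.phase Pool.Agent.Y826.Z.s_vdc

theorem s_tiij : S_TIIJ := Tii.tiij Pool.Agent.Y826.Z.s_off Triv.trivw Pool.Agent.Y826.Z.bls

theorem s_tiis : S_TIIS := Tii.tiis s_offs Triv.trivw Pool.Agent.Y826.Z.bls

theorem s_bxa : S_BXA := Bx.bxa s_tiij

theorem s_bxs : S_BXS := Bx.bxs s_tiis

theorem s_lam : S_LAM := La.lam s_bxa s_bxs Ti2.ti2

theorem s_z : S_Z := Zd.zbox s_lam

/-- the equidistribution theorem -/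
theorem s_zz : S_ZZ := Zz.zz s_z

theorem s_p2 : S_P2 := p2 s_zz

theorem s_crit : S_CRIT := crit s_p2

theorem s_lay : S_LAY := lay s_crit

end Pool.Agent.K9h6.N
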