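import Mathlib

/-!
# The grouping lemma (helper6), part 1: greedy choices
-/

set_option autoImplicit false
set_option linter.unusedSectionVars false

namespace Pool.Agent.K9h6.N

open Finset

section

variable {ι : Type} [Fintype ι] [DecidableEq ι]

/-- the result of a greedy choice in decreasing order of the sizes `k`, with the weights `w` -/
structure Gr (k w : ι → ℝ) (c : ℝ) (S V : Finset ι) : Prop where
  sub : V ⊆ S
  le : ∑ z ∈ V, w z ≤ c
  rej : ∀ r ∈ S, r ∉ V → c < ∑ z ∈ V.filter (fun z => k r ≤ k z), w z + w r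

theorem greedy2 (k w : ι → ℝ) (hw : ∀ z, 0 ≤ w z) (c : ℝ) (hc : 0 ≤ c) (S : Finset ι) :
    ∃ V, Gr k w c S V := by
  induction S using Finset.induction_on_min_value k with
  | empty => exact ⟨∅, subset_rfl, by simpa using hc, by simp⟩
  | insert a s has hmin ih =>
    obtain ⟨V, h1, h2, h3⟩ := ih
    have haV : a ∉ V := fun h => has (h1 h)
    by_cases h4 : ∑ z ∈ V, w z + w a ≤ c
    · refine ⟨insert a V, insert_subset_insert _ h1, ?_, ?_⟩
      · rw [sum_insert haV]
        linarith
      · intro r hr hrV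
        rw [mem_insert, not_or] at hrV
        have hrs : r ∈ s := by
          rcases mem_insert.1 hr with h | h
          · exact absurd h hrV.1
          · exact h
        have h5 : ∑ z ∈ V.filter (fun z => k r ≤ k z), w z ≤
            ∑ z ∈ (insert a V).filter (fun z => k r ≤ k z), w z :=
          sum_le_sum_of_subset_of_nonneg (filter_subset_filter _ (subset_insert _ _))
            fun z _ _ => hw z
        have := h3 r hrs hrV.2
        linarith
    · refine ⟨V, h1.trans (subset_insert _ _), h2, ?_⟩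
      intro r hr hrV
      rcases mem_insert.1 hr with h | h
      · rw [h]
        have h5 : V.filter (fun z => k a ≤ k z) = V := by
          rw [filter_eq_self]
          intro z hz
          exact hmin z (h1 hz)
        rw [h5]
        linarith
      · exact h3 r h hrV

variable {k w : ι → ℝ} {c : ℝ} {S V : Finset ι}

theorem Gr.low (h : Gr k w c S V) {r : ι} (hr : r ∈ S) (hrV : r ∉ V) :
    ∑ z ∈ V.filter (fun z => k z < k r), w z < ∑ z ∈ V, w z - c + w r := by
  have h1 := h.rej r hr hrV
  have h2 : ∑ z ∈ V, w z = ∑ z ∈ V.filter (fun z => k r ≤ k z), w z +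
      ∑ z ∈ V.filter (fun z => ¬ k r ≤ k z), w z := (sum_filter_add_sum_filter_not _ _ _).symm
  simp only [not_le] at h2
  linarith

theorem Gr.smallest (h : Gr k w c S V) :
    V = S ∨ ∃ r ∈ S, r ∉ V ∧ (∀ z ∈ S, k z < k r → z ∈ V) := by
  by_cases h1 : V = S
  · exact Or.inl h1
  right
  have h2 : (S \ V).Nonempty := by
    rw [sdiff_nonempty]
    intro h3
    exact h1 (subset_antisymm h.sub h3)
  obtain ⟨r, hr, hr1⟩ := exists_min_image (S \ V) k h2
  rw [mem_sdiff] at hr
  refine ⟨r, hr.1, hr.2, fun z hz hzr => ?_⟩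
  by_contra h4
  have := hr1 z (mem_sdiff.2 ⟨hz, h4⟩)
  linarith

/-- the sum of the accepted items -/
theorem Gr.sum (h : Gr k w c S V) (hw : ∀ z, 0 ≤ w z) {r : ι} (hr : r ∈ S) (hrV : r ∉ V)
    (T : Finset ι) (hT : ∀ z ∈ T, z ∈ V ∧ k z < k r) :
    c - w r + ∑ z ∈ T, w z < ∑ z ∈ V, w z := by
  have h1 := h.rej r hr hrV
  have h2 : ∑ z ∈ V, w z = ∑ z ∈ V.filter (fun z => k r ≤ k z), w z +
      ∑ z ∈ V.filter (fun z => ¬ k r ≤ k z), w z := (sum_filter_add_sum_filter_not _ _ _).symm
  have h3 : ∑ z ∈ T, w z ≤ ∑ z ∈ V.filter (fun z => ¬ k r ≤ k z), w z := by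
    refine sum_le_sum_of_subset_of_nonneg ?_ fun z _ _ => hw z
    intro z hz
    rw [mem_filter, not_le]
    exact hT z hz
  linarith

/-- filling up with small items. `X` are the sizes, the weights are `X` on `R` and `2 X` off `R` -/
theorem fill (X : ι → ℝ) (h0 : ∀ z, 0 ≤ X z) (V R AL : Finset ι) (c lo hi Y : ℝ) (hlh : lo ≤ hi)
    (hR : Gr X X c (univ \ V) R) (hAL : ∀ z ∈ AL, z ∉ V ∧ Y ≤ X z)
    (hhi : ∑ z ∈ AL, (if z ∈ R then X z else 2 * X z) ≤ hi)
    (hlo : lo ≤ ∑ z ∈ AL, (if z ∈ R then X z else 2 * X z) +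
      ∑ z ∈ (univ \ V).filter (fun z => X z < Y), (if z ∈ R then X z else 2 * X z))
    (F : ∀ r, r ∉ V → X r < Y →
      3 * X r - (hi - lo) ≤ 2 * ∑ z ∈ (univ \ V).filter (fun z => X z < X r), X z) :
    ∃ A ⊆ univ \ V, lo ≤ ∑ z ∈ A, (if z ∈ R then X z else 2 * X z) ∧
      ∑ z ∈ A, (if z ∈ R then X z else 2 * X z) ≤ hi := by
  set ω : ι → ℝ := fun z => if z ∈ R then X z else 2 * X z with hω
  have hω1 : ∀ z, X z ≤ ω z := by
    intro z
    have := h0 z
    simp only [hω]
    split_ifs <;> linarith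
  have hω0 : ∀ z, 0 ≤ ω z := fun z => (h0 z).trans (hω1 z)
  change ∑ z ∈ AL, ω z ≤ hi at hhi
  change lo ≤ ∑ z ∈ AL, ω z + ∑ z ∈ (univ \ V).filter (fun z => X z < Y), ω z at hlo
  set S := (univ \ V).filter (fun z => X z < Y) with hS
  obtain ⟨B, hB⟩ := greedy2 X ω hω0 (hi - ∑ z ∈ AL, ω z) (by linarith) S
  have hdis : Disjoint AL B := by
    rw [disjoint_left]
    intro z hz1 hz2
    have h1 := (hAL z hz1).2
    have h2 := (mem_filter.1 (hB.sub hz2)).2
    linarith
  refine ⟨AL ∪ B, ?_, ?_, ?_⟩
  · intro z hz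
    rcases mem_union.1 hz with h | h
    · exact mem_sdiff.2 ⟨mem_univ _, (hAL z h).1⟩
    · exact (mem_filter.1 (hB.sub h)).1
  · change lo ≤ ∑ z ∈ AL ∪ B, ω z
    rw [sum_union hdis]
    rcases hB.smallest with h1 | ⟨r, hrS, hrB, hr⟩
    · rw [h1]
      exact hlo
    · have hrS' := mem_filter.1 hrS
      have hrV : r ∉ V := (mem_sdiff.1 hrS'.1).2
      have h2 := hB.sum hω0 hrS hrB ((univ \ V).filter (fun z => X z < X r)) (by
        intro z hz
        rw [mem_filter] at hz
        refine ⟨hr z (mem_filter.2 ⟨hz.1, ?_⟩) hz.2, hz.2⟩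
        have := hrS'.2
        linarith [hz.2])
      have h3 := F r hrV hrS'.2
      have h4 : ∑ z ∈ (univ \ V).filter (fun z => X z < X r), X z ≤
          ∑ z ∈ (univ \ V).filter (fun z => X z < X r), ω z := sum_le_sum fun z _ => hω1 z
      have h8 := h0 r
      by_cases hrR : r ∈ R
      · have e1 : ω r = X r := by simp only [hω, if_pos hrR]
        linarith
      · have e1 : ω r = 2 * X r := by simp only [hω, if_neg hrR]
        have h4 := hR.low hrS'.1 hrR
        have h5 := hR.le
        -- the weights of the smaller items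
        have h6 : ∑ z ∈ (univ \ V).filter (fun z => X z < X r), ω z =
            2 * ∑ z ∈ (univ \ V).filter (fun z => X z < X r), X z -
              ∑ z ∈ R.filter (fun z => X z < X r), X z := by
          have h7 : ∑ z ∈ R.filter (fun z => X z < X r), X z =
              ∑ z ∈ (univ \ V).filter (fun z => X z < X r), (if z ∈ R then X z else 0) := by
            rw [← sum_filter]
            congr 1
            ext z
            simp only [mem_filter]
            constructor
            · rintro ⟨h8, h9⟩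
              exact ⟨⟨hR.sub h8, h9⟩, h8⟩
            · rintro ⟨⟨h8, h9⟩, h10⟩
              exact ⟨h10, h9⟩
          rw [h7, mul_sum, ← sum_sub_distrib]
          refine sum_congr rfl fun z _ => ?_
          simp only [hω]
          split_ifs <;> ring
        linarith
  · change ∑ z ∈ AL ∪ B, ω z ≤ hi
    rw [sum_union hdis]
    have := hB.le
    linarith

end

end Pool.Agent.K9h6.N
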