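import Pool.Agent.K9h6.N.CombA

/-!
# The grouping lemma (helper6), part 2: the data, the sets `V` and `R`
-/

set_option autoImplicit false
set_option linter.unusedSectionVars false

namespace Pool.Agent.K9h6.N

open Finset

section

variable {ι : Type} [Fintype ι] [DecidableEq ι]

/-- total size of the items of size less than `y` -/
noncomputable def Po (t : ι → ℝ) (y : ℝ) : ℝ := ∑ z ∈ univ.filter (fun z => t z < y), t z

/-- total size of the items of size at most `y` -/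
noncomputable def Pc (t : ι → ℝ) (y : ℝ) : ℝ := ∑ z ∈ univ.filter (fun z => t z ≤ y), t z

/-- The data of the grouping lemma. -/
structure Dat3 (t X : ι → ℝ) (cl : ι → Bool) (n τm γ xb yA yS yL κ : ℝ) : Prop where
  h0 : ∀ z, 0 ≤ X z
  h1 : ∀ z, X z ≤ t z
  h2 : ∀ z, t z ≤ κ
  hT : ∑ z, t z ≤ 2 + τm
  hX : 2 - 0.000001 ≤ ∑ z, X z
  hL : ∀ z w, z ≠ w → cl z = cl w → yL < t z → yL < t w → False
  hM : ∀ z w, z ≠ w → cl z = cl w → 0.3 < t z → 0.3 < t w → t z + t w ≤ 0.93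
  g0 : 0 ≤ γ
  g1 : γ ≤ 0.01
  t0 : 0.055 ≤ τm
  t1 : τm ≤ 0.0715
  k1 : κ ≤ 0.72
  a0 : 0.17 ≤ yA
  a1 : yA ≤ 0.2
  a2 : 12 * τm + 11 * γ + 0.0001 ≤ 0.5 + 2 * yA
  a3 : 12 * τm + 10 * γ + 0.0001 ≤ 0.88
  w0 : 14 * τm + 8 * γ + 0.0001 ≤ 1
  s0 : 0.21 ≤ yS
  s1 : yS ≤ 0.25
  l0 : 0.4 ≤ yL
  l1 : yL ≤ 0.45
  c0 : 1.5 * τm + γ / 2 + 0.0001 ≤ Pc t xb
  c1 : ∀ y, γ < y → y ≤ xb → 2 * y - γ + 0.0001 ≤ Po t y
  c2 : ∀ y, xb < y → y ≤ yL → y + τm + γ / 2 + 0.0001 ≤ Po t y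
  c3 : ∀ y, y ≤ xb → 2.5 * y - (1 - 14 * τm - 8 * γ) + 0.0001 ≤ Po t y
  c4 : ∀ y, xb < y → y ≤ yA → 1.5 * y - (1 - 14 * τm - 8 * γ) + τm + 1.5 * γ + 0.0001 ≤ Po t y
  c5 : 17 * τm + 9 * γ - 1 + 0.0001 ≤ Po t yA
  c6 : ∀ y, y ≤ yS → 1.5 * y - (1 - 14 * τm - 7 * γ) / 2 + 0.0001 ≤ Po t y
  c7 : 0.125 + 3 * τm + γ + 0.0001 ≤ Po t yS
  c8 : 11 * τm + 6 * γ + 0.0001 ≤ 0.25 + yS + Po t yS

variable {t X : ι → ℝ} {cl : ι → Bool} {n τm γ xb yA yS yL κ : ℝ}

theorem Dat3.le (D : Dat3 t X cl n τm γ xb yA yS yL κ) : ∑ z, X z ≤ 2 + τm :=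
  (sum_le_sum fun z _ => D.h1 z).trans D.hT

theorem Dat3.loss (D : Dat3 t X cl n τm γ xb yA yS yL κ) (F : Finset ι) :
    ∑ z ∈ F, t z - (2 + τm - ∑ z, X z) ≤ ∑ z ∈ F, X z := by
  have h1 : ∑ z ∈ F, (t z - X z) ≤ ∑ z, (t z - X z) := by
    refine sum_le_sum_of_subset_of_nonneg (subset_univ _) fun z _ _ => ?_
    have := D.h1 z
    linarith
  rw [sum_sub_distrib, sum_sub_distrib] at h1
  have := D.hT
  linarith

theorem Dat3.PX (D : Dat3 t X cl n τm γ xb yA yS yL κ) (y : ℝ) :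
    Po t y - (2 + τm - ∑ z, X z) ≤ ∑ z ∈ univ.filter (fun z => X z < y), X z := by
  refine (D.loss _).trans ?_
  refine sum_le_sum_of_subset_of_nonneg ?_ fun z _ _ => D.h0 z
  intro z hz
  rw [mem_filter] at hz ⊢
  exact ⟨hz.1, (D.h1 z).trans_lt hz.2⟩

theorem Dat3.PXc (D : Dat3 t X cl n τm γ xb yA yS yL κ) (y : ℝ) :
    Pc t y - (2 + τm - ∑ z, X z) ≤ ∑ z ∈ univ.filter (fun z => X z ≤ y), X z := by
  refine (D.loss _).trans ?_
  refine sum_le_sum_of_subset_of_nonneg ?_ fun z _ _ => D.h0 z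
  intro z hz
  rw [mem_filter] at hz ⊢
  exact ⟨hz.1, (D.h1 z).trans hz.2⟩

theorem split_filter (X : ι → ℝ) (V : Finset ι) (y : ℝ) :
    ∑ z ∈ univ.filter (fun z => X z < y), X z =
      ∑ z ∈ (univ \ V).filter (fun z => X z < y), X z + ∑ z ∈ V.filter (fun z => X z < y), X z := by
  rw [← sum_union]
  · congr 1
    ext z
    simp only [mem_filter, mem_union, mem_sdiff, mem_univ, true_and]
    constructor
    · intro h
      by_cases hz : z ∈ V
      · exact Or.inr ⟨hz, h⟩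
      · exact Or.inl ⟨hz, h⟩
    · rintro (h | h)
      · exact h.2
      · exact h.2
  · rw [disjoint_left]
    intro z hz1 hz2
    exact (mem_sdiff.1 (mem_filter.1 hz1).1).2 (mem_filter.1 hz2).1

/-- the small items outside of `V`, below a rejected item -/
theorem Dat3.ps1 (D : Dat3 t X cl n τm γ xb yA yS yL κ) {c : ℝ} {V : Finset ι}
    (hV : Gr X X c (univ.filter (fun z => X z ≤ xb)) V) {r : ι} (hr : r ∉ V) (h : X r ≤ xb) :
    Po t (X r) - (2 + τm - ∑ z, X z) - X r ≤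
      ∑ z ∈ (univ \ V).filter (fun z => X z < X r), X z := by
  have h1 := D.PX (X r)
  rw [split_filter X V] at h1
  have h2 := hV.low (mem_filter.2 ⟨mem_univ _, h⟩) hr
  have h3 := hV.le
  linarith

/-- the small items outside of `V` -/
theorem Dat3.ps2 (D : Dat3 t X cl n τm γ xb yA yS yL κ) (V : Finset ι) (y : ℝ) :
    Po t y - (2 + τm - ∑ z, X z) - ∑ z ∈ V, X z ≤
      ∑ z ∈ (univ \ V).filter (fun z => X z < y), X z := by
  have h1 := D.PX y
  rw [split_filter X V] at h1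
  have h2 : ∑ z ∈ V.filter (fun z => X z < y), X z ≤ ∑ z ∈ V, X z :=
    sum_le_sum_of_subset_of_nonneg (filter_subset _ _) fun z _ _ => D.h0 z
  linarith

/-- The set `V`. -/
theorem Dat3.stepV (D : Dat3 t X cl n τm γ xb yA yS yL κ) : ∃ V : Finset ι,
    Gr X X (τm + 1.5 * γ + 0.00001) (univ.filter (fun z => X z ≤ xb)) V ∧
      τm + γ / 2 - (2 + τm - ∑ z, X z) / 2 + 0.00001 ≤ ∑ z ∈ V, X z := by
  have hle := D.le
  have hX := D.hX
  have t0 := D.t0
  have g0 := D.g0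
  obtain ⟨V, hV⟩ := greedy2 X X D.h0 (τm + 1.5 * γ + 0.00001) (by linarith)
    (univ.filter (fun z => X z ≤ xb))
  refine ⟨V, hV, ?_⟩
  rcases hV.smallest with h1 | ⟨r, hrS, hrV, hr⟩
  · have h2 := D.PXc xb
    rw [← h1] at h2
    have := D.c0
    linarith
  · have hrx : X r ≤ xb := (mem_filter.1 hrS).2
    have h2 := hV.sum D.h0 hrS hrV (univ.filter (fun z => X z < X r)) (by
      intro z hz
      rw [mem_filter] at hz
      exact ⟨hr z (mem_filter.2 ⟨mem_univ _, by linarith [hz.2]⟩) hz.2, hz.2⟩)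
    have h3 : 0 ≤ ∑ z ∈ univ.filter (fun z => X z < X r), X z := sum_nonneg fun z _ => D.h0 z
    have h4 := D.PX (X r)
    rcases le_or_gt (X r) γ with h5 | h5
    · linarith
    · have h6 := D.c1 _ h5 hrx
      linarith

/-- at most one very large item in each cell -/
theorem Dat3.three (D : Dat3 t X cl n τm γ xb yA yS yL κ) {r a b : ι} (hra : r ≠ a) (hrb : r ≠ b)
    (hab : a ≠ b) (hr : yL < X r) (ha : yL < X a) (hb : yL < X b) : False := by
  have hr' := hr.trans_le (D.h1 r)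
  have ha' := ha.trans_le (D.h1 a)
  have hb' := hb.trans_le (D.h1 b)
  by_cases h5 : cl r = cl a
  · exact D.hL r a hra h5 hr' ha'
  · by_cases h6 : cl r = cl b
    · exact D.hL r b hrb h6 hr' hb'
    · have h7 : cl a = cl b := by
        revert h5 h6
        cases cl r <;> cases cl a <;> cases cl b <;> simp
      exact D.hL a b hab h7 ha' hb'

theorem Dat3.card_le_one (D : Dat3 t X cl n τm γ xb yA yS yL κ) {r : ι} (hr : yL < X r)
    (F : Finset ι) (hF : ∀ z ∈ F, z ≠ r ∧ yL < X z) : F.card ≤ 1 := by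
  by_contra hcon
  push Not at hcon
  obtain ⟨a, ha, b, hb, hab⟩ := one_lt_card.1 hcon
  exact D.three (hF a ha).1.symm (hF b hb).1.symm hab hr (hF a ha).2 (hF b hb).2

theorem Dat3.sum_le_of_card (D : Dat3 t X cl n τm γ xb yA yS yL κ) (F : Finset ι)
    (hF : F.card ≤ 1) : ∑ z ∈ F, X z ≤ 0.72 := by
  have h6 : ∑ z ∈ F, X z ≤ ∑ _z ∈ F, (0.72 : ℝ) :=
    sum_le_sum fun z _ => ((D.h1 z).trans (D.h2 z)).trans D.k1
  rw [sum_const, nsmul_eq_mul] at h6
  have h7 : (F.card : ℝ) ≤ 1 := by exact_mod_cast hF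
  linarith

/-- The set `R`, first part. -/
theorem Dat3.stepR (D : Dat3 t X cl n τm γ xb yA yS yL κ) (hn : 1.5 - 0.000001 ≤ n) {V : Finset ι}
    (hV : Gr X X (τm + 1.5 * γ + 0.00001) (univ.filter (fun z => X z ≤ xb)) V) :
    ∃ R, Gr X X (n - 0.00001) (univ \ V) R ∧
      (R = univ \ V ∨ n - γ - (2 + τm - ∑ z, X z) - 0.00001 ≤ ∑ z ∈ R, X z) := by
  have hle := D.le
  obtain ⟨R, hR⟩ := greedy2 X X D.h0 (n - 0.00001) (by linarith) (univ \ V)
  refine ⟨R, hR, ?_⟩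
  rcases hR.smallest with h1 | ⟨r, hrS, hrR, hr⟩
  · exact Or.inl h1
  right
  have hrV : r ∉ V := (mem_sdiff.1 hrS).2
  have h2 := hR.sum D.h0 hrS hrR ((univ \ V).filter (fun z => X z < X r)) (by
    intro z hz
    rw [mem_filter] at hz
    exact ⟨hr z hz.1 hz.2, hz.2⟩)
  have h3 : 0 ≤ ∑ z ∈ (univ \ V).filter (fun z => X z < X r), X z := sum_nonneg fun z _ => D.h0 z
  have h7 := hV.le
  rcases le_or_gt (X r) γ with h5 | h5
  · linarith
  rcases le_or_gt (X r) xb with h6 | h6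
  · have := D.c1 _ h5 h6
    have := D.ps1 hV hrV h6
    linarith
  rcases le_or_gt (X r) yL with h8 | h8
  · have := D.c2 _ h6 h8
    have := D.ps2 V (X r)
    linarith
  exfalso
  have h9 := D.card_le_one h8 (R.filter (fun z => X r ≤ X z)) (by
    intro z hz
    rw [mem_filter] at hz
    exact ⟨fun h => hrR (h ▸ hz.1), h8.trans_le hz.2⟩)
  have h10 := D.sum_le_of_card _ h9
  have h11 := hR.rej r hrS hrR
  have h12 : X r ≤ 0.72 := ((D.h1 r).trans (D.h2 r)).trans D.k1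
  linarith

/-- the weights of the small items -/
theorem weights (X : ι → ℝ) (V R : Finset ι) (hR : R ⊆ univ \ V) (Y : ℝ) :
    ∑ z ∈ (univ \ V).filter (fun z => X z < Y), (if z ∈ R then X z else 2 * X z) =
      2 * ∑ z ∈ (univ \ V).filter (fun z => X z < Y), X z -
        ∑ z ∈ R.filter (fun z => X z < Y), X z := by
  have h7 : ∑ z ∈ R.filter (fun z => X z < Y), X z =
      ∑ z ∈ (univ \ V).filter (fun z => X z < Y), (if z ∈ R then X z else 0) := by
    rw [← sum_filter]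
    congr 1
    ext z
    simp only [mem_filter]
    constructor
    · rintro ⟨h8, h9⟩
      exact ⟨⟨hR h8, h9⟩, h8⟩
    · rintro ⟨⟨h8, h9⟩, h10⟩
      exact ⟨h10, h9⟩
  rw [h7, mul_sum, ← sum_sub_distrib]
  refine sum_congr rfl fun z _ => ?_
  split_ifs <;> ring

/-- the total of everything: `V`, `R`, the small items and the large items outside of `R` -/
theorem total (X : ι → ℝ) (V R : Finset ι) (hR : R ⊆ univ \ V) (Y : ℝ) :
    ∑ z, X z = ∑ z ∈ V, X z + ∑ z ∈ R, X z +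
      (∑ z ∈ (univ \ V).filter (fun z => X z < Y), X z - ∑ z ∈ R.filter (fun z => X z < Y), X z) +
      ∑ z ∈ ((univ \ V) \ R).filter (fun z => Y ≤ X z), X z := by
  have h1 := sum_sdiff (f := X) (subset_univ V)
  have h2 := sum_sdiff (f := X) hR
  have h3 := sum_filter_add_sum_filter_not ((univ \ V) \ R) (fun z => Y ≤ X z) X
  have h4 : ∑ z ∈ (univ \ V).filter (fun z => X z < Y), X z =
      ∑ z ∈ ((univ \ V) \ R).filter (fun z => ¬ Y ≤ X z), X z +
        ∑ z ∈ R.filter (fun z => X z < Y), X z := by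
    rw [← sum_union]
    · congr 1
      ext z
      simp only [mem_filter, mem_union, mem_sdiff, mem_univ, true_and, not_le]
      constructor
      · rintro ⟨h, h'⟩
        by_cases hz : z ∈ R
        · exact Or.inr ⟨hz, h'⟩
        · exact Or.inl ⟨⟨h, hz⟩, h'⟩
      · rintro (h | h)
        · exact ⟨h.1.1, h.2⟩
        · exact ⟨(mem_sdiff.1 (hR h.1)).2, h.2⟩
    · rw [disjoint_left]
      intro z hz1 hz2
      exact (mem_sdiff.1 (mem_filter.1 hz1).1).2 (mem_filter.1 hz2).1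
  linarith

end

end Pool.Agent.K9h6.N
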